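import Mathlib
import Pool.Agent.Q103.SD.Main

/-!
# All relations between numbers `c t^m ∏ F_i(t)^e_i` come from identities

The numbers `F_i(t)` are values of polynomials with small coefficients whose constant terms are
units of size at most `1`; the exponents `m` of `t` are arbitrary and there is no condition on
vanishing partial sums.
-/

set_option autoImplicit false

namespace Pool.Agent.Q29.SE

open Polynomial Finset Pool.Agent.Q103.SD

theorem JJ_mono {D n n' : ℕ} (h : n ≤ n') : JJ D n ≤ JJ D n' := by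
  unfold JJ
  exact Nat.mul_le_mul (by omega) (Nat.succ_le_succ (gg_mono D h 0))

theorem gg_le_JJ (D n : ℕ) : gg D n 0 + 1 ≤ JJ D n := by
  unfold JJ
  nlinarith [Nat.zero_le (gg D n 0), Nat.zero_le n]

section

variable {A : Type*} [CommRing A] [IsDomain A] [CharZero A] {κ ι : Type*} [Fintype κ]
  {s : A → ℝ}

/-- the polynomial `α X^m ∏ F_i^e_i` -/
noncomputable def MP (F : κ → A[X]) (α : A) (m : ℕ) (e : κ → ℕ) : A[X] := X ^ m * PP F α e

/-- the polynomials `X, F_i` -/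
noncomputable def FX (F : κ → A[X]) : Option κ → A[X]
  | none => X
  | some i => F i

/-- the exponents of `X, F_i` -/
def eX (m : ℕ) (e : κ → ℕ) : Option κ → ℕ
  | none => m
  | some i => e i

theorem MP_eq (F : κ → A[X]) (α : A) (m : ℕ) (e : κ → ℕ) :
    MP F α m e = PP (FX F) α (eX m e) := by
  unfold MP PP
  rw [Fintype.prod_option]
  simp only [FX, eX]
  ring

theorem eval_MP (F : κ → A[X]) (α : A) (m : ℕ) (e : κ → ℕ) (t : A) :
    (MP F α m e).eval t = t ^ m * (α * ∏ i, (F i).eval t ^ e i) := by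
  unfold MP
  rw [eval_mul, eval_PP, eval_pow, eval_X]

theorem PP_coeff_zero (F : κ → A[X]) (α : A) (e : κ → ℕ) :
    (PP F α e).coeff 0 = α * ∏ i, (F i).coeff 0 ^ e i := by
  simp only [coeff_zero_eq_eval_zero, eval_PP]

theorem FX_deg {F : κ → A[X]} {D : ℕ} (hD : ∑ i, (F i).natDegree ≤ D) :
    ∑ i, (FX F i).natDegree ≤ D + 1 := by
  rw [Fintype.sum_option]
  simp only [FX, natDegree_X]
  omega

theorem FX_ne {F : κ → A[X]} (hF : ∀ i, F i ≠ 0) (i : Option κ) : FX F i ≠ 0 := by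
  cases i with
  | none => exact X_ne_zero
  | some i => exact hF i

/-- exactness with arbitrary powers of `X` -/
theorem exact_MP [DecidableEq κ] [DecidableEq ι] {F : κ → A[X]} (hFu : ∀ i, (F i).coeff 0 ≠ 0)
    {α : ι → A} (hα : ∀ k, α k ≠ 0) (m : ι → ℕ) (e : ι → κ → ℕ) {D : ℕ}
    (hD : ∑ i, (F i).natDegree ≤ D) (S : Finset ι)
    (J : ℕ) (hJ : ∀ k ∈ S, m k + gg (D + 1) S.card 0 ≤ J)
    (h : X ^ J ∣ ∑ k ∈ S, MP F (α k) (m k) (e k)) : ∑ k ∈ S, MP F (α k) (m k) (e k) = 0 := by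
  have hF : ∀ i, F i ≠ 0 := fun i h0 => hFu i (by rw [h0, coeff_zero])
  have h1 : ∀ k, (PP (FX F) (α k) (eX (m k) (e k))).natTrailingDegree = m k := by
    intro k
    rw [← MP_eq]
    apply le_antisymm
    · apply natTrailingDegree_le_of_ne_zero
      unfold MP
      have := coeff_X_pow_mul (PP F (α k) (e k)) (m k) 0
      rw [zero_add] at this
      rw [this, PP_coeff_zero]
      exact mul_ne_zero (hα k) (Finset.prod_ne_zero_iff.mpr fun i _ => pow_ne_zero _ (hFu i))
    · apply le_natTrailingDegree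
      · rw [MP_eq]
        exact PP_ne_zero (FX_ne hF) (hα k) _
      · intro d hd
        unfold MP
        rw [coeff_X_pow_mul', if_neg (by omega)]
  simp only [MP_eq] at h ⊢
  exact exact_PP (FX_ne hF) hα _ (FX_deg hD) S J (fun k hk => by rw [h1]; exact hJ k hk) h

/-- sizes of the coefficients -/
theorem coeff_MP (hs : SizeFn s) {F : κ → A[X]} {H B : ℝ} (hH : 1 ≤ H)
    (hF0 : ∀ i, s ((F i).coeff 0) ≤ 1) (hFH : ∀ i j, s ((F i).coeff j) ≤ H) {α : A}
    (hα : s α ≤ B) (m : ℕ) (e : κ → ℕ) {N : ℕ} (hN : 1 ≤ N) (heN : ∑ i, e i ≤ N) (j q : ℕ)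
    (hjq : j ≤ m + q) : s ((MP F α m e).coeff j) ≤ B * (N * H) ^ q := by
  have hgeo : ∀ i, Geo s (F i) H := by
    intro i j
    rcases Nat.eq_zero_or_pos j with rfl | hj
    · rw [pow_zero]; exact hF0 i
    · exact (hFH i j).trans (le_self_pow₀ hH (by omega))
  have hN1 : (1 : ℝ) ≤ N := by exact_mod_cast hN
  have hNH : 1 ≤ (N : ℝ) * H := by nlinarith
  have hB : 0 ≤ B := (hs.nonneg _).trans hα
  unfold MP
  rw [coeff_X_pow_mul']
  split_ifs with h
  · refine (coeff_PP hs F α e (by linarith) hgeo _).trans ?_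
    apply mul_le_mul hα _ (by positivity) hB
    refine (pow_le_pow_left₀ (by positivity) ?_ _).trans (pow_le_pow_right₀ hNH (by omega))
    apply mul_le_mul_of_nonneg_right _ (by linarith)
    exact_mod_cast heN
  · rw [hs.zero]
    positivity

/-- the core: no vanishing partial sum -/
theorem core (hs : SizeFn s) {t : A} (ht0 : t ≠ 0) {T : ℝ}
    (hT : ∀ x, t ∣ x → s x < T → x = 0) {F : κ → A[X]} {D : ℕ}
    (hD : ∑ i, (F i).natDegree ≤ D) {H : ℝ} (hH : 1 ≤ H) (hFu : ∀ i, IsUnit ((F i).coeff 0))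
    (hF0 : ∀ i, s ((F i).coeff 0) ≤ 1) (hFH : ∀ i j, s ((F i).coeff j) ≤ H) {α : ι → A} {B : ℝ}
    (hα : ∀ k, α k ≠ 0) (hαB : ∀ k, s (α k) ≤ B) (m : ι → ℕ) (e : ι → κ → ℕ) {N : ℕ} (hN : 1 ≤ N)
    (heN : ∀ k, ∑ i, e k i ≤ N) (S : Finset ι) {c : ℕ} (hc : S.card ≤ c)
    (hsize : (c : ℝ) * B * (N * H) ^ (JJ (D + 1) c) < T)
    (hsum : ∑ k ∈ S, (MP F (α k) (m k) (e k)).eval t = 0) (k0 : ι) (hk0 : k0 ∈ S)
    (hm0 : m k0 = 0)
    (hno : ∀ S' ⊆ S, S'.Nonempty → S' ≠ S → ∑ k ∈ S', (MP F (α k) (m k) (e k)).eval t ≠ 0) :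
    ∑ k ∈ S, MP F (α k) (m k) (e k) = 0 := by
  classical
  have hB : 0 ≤ B := (hs.nonneg _).trans (hαB k0)
  have hN1 : (1 : ℝ) ≤ N := by exact_mod_cast hN
  have hNH : 1 ≤ (N : ℝ) * H := by nlinarith
  have hFu0 : ∀ i, (F i).coeff 0 ≠ 0 := fun i => (hFu i).ne_zero
  obtain ⟨P, hP⟩ : ∃ P, P = ∑ k ∈ S, MP F (α k) (m k) (e k) := ⟨_, rfl⟩
  have hdvd : X ^ (JJ (D + 1) c) ∣ P := by
    refine X_pow_dvd_of_eval ht0 hT _ (fun j hj => lt_of_le_of_lt ?_ hsize) ?_
    · rw [hP, finset_sum_coeff]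
      refine (hs.sum _ _).trans ?_
      refine (Finset.sum_le_sum fun k _ => coeff_MP hs hH hF0 hFH (hαB k) (m k) (e k) hN (heN k)
        j (JJ (D + 1) c) (by omega)).trans ?_
      rw [Finset.sum_const, nsmul_eq_mul, mul_assoc]
      apply mul_le_mul_of_nonneg_right _ (by positivity)
      exact_mod_cast hc
    · rw [hP, eval_finset_sum, hsum]
  obtain ⟨G, hG⟩ : ∃ G, G = gg (D + 1) c 0 + 1 := ⟨_, rfl⟩
  have hG0 : 0 < G := by omega
  obtain ⟨r, hr, hgap⟩ := exists_gap (fun k : S => m k) hG0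
  rw [Fintype.card_coe] at hr
  obtain ⟨L, hL⟩ : ∃ L : Finset ι, L = S.filter (fun k => m k ≤ r * G) := ⟨_, rfl⟩
  have hLS : L ⊆ S := by rw [hL]; exact Finset.filter_subset _ _
  have hcardL : L.card ≤ c := (Finset.card_le_card hLS).trans hc
  have hzero : ∑ k ∈ L, MP F (α k) (m k) (e k) = 0 := by
    refine exact_MP hFu0 hα m e hD L ((r + 1) * G) ?_ ?_
    · intro k hk
      rw [hL, Finset.mem_filter] at hk
      have h1 := gg_mono (D + 1) hcardL 0
      rw [add_mul, one_mul]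
      omega
    · have h1 : ∑ k ∈ L, MP F (α k) (m k) (e k) = P - ∑ k ∈ S \ L, MP F (α k) (m k) (e k) := by
        rw [hP, ← Finset.sum_sdiff hLS]
        ring
      rw [h1]
      refine dvd_sub ((pow_dvd_pow X ?_).trans hdvd) (Finset.dvd_sum fun k hk => ?_)
      · unfold JJ
        rw [← hG]
        exact Nat.mul_le_mul_right _ (by omega)
      · rw [Finset.mem_sdiff, hL, Finset.mem_filter, not_and] at hk
        have h2 := hk.2 hk.1
        rcases hgap ⟨k, hk.1⟩ with h3 | h3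
        · exact absurd h3 h2
        · unfold MP
          exact Dvd.dvd.mul_right (pow_dvd_pow X h3.le) _
  have hk0L : k0 ∈ L := by
    rw [hL, Finset.mem_filter]
    exact ⟨hk0, by rw [hm0]; exact Nat.zero_le _⟩
  have hLu : L = S := by
    by_contra hne
    apply hno L hLS ⟨k0, hk0L⟩ hne
    rw [← eval_finset_sum, hzero, eval_zero]
  rw [hLu] at hzero
  exact hzero

/-- **All relations are identities.** -/
theorem all (hs : SizeFn s) {t : A} (ht0 : t ≠ 0) {T : ℝ}
    (hT : ∀ x, t ∣ x → s x < T → x = 0) {F : κ → A[X]} {D : ℕ}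
    (hD : ∑ i, (F i).natDegree ≤ D) {H : ℝ} (hH : 1 ≤ H) (hFu : ∀ i, IsUnit ((F i).coeff 0))
    (hF0 : ∀ i, s ((F i).coeff 0) ≤ 1) (hFH : ∀ i j, s ((F i).coeff j) ≤ H) {α : ι → A} {B : ℝ}
    (hα : ∀ k, α k ≠ 0) (hαB : ∀ k, s (α k) ≤ B) (m : ι → ℕ) (e : ι → κ → ℕ) {N : ℕ} (hN : 1 ≤ N)
    (heN : ∀ k, ∑ i, e k i ≤ N) {c : ℕ}
    (hsize : (c : ℝ) * B * (N * H) ^ (JJ (D + 1) c) < T) :
    ∀ (n : ℕ) (S : Finset ι), S.card ≤ n → S.card ≤ c →
      ∑ k ∈ S, (MP F (α k) (m k) (e k)).eval t = 0 →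
      ∑ k ∈ S, MP F (α k) (m k) (e k) = 0 := by
  classical
  intro n
  induction n with
  | zero =>
    intro S hS _ _
    rw [Nat.le_zero, Finset.card_eq_zero] at hS
    rw [hS, Finset.sum_empty]
  | succ n ih =>
    intro S hS hc hsum
    rcases S.eq_empty_or_nonempty with rfl | hne
    · simp
    by_cases hno : ∀ S' ⊆ S, S'.Nonempty → S' ≠ S →
        ∑ k ∈ S', (MP F (α k) (m k) (e k)).eval t ≠ 0
    · -- minimal relation
      obtain ⟨k0, hk0, hmin⟩ := Finset.exists_min_image S m hne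
      have hsplit : ∀ k ∈ S, MP F (α k) (m k) (e k) =
          X ^ (m k0) * MP F (α k) (m k - m k0) (e k) := by
        intro k hk
        unfold MP
        rw [← mul_assoc, ← pow_add]
        congr 2
        have := hmin k hk
        omega
      have hev : ∀ S' ⊆ S, ∑ k ∈ S', (MP F (α k) (m k) (e k)).eval t =
          t ^ (m k0) * ∑ k ∈ S', (MP F (α k) (m k - m k0) (e k)).eval t := by
        intro S' hS'
        rw [Finset.mul_sum]
        refine Finset.sum_congr rfl fun k hk => ?_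
        rw [hsplit k (hS' hk), eval_mul, eval_pow, eval_X]
      have h1 : ∑ k ∈ S, MP F (α k) (m k - m k0) (e k) = 0 := by
        refine core hs ht0 hT hD hH hFu hF0 hFH hα hαB (fun k => m k - m k0) e hN heN S hc hsize
          ?_ k0 hk0 (Nat.sub_self _) ?_
        · have := hev S (Finset.Subset.refl _)
          rw [hsum] at this
          exact (mul_eq_zero.mp this.symm).resolve_left (pow_ne_zero _ ht0)
        · intro S' hS' hne' hne2 h0
          apply hno S' hS' hne' hne2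
          rw [hev S' hS', h0, mul_zero]
      rw [Finset.sum_congr rfl hsplit, ← Finset.mul_sum, h1, mul_zero]
    · push Not at hno
      obtain ⟨S', hS', hne', hne2, h0⟩ := hno
      have hcard : S'.card < S.card := Finset.card_lt_card (Finset.ssubset_iff_subset_ne.mpr
        ⟨hS', hne2⟩)
      have hcard2 : (S \ S').card < S.card := by
        rw [Finset.card_sdiff_of_subset hS']
        have := hne'.card_pos
        omega
      have h2 := ih S' (by omega) (by omega) h0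
      have h3 := ih (S \ S') (by omega) (by omega) (by
        rw [← Finset.sum_sdiff hS', h0, add_zero] at hsum
        exact hsum)
      rw [← Finset.sum_sdiff hS', h2, h3, add_zero]

end

end Pool.Agent.Q29.SE
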