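import Mathlib
import Pool.Agent.Q29.SE.Exact

/-!
# Substituting sums of power products in a polynomial
-/

set_option autoImplicit false

namespace Pool.Agent.Q29.SE

open Finset Pool.Agent.Q103.SD

section nrm

variable {A : Type*} [CommRing A] (s : A → ℝ)

/-- sum of the sizes of the coefficients -/
noncomputable def nrm {τ : Type*} (G : MvPolynomial τ A) : ℝ :=
  ∑ α ∈ G.support, s (MvPolynomial.coeff α G)

variable {s}

theorem nrm_nonneg (hs : SizeFn s) {τ : Type*} (G : MvPolynomial τ A) : 0 ≤ nrm s G :=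
  Finset.sum_nonneg fun _ _ => hs.nonneg _

theorem nrm_eq (hs : SizeFn s) {τ : Type*} (G : MvPolynomial τ A) (S : Finset (τ →₀ ℕ))
    (hS : G.support ⊆ S) : nrm s G = ∑ α ∈ S, s (MvPolynomial.coeff α G) := by
  unfold nrm
  apply Finset.sum_subset hS
  intro α _ h
  rw [MvPolynomial.notMem_support_iff.1 h, hs.zero]

theorem nrm_zero {τ : Type*} : nrm s (0 : MvPolynomial τ A) = 0 := by
  unfold nrm
  simp

theorem nrm_add (hs : SizeFn s) {τ : Type*} (G H : MvPolynomial τ A) :
    nrm s (G + H) ≤ nrm s G + nrm s H := by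
  classical
  rw [nrm_eq hs (G + H) (G.support ∪ H.support) MvPolynomial.support_add,
    nrm_eq hs G (G.support ∪ H.support) Finset.subset_union_left,
    nrm_eq hs H (G.support ∪ H.support) Finset.subset_union_right, ← Finset.sum_add_distrib]
  refine Finset.sum_le_sum fun α _ => ?_
  rw [MvPolynomial.coeff_add]
  exact hs.add _ _

theorem nrm_sum (hs : SizeFn s) {τ ι : Type*} (S : Finset ι) (f : ι → MvPolynomial τ A) :
    nrm s (∑ i ∈ S, f i) ≤ ∑ i ∈ S, nrm s (f i) := by
  classical
  induction S using Finset.induction_on with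
  | empty => simp [nrm_zero]
  | insert a S ha ih =>
    rw [Finset.sum_insert ha, Finset.sum_insert ha]
    exact (nrm_add hs _ _).trans (by linarith)

theorem nrm_monomial (hs : SizeFn s) {τ : Type*} (α : τ →₀ ℕ) (c : A) :
    nrm s (MvPolynomial.monomial α c) ≤ s c := by
  classical
  rw [nrm_eq hs (MvPolynomial.monomial α c) {α} MvPolynomial.support_monomial_subset]
  simp

theorem nrm_mul (hs : SizeFn s) {τ : Type*} (G H : MvPolynomial τ A) :
    nrm s (G * H) ≤ nrm s G * nrm s H := by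
  classical
  have h1 : G * H = ∑ α ∈ G.support, ∑ β ∈ H.support,
      MvPolynomial.monomial (α + β) (MvPolynomial.coeff α G * MvPolynomial.coeff β H) := by
    conv_lhs => rw [G.as_sum, H.as_sum]
    rw [Finset.sum_mul_sum]
    refine Finset.sum_congr rfl fun α _ => Finset.sum_congr rfl fun β _ => ?_
    rw [MvPolynomial.monomial_mul]
  rw [h1]
  refine (nrm_sum hs _ _).trans ?_
  unfold nrm
  rw [Finset.sum_mul_sum]
  refine Finset.sum_le_sum fun α _ => ?_
  refine (nrm_sum hs _ _).trans (Finset.sum_le_sum fun β _ => ?_)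
  exact (nrm_monomial hs _ _).trans (hs.mul _ _)

theorem nrm_one (hs : SizeFn s) {τ : Type*} : nrm s (1 : MvPolynomial τ A) ≤ 1 := by
  have := nrm_monomial hs (τ := τ) 0 (1 : A)
  exact this.trans hs.one

theorem nrm_C (hs : SizeFn s) {τ : Type*} (c : A) :
    nrm s (MvPolynomial.C c : MvPolynomial τ A) ≤ s c :=
  nrm_monomial hs 0 c

theorem nrm_X (hs : SizeFn s) {τ : Type*} (j : τ) :
    nrm s (MvPolynomial.X j : MvPolynomial τ A) ≤ 1 :=
  (nrm_monomial hs (Finsupp.single j 1) (1 : A)).trans hs.one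

theorem nrm_pow (hs : SizeFn s) {τ : Type*} (G : MvPolynomial τ A) (N : ℝ) (hG : nrm s G ≤ N)
    (e : ℕ) : nrm s (G ^ e) ≤ N ^ e := by
  have hN : 0 ≤ N := (nrm_nonneg hs G).trans hG
  induction e with
  | zero => simpa using nrm_one hs
  | succ e ih =>
    rw [pow_succ, pow_succ]
    exact (nrm_mul hs _ _).trans (mul_le_mul ih hG (nrm_nonneg hs _) (pow_nonneg hN _))

theorem nrm_prod (hs : SizeFn s) {τ ι : Type*} (S : Finset ι) (f : ι → MvPolynomial τ A)
    (N : ι → ℝ) (hf : ∀ i ∈ S, nrm s (f i) ≤ N i) : nrm s (∏ i ∈ S, f i) ≤ ∏ i ∈ S, N i := by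
  classical
  induction S using Finset.induction_on with
  | empty => simpa using nrm_one hs
  | insert a S ha ih =>
    rw [Finset.prod_insert ha, Finset.prod_insert ha]
    have h1 := hf a (Finset.mem_insert_self _ _)
    have h2 := ih fun i hi => hf i (Finset.mem_insert_of_mem hi)
    exact (nrm_mul hs _ _).trans (mul_le_mul h1 h2 (nrm_nonneg hs _) ((nrm_nonneg hs _).trans h1))

end nrm

section subst

variable {A : Type*} [CommRing A] {s : A → ℝ} {σ : Type*} {r : ℕ}

/-- the generic combination of the digit vectors -/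
noncomputable def lin (v : Fin r → σ → A) (i : σ) : MvPolynomial (Fin r) A :=
  ∑ j, MvPolynomial.C (v j i) * MvPolynomial.X j

/-- `F (∑ u_j v_j)` as a polynomial in the `u_j` -/
noncomputable def GG (v : Fin r → σ → A) (F : MvPolynomial σ A) : MvPolynomial (Fin r) A :=
  MvPolynomial.bind₁ (lin v) F

theorem eval_GG {R : Type*} [CommRing R] [Algebra A R] (v : Fin r → σ → A) (M : Fin r → R)
    (F : MvPolynomial σ A) :
    MvPolynomial.aeval (fun i => ∑ j, algebraMap A R (v j i) * M j) F =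
      ∑ β ∈ (GG v F).support, algebraMap A R (MvPolynomial.coeff β (GG v F)) *
        ∏ j, M j ^ β j := by
  have h1 : MvPolynomial.aeval M (GG v F) =
      MvPolynomial.aeval (fun i => ∑ j, algebraMap A R (v j i) * M j) F := by
    unfold GG
    rw [MvPolynomial.aeval_bind₁]
    congr 1
    congr 1
    funext i
    unfold lin
    rw [map_sum]
    refine Finset.sum_congr rfl fun j _ => ?_
    rw [map_mul, MvPolynomial.aeval_X, MvPolynomial.aeval_C]
  rw [← h1, MvPolynomial.aeval_def, MvPolynomial.eval₂_eq']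

theorem lin_deg (v : Fin r → σ → A) (i : σ) : (lin v i).totalDegree ≤ 1 := by
  unfold lin
  refine MvPolynomial.totalDegree_finsetSum_le fun j _ => ?_
  refine (MvPolynomial.totalDegree_mul _ _).trans ?_
  rw [MvPolynomial.totalDegree_C, zero_add]
  rcases subsingleton_or_nontrivial A with h | h
  · rw [Subsingleton.elim (MvPolynomial.X j : MvPolynomial (Fin r) A) 0,
      MvPolynomial.totalDegree_zero]
    exact Nat.zero_le _
  · rw [MvPolynomial.totalDegree_X]

theorem GG_expand (v : Fin r → σ → A) (F : MvPolynomial σ A) :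
    GG v F = ∑ β ∈ F.support, MvPolynomial.C (MvPolynomial.coeff β F) *
      β.prod fun i k => lin v i ^ k := by
  unfold GG MvPolynomial.bind₁
  rw [MvPolynomial.aeval_def, MvPolynomial.eval₂_eq]
  rfl

theorem sum_le_deg {F : MvPolynomial σ A} {d : ℕ} (hd : F.totalDegree ≤ d) {β : σ →₀ ℕ}
    (hβ : β ∈ F.support) : β.sum (fun _ k => k) ≤ d :=
  (MvPolynomial.le_totalDegree hβ).trans hd

theorem GG_deg (v : Fin r → σ → A) (F : MvPolynomial σ A) (d : ℕ) (hd : F.totalDegree ≤ d) :
    (GG v F).totalDegree ≤ d := by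
  rw [GG_expand]
  refine MvPolynomial.totalDegree_finsetSum_le fun β hβ => ?_
  refine (MvPolynomial.totalDegree_mul _ _).trans ?_
  rw [MvPolynomial.totalDegree_C, zero_add]
  unfold Finsupp.prod
  refine (MvPolynomial.totalDegree_finsetProd _ _).trans ?_
  refine le_trans (Finset.sum_le_sum fun i _ => ?_) (sum_le_deg hd hβ)
  refine (MvPolynomial.totalDegree_pow _ _).trans ?_
  calc β i * (lin v i).totalDegree ≤ β i * 1 := Nat.mul_le_mul_left _ (lin_deg v i)
    _ = β i := mul_one _

theorem lin_nrm (hs : SizeFn s) (v : Fin r → σ → A) (B : ℝ) (hv : ∀ j i, s (v j i) ≤ B)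
    (i : σ) : nrm s (lin v i) ≤ r * B := by
  unfold lin
  refine (nrm_sum hs _ _).trans ?_
  calc ∑ j : Fin r, nrm s (MvPolynomial.C (v j i) * MvPolynomial.X j) ≤ ∑ _j : Fin r, B := by
        refine Finset.sum_le_sum fun j _ => ?_
        have h0 : 0 ≤ s (v j i) := hs.nonneg _
        calc nrm s (MvPolynomial.C (v j i) * MvPolynomial.X j) ≤
              nrm s (MvPolynomial.C (v j i) : MvPolynomial (Fin r) A) * nrm s (MvPolynomial.X j) :=
              nrm_mul hs _ _
          _ ≤ s (v j i) * 1 := mul_le_mul (nrm_C hs _) (nrm_X hs _) (nrm_nonneg hs _) h0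
          _ ≤ B := by rw [mul_one]; exact hv j i
    _ = r * B := by simp

theorem GG_nrm (hs : SizeFn s) (v : Fin r → σ → A) (B : ℝ) (hB : 1 ≤ r * B)
    (hv : ∀ j i, s (v j i) ≤ B) (F : MvPolynomial σ A) (d : ℕ)
    (hd : F.totalDegree ≤ d) : nrm s (GG v F) ≤ nrm s F * (r * B) ^ d := by
  rw [GG_expand]
  refine (nrm_sum hs _ _).trans ?_
  conv_rhs => unfold nrm
  rw [Finset.sum_mul]
  refine Finset.sum_le_sum fun β hβ => ?_
  have hN : 0 ≤ (r : ℝ) * B := by linarith
  have h2 : nrm s (β.prod fun i k => lin v i ^ k) ≤ ∏ i ∈ β.support, ((r : ℝ) * B) ^ β i :=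
    nrm_prod hs _ _ _ fun i _ => nrm_pow hs _ _ (lin_nrm hs v B hv i) _
  have h3 : ∏ i ∈ β.support, ((r : ℝ) * B) ^ β i ≤ (r * B) ^ d := by
    rw [Finset.prod_pow_eq_pow_sum]
    exact pow_le_pow_right₀ hB (sum_le_deg hd hβ)
  exact (nrm_mul hs _ _).trans (mul_le_mul (nrm_C hs _) (h2.trans h3) (nrm_nonneg hs _)
    (hs.nonneg _))

theorem support_card (G : MvPolynomial (Fin r) A) (d : ℕ) (hd : G.totalDegree ≤ d) :
    G.support.card ≤ (d + 1) ^ r := by
  classical
  have h1 : G.support.card ≤ (Finset.univ : Finset (Fin r → Fin (d + 1))).card := by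
    refine Finset.card_le_card_of_injOn
      (fun β j => ⟨min (β j) d, by omega⟩) (fun _ _ => Finset.mem_coe.mpr (Finset.mem_univ _)) ?_
    intro β hβ γ hγ h
    ext j
    have h2 := congrFun h j
    simp only [Fin.mk.injEq] at h2
    have h3 : ∀ δ ∈ G.support, δ j ≤ d := by
      intro δ hδ
      refine le_trans ?_ (sum_le_deg hd hδ)
      rw [Finsupp.sum_fintype _ _ (by simp)]
      exact Finset.single_le_sum (f := fun i => δ i) (fun _ _ => Nat.zero_le _)
        (Finset.mem_univ j)
    have := h3 β hβ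
    have := h3 γ hγ
    omega
  refine h1.trans ?_
  rw [Finset.card_univ, Fintype.card_fun, Fintype.card_fin, Fintype.card_fin]

end subst

section main

open Polynomial

variable {A : Type*} [CommRing A] {κ : Type*} [Fintype κ] {σ : Type*} {r : ℕ}

/-- the vector of polynomials `∑ v_l X^(m_l) ∏ F_i^(e_il)` -/
noncomputable def pt (F : κ → A[X]) (m : Fin r → ℕ) (e : Fin r → κ → ℕ) (v : Fin r → σ → A)
    (i : σ) : A[X] := ∑ l, C (v l i) * MP F 1 (m l) (e l)

/-- exponent vectors of monomials in the terms -/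
def wm (m : Fin r → ℕ) (β : Fin r →₀ ℕ) : ℕ := ∑ j, β j * m j

/-- exponent vectors of monomials in the terms -/
def we (e : Fin r → κ → ℕ) (β : Fin r →₀ ℕ) (i : κ) : ℕ := ∑ j, β j * e j i

theorem prod_MP (F : κ → A[X]) (m : Fin r → ℕ) (e : Fin r → κ → ℕ) (β : Fin r →₀ ℕ) (c : A) :
    C c * ∏ j, MP F 1 (m j) (e j) ^ β j = MP F c (wm m β) (we e β) := by
  unfold MP PP wm we
  simp only [map_one, one_mul, mul_pow, Finset.prod_mul_distrib, ← Finset.prod_pow_eq_pow_sum]
  rw [Finset.prod_comm]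
  simp only [← Finset.prod_pow, ← pow_mul, mul_comm (β _)]
  ring

theorem aeval_pt (F : κ → A[X]) (m : Fin r → ℕ) (e : Fin r → κ → ℕ) (v : Fin r → σ → A)
    (G : MvPolynomial σ A) :
    MvPolynomial.aeval (pt F m e v) G =
      ∑ β ∈ (GG v G).support, MP F (MvPolynomial.coeff β (GG v G)) (wm m β) (we e β) := by
  have h := eval_GG (R := A[X]) v (fun j => MP F 1 (m j) (e j)) G
  have h1 : pt F m e v = fun i => ∑ j, algebraMap A A[X] (v j i) * MP F 1 (m j) (e j) := by
    funext i
    unfold pt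
    rfl
  rw [h1, h]
  refine Finset.sum_congr rfl fun β _ => ?_
  rw [← prod_MP]
  rfl

theorem aeval_eval_pt (F : κ → A[X]) (m : Fin r → ℕ) (e : Fin r → κ → ℕ) (v : Fin r → σ → A)
    (G : MvPolynomial σ A) (t : A) :
    MvPolynomial.aeval (fun i => (pt F m e v i).eval t) G =
      (MvPolynomial.aeval (pt F m e v) G).eval t := by
  have h := congrArg (Polynomial.evalRingHom t) (rfl :
    MvPolynomial.aeval (pt F m e v) G = MvPolynomial.aeval (pt F m e v) G)
  conv_rhs at h => rw [MvPolynomial.aeval_def, MvPolynomial.hom_eval₂]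
  rw [Polynomial.coe_evalRingHom] at h
  rw [h, MvPolynomial.aeval_def]
  congr 1
  ext a
  simp

variable [IsDomain A] [CharZero A] {s : A → ℝ}

/-- **Zeros come from curves**: a zero of `G` of the form `∑ v_l t^(m_l) ∏ F_i(t)^(e_il)` comes from
a zero over the polynomial ring. -/
theorem zero_pt (hs : SizeFn s) {t : A} (ht0 : t ≠ 0) {T : ℝ}
    (hT : ∀ x, t ∣ x → s x < T → x = 0) {F : κ → A[X]} {D : ℕ}
    (hD : ∑ i, (F i).natDegree ≤ D) {H : ℝ} (hH : 1 ≤ H) (hFu : ∀ i, IsUnit ((F i).coeff 0))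
    (hF0 : ∀ i, s ((F i).coeff 0) ≤ 1) (hFH : ∀ i j, s ((F i).coeff j) ≤ H)
    (m : Fin r → ℕ) (e : Fin r → κ → ℕ) {N : ℕ} (hN : 1 ≤ N) (heN : ∀ l, ∑ i, e l i ≤ N)
    (v : Fin r → σ → A) {B : ℝ} (hB : 1 ≤ r * B) (hv : ∀ l i, s (v l i) ≤ B)
    (G : MvPolynomial σ A) {d : ℕ} (hd1 : 1 ≤ d) (hd : G.totalDegree ≤ d) {W : ℝ}
    (hG : nrm s G ≤ W)
    (hsize : (((d + 1) ^ r : ℕ) : ℝ) * (W * (r * B) ^ d) *
      (((d * N : ℕ) : ℝ) * H) ^ (JJ (D + 1) ((d + 1) ^ r)) < T)
    (h0 : MvPolynomial.aeval (fun i => (pt F m e v i).eval t) G = 0) :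
    MvPolynomial.aeval (pt F m e v) G = 0 := by
  classical
  have hcard := support_card (GG v G) d (GG_deg v G d hd)
  rw [aeval_eval_pt, aeval_pt, eval_finsetSum] at h0
  rw [aeval_pt]
  -- index the relation by the support
  have key := all hs ht0 hT (ι := (GG v G).support) hD hH hFu hF0 hFH
    (α := fun β => MvPolynomial.coeff β.1 (GG v G)) (B := W * (r * B) ^ d)
    (fun β => MvPolynomial.mem_support_iff.mp β.2)
    (fun β => by
      refine le_trans ?_ ((GG_nrm hs v B hB hv G d hd).trans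
        (mul_le_mul_of_nonneg_right hG (by positivity)))
      exact Finset.single_le_sum (f := fun β => s (MvPolynomial.coeff β (GG v G)))
        (fun _ _ => hs.nonneg _) β.2)
    (fun β => wm m β.1) (fun β => we e β.1) (N := d * N) (Nat.mul_pos hd1 hN)
    (fun β => by
      unfold we
      rw [Finset.sum_comm]
      have h1 : ∀ j, ∑ i, β.1 j * e j i ≤ β.1 j * N := fun j => by
        rw [← Finset.mul_sum]
        exact Nat.mul_le_mul_left _ (heN j)
      refine (Finset.sum_le_sum fun j _ => h1 j).trans ?_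
      rw [← Finset.sum_mul]
      apply Nat.mul_le_mul_right
      have := sum_le_deg (GG_deg v G d hd) β.2
      rwa [Finsupp.sum_fintype _ _ (by simp)] at this)
    hsize _ Finset.univ le_rfl (by rw [Finset.card_univ, Fintype.card_coe]; exact hcard)
  have hc1 := Finset.sum_coe_sort (GG v G).support (fun β =>
    (MP F (MvPolynomial.coeff β (GG v G)) (wm m β) (we e β)).eval t)
  have hc2 := Finset.sum_coe_sort (GG v G).support (fun β =>
    MP F (MvPolynomial.coeff β (GG v G)) (wm m β) (we e β))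
  rw [← hc2]
  apply key
  rw [hc1]
  exact h0

end main

end Pool.Agent.Q29.SE
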