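import Mathlib
import Pool.Agent.Q29.SE.Subst
import Pool.Agent.H533R3.SL.Asm

/-!
# Affine varieties that are not swept out by affine lines
-/

set_option autoImplicit false
set_option linter.unusedSectionVars false

namespace Pool.Agent.Q29.SE

open Finset Pool.Agent.H533R3.SL

variable {n r : ℕ}

/-- The affine variety over `k` with the prime ideal `I` is uniruled by affine lines: over some
extension field `L` of `k` there is a nonconstant polynomial map `p` from the affine line to the
variety such that `p 1` is a generic point of the variety over `k`. -/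
def AUniruled {k : Type} [Field k] (I : Ideal (MvPolynomial (Fin (n + 1)) k)) : Prop :=
  ∃ (L : Type) (_ : Field L) (_ : Algebra k L) (p : Fin (n + 1) → Polynomial L),
    (∀ F ∈ I, MvPolynomial.aeval p F = 0) ∧
    (∀ G : MvPolynomial (Fin (n + 1)) k, G ∉ I →
      MvPolynomial.aeval (fun i => (p i).eval 1) G ≠ 0) ∧
    ∃ i, p i ≠ Polynomial.C ((p i).eval 1)

theorem map_totalDegree_le {k L : Type} [CommRing k] [CommRing L] (f : k →+* L) {τ : Type}
    (F : MvPolynomial τ k) : (MvPolynomial.map f F).totalDegree ≤ F.totalDegree := by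
  unfold MvPolynomial.totalDegree
  exact Finset.sup_mono (MvPolynomial.support_map_subset _ _)

theorem GU_eq_GG {k L : Type} [Field k] [Field L] [Algebra k L]
    (c : Fin r → Fin (n + 1) → L) (F : MvPolynomial (Fin (n + 1)) k) :
    GU c F = GG c (MvPolynomial.map (algebraMap k L) F) := by
  unfold GU GG
  rw [← MvPolynomial.aeval_map_algebraMap (A := L)]
  rfl

theorem GU_deg' {k L : Type} [Field k] [Field L] [Algebra k L]
    (c : Fin r → Fin (n + 1) → L) (F : MvPolynomial (Fin (n + 1)) k) {d : ℕ}
    (hF : F.totalDegree ≤ d) (α : Fin r →₀ ℕ) (hα : α ∈ (GU c F).support) (j : Fin r) :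
    α j ≤ d := by
  rw [GU_eq_GG] at hα
  have h1 := sum_le_deg (GG_deg c (MvPolynomial.map (algebraMap k L) F) d
    ((map_totalDegree_le (algebraMap k L) F).trans hF)) hα
  rw [Finsupp.sum_fintype _ _ (by simp)] at h1
  exact (Finset.single_le_sum (f := fun j => α j) (fun _ _ => Nat.zero_le _)
    (Finset.mem_univ j)).trans h1

theorem cur_zero_transfer' {k L : Type} [Field k] [Field L] [Algebra k L] (D : ℕ)
    (l l' : Fin r → ℕ) (h : pat D l = pat D l')
    (c : Fin r → Fin (n + 1) → L) (F : MvPolynomial (Fin (n + 1)) k) (hF : F.totalDegree ≤ D)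
    (h0 : MvPolynomial.aeval (cur c l) F = 0) :
    MvPolynomial.aeval (cur c l') F = 0 := by
  rw [aeval_cur] at h0 ⊢
  refine transfer_sum _ _ (fun α : Fin r →₀ ℕ => ∑ j, α j * l j) _ ?_ h0
  intro α hα β hβ hab
  exact pat_imp D l l' h α β (GU_deg' c F hF α hα) (GU_deg' c F hF β hβ) hab

theorem pat_zero_imp (D : ℕ) (hD : 1 ≤ D) (l l' : Fin r → ℕ) (h : pat D l = pat D l')
    (a : Fin r) (he : l a = 0) : l' a = 0 := by
  classical
  have h1 := pat_imp D l l' h (fun j => if j = a then 1 else 0) (fun _ => 0)
    (fun j => by split_ifs <;> omega) (fun j => by omega) (by simpa using he)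
  simpa using h1

theorem cur_sub_C {R : Type} [CommRing R] (c : Fin r → Fin (n + 1) → R) (l : Fin r → ℕ)
    (i : Fin (n + 1)) (u : R) : cur c l i - Polynomial.C u =
      ∑ a : Option (Fin r), Polynomial.C (match a with
        | none => -u
        | some j => c j i) * Polynomial.X ^ (match a with
        | none => 0
        | some j => l j) := by
  rw [Fintype.sum_option]
  simp only [pow_zero, mul_one, Polynomial.C_neg]
  unfold cur
  ring

theorem cur_C_transfer {L : Type} [Field L] (D : ℕ) (hD : 1 ≤ D)
    (l l' : Fin r → ℕ) (h : pat D l = pat D l')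
    (c : Fin r → Fin (n + 1) → L) (i : Fin (n + 1)) (u : L)
    (h0 : cur c l i = Polynomial.C u) : cur c l' i = Polynomial.C u := by
  rw [← sub_eq_zero, cur_sub_C] at h0 ⊢
  refine transfer_sum _ _ _ _ ?_ h0
  intro a _ b _ hab
  cases a with
  | none =>
    cases b with
    | none => rfl
    | some j => exact (pat_zero_imp D hD l l' h j hab.symm).symm
  | some j =>
    cases b with
    | none => exact pat_zero_imp D hD l l' h j hab
    | some j' => exact pat_eq_imp D hD l l' h j j' hab

/-- for a fixed vector of exponents, the nonconstant affine lines lie in a hypersurface -/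
theorem exists_GAff {k : Type} [Field k] (FF : Set (MvPolynomial (Fin (n + 1)) k))
    (hprime : (Ideal.span FF).IsPrime) (hnu : ¬ AUniruled (Ideal.span FF)) (l : Fin r → ℕ)
    (i : Fin (n + 1)) (w : ℕ) :
    ∃ G : MvPolynomial (Fin (n + 1)) k, G ∉ Ideal.span FF ∧
      ∀ (L : Type) [Field L] [Algebra k L] (c : Fin r → Fin (n + 1) → L),
        (∀ F ∈ FF, MvPolynomial.aeval (cur c l) F = 0) →
        (cur c l i - Polynomial.C (∑ j, c j i)).coeff w ≠ 0 →
          MvPolynomial.aeval (fun i => ∑ j, c j i) G = 0 := by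
  classical
  by_contra hcon
  push Not at hcon
  let R : Type := MvPolynomial (Fin r × Fin (n + 1)) k
  let ct : Fin r → Fin (n + 1) → R := fun j i => MvPolynomial.X (j, i)
  let xt : Fin (n + 1) → R := fun i => ∑ j, ct j i
  let N : R := (cur ct l i - Polynomial.C (xt i)).coeff w
  let J : Ideal R := Ideal.span {a | ∃ F ∈ FF, ∃ t : ℕ, a = (MvPolynomial.aeval (cur ct l) F).coeff t}
  -- specialisation
  have hcur : ∀ (L : Type) [Field L] [Algebra k L] (s : R →ₐ[k] L) (i : Fin (n + 1)),
      Polynomial.mapAlgHom s (cur ct l i) = cur (fun j i => s (ct j i)) l i := by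
    intro L _ _ s i
    unfold cur
    rw [map_sum]
    refine Finset.sum_congr rfl fun j _ => ?_
    simp
  have hFs : ∀ (L : Type) [Field L] [Algebra k L] (s : R →ₐ[k] L)
      (F : MvPolynomial (Fin (n + 1)) k),
      Polynomial.mapAlgHom s (MvPolynomial.aeval (cur ct l) F) =
        MvPolynomial.aeval (cur (fun j i => s (ct j i)) l) F := by
    intro L _ _ s F
    have h1 := congrArg (fun f => f F) (MvPolynomial.comp_aeval (R := k) (cur ct l)
      (Polynomial.mapAlgHom s))
    refine Eq.trans h1 ?_
    show MvPolynomial.aeval (fun i => Polynomial.mapAlgHom s (cur ct l i)) F = _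
    congr 2
    funext i
    exact hcur L s i
  have hxs : ∀ (L : Type) [Field L] [Algebra k L] (s : R →ₐ[k] L)
      (G : MvPolynomial (Fin (n + 1)) k),
      s (MvPolynomial.aeval xt G) =
        MvPolynomial.aeval (fun i => ∑ j, (fun j i => s (ct j i)) j i) G := by
    intro L _ _ s G
    have h1 := congrArg (fun f => f G) (MvPolynomial.comp_aeval (R := k) xt s)
    refine Eq.trans h1 ?_
    show MvPolynomial.aeval (fun i => s (xt i)) G = _
    congr 2
    funext i
    simp only [xt, map_sum]
  have hNs : ∀ (L : Type) [Field L] [Algebra k L] (s : R →ₐ[k] L),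
      s N = (cur (fun j i => s (ct j i)) l i -
        Polynomial.C (∑ j, (fun j i => s (ct j i)) j i)).coeff w := by
    intro L _ _ s
    have h1 : s N = (Polynomial.mapAlgHom s (cur ct l i - Polynomial.C (xt i))).coeff w := by
      rw [Polynomial.coe_mapAlgHom, Polynomial.coeff_map]
      rfl
    rw [h1, map_sub, hcur]
    congr 2
    simp [xt, map_sum]
  have h1I : (1 : MvPolynomial (Fin (n + 1)) k) ∉ Ideal.span FF := by
    intro h
    exact hprime.ne_top ((Ideal.eq_top_iff_one _).2 h)
  let M : Submonoid R :=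
    { carrier := {a | ∃ (G : MvPolynomial (Fin (n + 1)) k) (t : ℕ),
        G ∉ Ideal.span FF ∧ a = MvPolynomial.aeval xt G * N ^ t}
      one_mem' := ⟨1, 0, h1I, by simp⟩
      mul_mem' := by
        rintro a b ⟨G, t, hG, rfl⟩ ⟨G', t', hG', rfl⟩
        refine ⟨G * G', t + t', ?_, ?_⟩
        · intro h
          rcases hprime.mem_or_mem h with h | h
          · exact hG h
          · exact hG' h
        · rw [map_mul, pow_add]
          ring }
  have hdisj : Disjoint (J : Set R) M := by
    rw [Set.disjoint_left]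
    rintro a haJ ⟨G, t, hGI, rfl⟩
    obtain ⟨L, iL, iA, c, hz, hN, hG⟩ := hcon G hGI
    let s : R →ₐ[k] L := MvPolynomial.aeval (fun q : Fin r × Fin (n + 1) => c q.1 q.2)
    have hsc : (fun j i => s (ct j i)) = c := by
      funext j i
      exact MvPolynomial.aeval_X (fun q : Fin r × Fin (n + 1) => c q.1 q.2) (j, i)
    have hJ : J ≤ RingHom.ker s.toRingHom := by
      rw [Ideal.span_le]
      rintro _ ⟨F, hF, t, rfl⟩
      show s _ = 0
      have h1 := hFs L s F
      rw [hsc, hz F hF] at h1
      have h2 := congrArg (fun P => Polynomial.coeff P t) h1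
      simp only [Polynomial.coe_mapAlgHom, Polynomial.coeff_map, Polynomial.coeff_zero] at h2
      exact h2
    have h2 : s (MvPolynomial.aeval xt G * N ^ t) = 0 := hJ haJ
    rw [map_mul, map_pow, hxs, hNs, hsc] at h2
    exact mul_ne_zero hG (pow_ne_zero _ hN) h2
  obtain ⟨P, hP, hJP, hPM⟩ := Ideal.exists_le_prime_disjoint J M hdisj
  let L : Type := FractionRing (R ⧸ P)
  let s : R →ₐ[k] L := (IsScalarTower.toAlgHom k (R ⧸ P) (FractionRing (R ⧸ P))).comp
    (Ideal.Quotient.mkₐ k P)
  have hs0 : ∀ a : R, s a = 0 ↔ a ∈ P := by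
    intro a
    show algebraMap (R ⧸ P) (FractionRing (R ⧸ P)) (Ideal.Quotient.mk P a) = 0 ↔ _
    rw [FaithfulSMul.algebraMap_eq_zero_iff, Ideal.Quotient.eq_zero_iff_mem]
  apply hnu
  refine ⟨L, inferInstance, inferInstance, cur (fun j i => s (ct j i)) l, ?_, ?_, ?_⟩
  · have hI : Ideal.span FF ≤ RingHom.ker
        (MvPolynomial.aeval (R := k) (cur (fun j i => s (ct j i)) l)).toRingHom := by
      rw [Ideal.span_le]
      intro F hF
      show MvPolynomial.aeval (cur (fun j i => s (ct j i)) l) F = 0
      rw [← hFs L s F]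
      ext t
      rw [Polynomial.coe_mapAlgHom, Polynomial.coeff_map, Polynomial.coeff_zero]
      refine (hs0 _).2 (hJP (Ideal.subset_span ⟨F, hF, t, rfl⟩))
    intro F hF
    exact hI hF
  · intro G hGI h0
    have h1 : (fun i => (cur (fun j i => s (ct j i)) l i).eval 1) =
        fun i => ∑ j, (fun j i => s (ct j i)) j i := by
      funext i
      exact cur_eval_one _ _ _
    rw [h1, ← hxs L s G, hs0] at h0
    exact Set.disjoint_left.1 hPM h0 ⟨G, 0, hGI, by simp⟩
  · refine ⟨i, fun h0 => ?_⟩
    rw [cur_eval_one] at h0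
    have h1 := hNs L s
    rw [h0, sub_self, Polynomial.coeff_zero, hs0] at h1
    exact Set.disjoint_left.1 hPM h1 ⟨1, 1, h1I, by simp⟩

/-- all the nonconstant affine lines with `r` terms lie in one hypersurface -/
theorem exists_hyperAff {k : Type} [Field k] (FF : Set (MvPolynomial (Fin (n + 1)) k))
    (hprime : (Ideal.span FF).IsPrime) (hnu : ¬ AUniruled (Ideal.span FF)) (d : ℕ) (hd : 1 ≤ d)
    (hFF : ∀ F ∈ FF, F.totalDegree ≤ d) (r : ℕ) :
    ∃ G : MvPolynomial (Fin (n + 1)) k, G ∉ Ideal.span FF ∧
      ∀ (L : Type) [Field L] [Algebra k L] (c : Fin r → Fin (n + 1) → L) (l : Fin r → ℕ),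
        (∀ F ∈ FF, MvPolynomial.aeval (cur c l) F = 0) →
        (∃ i, cur c l i ≠ Polynomial.C (∑ j, c j i)) →
        MvPolynomial.aeval (fun i => ∑ j, c j i) G = 0 := by
  classical
  choose H hH2 hH3 using fun (q : Set ((Fin r → Fin (d + 1)) × (Fin r → Fin (d + 1))) ×
    Fin (n + 1) × Option (Fin r)) =>
    exists_GAff FF hprime hnu (rep d q.1) q.2.1 (match q.2.2 with
      | none => 0
      | some j => rep d q.1 j)
  refine ⟨∏ q, H q, ?_, ?_⟩
  · rw [hprime.prod_mem_iff]
    push Not
    intro q _
    exact hH2 q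
  · intro L _ _ c l hz ⟨i, hc⟩
    have hp := pat_rep d l
    have hz' : ∀ F ∈ FF, MvPolynomial.aeval (cur c (rep d (pat d l))) F = 0 := by
      intro F hF
      exact cur_zero_transfer' d l _ hp.symm c F (hFF F hF) (hz F hF)
    have hc' : cur c (rep d (pat d l)) i ≠ Polynomial.C (∑ j, c j i) := by
      intro h
      exact hc (cur_C_transfer d hd _ l hp c i _ h)
    -- an exponent
    have hex : ∃ a : Option (Fin r), (cur c (rep d (pat d l)) i -
        Polynomial.C (∑ j, c j i)).coeff (match a with
      | none => 0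
      | some j => rep d (pat d l) j) ≠ 0 := by
      by_contra hcon
      push Not at hcon
      apply hc'
      rw [← sub_eq_zero]
      ext w
      rw [Polynomial.coeff_zero]
      by_cases hw0 : w = 0
      · subst hw0
        exact hcon none
      by_cases hw : ∃ j, rep d (pat d l) j = w
      · obtain ⟨j, rfl⟩ := hw
        exact hcon (some j)
      · push Not at hw
        rw [Polynomial.coeff_sub, Polynomial.coeff_C, if_neg hw0, sub_zero]
        unfold cur
        rw [Polynomial.finsetSum_coeff]
        refine Finset.sum_eq_zero fun j _ => ?_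
        rw [Polynomial.coeff_C_mul_X_pow, if_neg (fun h => hw j h.symm)]
    obtain ⟨a, ha⟩ := hex
    have h1 := hH3 (pat d l, i, a) L c hz' ha
    rw [map_prod]
    exact Finset.prod_eq_zero (Finset.mem_univ (pat d l, i, a)) h1

end Pool.Agent.Q29.SE
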