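import Mathlib
import Pool.Agent.Q29.SE.Subst

/-!
# Constant curves: bounds for the point
-/

set_option autoImplicit false

namespace Pool.Agent.Q29.SE

open Finset Polynomial Pool.Agent.Q103.SD

variable {A : Type*} [CommRing A] [IsDomain A] [CharZero A] {κ : Type*} [Fintype κ] {σ : Type*}
  {r : ℕ} {s : A → ℝ}

theorem C_mul_MP (F : κ → A[X]) (c : A) (m : ℕ) (e : κ → ℕ) : C c * MP F 1 m e = MP F c m e := by
  unfold MP PP
  rw [map_one]
  ring

/-- one coordinate: the lowest coefficient that does not vanish -/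
theorem coeff_bound (hs : SizeFn s) {F : κ → A[X]} {D : ℕ}
    (hD : ∑ i, (F i).natDegree ≤ D) {H : ℝ} (hH : 1 ≤ H) (hFu : ∀ i, IsUnit ((F i).coeff 0))
    (hF0 : ∀ i, s ((F i).coeff 0) ≤ 1) (hFH : ∀ i j, s ((F i).coeff j) ≤ H)
    (m : Fin r → ℕ) (e : Fin r → κ → ℕ) {N : ℕ} (hN : 1 ≤ N) (heN : ∀ l, ∑ i, e l i ≤ N)
    (v : Fin r → A) {B : ℝ} (hv : ∀ l, s (v l) ≤ B) (hB : 0 ≤ B) (ν : ℕ)
    (hν : X ^ ν ∣ ∑ l, C (v l) * MP F 1 (m l) (e l)) :
    s ((∑ l, C (v l) * MP F 1 (m l) (e l)).coeff ν) ≤ r * (B * (N * H) ^ (JJ (D + 1) r)) := by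
  classical
  simp only [C_mul_MP] at hν ⊢
  have hN1 : (1 : ℝ) ≤ N := by exact_mod_cast hN
  have hNH : 1 ≤ (N : ℝ) * H := by nlinarith
  have hFu0 : ∀ i, (F i).coeff 0 ≠ 0 := fun i => (hFu i).ne_zero
  obtain ⟨G, hG⟩ : ∃ G, G = gg (D + 1) r 0 + 1 := ⟨_, rfl⟩
  have hG0 : 0 < G := by omega
  obtain ⟨S, hS⟩ : ∃ S : Finset (Fin r), S = Finset.univ.filter (fun l => v l ≠ 0 ∧ m l ≤ ν) :=
    ⟨_, rfl⟩
  have hSr : S.card ≤ r := by
    have := Finset.card_le_univ S
    rwa [Fintype.card_fin] at this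
  obtain ⟨q, hq, hgap⟩ := exists_gap (fun l : S => ν - m l) hG0
  rw [Fintype.card_coe] at hq
  obtain ⟨Lf, hLf⟩ : ∃ L : Finset (Fin r), L = S.filter (fun l => (q + 1) * G < ν - m l) :=
    ⟨_, rfl⟩
  have hLfS : Lf ⊆ S := by rw [hLf]; exact Finset.filter_subset _ _
  have hfar : ∑ l ∈ Lf, MP F (v l) (m l) (e l) = 0 := by
    rcases Lf.eq_empty_or_nonempty with h | h
    · rw [h, Finset.sum_empty]
    obtain ⟨l0, hl0⟩ := h
    have h0 : (q + 1) * G < ν := by
      rw [hLf, Finset.mem_filter] at hl0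
      omega
    have hqG : (q + 1) * G = q * G + G := by ring
    have hne : ∀ l ∈ Lf, v l ≠ 0 := by
      intro l hl
      have := hLfS hl
      rw [hS, Finset.mem_filter] at this
      exact this.2.1
    -- make the coefficients nonzero everywhere
    obtain ⟨v', hv'⟩ : ∃ v' : Fin r → A, v' = fun l => if v l = 0 then 1 else v l := ⟨_, rfl⟩
    have hv'0 : ∀ l, v' l ≠ 0 := by
      intro l
      rw [hv']
      simp only
      split_ifs with h
      · exact one_ne_zero
      · exact h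
    have hv'e : ∀ l ∈ Lf, v' l = v l := by
      intro l hl
      rw [hv']
      simp only
      rw [if_neg (hne l hl)]
    have hcong : ∑ l ∈ Lf, MP F (v' l) (m l) (e l) = ∑ l ∈ Lf, MP F (v l) (m l) (e l) :=
      Finset.sum_congr rfl fun l hl => by rw [hv'e l hl]
    rw [← hcong]
    refine exact_MP hFu0 hv'0 m e hD Lf (ν - q * G) ?_ ?_
    · intro l hl
      have h1 := gg_mono (D + 1) ((Finset.card_le_card hLfS).trans hSr) 0
      rw [hLf, Finset.mem_filter] at hl
      omega
    · rw [hcong]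
      have h1 : ∑ l ∈ Lf, MP F (v l) (m l) (e l) = ∑ l, MP F (v l) (m l) (e l) -
          ∑ l ∈ Finset.univ \ Lf, MP F (v l) (m l) (e l) := by
        rw [← Finset.sum_sdiff (Finset.subset_univ Lf)]
        ring
      rw [h1]
      refine dvd_sub ((pow_dvd_pow X (Nat.sub_le _ _)).trans hν) (Finset.dvd_sum fun l hl => ?_)
      rw [Finset.mem_sdiff] at hl
      by_cases hlS : l ∈ S
      · have h2 : ¬ (q + 1) * G < ν - m l := by
          intro h3
          apply hl.2
          rw [hLf, Finset.mem_filter]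
          exact ⟨hlS, h3⟩
        rcases hgap ⟨l, hlS⟩ with h3 | h3
        · unfold MP
          have h4 : ν - m l ≤ q * G := h3
          exact Dvd.dvd.mul_right (pow_dvd_pow X (by omega)) _
        · exact absurd h3 h2
      · rw [hS, Finset.mem_filter, not_and, not_and] at hlS
        by_cases hv0 : v l = 0
        · rw [hv0]
          unfold MP PP
          simp
        · have h3 := hlS (Finset.mem_univ _) hv0
          unfold MP
          exact Dvd.dvd.mul_right (pow_dvd_pow X (by omega)) _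
  rw [← Finset.sum_sdiff (Finset.subset_univ Lf), hfar, add_zero, finsetSum_coeff]
  refine (hs.sum _ _).trans ?_
  refine (Finset.sum_le_card_nsmul _ _ (B * (N * H) ^ (JJ (D + 1) r)) fun l hl => ?_).trans ?_
  · rw [Finset.mem_sdiff] at hl
    have hqJ : q * G ≤ JJ (D + 1) r := by
      unfold JJ
      rw [← hG]
      exact Nat.mul_le_mul_right _ (by omega)
    by_cases hlS : l ∈ S
    · have h2 : ¬ (q + 1) * G < ν - m l := by
        intro h3
        apply hl.2
        rw [hLf, Finset.mem_filter]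
        exact ⟨hlS, h3⟩
      rcases hgap ⟨l, hlS⟩ with h3 | h3
      · have h4 : ν - m l ≤ q * G := h3
        exact coeff_MP hs hH hF0 hFH (hv l) (m l) (e l) hN (heN l) ν _ (by omega)
      · exact absurd h3 h2
    · rw [hS, Finset.mem_filter, not_and, not_and] at hlS
      by_cases hv0 : v l = 0
      · rw [hv0]
        unfold MP PP
        simp only [map_zero, zero_mul, mul_zero, coeff_zero, hs.zero]
        positivity
      · have h3 := hlS (Finset.mem_univ _) hv0
        unfold MP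
        rw [coeff_X_pow_mul', if_neg h3, hs.zero]
        positivity
  · rw [nsmul_eq_mul]
    apply mul_le_mul_of_nonneg_right _ (by positivity)
    have : (Finset.univ \ Lf).card ≤ r := by
      have := Finset.card_le_univ (Finset.univ \ Lf)
      rwa [Fintype.card_fin] at this
    exact_mod_cast this

/-- **Constant curves**: if the curve is constant then the point has small coordinates. -/
theorem const_bound (hs : SizeFn s) {t : A} {F : κ → A[X]} {D : ℕ}
    (hD : ∑ i, (F i).natDegree ≤ D) {H : ℝ} (hH : 1 ≤ H) (hFu : ∀ i, IsUnit ((F i).coeff 0))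
    (hF0 : ∀ i, s ((F i).coeff 0) ≤ 1) (hFH : ∀ i j, s ((F i).coeff j) ≤ H)
    (m : Fin r → ℕ) (e : Fin r → κ → ℕ) {N : ℕ} (hN : 1 ≤ N) (heN : ∀ l, ∑ i, e l i ≤ N)
    (v : Fin r → σ → A) {B : ℝ} (hv : ∀ l i, s (v l i) ≤ B) (hB : 0 ≤ B)
    (x : σ → A) (hx : ∀ i, x i = (pt F m e v i).eval t) (hx0 : x ≠ 0)
    (hcon : ∀ i j, pt F m e v i * C (x j) = pt F m e v j * C (x i)) :
    ∃ y : σ → A, y ≠ 0 ∧ (∀ i j, x i * y j = x j * y i) ∧
      ∀ i, s (y i) ≤ r * (B * (N * H) ^ (JJ (D + 1) r)) := by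
  obtain ⟨i0, hi0⟩ : ∃ i, x i ≠ 0 := by
    by_contra h
    push Not at h
    exact hx0 (funext h)
  have hp0 : pt F m e v i0 ≠ 0 := by
    intro h
    apply hi0
    rw [hx i0, h, eval_zero]
  obtain ⟨ν, hν⟩ : ∃ ν, ν = (pt F m e v i0).natTrailingDegree := ⟨_, rfl⟩
  have hdvd0 : X ^ ν ∣ pt F m e v i0 := by
    rw [X_pow_dvd_iff]
    intro d hd
    exact coeff_eq_zero_of_lt_natTrailingDegree (hν ▸ hd)
  have hdvd : ∀ i, X ^ ν ∣ pt F m e v i := by
    intro i
    have h1 : X ^ ν ∣ pt F m e v i * C (x i0) := by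
      rw [hcon i i0]
      exact Dvd.dvd.mul_right hdvd0 _
    rw [X_pow_dvd_iff] at h1 ⊢
    intro d hd
    have h2 := h1 d hd
    rw [coeff_mul_C] at h2
    exact (mul_eq_zero.mp h2).resolve_right hi0
  refine ⟨fun i => (pt F m e v i).coeff ν, ?_, ?_, ?_⟩
  · intro h
    have h1 := congrFun h i0
    simp only [Pi.zero_apply] at h1
    rw [hν] at h1
    exact hp0 (trailingCoeff_eq_zero.mp h1)
  · intro i j
    have h1 := congrArg (fun P => Polynomial.coeff P ν) (hcon i j)
    simp only [Polynomial.coeff_mul_C] at h1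
    linear_combination -h1
  · intro i
    exact coeff_bound hs hD hH hFu hF0 hFH m e hN heN (fun l => v l i) (fun l => hv l i) hB ν
      (hdvd i)

/-- in the affine case the point is a combination of the last digits -/
theorem affine_bound (hs : SizeFn s) {t : A} {F : κ → A[X]}
    (hF0 : ∀ i, s ((F i).coeff 0) ≤ 1)
    (m : Fin r → ℕ) (e : Fin r → κ → ℕ)
    (v : Fin r → A) {B : ℝ} (hv : ∀ l, s (v l) ≤ B) (x c : A)
    (hx : x = (∑ l, C (v l) * MP F 1 (m l) (e l)).eval t)
    (hc : ∑ l, C (v l) * MP F 1 (m l) (e l) = C c) :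
    s x ≤ (Finset.univ.filter fun l => m l = 0).card * B := by
  classical
  have h1 : x = c := by rw [hx, hc, eval_C]
  have h2 : c = ∑ l, (C (v l) * MP F 1 (m l) (e l)).coeff 0 := by
    rw [← finsetSum_coeff, hc, coeff_C_zero]
  rw [h1, h2]
  have h3 : ∀ l, (C (v l) * MP F 1 (m l) (e l)).coeff 0 =
      if m l = 0 then v l * ∏ i, (F i).coeff 0 ^ e l i else 0 := by
    intro l
    rw [C_mul_MP]
    unfold MP
    split_ifs with h
    · rw [h, pow_zero, one_mul, PP_coeff_zero]
    · rw [coeff_X_pow_mul', if_neg (by omega)]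
  simp only [h3]
  rw [← Finset.sum_filter]
  refine (hs.sum _ _).trans ?_
  refine (Finset.sum_le_card_nsmul _ _ B fun l _ => ?_).trans (le_of_eq (nsmul_eq_mul _ _))
  refine (hs.mul _ _).trans ?_
  have h4 : s (∏ i, (F i).coeff 0 ^ e l i) ≤ 1 := by
    have h5 : ∀ S : Finset κ, s (∏ i ∈ S, (F i).coeff 0 ^ e l i) ≤ 1 := by
      intro S
      induction S using Finset.induction_on with
      | empty => simpa using hs.one
      | insert i S hi ih =>
        rw [Finset.prod_insert hi]
        refine (hs.mul _ _).trans ?_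
        have h6 : ∀ k : ℕ, s ((F i).coeff 0 ^ k) ≤ 1 := by
          intro k
          induction k with
          | zero => simpa using hs.one
          | succ k ih2 =>
            rw [pow_succ]
            refine (hs.mul _ _).trans ?_
            exact mul_le_one₀ ih2 (hs.nonneg _) (hF0 i)
        exact mul_le_one₀ (h6 _) (hs.nonneg _) ih
    exact h5 _
  calc s (v l) * s (∏ i, (F i).coeff 0 ^ e l i) ≤ B * 1 :=
        mul_le_mul (hv l) h4 (hs.nonneg _) ((hs.nonneg _).trans (hv l))
    _ = B := mul_one B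

end Pool.Agent.Q29.SE
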