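import Mathlib
import Pool.Agent.Q29.SE.Exact

/-!
# Identities between products of powers of distinct linear polynomials split at every root
-/

set_option autoImplicit false

namespace Pool.Agent.Q29.SE

open Polynomial Finset Pool.Agent.Q103.SD

section one

variable {L : Type*} [Field L] [CharZero L] {κ : Type*} [Fintype κ] {ι : Type*}

/-- a product of powers of linear polynomials -/
noncomputable def LP (ρ : κ → L) (g : L) (e : κ → ℕ) : L[X] := C g * ∏ i, (X - C (ρ i)) ^ e i

/-- a lower cluster of an identity is an identity -/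
theorem split_low [DecidableEq κ] [DecidableEq ι] (ρ : κ → L) (hρ : Function.Injective ρ)
    (i0 : κ) (n gap : ℕ) (hgap : gg (Fintype.card κ + 1) n 0 ≤ gap) (g : ι → L)
    (E : ι → κ → ℕ) (S S' : Finset ι) (hg : ∀ a ∈ S, g a ≠ 0) (hS : S.card ≤ n) (hS' : S' ⊆ S)
    (θ : ℕ) (h1 : ∀ a ∈ S', E a i0 ≤ θ) (h2 : ∀ a ∈ S \ S', θ + gap ≤ E a i0)
    (h : ∑ a ∈ S, LP ρ (g a) (E a) = 0) : ∑ a ∈ S', LP ρ (g a) (E a) = 0 := by
  classical
  -- shift
  let φ : L[X] →+* L[X] := Polynomial.compRingHom (X + C (ρ i0))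
  have hφi : Function.Injective φ := by
    intro p q hpq
    have := congrArg (fun P => P.comp (X - C (ρ i0))) hpq
    simp only [φ, coe_compRingHom, comp_assoc] at this
    simpa using this
  let κ' := {i : κ // i ≠ i0}
  let F : κ' → L[X] := fun i => X + C (ρ i0 - ρ i.1)
  have hφ : ∀ a, φ (LP ρ (g a) (E a)) = MP F (g a) (E a i0) (fun i : κ' => E a i.1) := by
    intro a
    unfold LP MP PP
    rw [map_mul, map_prod]
    have e1 : φ (C (g a)) = C (g a) := by simp [φ]
    have e2 : ∀ i, φ ((X - C (ρ i)) ^ E a i) = (X + C (ρ i0 - ρ i)) ^ E a i := by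
      intro i
      rw [map_pow]
      congr 1
      simp only [φ, coe_compRingHom, sub_comp, X_comp, C_comp, C_sub]
      ring
    rw [e1, Finset.prod_congr rfl fun i _ => e2 i]
    have e3 : ∏ i, (X + C (ρ i0 - ρ i)) ^ E a i =
        X ^ E a i0 * ∏ i : κ', F i ^ E a i.1 := by
      rw [← Finset.mul_prod_erase _ _ (Finset.mem_univ i0)]
      congr 1
      · rw [sub_self, C_0, add_zero]
      · rw [← Finset.prod_subtype (Finset.univ.erase i0) (p := fun i => i ≠ i0) (by simp)
          (fun i => (X + C (ρ i0 - ρ i)) ^ E a i)]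
    rw [e3]
    ring
  have hF0 : ∀ i : κ', (F i).coeff 0 ≠ 0 := by
    intro i
    simp only [F, coeff_add, coeff_X_zero, coeff_C_zero, zero_add]
    exact sub_ne_zero.mpr fun h => i.2 (hρ h).symm
  have hFd : ∑ i : κ', (F i).natDegree ≤ Fintype.card κ := by
    refine (Finset.sum_le_card_nsmul _ _ 1 fun i _ => ?_).trans ?_
    · simp only [F]
      exact (natDegree_X_add_C _).le
    · rw [smul_eq_mul, mul_one, Finset.card_univ]
      exact Fintype.card_subtype_le _
  apply hφi
  rw [map_zero, map_sum, Finset.sum_congr rfl fun a _ => hφ a]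
  -- nonzero coefficients
  obtain ⟨g', hg'⟩ : ∃ g' : ι → L, g' = fun a => if g a = 0 then 1 else g a := ⟨_, rfl⟩
  have hg'0 : ∀ a, g' a ≠ 0 := by
    intro a
    rw [hg']
    simp only
    split_ifs with h
    · exact one_ne_zero
    · exact h
  have hg'e : ∀ a ∈ S, g' a = g a := by
    intro a ha
    rw [hg']
    simp only
    rw [if_neg (hg a ha)]
  have hcong : ∑ a ∈ S', MP F (g a) (E a i0) (fun i : κ' => E a i.1) =
      ∑ a ∈ S', MP F (g' a) (E a i0) (fun i : κ' => E a i.1) :=
    Finset.sum_congr rfl fun a ha => by rw [hg'e a (hS' ha)]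
  rw [hcong]
  refine exact_MP hF0 hg'0 (fun a => E a i0) (fun a (i : κ') => E a i.1) hFd S' (θ + gap) ?_ ?_
  · intro a ha
    have := h1 a ha
    have := gg_mono (Fintype.card κ + 1) ((Finset.card_le_card hS').trans hS) 0
    omega
  · rw [← hcong]
    have h3 := congrArg φ h
    rw [map_zero, map_sum, Finset.sum_congr rfl fun a _ => hφ a, ← Finset.sum_sdiff hS'] at h3
    have h4 : ∑ a ∈ S', MP F (g a) (E a i0) (fun i : κ' => E a i.1) =
        - ∑ a ∈ S \ S', MP F (g a) (E a i0) (fun i : κ' => E a i.1) := by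
      linear_combination h3
    rw [h4, dvd_neg]
    refine Finset.dvd_sum fun a ha => ?_
    unfold MP
    exact Dvd.dvd.mul_right (pow_dvd_pow X (h2 a ha)) _

/-- splitting at one root -/
theorem split_place [DecidableEq κ] [DecidableEq ι] (ρ : κ → L) (hρ : Function.Injective ρ)
    (i0 : κ) (n gap : ℕ) (hgap : gg (Fintype.card κ + 1) n 0 ≤ gap) (g : ι → L)
    (E : ι → κ → ℕ) (lam : ι → ℕ) :
    ∀ (c : ℕ) (S : Finset ι), S.card ≤ c → (∀ a ∈ S, g a ≠ 0) → S.card ≤ n →
      (∀ a ∈ S, ∀ b ∈ S, E a i0 ≤ E b i0 → E b i0 ≤ E a i0 + gap → lam a = lam b) →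
      ∑ a ∈ S, LP ρ (g a) (E a) = 0 → ∀ w : ℕ,
      ∑ a ∈ S with lam a = w, LP ρ (g a) (E a) = 0 := by
  intro c
  induction c with
  | zero =>
    intro S hS _ _ _ _ w
    rw [Nat.le_zero, Finset.card_eq_zero] at hS
    rw [hS, Finset.filter_empty, Finset.sum_empty]
  | succ c ih =>
    intro S hSc hg hSn hlam h w
    by_cases hsp : ∃ θ : ℕ, (∃ a ∈ S, E a i0 ≤ θ) ∧ (∃ a ∈ S, θ < E a i0) ∧
        ∀ a ∈ S, θ < E a i0 → θ + gap ≤ E a i0
    · obtain ⟨θ, ⟨a1, ha1, h1⟩, ⟨a2, ha2, h2⟩, h3⟩ := hsp
      obtain ⟨S1, hS1⟩ : ∃ S1 : Finset ι, S1 = S.filter (fun a => E a i0 ≤ θ) := ⟨_, rfl⟩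
      have hS1S : S1 ⊆ S := by rw [hS1]; exact Finset.filter_subset _ _
      have hz1 : ∑ a ∈ S1, LP ρ (g a) (E a) = 0 := by
        refine split_low ρ hρ i0 n gap hgap g E S S1 hg hSn hS1S θ ?_ ?_ h
        · intro a ha
          rw [hS1, Finset.mem_filter] at ha
          exact ha.2
        · intro a ha
          rw [Finset.mem_sdiff, hS1, Finset.mem_filter, not_and] at ha
          exact h3 a ha.1 (not_le.mp (ha.2 ha.1))
      have hz2 : ∑ a ∈ S \ S1, LP ρ (g a) (E a) = 0 := by
        have := Finset.sum_sdiff hS1S (f := fun a => LP ρ (g a) (E a))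
        rw [h, hz1, add_zero] at this
        exact this
      have hc1 : S1.card < S.card := by
        apply Finset.card_lt_card
        refine Finset.ssubset_iff_subset_ne.mpr ⟨hS1S, fun he => ?_⟩
        have : a2 ∈ S1 := by rw [he]; exact ha2
        rw [hS1, Finset.mem_filter] at this
        omega
      have hc2 : (S \ S1).card < S.card := by
        rw [Finset.card_sdiff_of_subset hS1S]
        have : 0 < S1.card := Finset.card_pos.mpr ⟨a1, by
          rw [hS1, Finset.mem_filter]
          exact ⟨ha1, h1⟩⟩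
        omega
      have i1 := ih S1 (by omega) (fun a ha => hg a (hS1S ha)) (by omega)
        (fun a ha b hb => hlam a (hS1S ha) b (hS1S hb)) hz1 w
      have i2 := ih (S \ S1) (by omega) (fun a ha => hg a (Finset.sdiff_subset ha)) (by omega)
        (fun a ha b hb => hlam a (Finset.sdiff_subset ha) b (Finset.sdiff_subset hb)) hz2 w
      have h5 : S.filter (fun a => lam a = w) =
          (S1.filter (fun a => lam a = w)) ∪ ((S \ S1).filter (fun a => lam a = w)) := by
        rw [← Finset.filter_union, Finset.union_sdiff_of_subset hS1S]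
      rw [h5, Finset.sum_union, i1, i2, add_zero]
      exact Finset.disjoint_filter_filter Finset.disjoint_sdiff
    · push Not at hsp
      -- all the weights agree
      rcases S.eq_empty_or_nonempty with rfl | hne
      · rw [Finset.filter_empty, Finset.sum_empty]
      obtain ⟨b0, hb0, hmax⟩ := Finset.exists_max_image S (fun a => E a i0) hne
      have hall : ∀ (k : ℕ), ∀ a ∈ S, E b0 i0 - E a i0 ≤ k → lam a = lam b0 := by
        intro k
        induction k with
        | zero =>
          intro a ha hk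
          have := hmax a ha
          exact hlam a ha b0 hb0 this (by omega)
        | succ k ihk =>
          intro a ha hk
          by_cases hab : E b0 i0 ≤ E a i0
          · exact hlam a ha b0 hb0 (hmax a ha) (by omega)
          · obtain ⟨b, hb, hb1, hb2⟩ := hsp (E a i0) ⟨a, ha, le_rfl⟩ ⟨b0, hb0, by omega⟩
            rw [hlam a ha b hb hb1.le (by omega)]
            exact ihk b hb (by omega)
      by_cases hw : lam b0 = w
      · rw [Finset.filter_true_of_mem fun a ha => (hall _ a ha le_rfl).trans hw]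
        exact h
      · rw [Finset.filter_false_of_mem fun a ha => by
          rw [hall _ a ha le_rfl]
          exact hw, Finset.sum_empty]

/-- splitting at several roots -/
theorem split_places [DecidableEq κ] [DecidableEq ι] (ρ : κ → L) (hρ : Function.Injective ρ)
    (n gap : ℕ) (hgap : gg (Fintype.card κ + 1) n 0 ≤ gap) (g : ι → L)
    (E : ι → κ → ℕ) (lam : κ → ι → ℕ) (S : Finset ι) (hg : ∀ a ∈ S, g a ≠ 0) (hn : S.card ≤ n)
    (hlam : ∀ i, ∀ a ∈ S, ∀ b ∈ S, E a i ≤ E b i → E b i ≤ E a i + gap → lam i a = lam i b)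
    (h : ∑ a ∈ S, LP ρ (g a) (E a) = 0) (w : κ → ℕ) (I : Finset κ) :
    ∑ a ∈ S with ∀ i ∈ I, lam i a = w i, LP ρ (g a) (E a) = 0 := by
  induction I using Finset.induction_on with
  | empty =>
    rw [Finset.filter_true_of_mem]
    · exact h
    · intro a _ i hi
      exact absurd hi (Finset.notMem_empty i)
  | insert i0 I hi ih =>
    have h1 : S.filter (fun a => ∀ i ∈ insert i0 I, lam i a = w i) =
        (S.filter (fun a => ∀ i ∈ I, lam i a = w i)).filter (fun a => lam i0 a = w i0) := by
      ext a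
      simp only [Finset.mem_filter, Finset.mem_insert, forall_eq_or_imp]
      tauto
    rw [h1]
    have hsub : S.filter (fun a => ∀ i ∈ I, lam i a = w i) ⊆ S := Finset.filter_subset _ _
    exact split_place ρ hρ i0 n gap hgap g E (lam i0) _ _ le_rfl (fun a ha => hg a (hsub ha))
      ((Finset.card_le_card hsub).trans hn)
      (fun a ha b hb => hlam i0 a (hsub ha) b (hsub hb)) ih (w i0)

end one

/-- separating weights -/
theorem exists_code {κ : Type*} [DecidableEq κ] (B : ℕ) (I : Finset κ) :
    ∃ c : κ → ℕ, ∀ u u' : κ → ℕ, (∀ i, u i ≤ B) → (∀ i, u' i ≤ B) →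
      ∑ i ∈ I, c i * u i = ∑ i ∈ I, c i * u' i → ∀ i ∈ I, u i = u' i := by
  induction I using Finset.induction_on with
  | empty => exact ⟨fun _ => 0, fun u u' _ _ _ i hi => absurd hi (Finset.notMem_empty i)⟩
  | insert a I ha ih =>
    obtain ⟨c, hc⟩ := ih
    refine ⟨fun i => if i = a then 1 else (B + 1) * c i, ?_⟩
    intro u u' hu hu' h
    have key : ∀ u : κ → ℕ, ∑ i ∈ insert a I, (if i = a then 1 else (B + 1) * c i) * u i =
        u a + (B + 1) * ∑ i ∈ I, c i * u i := by
      intro u
      rw [Finset.sum_insert ha, if_pos rfl, one_mul, Finset.mul_sum]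
      congr 1
      refine Finset.sum_congr rfl fun i hi => ?_
      rw [if_neg (fun h' : i = a => ha (h' ▸ hi)), mul_assoc]
    rw [key u, key u'] at h
    have h1 : u a = u' a := by
      have h2 := congrArg (· % (B + 1)) h
      simp only [Nat.add_mul_mod_self_left] at h2
      rwa [Nat.mod_eq_of_lt (Nat.lt_succ_of_le (hu a)),
        Nat.mod_eq_of_lt (Nat.lt_succ_of_le (hu' a))] at h2
    have h3 : ∑ i ∈ I, c i * u i = ∑ i ∈ I, c i * u' i := by
      rw [h1] at h
      exact Nat.eq_of_mul_eq_mul_left (Nat.succ_pos B) (Nat.add_left_cancel h)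
    intro i hi
    rcases Finset.mem_insert.mp hi with rfl | hi
    · exact h1
    · exact hc u u' hu hu' h3 i hi

end Pool.Agent.Q29.SE
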