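import Mathlib
import Pool.Agent.Q29.SE.Split
import Pool.Agent.Q29.SE.Proj
import Pool.Agent.H458.Sp.ReduceNat
import Pool.Agent.H533R3.SL.Cur

/-!
# Deformations of points given by short sums of power products
-/

set_option autoImplicit false
set_option linter.unusedSectionVars false

namespace Pool.Agent.Q29.SE

open Polynomial Finset Pool.Agent.Q103.SD Pool.Agent.H533R3.SL

variable {A : Type} [CommRing A] [IsDomain A] [CharZero A] {κ : Type} [Fintype κ]

/-- the linear polynomials `1 + a_j X` -/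
noncomputable def lf (a : κ → A) (j : κ) : A[X] := 1 + C (a j) * X

theorem lf_coeff_zero (a : κ → A) (j : κ) : (lf a j).coeff 0 = 1 := by
  unfold lf
  simp

theorem lf_ne_zero (a : κ → A) (j : κ) : lf a j ≠ 0 := by
  intro h
  have := lf_coeff_zero a j
  rw [h, coeff_zero] at this
  exact zero_ne_one this

theorem lf_natDegree (a : κ → A) (j : κ) : (lf a j).natDegree ≤ 1 := by
  unfold lf
  refine (natDegree_add_le _ _).trans ?_
  rw [natDegree_one]
  have := natDegree_C_mul_X_pow_le (a j) 1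
  rw [pow_one] at this
  omega

theorem lf_sum_deg (a : κ → A) : ∑ j, (lf a j).natDegree ≤ Fintype.card κ := by
  refine (Finset.sum_le_card_nsmul _ _ 1 fun i _ => lf_natDegree a i).trans ?_
  rw [smul_eq_mul, mul_one, Finset.card_univ]

theorem lf_size {s : A → ℝ} (hs : SizeFn s) {a : κ → A} {H : ℝ} (hH : 1 ≤ H)
    (haH : ∀ j, s (a j) ≤ H) (j : κ) (i : ℕ) : s ((lf a j).coeff i) ≤ H := by
  rcases i with _ | i
  · rw [lf_coeff_zero]
    exact hs.one.trans hH
  · unfold lf
    rw [coeff_add, coeff_one, if_neg (Nat.succ_ne_zero i), zero_add, coeff_C_mul, coeff_X]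
    split_ifs with h
    · rw [mul_one]
      exact haH j
    · rw [mul_zero, hs.zero]
      linarith

/-- exponents at all places -/
def EX (m : ℕ) (e : κ → ℕ) : Option κ → ℕ
  | none => m
  | some i => e i

/-- the roots -/
noncomputable def rts {L : Type*} [Field L] [Algebra A L] (a : κ → A) : Option κ → L
  | none => 0
  | some j => - (algebraMap A L (a j))⁻¹

theorem rts_inj {L : Type*} [Field L] [Algebra A L] (hL : Function.Injective (algebraMap A L))
    {a : κ → A} (ha : Function.Injective a) (ha0 : ∀ j, a j ≠ 0) :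
    Function.Injective (rts (L := L) a) := by
  have h0 : ∀ j, algebraMap A L (a j) ≠ 0 := fun j => (map_ne_zero_iff _ hL).mpr (ha0 j)
  intro i j h
  cases i with
  | none =>
    cases j with
    | none => rfl
    | some j =>
      exfalso
      simp only [rts] at h
      exact inv_ne_zero (h0 j) (neg_eq_zero.mp h.symm)
  | some i =>
    cases j with
    | none =>
      exfalso
      simp only [rts] at h
      exact inv_ne_zero (h0 i) (neg_eq_zero.mp h)
    | some j =>
      simp only [rts, neg_inj, inv_inj] at h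
      rw [ha (hL h)]

theorem map_MP {L : Type*} [Field L] [Algebra A L] (hL : Function.Injective (algebraMap A L))
    {a : κ → A} (ha0 : ∀ j, a j ≠ 0) (g : A) (m : ℕ) (e : κ → ℕ) :
    (MP (lf a) g m e).map (algebraMap A L) =
      LP (rts a) (algebraMap A L (g * ∏ j, a j ^ e j)) (EX m e) := by
  have h0 : ∀ j, algebraMap A L (a j) ≠ 0 := fun j => (map_ne_zero_iff _ hL).mpr (ha0 j)
  unfold MP PP LP
  rw [Fintype.prod_option, Polynomial.map_mul, Polynomial.map_mul, Polynomial.map_prod,
    Polynomial.map_pow, map_X, map_C]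
  simp only [rts, EX, C_0, sub_zero, C_neg, sub_neg_eq_add]
  have h1 : ∀ j, ((lf a j) ^ e j).map (algebraMap A L) =
      C (algebraMap A L (a j) ^ e j) * (X + C ((algebraMap A L (a j))⁻¹)) ^ e j := by
    intro j
    unfold lf
    rw [Polynomial.map_pow, Polynomial.map_add, Polynomial.map_one, Polynomial.map_mul, map_X,
      map_C, C_pow, ← mul_pow]
    congr 1
    rw [mul_add, ← C_mul, mul_inv_cancel₀ (h0 j), C_1]
    ring
  rw [Finset.prod_congr rfl fun j _ => h1 j, Finset.prod_mul_distrib]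
  have h2 : C (algebraMap A L (g * ∏ j, a j ^ e j)) =
      C (algebraMap A L g) * ∏ j, C (algebraMap A L (a j) ^ e j) := by
    rw [map_mul, C_mul, map_prod, map_prod]
    simp only [map_pow]
  rw [h2]
  ring

theorem split_MP [DecidableEq κ] {ι : Type*} [DecidableEq ι] {a : κ → A}
    (ha : Function.Injective a) (ha0 : ∀ j, a j ≠ 0) (n gap : ℕ)
    (hgap : gg (Fintype.card κ + 2) n 0 ≤ gap) (g : ι → A) (m : ι → ℕ)
    (e : ι → κ → ℕ) (lam : Option κ → ι → ℕ) (S : Finset ι) (hg : ∀ a ∈ S, g a ≠ 0)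
    (hn : S.card ≤ n)
    (hlam : ∀ i, ∀ a ∈ S, ∀ b ∈ S, EX (m a) (e a) i ≤ EX (m b) (e b) i →
      EX (m b) (e b) i ≤ EX (m a) (e a) i + gap → lam i a = lam i b)
    (h : ∑ k ∈ S, MP (lf a) (g k) (m k) (e k) = 0) (w : Option κ → ℕ) :
    ∑ k ∈ S with ∀ i, lam i k = w i, MP (lf a) (g k) (m k) (e k) = 0 := by
  classical
  have hL : Function.Injective (algebraMap A (FractionRing A)) := IsFractionRing.injective _ _
  have : CharZero (FractionRing A) := charZero_of_injective_algebraMap hL
  have hmap : Function.Injective (Polynomial.map (algebraMap A (FractionRing A))) :=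
    Polynomial.map_injective _ hL
  apply hmap
  rw [Polynomial.map_zero, Polynomial.map_sum]
  have h1 := congrArg (Polynomial.map (algebraMap A (FractionRing A))) h
  rw [Polynomial.map_zero, Polynomial.map_sum] at h1
  simp only [map_MP hL ha0] at h1 ⊢
  have key := split_places (rts (L := FractionRing A) a) (rts_inj hL ha ha0) n gap (by
    rw [Fintype.card_option]
    exact hgap) (fun k => algebraMap A (FractionRing A) (g k * ∏ j, a j ^ e k j))
    (fun k => EX (m k) (e k)) lam S (fun k hk => by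
      rw [map_ne_zero_iff _ hL]
      exact mul_ne_zero (hg k hk) (Finset.prod_ne_zero_iff.mpr fun j _ => pow_ne_zero _ (ha0 j)))
    hn hlam h1 w Finset.univ
  simpa using key

variable {n r : ℕ}

/-- exponents with the same small relations -/
theorem exists_small (d gap : ℕ) (hd : 1 ≤ d) (hgap : 1 ≤ gap) (m : Fin r → ℕ) :
    ∃ m' : Fin r → ℕ, (∀ j, m' j ≤ m j) ∧ (∀ j, m' j ≤ 2 * (2 * (2 * d)) ^ r * gap) ∧
      ∀ β γ : Fin r →₀ ℕ, (β.sum fun _ k => k) ≤ d → (γ.sum fun _ k => k) ≤ d →
        wm m β ≤ wm m γ → wm m γ ≤ wm m β + gap →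
        wm (fun j => m j - m' j) β = wm (fun j => m j - m' j) γ := by
  obtain ⟨m', h1, h2, h3⟩ := Pool.Agent.H458.Sp.reduce_nat (2 * d) gap (by omega) hgap
    {R : Fin r → ℤ | ∑ j, |R j| ≤ ((2 * d : ℕ) : ℤ) ∧ |∑ j, R j * (m j : ℤ)| ≤ gap}
    (fun R hR => hR.1) (∑ j, m j) m
    (fun j => Finset.single_le_sum (f := m) (fun _ _ => Nat.zero_le _) (Finset.mem_univ j))
    (fun R hR => hR.2)
  refine ⟨m', h1, h2, ?_⟩
  intro β γ hβ hγ hle hge
  rw [Finsupp.sum_fintype _ _ (by simp)] at hβ hγ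
  have h4 : (fun j => (γ j : ℤ) - β j) ∈ {R : Fin r → ℤ | ∑ j, |R j| ≤ ((2 * d : ℕ) : ℤ) ∧
      |∑ j, R j * (m j : ℤ)| ≤ gap} := by
    refine ⟨?_, ?_⟩
    · calc ∑ j, |(γ j : ℤ) - β j| ≤ ∑ j, ((γ j : ℤ) + β j) := by
            refine Finset.sum_le_sum fun j _ => ?_
            rw [abs_le]
            constructor <;> omega
        _ = ((∑ j, γ j : ℕ) : ℤ) + ((∑ j, β j : ℕ) : ℤ) := by
            push_cast
            rw [Finset.sum_add_distrib]
        _ ≤ ((2 * d : ℕ) : ℤ) := by
            push_cast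
            have h5 : ((∑ j, γ j : ℕ) : ℤ) ≤ d := by exact_mod_cast hγ
            have h6 : ((∑ j, β j : ℕ) : ℤ) ≤ d := by exact_mod_cast hβ
            push_cast at h5 h6
            linarith
    · have h5 : ∑ j, ((γ j : ℤ) - β j) * (m j : ℤ) = (wm m γ : ℤ) - wm m β := by
        unfold wm
        push_cast
        rw [← Finset.sum_sub_distrib]
        exact Finset.sum_congr rfl fun j _ => by ring
      rw [h5, abs_le]
      constructor <;> omega
  have h5 := h3 _ h4
  have h6 : ∑ j, ((γ j : ℤ) - β j) * ((m j - m' j : ℕ) : ℤ) = 0 := by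
    have h7 : ∀ j, ((m j - m' j : ℕ) : ℤ) = (m j : ℤ) - m' j := fun j => by
      rw [Nat.cast_sub (h1 j)]
    simp only [h7, mul_sub, Finset.sum_sub_distrib]
    have h8 : ∑ j, ((γ j : ℤ) - β j) * (m' j : ℤ) = ∑ j, ((γ j : ℤ) - β j) * (m j : ℤ) := h5
    simp only [sub_mul, Finset.sum_sub_distrib] at h8 ⊢
    linarith
  have h7 : (wm (fun j => m j - m' j) γ : ℤ) - wm (fun j => m j - m' j) β = 0 := by
    rw [← h6]
    unfold wm
    push_cast
    rw [← Finset.sum_sub_distrib]
    exact Finset.sum_congr rfl fun j _ => by ring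
  have : (wm (fun j => m j - m' j) γ : ℤ) = wm (fun j => m j - m' j) β := by linarith
  exact_mod_cast this.symm

/-- **The deformation**, with the weights of the constant terms. -/
theorem deform' [DecidableEq κ] {a : κ → A} (ha : Function.Injective a) (ha0 : ∀ j, a j ≠ 0)
    (d gap : ℕ) (hd : 1 ≤ d) (hgap1 : 1 ≤ gap)
    (hgap : gg (Fintype.card κ + 2) ((d + 1) ^ r) 0 ≤ gap)
    (m : Fin r → ℕ) (e : Fin r → κ → ℕ) :
    ∃ (m' : Fin r → ℕ) (e' : Fin r → κ → ℕ) (μ : Fin r → ℕ),
      (∀ l, m' l ≤ m l) ∧ (∀ l j, e' l j ≤ e l j) ∧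
      (∀ l, m' l ≤ 2 * (2 * (2 * d)) ^ r * gap) ∧
      (∀ l j, e' l j ≤ 2 * (2 * (2 * d)) ^ r * gap) ∧
      (∀ l l', μ l = μ l' → m l - m' l = m l' - m' l' ∧
        ∀ j, e l j - e' l j = e l' j - e' l' j) ∧
      (∀ l, μ l = 0 → m l - m' l = 0 ∧ ∀ j, e l j - e' l j = 0) ∧
      ∀ (v : Fin r → Fin (n + 1) → A) (G : MvPolynomial (Fin (n + 1)) A), G.totalDegree ≤ d →
        MvPolynomial.aeval (pt (lf a) m e v) G = 0 → ∀ t : A,
        MvPolynomial.aeval (cur (fun l i => v l i * (MP (lf a) 1 (m l) (e l)).eval t) μ) G = 0 := by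
  classical
  choose E' hE1 hE2 hE3 using fun i : Option κ =>
    exists_small d gap hd hgap1 (fun l => EX (m l) (e l) i)
  obtain ⟨lam, hlam⟩ : ∃ lam : Option κ → Fin r → ℕ,
    lam = fun i l => EX (m l) (e l) i - E' i l := ⟨_, rfl⟩
  obtain ⟨B, hB⟩ : ∃ B, B = ∑ i, ∑ l, lam i l := ⟨_, rfl⟩
  have hlamB : ∀ i l, lam i l ≤ B := by
    intro i l
    rw [hB]
    exact (Finset.single_le_sum (f := fun l => lam i l) (fun _ _ => Nat.zero_le _)
      (Finset.mem_univ l)).trans (Finset.single_le_sum (f := fun i => ∑ l, lam i l)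
      (fun _ _ => Nat.zero_le _) (Finset.mem_univ i))
  obtain ⟨c, hc⟩ := exists_code (κ := Option κ) B Finset.univ
  refine ⟨fun l => E' none l, fun l j => E' (some j) l, fun l => ∑ i, c i * lam i l,
    fun l => hE1 none l, fun l j => hE1 (some j) l, fun l => hE2 none l,
    fun l j => hE2 (some j) l, ?_, ?_, ?_⟩
  · intro l l' h
    have h1 := hc (fun i => lam i l) (fun i => lam i l') (fun i => hlamB i l)
      (fun i => hlamB i l') h
    refine ⟨?_, fun j => ?_⟩
    · have := h1 none (Finset.mem_univ _)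
      rw [hlam] at this
      exact this
    · have := h1 (some j) (Finset.mem_univ _)
      rw [hlam] at this
      exact this
  · intro l h
    have h1 := hc (fun i => lam i l) (fun _ => 0) (fun i => hlamB i l)
      (fun _ => Nat.zero_le _) (by simpa using h)
    refine ⟨?_, fun j => ?_⟩
    · have := h1 none (Finset.mem_univ _)
      rw [hlam] at this
      exact this
    · have := h1 (some j) (Finset.mem_univ _)
      rw [hlam] at this
      exact this
  · intro v G hG h0 t
    rw [aeval_pt] at h0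
    obtain ⟨M, hM⟩ : ∃ M : Fin r → A, M = fun l => (MP (lf a) 1 (m l) (e l)).eval t := ⟨_, rfl⟩
    obtain ⟨μ, hμ⟩ : ∃ μ : Fin r → ℕ, μ = fun l => ∑ i, c i * lam i l := ⟨_, rfl⟩
    rw [← hμ]
    have h1 : cur (fun l i => v l i * (MP (lf a) 1 (m l) (e l)).eval t) μ =
        fun i => ∑ l, algebraMap A A[X] (v l i) * (C (M l) * X ^ μ l) := by
      funext i
      unfold cur
      refine Finset.sum_congr rfl fun l _ => ?_
      rw [C_mul, hM, mul_assoc]
      rfl
    rw [h1, eval_GG (R := A[X]) v (fun l => C (M l) * X ^ μ l) G]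
    obtain ⟨S, hS⟩ : ∃ S, S = (GG v G).support := ⟨_, rfl⟩
    rw [← hS] at h0 ⊢
    obtain ⟨Λ, hΛ⟩ : ∃ Λ : (Fin r →₀ ℕ) → (Option κ → ℕ), Λ = fun β i => wm (lam i) β := ⟨_, rfl⟩
    have h2 : ∀ β : Fin r →₀ ℕ, algebraMap A A[X] (MvPolynomial.coeff β (GG v G)) *
        ∏ l, (C (M l) * X ^ μ l) ^ β l =
        C ((MP (lf a) (MvPolynomial.coeff β (GG v G)) (wm m β) (we e β)).eval t) *
          X ^ (∑ i, c i * Λ β i) := by
      intro β
      have h3 : ∏ l, (C (M l) * X ^ μ l : A[X]) ^ β l =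
          C (∏ l, M l ^ β l) * X ^ (∑ i, c i * Λ β i) := by
        simp only [mul_pow, Finset.prod_mul_distrib, ← pow_mul, Finset.prod_pow_eq_pow_sum]
        rw [map_prod]
        congr 1
        · exact Finset.prod_congr rfl fun l _ => (map_pow _ _ _).symm
        · congr 1
          rw [hμ, hΛ]
          unfold wm
          simp only [Finset.mul_sum, Finset.sum_mul]
          rw [Finset.sum_comm]
          refine Finset.sum_congr rfl fun i _ => Finset.sum_congr rfl fun l _ => ?_
          ring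
      rw [h3, ← prod_MP, eval_mul, eval_C, eval_prod, C_mul, mul_assoc]
      congr 2
      rw [hM]
      simp only [eval_pow]
    rw [Finset.sum_congr rfl fun β _ => h2 β,
      ← Finset.sum_fiberwise_of_maps_to (fun β hβ => Finset.mem_image_of_mem Λ hβ)]
    refine Finset.sum_eq_zero fun w _ => ?_
    have h4 : ∑ β ∈ S with Λ β = w, C ((MP (lf a) (MvPolynomial.coeff β (GG v G)) (wm m β)
        (we e β)).eval t) * X ^ (∑ i, c i * Λ β i) =
        C ((∑ β ∈ S with Λ β = w, MP (lf a) (MvPolynomial.coeff β (GG v G)) (wm m β)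
        (we e β)).eval t) * X ^ (∑ i, c i * w i) := by
      rw [eval_finsetSum, map_sum, Finset.sum_mul]
      refine Finset.sum_congr rfl fun β hβ => ?_
      rw [Finset.mem_filter] at hβ
      rw [hβ.2]
    rw [h4]
    have h5 : ∑ β ∈ S with Λ β = w, MP (lf a) (MvPolynomial.coeff β (GG v G)) (wm m β)
        (we e β) = 0 := by
      have h6 := split_MP ha ha0 ((d + 1) ^ r) gap hgap
        (fun β => MvPolynomial.coeff β (GG v G)) (fun β => wm m β) (fun β => we e β)
        (fun i β => Λ β i) S (fun β hβ => by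
          rw [hS] at hβ
          exact MvPolynomial.mem_support_iff.mp hβ) (by
          rw [hS]
          exact support_card (GG v G) d (GG_deg v G d hG)) ?_ h0 w
      · have h7 : S.filter (fun β => Λ β = w) = S.filter (fun β => ∀ i, Λ β i = w i) := by
          apply Finset.filter_congr
          intro β _
          exact funext_iff
        rw [h7]
        exact h6
      · intro i β hβ γ hγ hle hge
        rw [hS] at hβ hγ
        have hdβ := sum_le_deg (GG_deg v G d hG) hβ
        have hdγ := sum_le_deg (GG_deg v G d hG) hγ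
        have hEX : ∀ δ : Fin r →₀ ℕ, EX (wm m δ) (we e δ) i =
            wm (fun l => EX (m l) (e l) i) δ := by
          intro δ
          cases i with
          | none => rfl
          | some j => rfl
        rw [hEX, hEX] at hle hge
        have := hE3 i β γ hdβ hdγ hle hge
        rw [hΛ, hlam]
        exact this
    rw [h5, eval_zero, C_0, zero_mul]


/-- **The deformation.** -/
theorem deform [DecidableEq κ] {a : κ → A} (ha : Function.Injective a) (ha0 : ∀ j, a j ≠ 0)
    (d gap : ℕ) (hd : 1 ≤ d) (hgap1 : 1 ≤ gap)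
    (hgap : gg (Fintype.card κ + 2) ((d + 1) ^ r) 0 ≤ gap)
    (m : Fin r → ℕ) (e : Fin r → κ → ℕ) :
    ∃ (m' : Fin r → ℕ) (e' : Fin r → κ → ℕ) (μ : Fin r → ℕ),
      (∀ l, m' l ≤ m l) ∧ (∀ l j, e' l j ≤ e l j) ∧
      (∀ l, m' l ≤ 2 * (2 * (2 * d)) ^ r * gap) ∧
      (∀ l j, e' l j ≤ 2 * (2 * (2 * d)) ^ r * gap) ∧
      (∀ l l', μ l = μ l' → m l - m' l = m l' - m' l' ∧
        ∀ j, e l j - e' l j = e l' j - e' l' j) ∧
      ∀ (v : Fin r → Fin (n + 1) → A) (G : MvPolynomial (Fin (n + 1)) A), G.totalDegree ≤ d →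
        MvPolynomial.aeval (pt (lf a) m e v) G = 0 → ∀ t : A,
        MvPolynomial.aeval (cur (fun l i => v l i * (MP (lf a) 1 (m l) (e l)).eval t) μ) G = 0 := by
  obtain ⟨m', e', μ, h1, h2, h3, h4, h5, _, h6⟩ := deform' (n := n) ha ha0 d gap hd hgap1 hgap m e
  exact ⟨m', e', μ, h1, h2, h3, h4, h5, h6⟩

end Pool.Agent.Q29.SE
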