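import Mathlib
import Pool.Agent.Q29.SE.Proj
import Pool.Agent.H458.Sp.Points

/-!
# Number fields, and explicit constants
-/

set_option autoImplicit false

namespace Pool.Agent.Q29.SE

open Finset Polynomial Pool.Agent.Q103.SD NumberField Pool.Agent.H458.Sp

section nf

variable {k : Type} [Field k] [NumberField k]

theorem sizeHs : SizeFn (fun x : 𝓞 k => hs x) where
  nonneg := hs_nonneg
  zero := hs_zero
  one := hs_one.le
  add := hs_add
  mul := hs_mul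

theorem norm_le_hs (x : 𝓞 k) : |((Algebra.norm ℤ x : ℤ) : ℝ)| ≤ hs x ^ Module.finrank ℚ k := by
  obtain ⟨σ⟩ : Nonempty (k →+* ℂ) := inferInstance
  have h1 := norm_norm_le_norm_mul_house_pow (algebraMap (𝓞 k) k x) σ
  have h2 : ‖Algebra.norm ℚ (algebraMap (𝓞 k) k x)‖ = |((Algebra.norm ℤ x : ℤ) : ℝ)| := by
    have h3 : ((Algebra.norm ℤ x : ℤ) : ℚ) = Algebra.norm ℚ (algebraMap (𝓞 k) k x) :=
      Algebra.coe_norm_int x
    rw [← h3, Int.norm_cast_rat, Int.norm_eq_abs]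
  rw [h2] at h1
  have h4 : 0 < Module.finrank ℚ k := Module.finrank_pos
  have h5 := norm_embedding_le_house (algebraMap (𝓞 k) k x) σ
  have h6 : hs x ^ Module.finrank ℚ k = hs x * hs x ^ (Module.finrank ℚ k - 1) := by
    rw [← pow_succ']
    congr 1
    omega
  rw [h6]
  refine h1.trans ?_
  exact mul_le_mul_of_nonneg_right h5 (pow_nonneg (house_nonneg _) _)

/-- a multiple of an element of large norm is zero or has large house -/
theorem eq_zero_of_dvd {t x : 𝓞 k} {T : ℝ}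
    (ht : T ^ Module.finrank ℚ k ≤ |((Algebra.norm ℤ t : ℤ) : ℝ)|) (h : t ∣ x) (hx : hs x < T) :
    x = 0 := by
  by_contra hx0
  have h4 : 0 < Module.finrank ℚ k := Module.finrank_pos
  have h1 : (Algebra.norm ℤ t : ℤ) ∣ Algebra.norm ℤ x := map_dvd _ h
  have h2 : (Algebra.norm ℤ x : ℤ) ≠ 0 := by
    rw [Algebra.norm_ne_zero_iff]
    exact hx0
  have h3 : |(Algebra.norm ℤ t : ℤ)| ≤ |(Algebra.norm ℤ x : ℤ)| :=
    Int.le_of_dvd (abs_pos.mpr h2) ((abs_dvd_abs _ _).mpr h1)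
  have h5 : |((Algebra.norm ℤ t : ℤ) : ℝ)| ≤ |((Algebra.norm ℤ x : ℤ) : ℝ)| := by exact_mod_cast h3
  have h6 := norm_le_hs x
  have h7 : hs x ^ Module.finrank ℚ k < T ^ Module.finrank ℚ k :=
    pow_lt_pow_left₀ hx (hs_nonneg _) (by omega)
  linarith

theorem hs_root {ζ : 𝓞 k} {j : ℕ} (hj : 0 < j) (h : ζ ^ j = 1) : hs ζ ≤ 1 := by
  have h1 : ∀ σ : k →+* ℂ, ‖σ (algebraMap (𝓞 k) k ζ)‖ ≤ 1 := by
    intro σ
    have h2 : (σ (algebraMap (𝓞 k) k ζ)) ^ j = 1 := by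
      rw [← map_pow, ← map_pow, h, map_one, map_one]
    have h3 : ‖σ (algebraMap (𝓞 k) k ζ)‖ ^ j = 1 := by rw [← norm_pow, h2, norm_one]
    exact ((pow_eq_one_iff_of_nonneg (norm_nonneg _) (by omega)).mp h3).le
  unfold hs house
  rw [pi_norm_le_iff_of_nonneg zero_le_one]
  intro σ
  exact h1 σ

theorem isUnit_root {ζ : 𝓞 k} {j : ℕ} (hj : 0 < j) (h : ζ ^ j = 1) : IsUnit ζ :=
  IsUnit.of_mul_eq_one (ζ ^ (j - 1)) (by rw [← pow_succ']; convert h using 2; omega)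

theorem nrm_hs {τ : Type} (G : MvPolynomial τ (𝓞 k)) :
    nrm (fun x : 𝓞 k => hs x) G = Pool.Agent.H458.Sp.nrm G := rfl

end nf

section consts

/-- the exponent in the bounds -/
def expo (r d D : ℕ) : ℕ := (D + 4) * 4 ^ ((d + 1) ^ r)

theorem gg_le (D n d : ℕ) : gg D n d ≤ 2 ^ n * (d + D + 1) := by
  induction n generalizing d with
  | zero => simp [gg]
  | succ n ih =>
    simp only [gg]
    have h1 := ih (2 * d + D)
    have h2 : 1 ≤ 2 ^ n := Nat.one_le_two_pow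
    have h3 : 2 ^ (n + 1) * (d + D + 1) = 2 ^ n * (2 * d + D + D + 1) + 2 ^ n := by ring
    rw [h3]
    refine max_le (by omega) ?_
    nlinarith

theorem JJ_le (D n : ℕ) : JJ (D + 1) n ≤ (D + 3) * 4 ^ n := by
  unfold JJ
  have h1 := gg_le (D + 1) n 0
  have h2 : n + 1 ≤ 2 ^ n := Nat.lt_two_pow_self
  have h3 : 1 ≤ 2 ^ n := Nat.one_le_two_pow
  have h4 : (4 : ℕ) ^ n = 2 ^ n * 2 ^ n := by
    rw [← mul_pow]
    norm_num
  rw [h4]
  calc (n + 1) * (gg (D + 1) n 0 + 1) ≤ 2 ^ n * (2 ^ n * (0 + (D + 1) + 1) + 2 ^ n) :=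
        Nat.mul_le_mul h2 (by omega)
    _ = (D + 3) * (2 ^ n * 2 ^ n) := by ring

theorem small_le {r d : ℕ} (hr : 1 ≤ r) (hd : 1 ≤ d) : r + d + 2 ≤ 4 ^ ((d + 1) ^ r) := by
  have h1 : d + 1 ≤ (d + 1) ^ r := Nat.le_self_pow (by omega) _
  have h2 : r + 1 ≤ (d + 1) ^ r := by
    calc r + 1 ≤ 2 ^ r := Nat.lt_two_pow_self
      _ ≤ (d + 1) ^ r := Nat.pow_le_pow_left (by omega) r
  have h3 : ∀ y : ℕ, 2 * y ≤ 4 ^ y := by
    intro y
    induction y with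
    | zero => simp
    | succ y ih =>
      rw [pow_succ]
      have : 1 ≤ 4 ^ y := Nat.one_le_pow _ _ (by norm_num)
      omega
  have := h3 ((d + 1) ^ r)
  omega

theorem expo_ge {r d D : ℕ} (hr : 1 ≤ r) (hd : 1 ≤ d) :
    r + d + 2 + JJ (D + 1) ((d + 1) ^ r) ≤ expo r d D := by
  unfold expo
  have h1 := JJ_le D ((d + 1) ^ r)
  have h2 := small_le hr hd
  have h3 : (D + 4) * 4 ^ ((d + 1) ^ r) = (D + 3) * 4 ^ ((d + 1) ^ r) + 4 ^ ((d + 1) ^ r) := by ring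
  omega

/-- the size condition -/
theorem size_ok {r d D N : ℕ} (hr : 1 ≤ r) (hd : 1 ≤ d) (hN : 1 ≤ N) {W H : ℝ} (hW : 1 ≤ W)
    (hH : 1 ≤ H) : (((d + 1) ^ r : ℕ) : ℝ) * (W * (r * H) ^ d) *
      (((d * N : ℕ) : ℝ) * H) ^ (JJ (D + 1) ((d + 1) ^ r)) <
        (((r : ℝ) + 1) * (d + 1) * W * H * N) ^ expo r d D := by
  have hr1 : (1 : ℝ) ≤ r := by exact_mod_cast hr
  have hd1 : (1 : ℝ) ≤ d := by exact_mod_cast hd
  have hN1 : (1 : ℝ) ≤ N := by exact_mod_cast hN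
  obtain ⟨Z, hZ⟩ : ∃ Z : ℝ, Z = ((r : ℝ) + 1) * (d + 1) * W * H * N := ⟨_, rfl⟩
  rw [← hZ]
  have a1 : 1 ≤ ((r : ℝ) + 1) := by linarith
  have a2 : 1 ≤ ((d : ℝ) + 1) := by linarith
  have b1 : 1 ≤ ((r : ℝ) + 1) * (d + 1) := one_le_mul_of_one_le_of_one_le a1 a2
  have b2 : 1 ≤ ((r : ℝ) + 1) * (d + 1) * W := one_le_mul_of_one_le_of_one_le b1 hW
  have b3 : 1 ≤ ((r : ℝ) + 1) * (d + 1) * W * H := one_le_mul_of_one_le_of_one_le b2 hH
  have c4 : ((r : ℝ) + 1) * (d + 1) * W * H ≤ Z := by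
    rw [hZ]; exact le_mul_of_one_le_right (by linarith) hN1
  have c3 : ((r : ℝ) + 1) * (d + 1) * W ≤ Z := le_trans
    (le_mul_of_one_le_right (by linarith) hH) c4
  have c2 : ((r : ℝ) + 1) * (d + 1) ≤ Z := le_trans (le_mul_of_one_le_right (by linarith) hW) c3
  have hZ1 : 1 ≤ Z := b1.trans c2
  have hZ2 : 1 < Z := by nlinarith
  have e1 : ((d : ℝ) + 1) ≤ Z := by nlinarith
  have e2 : W ≤ Z := by
    refine le_trans ?_ c3
    nlinarith
  have e3 : (r : ℝ) * H ≤ Z := by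
    refine le_trans ?_ c4
    have : (r : ℝ) ≤ (r + 1) * (d + 1) * W := by
      have := one_le_mul_of_one_le_of_one_le a2 hW
      nlinarith
    exact mul_le_mul_of_nonneg_right this (by linarith)
  have e4 : (d : ℝ) * N * H ≤ Z := by
    rw [hZ]
    have : (d : ℝ) ≤ (r + 1) * (d + 1) * W := by
      have := one_le_mul_of_one_le_of_one_le a1 hW
      nlinarith
    have h5 : (d : ℝ) * (H * N) ≤ (r + 1) * (d + 1) * W * (H * N) :=
      mul_le_mul_of_nonneg_right this (by positivity)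
    linarith
  have hmain : (((d + 1) ^ r : ℕ) : ℝ) * (W * (r * H) ^ d) *
      (((d * N : ℕ) : ℝ) * H) ^ (JJ (D + 1) ((d + 1) ^ r)) ≤
        Z ^ (r + 1 + d + JJ (D + 1) ((d + 1) ^ r)) := by
    push_cast
    rw [pow_add, pow_add, pow_add, pow_one]
    have f1 : ((d : ℝ) + 1) ^ r ≤ Z ^ r := pow_le_pow_left₀ (by linarith) e1 r
    have f2 : ((r : ℝ) * H) ^ d ≤ Z ^ d := pow_le_pow_left₀ (by positivity) e3 d
    have f3 : ((d : ℝ) * N * H) ^ (JJ (D + 1) ((d + 1) ^ r)) ≤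
      Z ^ (JJ (D + 1) ((d + 1) ^ r)) := pow_le_pow_left₀ (by positivity) e4 _
    calc ((d : ℝ) + 1) ^ r * (W * (r * H) ^ d) * ((d : ℝ) * N * H) ^ (JJ (D + 1) ((d + 1) ^ r))
        ≤ Z ^ r * (Z * Z ^ d) * Z ^ (JJ (D + 1) ((d + 1) ^ r)) := by gcongr
      _ = _ := by ring
  refine hmain.trans_lt (pow_lt_pow_right₀ hZ2 ?_)
  have := expo_ge (D := D) hr hd
  omega

/-- the bound for the point -/
theorem bound_ok {r d D N : ℕ} (hr : 1 ≤ r) (hd : 1 ≤ d) (hN : 1 ≤ N) {H : ℝ}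
    (hH : 1 ≤ H) : (r : ℝ) * (H * (N * H) ^ (JJ (D + 1) r)) ≤ ((r : ℝ) * N * H) ^ expo r d D := by
  have hr1 : (1 : ℝ) ≤ r := by exact_mod_cast hr
  have hN1 : (1 : ℝ) ≤ N := by exact_mod_cast hN
  have h1 : (1 : ℝ) ≤ r * N := one_le_mul_of_one_le_of_one_le hr1 hN1
  have hZ : 1 ≤ (r : ℝ) * N * H := one_le_mul_of_one_le_of_one_le h1 hH
  have h2 : (r : ℝ) ≤ r * N * H := by
    have := one_le_mul_of_one_le_of_one_le hN1 hH
    nlinarith
  have h3 : H ≤ (r : ℝ) * N * H := by nlinarith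
  have h4 : (N : ℝ) * H ≤ r * N * H := by
    have := one_le_mul_of_one_le_of_one_le hN1 hH
    nlinarith
  have h5 : JJ (D + 1) r ≤ JJ (D + 1) ((d + 1) ^ r) := by
    apply JJ_mono
    calc r ≤ 2 ^ r := Nat.lt_two_pow_self.le
      _ ≤ (d + 1) ^ r := Nat.pow_le_pow_left (by omega) r
  calc (r : ℝ) * (H * (N * H) ^ (JJ (D + 1) r)) ≤
        (r * N * H) * ((r * N * H) * (r * N * H) ^ (JJ (D + 1) r)) := by gcongr
    _ = ((r : ℝ) * N * H) ^ (2 + JJ (D + 1) r) := by rw [pow_add]; ring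
    _ ≤ _ := pow_le_pow_right₀ hZ (by
      have := expo_ge (D := D) hr hd
      omega)

end consts

end Pool.Agent.Q29.SE
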