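import Mathlib
import Pool.Agent.Q29.SE.Deform
import Pool.Agent.Q29.SE.NF

/-!
# Points off the set swept out by the curves with few terms are small
-/

set_option autoImplicit false
set_option linter.unusedSectionVars false

namespace Pool.Agent.Q29.SE

open Polynomial Finset Pool.Agent.Q103.SD Pool.Agent.H533R3.SL

theorem gg_mono_all {D D' : ℕ} (h : D ≤ D') (n : ℕ) :
    ∀ {d d' : ℕ}, d ≤ d' → gg D n d ≤ gg D' n d' := by
  induction n with
  | zero => intro d d' _; exact le_rfl
  | succ n ih =>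
    intro d d' hd
    simp only [gg]
    have := ih (d := 2 * d + D) (d' := 2 * d' + D') (by omega)
    omega

/-- the gap -/
def gap (r d D : ℕ) : ℕ := gg (D + 2) ((d + 1) ^ r) 0 + 1

/-- the bound for the new exponents -/
def bd (r d D : ℕ) : ℕ := 2 * (2 * (2 * d)) ^ r * gap r d D

/-- the bound for the sum of the new exponents -/
def NN (r d D : ℕ) : ℕ := D * bd r d D + 1

/-- the bound for the new degree -/
def EE (r d D : ℕ) : ℕ := bd r d D * (D + 1)

section prop

variable {A : Type*} [CommRing A] [IsDomain A] {τ : Type*}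

/-- proportional vectors -/
def Prp (x y : τ → A) : Prop := ∀ i j, x i * y j = x j * y i

theorem Prp.symm {x y : τ → A} (h : Prp x y) : Prp y x := fun i j => by
  have := h i j
  linear_combination -this

theorem Prp.trans {x z y : τ → A} (hz : z ≠ 0) (h1 : Prp x z) (h2 : Prp z y) : Prp x y := by
  obtain ⟨k, hk⟩ : ∃ k, z k ≠ 0 := by
    by_contra h
    push Not at h
    exact hz (funext h)
  intro i j
  apply mul_left_cancel₀ (mul_ne_zero hk hk)
  have e1 := h1 i k
  have e2 := h2 k j
  have e3 := h1 j k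
  have e4 := h2 k i
  linear_combination (z k * y j) * e1 + (x k * z i) * e2 - (z k * y i) * e3 - (x k * z j) * e4

theorem Prp.smul {x y : τ → A} {u : A} (hu : u ≠ 0) (h : Prp x fun i => u * y i) : Prp x y := by
  intro i j
  apply mul_left_cancel₀ hu
  have := h i j
  linear_combination this

/-- zeros of forms -/
theorem Prp.zero {k : Type*} [CommRing k] [Algebra k A] {x y : τ → A} (hx : x ≠ 0)
    (h : Prp x y) (G : MvPolynomial τ k) (hG : ∃ e, G.IsHomogeneous e)
    (h0 : MvPolynomial.aeval x G = 0) : MvPolynomial.aeval y G = 0 := by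
  obtain ⟨e, he⟩ := hG
  obtain ⟨i0, hi0⟩ : ∃ i, x i ≠ 0 := by
    by_contra h
    push Not at h
    exact hx (funext h)
  have hom : ∀ (c : A) (z : τ → A), MvPolynomial.aeval (fun i => c * z i) G =
      c ^ e * MvPolynomial.aeval z G := by
    intro c z
    rw [MvPolynomial.aeval_def, MvPolynomial.aeval_def, MvPolynomial.eval₂_eq,
      MvPolynomial.eval₂_eq, Finset.mul_sum]
    refine Finset.sum_congr rfl fun α hα => ?_
    simp only [mul_pow, Finset.prod_mul_distrib]
    rw [Finset.prod_pow_eq_pow_sum]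
    have h3 := he (MvPolynomial.mem_support_iff.1 hα)
    rw [Finsupp.weight_apply] at h3
    have h4 : ∑ i ∈ α.support, α i = e := by
      rw [← h3]
      unfold Finsupp.sum
      simp
    rw [h4]
    ring
  have h1 : (fun i => x i0 * y i) = fun i => y i0 * x i := by
    funext i
    have := h i0 i
    linear_combination this
  have h2 := hom (x i0) y
  rw [h1, hom (y i0) x, h0, mul_zero] at h2
  exact (mul_eq_zero.mp h2.symm).resolve_left (pow_ne_zero _ hi0)

end prop

section core

variable {A : Type} [CommRing A] [IsDomain A] [CharZero A] {κ : Type} [Fintype κ] {n r : ℕ}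
  {s : A → ℝ}

/-- at the points with the property `P` the curves with `R` terms are constant -/
def CurvesIn (FF : Set (MvPolynomial (Fin (n + 1)) A)) (P : (Fin (n + 1) → A) → Prop) (R : ℕ) :
    Prop :=
  ∀ (c : Fin R → Fin (n + 1) → A) (l : Fin R → ℕ), (∀ G ∈ FF, MvPolynomial.aeval (cur c l) G = 0) →
    P (fun i => ∑ j, c j i) → ∀ i i', cur c l i * C (∑ j, c j i') = cur c l i' * C (∑ j, c j i)

theorem aeval_comp {k : Type*} [CommRing k] [Algebra k A] {τ : Type*} (q : τ → A[X])
    (G : MvPolynomial τ k) (c : A[X]) :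
    MvPolynomial.aeval (fun i => (q i).comp c) G = (MvPolynomial.aeval q G).comp c := by
  have h3 := congrArg (Polynomial.compRingHom c) (rfl : MvPolynomial.aeval q G =
    MvPolynomial.aeval q G)
  conv_rhs at h3 => rw [MvPolynomial.aeval_def, MvPolynomial.hom_eval₂]
  rw [Polynomial.coe_compRingHom] at h3
  have h4 : (MvPolynomial.aeval q G).comp c = MvPolynomial.eval₂
      (c.compRingHom.comp (algebraMap k A[X])) (fun i => (q i).comp c) G := h3
  rw [h4, MvPolynomial.aeval_def]
  congr 1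
  ext a
  simp [Polynomial.algebraMap_apply]

theorem cur_coeff {R : ℕ} (c : Fin R → Fin (n + 1) → A) (l : Fin R → ℕ) (i : Fin (n + 1))
    (w : ℕ) : (cur c l i).coeff w = ∑ j with l j = w, c j i := by
  unfold cur
  rw [finsetSum_coeff, Finset.sum_filter]
  refine Finset.sum_congr rfl fun j _ => ?_
  rw [coeff_C_mul_X_pow]
  by_cases h : l j = w
  · rw [if_pos h, if_pos h.symm]
  · rw [if_neg h, if_neg fun h' => h h'.symm]

/-- **The core.** -/
theorem core_small (hs : SizeFn s) {a : κ → A} (ha : Function.Injective a)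
    (ha0 : ∀ j, a j ≠ 0) {H : ℝ} (hH : 1 ≤ H) (haH : ∀ j, s (a j) ≤ H) {D : ℕ}
    (hD : Fintype.card κ ≤ D) (m : Fin r → ℕ) (e : Fin r → κ → ℕ) {N : ℕ} (hN : 1 ≤ N)
    (heN : ∀ l, ∑ i, e l i ≤ N) (hr : 1 ≤ r) (v : Fin r → Fin (n + 1) → A)
    (hv : ∀ l i, s (v l i) ≤ H) {d : ℕ} (hd : 1 ≤ d) {W : ℝ} (hW : 1 ≤ W)
    (FF : Set (MvPolynomial (Fin (n + 1)) A))
    (hFF : ∀ G ∈ FF, (∃ e, e ≤ d ∧ G.IsHomogeneous e) ∧ nrm s G ≤ W)
    {t : A} (ht0 : t ≠ 0)
    (hT : ∀ x, t ∣ x → s x < (((r : ℝ) + 1) * (d + 1) * W * H * ((N * NN r d D : ℕ) : ℝ)) ^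
      expo r d D → x = 0)
    (P : (Fin (n + 1) → A) → Prop) (hP : ∀ x y, x ≠ 0 → y ≠ 0 → Prp x y → P x → P y)
    (hP1 : CurvesIn FF P r) (hP2 : CurvesIn FF P (EE r d D + 1))
    (x : Fin (n + 1) → A) (hx : ∀ i, x i = (pt (lf a) m e v i).eval t) (hx0 : x ≠ 0)
    (hzero : ∀ G ∈ FF, MvPolynomial.aeval x G = 0) (hPx : P x) :
    ∃ y : Fin (n + 1) → A, y ≠ 0 ∧ Prp x y ∧
      ∀ i, s (y i) ≤ r * (H * (NN r d D * H) ^ EE r d D) := by
  classical
  have hNN : 1 ≤ NN r d D := by unfold NN; omega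
  have hN'' : 1 ≤ N * NN r d D := Nat.mul_pos hN hNN
  have hr1 : (1 : ℝ) ≤ r := by exact_mod_cast hr
  have hDs : ∑ j, (lf a j).natDegree ≤ D := (lf_sum_deg a).trans hD
  have hFu : ∀ j, IsUnit ((lf a j).coeff 0) := fun j => by
    rw [lf_coeff_zero]
    exact isUnit_one
  have hF0 : ∀ j, s ((lf a j).coeff 0) ≤ 1 := fun j => by
    rw [lf_coeff_zero]
    exact hs.one
  have hFH := lf_size hs hH haH
  -- the identity
  have hid : ∀ G ∈ FF, MvPolynomial.aeval (pt (lf a) m e v) G = 0 := by
    intro G hG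
    obtain ⟨⟨e', he', hom⟩, hn⟩ := hFF G hG
    refine zero_pt hs ht0 hT hDs hH hFu hF0 hFH m e hN'' (fun l => (heN l).trans
      (Nat.le_mul_of_pos_right _ (by omega))) v (one_le_mul_of_one_le_of_one_le hr1 hH) hv G hd
      (hom.totalDegree_le.trans he') hn (size_ok hr hd hN'' hW hH) ?_
    have := hzero G hG
    rwa [show x = fun i => (pt (lf a) m e v i).eval t from funext hx] at this
  -- the deformation
  obtain ⟨m', e', μ, hm', he', hm'b, he'b, hμ, hdef⟩ := deform (n := n) ha ha0 d (gap r d D) hd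
    (by unfold gap; omega) (by
      unfold gap
      have := gg_mono_all (D := Fintype.card κ + 2) (D' := D + 2) (by omega) ((d + 1) ^ r)
        (le_refl 0)
      omega) m e
  have hbd : 2 * (2 * (2 * d)) ^ r * gap r d D = bd r d D := rfl
  rw [hbd] at hm'b he'b
  obtain ⟨c, hc⟩ : ∃ c : Fin r → Fin (n + 1) → A,
    c = fun l i => v l i * (MP (lf a) 1 (m l) (e l)).eval t := ⟨_, rfl⟩
  have hcx : ∀ i, ∑ l, c l i = x i := by
    intro i
    rw [hx i, hc]
    unfold pt
    rw [eval_finsetSum]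
    refine Finset.sum_congr rfl fun l _ => ?_
    rw [eval_mul, eval_C]
  have hcur : ∀ G ∈ FF, MvPolynomial.aeval (cur c μ) G = 0 := by
    intro G hG
    obtain ⟨⟨e', he', hom⟩, hn⟩ := hFF G hG
    rw [hc]
    exact hdef v G (hom.totalDegree_le.trans he') (hid G hG) t
  have hcon := hP1 c μ hcur (by
    rw [show (fun i => ∑ j, c j i) = x from funext hcx]
    exact hPx)
  simp only [hcx] at hcon
  obtain ⟨i0, hi0⟩ : ∃ i, x i ≠ 0 := by
    by_contra h
    push Not at h
    exact hx0 (funext h)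
  -- the class
  obtain ⟨w, hw⟩ : ∃ w, (cur c μ i0).coeff w ≠ 0 := by
    by_contra h
    push Not at h
    have h1 : cur c μ i0 = 0 := Polynomial.ext (by simpa using h)
    have h2 := cur_eval_one c μ i0
    rw [h1, eval_zero, hcx] at h2
    exact hi0 h2.symm
  obtain ⟨S, hS⟩ : ∃ S : Finset (Fin r), S = univ.filter (fun l => μ l = w) := ⟨_, rfl⟩
  have hcw : ∀ i, (cur c μ i).coeff w = ∑ l ∈ S, c l i := fun i => by
    rw [cur_coeff, hS]
  obtain ⟨l0, hl0⟩ : S.Nonempty := by
    rw [Finset.nonempty_iff_ne_empty]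
    intro h
    apply hw
    rw [hcw, h, Finset.sum_empty]
  -- the common factor
  obtain ⟨U, hU⟩ : ∃ U : A, U = t ^ (m l0 - m' l0) *
    ∏ j, ((lf a j).eval t) ^ (e l0 j - e' l0 j) := ⟨_, rfl⟩
  have hfac : ∀ l ∈ S, (MP (lf a) 1 (m l) (e l)).eval t =
      U * (MP (lf a) 1 (m' l) (e' l)).eval t := by
    intro l hl
    have h1 : μ l = μ l0 := by
      rw [hS, Finset.mem_filter] at hl hl0
      rw [hl.2, hl0.2]
    obtain ⟨h2, h3⟩ := hμ l l0 h1
    rw [eval_MP, eval_MP, one_mul, one_mul, hU, ← h2]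
    simp only [← h3]
    have h4 : t ^ m l = t ^ (m l - m' l) * t ^ m' l := by
      rw [← pow_add]
      congr 1
      have := hm' l
      omega
    have h5 : ∏ j, ((lf a j).eval t) ^ e l j =
        (∏ j, ((lf a j).eval t) ^ (e l j - e' l j)) * ∏ j, ((lf a j).eval t) ^ e' l j := by
      rw [← Finset.prod_mul_distrib]
      refine Finset.prod_congr rfl fun j _ => ?_
      rw [← pow_add]
      congr 1
      have := he' l j
      omega
    rw [h4, h5]
    ring
  obtain ⟨v', hv'⟩ : ∃ v' : Fin r → Fin (n + 1) → A, v' = fun l i => if l ∈ S then v l i else 0 :=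
    ⟨_, rfl⟩
  have hv'H : ∀ l i, s (v' l i) ≤ H := by
    intro l i
    rw [hv']
    simp only
    split_ifs
    · exact hv l i
    · rw [hs.zero]
      linarith
  obtain ⟨q, hq⟩ : ∃ q : Fin (n + 1) → A[X], q = pt (lf a) m' e' v' := ⟨_, rfl⟩
  have hqS : ∀ i, ∑ l ∈ S, c l i = U * (q i).eval t := by
    intro i
    rw [hq]
    unfold pt
    rw [eval_finsetSum, Finset.mul_sum, ← Finset.sum_subset (Finset.subset_univ S)]
    · refine Finset.sum_congr rfl fun l hl => ?_
      rw [hc, hv']
      simp only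
      rw [if_pos hl, hfac l hl, eval_mul, eval_C]
      ring
    · intro l _ hl
      rw [hv']
      simp only
      rw [if_neg hl, C_0, zero_mul, eval_zero, mul_zero]
  obtain ⟨z, hz⟩ : ∃ z : Fin (n + 1) → A, z = fun i => (q i).eval t := ⟨_, rfl⟩
  have hUz0 : U * z i0 ≠ 0 := by
    rw [hz]
    simp only
    rw [← hqS i0, ← hcw i0]
    exact hw
  have hU0 : U ≠ 0 := left_ne_zero_of_mul hUz0
  have hz0 : z ≠ 0 := fun h => right_ne_zero_of_mul hUz0 (congrFun h i0)
  have hxz : Prp x z := by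
    apply Prp.smul hU0
    intro i j
    have h1 := congrArg (fun p => Polynomial.coeff p w) (hcon i j)
    simp only [coeff_mul_C, hcw, hqS] at h1
    rw [hz]
    simp only
    linear_combination -h1
  -- the curve of bounded degree
  have hqid : ∀ G ∈ FF, MvPolynomial.aeval q G = 0 := by
    intro G hG
    obtain ⟨⟨e', he', hom⟩, hn⟩ := hFF G hG
    rw [hq]
    refine zero_pt hs ht0 hT hDs hH hFu hF0 hFH m' _ hN'' (fun l => ?_) v'
      (one_le_mul_of_one_le_of_one_le hr1 hH) hv'H G hd
      (hom.totalDegree_le.trans he') hn (size_ok hr hd hN'' hW hH) ?_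
    · refine (Finset.sum_le_card_nsmul _ _ (bd r d D) fun j _ => he'b l j).trans ?_
      rw [smul_eq_mul, Finset.card_univ]
      have h1 : Fintype.card κ * bd r d D ≤ D * bd r d D := Nat.mul_le_mul_right _ hD
      have h2 : NN r d D = D * bd r d D + 1 := rfl
      have h3 : NN r d D ≤ N * NN r d D := Nat.le_mul_of_pos_left _ (by omega)
      omega
    · have h1 := Prp.zero hx0 hxz G ⟨_, hom⟩ (hzero G hG)
      rw [hz, hq] at h1
      exact h1
  have hqdeg : ∀ i, (q i).natDegree < EE r d D + 1 := by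
    intro i
    rw [hq]
    unfold pt
    refine Nat.lt_succ_of_le (natDegree_sum_le_of_forall_le _ _ fun l _ => ?_)
    rw [C_mul_MP]
    unfold MP PP
    refine (natDegree_mul_le).trans ?_
    rw [natDegree_X_pow]
    have h1 : (C (v' l i) * ∏ j, lf a j ^ e' l j).natDegree ≤ D * bd r d D := by
      refine (natDegree_C_mul_le _ _).trans ?_
      refine (natDegree_prod_le _ _).trans ?_
      refine (Finset.sum_le_card_nsmul _ _ (bd r d D) fun j _ => ?_).trans ?_
      · refine natDegree_pow_le.trans ?_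
        calc e' l j * (lf a j).natDegree ≤ e' l j * 1 := Nat.mul_le_mul_left _ (lf_natDegree a j)
          _ ≤ bd r d D := by rw [mul_one]; exact he'b l j
      · rw [smul_eq_mul, Finset.card_univ]
        exact Nat.mul_le_mul_right _ hD
    have h2 := hm'b l
    have h3 : EE r d D = bd r d D + D * bd r d D := by unfold EE; ring
    omega
  obtain ⟨c', hc'⟩ : ∃ c' : Fin (EE r d D + 1) → Fin (n + 1) → A,
    c' = fun (j : Fin (EE r d D + 1)) i => (q i).coeff (j : ℕ) * t ^ (j : ℕ) := ⟨_, rfl⟩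
  have hcur' : ∀ i, cur c' (fun j => (j : ℕ)) i = (q i).comp (C t * X) := by
    intro i
    conv_rhs => rw [as_sum_range_C_mul_X_pow' (q i) (hqdeg i)]
    rw [Polynomial.sum_comp]
    unfold cur
    refine Eq.trans ?_ (Fin.sum_univ_eq_sum_range
      (fun j : ℕ => (C ((q i).coeff j) * X ^ j).comp (C t * X)) (EE r d D + 1))
    refine Finset.sum_congr rfl fun j _ => ?_
    rw [hc', mul_comp, C_comp, X_pow_comp, mul_pow, C_mul, C_pow, mul_assoc]
  have hsum' : ∀ i, ∑ j, c' j i = z i := by
    intro i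
    rw [hz, hc']
    simp only
    rw [eval_eq_sum_range' (hqdeg i)]
    exact Fin.sum_univ_eq_sum_range (fun j => (q i).coeff j * t ^ j) _
  have hPz : P z := hP x z hx0 hz0 hxz hPx
  have hcon' := hP2 c' (fun j => (j : ℕ)) (by
    intro G hG
    rw [show cur c' (fun j => (j : ℕ)) = fun i => (q i).comp (C t * X) from funext hcur',
      aeval_comp, hqid G hG, zero_comp]) (by
    rw [show (fun i => ∑ j, c' j i) = z from funext hsum']
    exact hPz)
  simp only [hsum'] at hcon'
  -- a coefficient vector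
  obtain ⟨i1, hi1⟩ : ∃ i, z i ≠ 0 := by
    by_contra h
    push Not at h
    exact hz0 (funext h)
  obtain ⟨j, hj⟩ : ∃ j : Fin (EE r d D + 1), (q i1).coeff j ≠ 0 := by
    by_contra h
    push Not at h
    apply hi1
    rw [← hsum' i1, hc']
    exact Finset.sum_eq_zero fun j _ => by
      simp only
      rw [h j, zero_mul]
  have hzy : Prp z (fun i => (q i).coeff j) := by
    intro i i'
    apply mul_left_cancel₀ (pow_ne_zero (j : ℕ) ht0)
    have h1 := congrArg (fun p => Polynomial.coeff p (j : ℕ)) (hcon' i i')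
    simp only [coeff_mul_C, cur_coeff] at h1
    have h2 : ∀ i, ∑ k ∈ (univ.filter fun k : Fin (EE r d D + 1) => (k : ℕ) = (j : ℕ)),
        c' k i = (q i).coeff (j : ℕ) * t ^ (j : ℕ) := by
      intro i
      have h3 : (univ.filter fun k : Fin (EE r d D + 1) => (k : ℕ) = (j : ℕ)) = {j} := by
        ext k
        simp [Fin.ext_iff]
      rw [h3, Finset.sum_singleton, hc']
    rw [h2, h2] at h1
    linear_combination -h1
  refine ⟨fun i => (q i).coeff j, fun h => hj (congrFun h i1), Prp.trans hz0 hxz hzy, ?_⟩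
  intro i
  have h1 : (q i).coeff j = ∑ l, (MP (lf a) (v' l i) (m' l) (e' l)).coeff j := by
    rw [hq]
    unfold pt
    rw [finsetSum_coeff]
    simp only [C_mul_MP]
  show s ((q i).coeff j) ≤ _
  rw [h1]
  refine (hs.sum _ _).trans ?_
  refine (Finset.sum_le_card_nsmul _ _ (H * (NN r d D * H) ^ EE r d D) fun l _ => ?_).trans ?_
  · refine coeff_MP hs hH hF0 hFH (hv'H l i) (m' l) (e' l) hNN ?_ j (EE r d D) (by omega)
    refine (Finset.sum_le_card_nsmul _ _ (bd r d D) fun j _ => he'b l j).trans ?_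
    rw [smul_eq_mul, Finset.card_univ]
    have h1 : Fintype.card κ * bd r d D ≤ D * bd r d D := Nat.mul_le_mul_right _ hD
    have h2 : NN r d D = D * bd r d D + 1 := rfl
    omega
  · rw [nsmul_eq_mul, Finset.card_univ, Fintype.card_fin]

end core

end Pool.Agent.Q29.SE
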