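import Mathlib
import Pool.Agent.Q29.SE.OneSet
import Pool.Agent.Q29.SE.AffHyp

/-!
# Affine varieties: points off the set swept out by affine lines
-/

set_option autoImplicit false
set_option linter.unusedSectionVars false

namespace Pool.Agent.Q29.SE

open Polynomial Finset Pool.Agent.Q103.SD Pool.Agent.H533R3.SL

variable {A : Type} [CommRing A] [IsDomain A] [CharZero A] {κ : Type} [Fintype κ] {n r : ℕ}
  {s : A → ℝ}

/-- at the points with the property `P` the affine lines with `R` terms are constant -/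
def LinesIn (FF : Set (MvPolynomial (Fin (n + 1)) A)) (P : (Fin (n + 1) → A) → Prop) (R : ℕ) :
    Prop :=
  ∀ (c : Fin R → Fin (n + 1) → A) (l : Fin R → ℕ), (∀ G ∈ FF, MvPolynomial.aeval (cur c l) G = 0) →
    P (fun i => ∑ j, c j i) → ∀ i, cur c l i = C (∑ j, c j i)

theorem LinesIn.mono {FF : Set (MvPolynomial (Fin (n + 1)) A)}
    {P P' : (Fin (n + 1) → A) → Prop} {R : ℕ} (h : LinesIn FF P R) (hP : ∀ x, P' x → P x) :
    LinesIn FF P' R :=
  fun c l hc hx => h c l hc (hP _ hx)

/-- **The core, affine case.** -/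
theorem core_aff (hs : SizeFn s) {a : κ → A} (ha : Function.Injective a)
    (ha0 : ∀ j, a j ≠ 0) {H : ℝ} (hH : 1 ≤ H) (haH : ∀ j, s (a j) ≤ H) {D : ℕ}
    (hD : Fintype.card κ ≤ D) (m : Fin r → ℕ) (e : Fin r → κ → ℕ) {N : ℕ} (hN : 1 ≤ N)
    (heN : ∀ l, ∑ i, e l i ≤ N) (hr : 1 ≤ r) (v : Fin r → Fin (n + 1) → A)
    (hv : ∀ l i, s (v l i) ≤ H) {d : ℕ} (hd : 1 ≤ d) {W : ℝ} (hW : 1 ≤ W)
    (FF : Set (MvPolynomial (Fin (n + 1)) A))
    (hFF : ∀ G ∈ FF, G.totalDegree ≤ d ∧ nrm s G ≤ W)
    {t : A} (ht0 : t ≠ 0)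
    (hT : ∀ x, t ∣ x → s x < (((r : ℝ) + 1) * (d + 1) * W * H * ((N * NN r d D : ℕ) : ℝ)) ^
      expo r d D → x = 0)
    (P : (Fin (n + 1) → A) → Prop) (hP1 : LinesIn FF P r) (hP2 : LinesIn FF P (EE r d D + 1))
    (x : Fin (n + 1) → A) (hx : ∀ i, x i = (pt (lf a) m e v i).eval t)
    (hzero : ∀ G ∈ FF, MvPolynomial.aeval x G = 0) (hPx : P x) :
    ∃ S : Finset (Fin r), (∀ l ∈ S, m l = 0) ∧ ∀ i, x i = ∑ l ∈ S, v l i := by
  classical
  have hNN : 1 ≤ NN r d D := by unfold NN; omega
  have hN'' : 1 ≤ N * NN r d D := Nat.mul_pos hN hNN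
  have hr1 : (1 : ℝ) ≤ r := by exact_mod_cast hr
  have hDs : ∑ j, (lf a j).natDegree ≤ D := (lf_sum_deg a).trans hD
  have hFu : ∀ j, IsUnit ((lf a j).coeff 0) := fun j => by
    rw [lf_coeff_zero]
    exact isUnit_one
  have hF0 : ∀ j, s ((lf a j).coeff 0) ≤ 1 := fun j => by
    rw [lf_coeff_zero]
    exact hs.one
  have hFH := lf_size hs hH haH
  -- the identity
  have hid : ∀ G ∈ FF, MvPolynomial.aeval (pt (lf a) m e v) G = 0 := by
    intro G hG
    obtain ⟨hdeg, hn⟩ := hFF G hG
    refine zero_pt hs ht0 hT hDs hH hFu hF0 hFH m e hN'' (fun l => (heN l).trans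
      (Nat.le_mul_of_pos_right _ (by omega))) v (one_le_mul_of_one_le_of_one_le hr1 hH) hv G hd
      hdeg hn (size_ok hr hd hN'' hW hH) ?_
    have := hzero G hG
    rwa [show x = fun i => (pt (lf a) m e v i).eval t from funext hx] at this
  -- the deformation
  obtain ⟨m', e', μ, hm', he', hm'b, he'b, _, hμ0, hdef⟩ := deform' (n := n) ha ha0 d (gap r d D) hd
    (by unfold gap; omega) (by
      unfold gap
      have := gg_mono_all (D := Fintype.card κ + 2) (D' := D + 2) (by omega) ((d + 1) ^ r)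
        (le_refl 0)
      omega) m e
  have hbd : 2 * (2 * (2 * d)) ^ r * gap r d D = bd r d D := rfl
  rw [hbd] at hm'b he'b
  obtain ⟨c, hc⟩ : ∃ c : Fin r → Fin (n + 1) → A,
    c = fun l i => v l i * (MP (lf a) 1 (m l) (e l)).eval t := ⟨_, rfl⟩
  have hcx : ∀ i, ∑ l, c l i = x i := by
    intro i
    rw [hx i, hc]
    unfold pt
    rw [eval_finsetSum]
    refine Finset.sum_congr rfl fun l _ => ?_
    rw [eval_mul, eval_C]
  have hcur : ∀ G ∈ FF, MvPolynomial.aeval (cur c μ) G = 0 := by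
    intro G hG
    obtain ⟨hdeg, hn⟩ := hFF G hG
    rw [hc]
    exact hdef v G hdeg (hid G hG) t
  have hcon := hP1 c μ hcur (by
    rw [show (fun i => ∑ j, c j i) = x from funext hcx]
    exact hPx)
  simp only [hcx] at hcon
  -- the class of the constant terms
  obtain ⟨S, hS⟩ : ∃ S : Finset (Fin r), S = univ.filter (fun l => μ l = 0) := ⟨_, rfl⟩
  have hSx : ∀ i, x i = ∑ l ∈ S, c l i := by
    intro i
    have h1 := congrArg (fun p => Polynomial.coeff p 0) (hcon i)
    simp only [coeff_C_zero] at h1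
    rw [cur_coeff] at h1
    rw [← h1, hS]
  have hSm : ∀ l ∈ S, m l = m' l ∧ ∀ j, e l j = e' l j := by
    intro l hl
    rw [hS, Finset.mem_filter] at hl
    obtain ⟨h1, h2⟩ := hμ0 l hl.2
    refine ⟨?_, fun j => ?_⟩
    · have := hm' l
      omega
    · have := he' l j
      have := h2 j
      omega
  obtain ⟨v', hv'⟩ : ∃ v' : Fin r → Fin (n + 1) → A, v' = fun l i => if l ∈ S then v l i else 0 :=
    ⟨_, rfl⟩
  have hv'H : ∀ l i, s (v' l i) ≤ H := by
    intro l i
    rw [hv']
    simp only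
    split_ifs
    · exact hv l i
    · rw [hs.zero]
      linarith
  obtain ⟨q, hq⟩ : ∃ q : Fin (n + 1) → A[X], q = pt (lf a) m' e' v' := ⟨_, rfl⟩
  have hqx : ∀ i, (q i).eval t = x i := by
    intro i
    rw [hSx i, hq]
    unfold pt
    rw [eval_finsetSum, ← Finset.sum_subset (Finset.subset_univ S)]
    · refine Finset.sum_congr rfl fun l hl => ?_
      obtain ⟨h1, h2⟩ := hSm l hl
      rw [hc, hv']
      simp only
      rw [if_pos hl, eval_mul, eval_C, eval_MP, eval_MP, ← h1]
      simp only [← h2]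
    · intro l _ hl
      rw [hv']
      simp only
      rw [if_neg hl, C_0, zero_mul, eval_zero]
  -- the line of bounded degree
  have hqid : ∀ G ∈ FF, MvPolynomial.aeval q G = 0 := by
    intro G hG
    obtain ⟨hdeg, hn⟩ := hFF G hG
    rw [hq]
    refine zero_pt hs ht0 hT hDs hH hFu hF0 hFH m' _ hN'' (fun l => ?_) v'
      (one_le_mul_of_one_le_of_one_le hr1 hH) hv'H G hd hdeg hn (size_ok hr hd hN'' hW hH) ?_
    · refine (Finset.sum_le_card_nsmul _ _ (bd r d D) fun j _ => he'b l j).trans ?_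
      rw [smul_eq_mul, Finset.card_univ]
      have h1 : Fintype.card κ * bd r d D ≤ D * bd r d D := Nat.mul_le_mul_right _ hD
      have h2 : NN r d D = D * bd r d D + 1 := rfl
      have h3 : NN r d D ≤ N * NN r d D := Nat.le_mul_of_pos_left _ (by omega)
      omega
    · have h1 := hzero G hG
      rw [← hq, show (fun i => (q i).eval t) = x from funext hqx]
      exact h1
  have hqdeg : ∀ i, (q i).natDegree < EE r d D + 1 := by
    intro i
    rw [hq]
    unfold pt
    refine Nat.lt_succ_of_le (natDegree_sum_le_of_forall_le _ _ fun l _ => ?_)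
    rw [C_mul_MP]
    unfold MP PP
    refine (natDegree_mul_le).trans ?_
    rw [natDegree_X_pow]
    have h1 : (C (v' l i) * ∏ j, lf a j ^ e' l j).natDegree ≤ D * bd r d D := by
      refine (natDegree_C_mul_le _ _).trans ?_
      refine (natDegree_prod_le _ _).trans ?_
      refine (Finset.sum_le_card_nsmul _ _ (bd r d D) fun j _ => ?_).trans ?_
      · refine natDegree_pow_le.trans ?_
        calc e' l j * (lf a j).natDegree ≤ e' l j * 1 := Nat.mul_le_mul_left _ (lf_natDegree a j)
          _ ≤ bd r d D := by rw [mul_one]; exact he'b l j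
      · rw [smul_eq_mul, Finset.card_univ]
        exact Nat.mul_le_mul_right _ hD
    have h2 := hm'b l
    have h3 : EE r d D = bd r d D + D * bd r d D := by unfold EE; ring
    omega
  obtain ⟨c', hc'⟩ : ∃ c' : Fin (EE r d D + 1) → Fin (n + 1) → A,
    c' = fun (j : Fin (EE r d D + 1)) i => (q i).coeff (j : ℕ) * t ^ (j : ℕ) := ⟨_, rfl⟩
  have hcur' : ∀ i, cur c' (fun j => (j : ℕ)) i = (q i).comp (C t * X) := by
    intro i
    conv_rhs => rw [as_sum_range_C_mul_X_pow' (q i) (hqdeg i)]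
    rw [Polynomial.sum_comp]
    unfold cur
    refine Eq.trans ?_ (Fin.sum_univ_eq_sum_range
      (fun j : ℕ => (C ((q i).coeff j) * X ^ j).comp (C t * X)) (EE r d D + 1))
    refine Finset.sum_congr rfl fun j _ => ?_
    rw [hc', mul_comp, C_comp, X_pow_comp, mul_pow, C_mul, C_pow, mul_assoc]
  have hsum' : ∀ i, ∑ j, c' j i = x i := by
    intro i
    rw [← hqx i, hc']
    simp only
    rw [eval_eq_sum_range' (hqdeg i)]
    exact Fin.sum_univ_eq_sum_range (fun j => (q i).coeff j * t ^ j) _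
  have hcon' := hP2 c' (fun j => (j : ℕ)) (by
    intro G hG
    rw [show cur c' (fun j => (j : ℕ)) = fun i => (q i).comp (C t * X) from funext hcur',
      aeval_comp, hqid G hG, zero_comp]) (by
    rw [show (fun i => ∑ j, c' j i) = x from funext hsum']
    exact hPx)
  -- the constant term
  refine ⟨S.filter (fun l => m l = 0), fun l hl => (Finset.mem_filter.mp hl).2, fun i => ?_⟩
  have h1 := congrArg (fun p => Polynomial.coeff p 0) (hcon' i)
  simp only [coeff_C_zero, hsum'] at h1
  rw [← h1, cur_coeff]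
  have h3 : (univ.filter fun k : Fin (EE r d D + 1) => (k : ℕ) = 0) = {0} := by
    ext k
    rw [Finset.mem_filter, Finset.mem_singleton]
    exact ⟨fun h => Fin.ext h.2, fun h => ⟨Finset.mem_univ _, by rw [h]; rfl⟩⟩
  rw [h3, Finset.sum_singleton, hc']
  simp only [Fin.val_zero, pow_zero, mul_one]
  rw [hq]
  unfold pt
  rw [finsetSum_coeff]
  have h4 : ∀ l, (C (v' l i) * MP (lf a) 1 (m' l) (e' l)).coeff 0 =
      if m' l = 0 then v' l i else 0 := by
    intro l
    rw [C_mul_MP]
    unfold MP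
    split_ifs with h
    · rw [h, pow_zero, one_mul, PP_coeff_zero]
      simp only [lf_coeff_zero, one_pow, Finset.prod_const_one, mul_one]
    · rw [coeff_X_pow_mul', if_neg (by omega)]
  simp only [h4]
  rw [← Finset.sum_filter, Finset.sum_filter, Finset.sum_filter,
    ← Finset.sum_subset (Finset.subset_univ S)]
  · refine Finset.sum_congr rfl fun l hl => ?_
    rw [(hSm l hl).1, hv']
    simp only
    rw [if_pos hl]
  · intro l _ hl
    rw [hv']
    simp only
    rw [if_neg hl, ite_self]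

end Pool.Agent.Q29.SE
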