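import Mathlib
import Pool.Agent.Q29.SE.NF

/-!
# Points given by short sums of power products on projective varieties over number fields
-/

set_option autoImplicit false

namespace Pool.Agent.Q29.SE

open Finset Polynomial Pool.Agent.Q103.SD NumberField Pool.Agent.H458.Sp

variable {k : Type} [Field k] [NumberField k] {n : ℕ}

/-- Vectors `p` of polynomials of the form `p = ∑ v_l X^(m_l) ∏_i F_i^(e_il)`, `r` terms, where the
`v_l` are vectors of algebraic integers of house at most `H`, the exponents `m_l` are arbitrary, the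
`F_i` (any number of them) are polynomials of total degree at most `D` with integral coefficients
of house at most `H` whose constant terms are roots of unity, and `∑_i e_il ≤ N` for each `l`. -/
def PowerVec {τ : Type} (r D N : ℕ) (H : ℝ) (p : τ → (𝓞 k)[X]) : Prop :=
  ∃ (q : ℕ) (F : Fin q → (𝓞 k)[X]) (m : Fin r → ℕ) (e : Fin r → Fin q → ℕ)
    (v : Fin r → τ → 𝓞 k), ∑ i, (F i).natDegree ≤ D ∧
    (∀ i, ∃ j, 0 < j ∧ (F i).coeff 0 ^ j = 1) ∧ (∀ i j, hs ((F i).coeff j) ≤ H) ∧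
    (∀ l, ∑ i, e l i ≤ N) ∧ (∀ l i, hs (v l i) ≤ H) ∧
    ∀ i, p i = ∑ l, C (v l i) * (X ^ m l * ∏ j, F j ^ e l j)

theorem MP_one {κ A : Type*} [Fintype κ] [CommRing A] (F : κ → A[X]) (m : ℕ) (e : κ → ℕ) :
    MP F 1 m e = X ^ m * ∏ j, F j ^ e j := by
  unfold MP PP
  rw [map_one, one_mul]

/-- the dichotomy -/
theorem dich {r d D N : ℕ} (hr : 1 ≤ r) (hd : 1 ≤ d) (hN : 1 ≤ N) {W H : ℝ} (hW : 1 ≤ W)
    (hH : 1 ≤ H) (FF : Set (MvPolynomial (Fin (n + 1)) (𝓞 k)))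
    (hF : ∀ G ∈ FF, (∃ e, e ≤ d ∧ G.IsHomogeneous e) ∧ Pool.Agent.H458.Sp.nrm G ≤ W)
    (t : 𝓞 k) (ht : ((((r : ℝ) + 1) * (d + 1) * W * H * N) ^ expo r d D) ^ Module.finrank ℚ k ≤
      |((Algebra.norm ℤ t : ℤ) : ℝ)|)
    (p : Fin (n + 1) → (𝓞 k)[X]) (hp : PowerVec r D N H p)
    (hx0 : (fun i => (p i).eval t) ≠ 0)
    (hzero : ∀ G ∈ FF, MvPolynomial.aeval (fun i => (p i).eval t) G = 0) :
    (∀ G ∈ FF, MvPolynomial.aeval p G = 0) ∧
    ((∃ i j, p i * C ((p j).eval t) ≠ p j * C ((p i).eval t)) ∨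
      ∃ y : Fin (n + 1) → 𝓞 k, y ≠ 0 ∧ (∀ i j, (p i).eval t * y j = (p j).eval t * y i) ∧
        ∀ i, hs (y i) ≤ ((r : ℝ) * N * H) ^ expo r d D) := by
  obtain ⟨q, F, m, e, v, hD, hroot, hFH, heN, hvH, hpe⟩ := hp
  have hpt : p = pt F m e v := by
    funext i
    rw [hpe i]
    unfold pt
    simp only [MP_one]
  have hT : ∀ x, t ∣ x → hs x < (((r : ℝ) + 1) * (d + 1) * W * H * N) ^ expo r d D → x = 0 :=
    fun x h1 h2 => eq_zero_of_dvd ht h1 h2
  have hFu : ∀ i, IsUnit ((F i).coeff 0) := fun i => by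
    obtain ⟨j, hj, h⟩ := hroot i
    exact isUnit_root hj h
  have hF0 : ∀ i, hs ((F i).coeff 0) ≤ 1 := fun i => by
    obtain ⟨j, hj, h⟩ := hroot i
    exact hs_root hj h
  have hr1 : (1 : ℝ) ≤ r := by exact_mod_cast hr
  have hN1 : (1 : ℝ) ≤ N := by exact_mod_cast hN
  have hd1 : (1 : ℝ) ≤ d := by exact_mod_cast hd
  have ht0 : t ≠ 0 := by
    intro h
    rw [h] at ht
    have h1 : (0 : ℝ) < ((((r : ℝ) + 1) * (d + 1) * W * H * N) ^ expo r d D) ^
        Module.finrank ℚ k := by positivity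
    have h2 : |((Algebra.norm ℤ (0 : 𝓞 k) : ℤ) : ℝ)| = 0 := by
      rw [Algebra.norm_zero]
      simp
    linarith
  refine ⟨?_, ?_⟩
  · intro G hG
    obtain ⟨⟨e', he', hom⟩, hn⟩ := hF G hG
    rw [hpt]
    rw [hpt] at hzero
    exact zero_pt sizeHs ht0 hT hD hH hFu hF0 hFH m e hN heN v
      (one_le_mul_of_one_le_of_one_le hr1 hH) hvH G hd (hom.totalDegree_le.trans he') hn
      (size_ok hr hd hN hW hH) (hzero G hG)
  · by_cases hcon : ∃ i j, p i * C ((p j).eval t) ≠ p j * C ((p i).eval t)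
    · exact Or.inl hcon
    · push Not at hcon
      right
      rw [hpt] at hcon hx0 ⊢
      obtain ⟨y, h1, h2, h3⟩ := const_bound sizeHs (t := t) hD hH hFu hF0 hFH m e hN heN v hvH
        (by linarith) (fun i => (pt F m e v i).eval t) (fun _ => rfl) hx0 hcon
      exact ⟨y, h1, h2, fun i => (h3 i).trans (bound_ok hr hd hN hH)⟩

/-- no rational curves on hyperbolic varieties, with the parameter value `t` -/
theorem no_curve' (σ : k →+* ℂ) (FF : Set (MvPolynomial (Fin (n + 1)) (𝓞 k)))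
    (hom : ∀ F ∈ FF, ∃ e, F.IsHomogeneous e)
    (hyp : BrodyHyperbolic ((MvPolynomial.map (σ.comp (algebraMap (𝓞 k) k))) '' FF)) (t : 𝓞 k)
    (p : Fin (n + 1) → (𝓞 k)[X]) (hx0 : (fun i => (p i).eval t) ≠ 0)
    (hp : ∀ F ∈ FF, MvPolynomial.aeval p F = 0) (i j : Fin (n + 1)) :
    p i * C ((p j).eval t) = p j * C ((p i).eval t) := by
  obtain ⟨c, hc⟩ : ∃ c : (𝓞 k)[X], c = X + C (t - 1) := ⟨_, rfl⟩
  have h1 : ∀ i, ((p i).comp c).eval 1 = (p i).eval t := by
    intro i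
    rw [eval_comp, hc]
    simp
  have h2 : ∀ F ∈ FF, MvPolynomial.aeval (fun i => (p i).comp c) F = 0 := by
    intro F hF
    have h3 := congrArg (Polynomial.compRingHom c) (hp F hF)
    rw [map_zero, MvPolynomial.aeval_def, MvPolynomial.hom_eval₂] at h3
    rw [MvPolynomial.aeval_def, ← h3]
    congr 1
    ext a
    simp
  have h4 := no_curve σ FF hom hyp (fun i => (p i).eval t) hx0 (fun i => (p i).comp c) h1 h2 i j
  have h5 := congrArg (fun P => P.comp (X - C (t - 1))) h4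
  simp only [mul_comp, C_comp, comp_assoc] at h5
  have h6 : c.comp (X - C (t - 1)) = X := by
    rw [hc]
    simp
  rw [h6, comp_X, comp_X] at h5
  exact h5

end Pool.Agent.Q29.SE
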