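import Mathlib
import Pool.Agent.Q29.SE.OneSet

/-!
# Splitting fields: linear factors and descent
-/

set_option autoImplicit false
set_option linter.unusedSectionVars false

namespace Pool.Agent.Q29.SE

open Polynomial Finset Pool.Agent.Q103.SD Pool.Agent.H533R3.SL NumberField Pool.Agent.H458.Sp

variable {K K' : Type} [Field K] [NumberField K] [Field K'] [NumberField K'] [Algebra K K']

theorem hs_le_of_embeddings {x : 𝓞 K} {B : ℝ} (hB : 0 ≤ B)
    (h : ∀ φ : K →+* ℂ, ‖φ (algebraMap (𝓞 K) K x)‖ ≤ B) : hs x ≤ B := by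
  unfold hs house
  rw [pi_norm_le_iff_of_nonneg hB]
  exact h

theorem le_hs (x : 𝓞 K) (φ : K →+* ℂ) : ‖φ (algebraMap (𝓞 K) K x)‖ ≤ hs x :=
  norm_embedding_le_house _ φ

theorem norm_ext (t : 𝓞 K) {T : ℝ} (hT : 0 ≤ T)
    (ht : T ^ Module.finrank ℚ K ≤ |((Algebra.norm ℤ t : ℤ) : ℝ)|) :
    T ^ Module.finrank ℚ K' ≤
      |((Algebra.norm ℤ (algebraMap (𝓞 K) (𝓞 K') t) : ℤ) : ℝ)| := by
  have h1 : ((Algebra.norm ℤ (algebraMap (𝓞 K) (𝓞 K') t) : ℤ) : ℚ) =
      ((Algebra.norm ℤ t : ℤ) : ℚ) ^ Module.finrank K K' := by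
    rw [Algebra.coe_norm_int, Algebra.coe_norm_int]
    have h2 : ((algebraMap (𝓞 K) (𝓞 K') t : 𝓞 K') : K') = algebraMap K K' (t : K) := rfl
    rw [h2, ← Algebra.norm_norm (R := ℚ) (S := K), Algebra.norm_algebraMap, map_pow]
  have h3 : ((Algebra.norm ℤ (algebraMap (𝓞 K) (𝓞 K') t) : ℤ) : ℝ) =
      ((Algebra.norm ℤ t : ℤ) : ℝ) ^ Module.finrank K K' := by
    exact_mod_cast h1
  rw [h3, abs_pow, ← Module.finrank_mul_finrank ℚ K K', pow_mul]
  exact pow_le_pow_left₀ (pow_nonneg hT _) ht _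

/-- **Descent.** -/
theorem descent [IsGalois K K'] {τ : Type} (x : τ → 𝓞 K) (hx0 : x ≠ 0) (y : τ → 𝓞 K')
    (hy0 : y ≠ 0) (hxy : Prp (fun i => algebraMap (𝓞 K) (𝓞 K') (x i)) y) {B : ℝ} (hB : 1 ≤ B)
    (hyB : ∀ i, hs (y i) ≤ B) :
    ∃ z : τ → 𝓞 K, z ≠ 0 ∧ Prp x z ∧ ∀ i, hs (z i) ≤ B ^ Module.finrank K K' := by
  classical
  have hinj : Function.Injective (algebraMap (𝓞 K) (𝓞 K')) :=
    FaithfulSMul.algebraMap_injective _ _
  obtain ⟨i0, hi0⟩ : ∃ i, y i ≠ 0 := by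
    by_contra h
    push Not at h
    exact hy0 (funext h)
  have hxi0 : x i0 ≠ 0 := by
    intro h
    apply hx0
    funext j
    have h1 := hxy i0 j
    simp only [h, map_zero, zero_mul] at h1
    have h2 := (mul_eq_zero.mp h1.symm).resolve_right hi0
    exact hinj (by rw [h2, Pi.zero_apply, map_zero])
  -- the cofactor
  have hwint : IsIntegral ℤ (∏ σ ∈ univ.erase (AlgEquiv.refl : Gal(K'/K)), σ (y i0 : K')) :=
    IsIntegral.prod _ fun σ _ => (RingOfIntegers.isIntegral_coe (y i0)).map σ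
  obtain ⟨w, hw⟩ : ∃ w : 𝓞 K', w = ⟨_, hwint⟩ := ⟨_, rfl⟩
  have hwK : (w : K') = ∏ σ ∈ univ.erase (AlgEquiv.refl : Gal(K'/K)), σ (y i0 : K') := by
    rw [hw]
    rfl
  obtain ⟨N, hN⟩ : ∃ N : K, N = Algebra.norm K (y i0 : K') := ⟨_, rfl⟩
  have hNw : algebraMap K K' N = (y i0 : K') * w := by
    rw [hN, Algebra.norm_eq_prod_automorphisms, hwK, ← Finset.mul_prod_erase _ _ (mem_univ
      (AlgEquiv.refl : Gal(K'/K)))]
    rfl
  have hy0K : (y i0 : K') ≠ 0 := by
    intro h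
    exact hi0 (RingOfIntegers.ext (by rw [h]; rfl))
  have hx0K : (x i0 : K) ≠ 0 := by
    intro h
    exact hxi0 (RingOfIntegers.ext (by rw [h]; rfl))
  have hrel : ∀ i, algebraMap K K' (N * ((x i : K) / (x i0 : K))) = (w : K') * y i := by
    intro i
    have h1 := congrArg (fun a : 𝓞 K' => (a : K')) (hxy i i0)
    have h2 : algebraMap K K' (x i : K) * (y i0 : K') = algebraMap K K' (x i0 : K) * (y i : K') :=
      h1
    have h3 : algebraMap K K' (x i0 : K) ≠ 0 := (_root_.map_ne_zero _).mpr hx0K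
    rw [map_mul, map_div₀, hNw]
    field_simp
    linear_combination (w : K') * h2
  have hint : ∀ i, IsIntegral ℤ (N * ((x i : K) / (x i0 : K))) := by
    intro i
    rw [← isIntegral_algebraMap_iff (B := K') (algebraMap K K').injective, hrel i]
    exact (RingOfIntegers.isIntegral_coe w).mul (RingOfIntegers.isIntegral_coe (y i))
  refine ⟨fun i => ⟨_, hint i⟩, ?_, ?_, ?_⟩
  · intro h
    have h1 := congrArg (fun a : 𝓞 K => (a : K)) (congrFun h i0)
    have h2 : N * ((x i0 : K) / (x i0 : K)) = 0 := h1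
    rw [div_self hx0K, mul_one] at h2
    rw [h2, map_zero] at hNw
    have h3 : N ≠ 0 := by
      rw [hN, Algebra.norm_ne_zero_iff]
      exact hy0K
    exact h3 h2
  · intro i j
    apply RingOfIntegers.ext
    show (x i : K) * (N * ((x j : K) / (x i0 : K))) = (x j : K) * (N * ((x i : K) / (x i0 : K)))
    ring
  · intro i
    refine hs_le_of_embeddings (by positivity) fun φ => ?_
    show ‖φ (N * ((x i : K) / (x i0 : K)))‖ ≤ _
    obtain ⟨ψ, hψ⟩ : ∃ ψ : K' →+* ℂ, ∀ a, ψ (algebraMap K K' a) = φ a :=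
      ⟨ComplexEmbedding.lift K' φ, ComplexEmbedding.lift_algebraMap_apply K' φ⟩
    rw [← hψ, hrel i, hwK, map_mul, map_prod, norm_mul, norm_prod]
    have h1 : ∀ σ : Gal(K'/K), ‖ψ (σ (y i0 : K'))‖ ≤ B := fun σ =>
      (norm_embedding_le_house (y i0 : K') (ψ.comp (σ : K' →+* K'))).trans (hyB i0)
    have h2 : ∏ σ ∈ univ.erase (AlgEquiv.refl : Gal(K'/K)), ‖ψ (σ (y i0 : K'))‖ ≤
        B ^ (Module.finrank K K' - 1) := by
      refine (Finset.prod_le_prod (fun σ _ => norm_nonneg _) fun σ _ => h1 σ).trans ?_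
      rw [Finset.prod_const, Finset.card_erase_of_mem (Finset.mem_univ _), Finset.card_univ,
        ← Nat.card_eq_fintype_card, IsGalois.card_aut_eq_finrank]
    have h3 : ‖ψ (y i : K')‖ ≤ B := (le_hs (y i) ψ).trans (hyB i)
    have h4 : 0 < Module.finrank K K' := Module.finrank_pos
    calc _ ≤ B ^ (Module.finrank K K' - 1) * B :=
          mul_le_mul h2 h3 (norm_nonneg _) (by positivity)
      _ = B ^ Module.finrank K K' := by
          rw [← pow_succ]
          congr 1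
          omega

/-- the inverse roots of a polynomial whose constant term is a root of unity -/
theorem inv_root (F : (𝓞 K)[X]) (hroot : ∃ j, 0 < j ∧ F.coeff 0 ^ j = 1) {H : ℝ}
    (hFH : ∀ j, hs (F.coeff j) ≤ H) {ρ : K'}
    (hρ : (F.map (algebraMap (𝓞 K) K')).IsRoot ρ) :
    ρ ≠ 0 ∧ ∃ a : 𝓞 K', (a : K') = -ρ⁻¹ ∧ a ≠ 0 ∧ hs a ≤ H + 1 := by
  obtain ⟨j, hj, hζ⟩ := hroot
  have hu : IsUnit (F.coeff 0) := isUnit_root hj hζ
  have hinj : Function.Injective (algebraMap (𝓞 K) K') := by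
    have : (algebraMap (𝓞 K) K') = (algebraMap K K').comp (algebraMap (𝓞 K) K) := rfl
    rw [this]
    exact (algebraMap K K').injective.comp (FaithfulSMul.algebraMap_injective (𝓞 K) K)
  have hρ0 : ρ ≠ 0 := by
    rintro rfl
    rw [IsRoot.def, ← coeff_zero_eq_eval_zero, coeff_map] at hρ
    exact hu.ne_zero (hinj (by rw [hρ, map_zero]))
  refine ⟨hρ0, ?_⟩
  have hF0 : F ≠ 0 := by
    rintro rfl
    rw [coeff_zero] at hu
    exact hu.ne_zero rfl
  have htr : F.trailingCoeff = F.coeff 0 := by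
    unfold trailingCoeff
    rw [natTrailingDegree_eq_zero.mpr (Or.inr hu.ne_zero)]
  -- the reversed polynomial
  have hrev : (F.reverse).eval₂ (algebraMap (𝓞 K) K') ρ⁻¹ = 0 := by
    let _ : Invertible ρ := invertibleOfNonzero hρ0
    have h1 := (eval₂_reverse_eq_zero_iff (algebraMap (𝓞 K) K') ρ F).mpr (by
      rw [IsRoot.def, eval_map] at hρ
      exact hρ)
    rwa [invOf_eq_inv] at h1
  obtain ⟨ζ, hζu⟩ := hu
  have hint : IsIntegral ℤ (ρ⁻¹) := by
    have h1 : IsIntegral (𝓞 K) (ρ⁻¹) := by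
      refine ⟨C (↑ζ⁻¹ : 𝓞 K) * F.reverse, ?_, ?_⟩
      · rw [Monic, leadingCoeff_mul, leadingCoeff_C, reverse_leadingCoeff, htr, ← hζu]
        exact Units.inv_mul ζ
      · rw [eval₂_mul, hrev, mul_zero]
    have h2 : Algebra.IsIntegral ℤ (𝓞 K) := inferInstance
    exact isIntegral_trans _ h1
  have hint' : IsIntegral ℤ (-ρ⁻¹) := hint.neg
  refine ⟨⟨_, hint'⟩, rfl, ?_, ?_⟩
  · intro h
    have h1 := congrArg (fun a : 𝓞 K' => (a : K')) h
    have h2 : -ρ⁻¹ = 0 := h1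
    exact inv_ne_zero hρ0 (neg_eq_zero.mp h2)
  · have hH0 : 0 ≤ H := (hs_nonneg _).trans (hFH 0)
    refine hs_le_of_embeddings (by positivity) fun φ => ?_
    show ‖φ (-ρ⁻¹)‖ ≤ _
    rw [map_neg, norm_neg]
    -- Cauchy's bound for the reversed polynomial over the complex numbers
    obtain ⟨Q, hQ⟩ : ∃ Q : ℂ[X], Q = (F.reverse).map (φ.comp (algebraMap (𝓞 K) K')) := ⟨_, rfl⟩
    have hQinj : Function.Injective (φ.comp (algebraMap (𝓞 K) K')) := φ.injective.comp hinj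
    have hlead : ‖Q.leadingCoeff‖ = 1 := by
      rw [hQ, leadingCoeff_map_of_injective hQinj, reverse_leadingCoeff, htr]
      have h1 : (φ.comp (algebraMap (𝓞 K) K') (F.coeff 0)) ^ j = 1 := by
        rw [← map_pow, hζ, map_one]
      have h2 : ‖φ.comp (algebraMap (𝓞 K) K') (F.coeff 0)‖ ^ j = 1 := by
        rw [← norm_pow, h1, norm_one]
      exact (pow_eq_one_iff_of_nonneg (norm_nonneg _) (by omega)).mp h2
    have hQ0 : Q ≠ 0 := by
      intro h
      rw [h, leadingCoeff_zero, norm_zero] at hlead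
      exact zero_ne_one hlead
    have hQr : Q.IsRoot (φ ρ⁻¹) := by
      rw [IsRoot.def, hQ, eval_map, ← Polynomial.hom_eval₂, hrev, map_zero]
    have h1 := IsRoot.norm_lt_cauchyBound hQ0 hQr
    have h2 : ((cauchyBound Q : NNReal) : ℝ) ≤ H + 1 := by
      obtain ⟨Hn, hHn⟩ : ∃ Hn : NNReal, (Hn : ℝ) = H := ⟨⟨H, hH0⟩, rfl⟩
      have h3 : (cauchyBound Q) ≤ Hn + 1 := by
        unfold cauchyBound
        have h4 : ‖Q.leadingCoeff‖₊ = 1 := NNReal.eq hlead
        rw [h4, div_one]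
        gcongr
        refine Finset.sup_le fun i _ => ?_
        rw [← NNReal.coe_le_coe]
        rw [hHn]
        show ‖Q.coeff i‖ ≤ H
        rw [hQ, coeff_map, coeff_reverse]
        exact (norm_embedding_le_house _ (φ.comp (algebraMap K K'))).trans (hFH _)
      have h6 : ((cauchyBound Q : NNReal) : ℝ) ≤ (Hn : ℝ) + 1 := by exact_mod_cast h3
      rwa [hHn] at h6
    have h5 : ‖φ ρ⁻¹‖ < ((cauchyBound Q : NNReal) : ℝ) := by exact_mod_cast h1
    linarith

end Pool.Agent.Q29.SE
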