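import Mathlib
import Pool.Agent.Q29.SE.Desc

/-!
# Factorisation over the splitting field
-/

set_option autoImplicit false
set_option linter.unusedSectionVars false

namespace Pool.Agent.Q29.SE

open Polynomial Finset Pool.Agent.Q103.SD Pool.Agent.H533R3.SL NumberField Pool.Agent.H458.Sp

theorem galois_splitting {K : Type} [Field K] [CharZero K] (P : K[X]) :
    IsGalois K P.SplittingField := by
  have h1 : Algebra.IsSeparable K P.SplittingField := inferInstance
  have h2 : Normal K P.SplittingField := inferInstance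
  exact IsGalois.mk

theorem finrank_splitting {K : Type} [Field K] [CharZero K] (P : K[X]) :
    Module.finrank K P.SplittingField ≤ P.natDegree.factorial := by
  classical
  have hG : IsGalois K P.SplittingField := galois_splitting P
  have h1 : Nat.card P.Gal = Module.finrank K P.SplittingField :=
    IsGalois.card_aut_eq_finrank K P.SplittingField
  rw [← h1]
  have hf : Fact ((P.map (algebraMap K P.SplittingField)).Splits) :=
    ⟨SplittingField.splits P⟩
  have h2 := Gal.galActionHom_injective P P.SplittingField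
  have h3 : Nat.card P.Gal ≤ Nat.card (Equiv.Perm (P.rootSet P.SplittingField)) :=
    Nat.card_le_card_of_injective _ h2
  refine h3.trans ?_
  rw [Nat.card_eq_fintype_card, Fintype.card_perm]
  apply Nat.factorial_le
  rw [← Nat.card_eq_fintype_card, Nat.card_coe_set_eq]
  exact P.ncard_rootSet_le P.SplittingField

variable {K : Type} [Field K] [NumberField K]

theorem splitting {q : ℕ} (F : Fin q → (𝓞 K)[X]) {D : ℕ} (hD : ∑ i, (F i).natDegree ≤ D)
    (hroot : ∀ i, ∃ j, 0 < j ∧ (F i).coeff 0 ^ j = 1) {H : ℝ}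
    (hFH : ∀ i j, hs ((F i).coeff j) ≤ H) :
    ∃ (K' : Type) (_ : Field K') (_ : NumberField K') (_ : Algebra K K') (_ : IsGalois K K'),
      Module.finrank K K' ≤ D.factorial ∧
      ∃ (κ : Type) (_ : Fintype κ) (a : κ → 𝓞 K') (M : Fin q → κ → ℕ), Fintype.card κ ≤ D ∧
        Function.Injective a ∧ (∀ j, a j ≠ 0) ∧ (∀ j, hs (a j) ≤ H + 1) ∧ (∀ i, ∑ j, M i j ≤ D) ∧
        ∀ i, (F i).map (algebraMap (𝓞 K) (𝓞 K')) =
          C (algebraMap (𝓞 K) (𝓞 K') ((F i).coeff 0)) * ∏ j, lf a j ^ M i j := by
  classical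
  obtain ⟨P, hP⟩ : ∃ P : K[X], P = ∏ i, (F i).map (algebraMap (𝓞 K) K) := ⟨_, rfl⟩
  have hinjK : Function.Injective (algebraMap (𝓞 K) K) := FaithfulSMul.algebraMap_injective _ _
  have hF0 : ∀ i, F i ≠ 0 := by
    intro i h
    obtain ⟨j, hj, hζ⟩ := hroot i
    rw [h, coeff_zero, zero_pow (by omega)] at hζ
    exact zero_ne_one hζ
  have hPdeg : P.natDegree ≤ D := by
    rw [hP]
    refine (natDegree_prod_le _ _).trans (le_trans (Finset.sum_le_sum fun i _ => ?_) hD)
    exact natDegree_map_le
  have hP0 : P ≠ 0 := by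
    rw [hP, Finset.prod_ne_zero_iff]
    intro i _
    exact (Polynomial.map_ne_zero_iff hinjK).mpr (hF0 i)
  have hNF : NumberField P.SplittingField := NumberField.of_module_finite K P.SplittingField
  refine ⟨P.SplittingField, inferInstance, hNF, inferInstance, galois_splitting P,
    (finrank_splitting P).trans (Nat.factorial_le hPdeg), ?_⟩
  obtain ⟨R, hR⟩ : ∃ R : Finset P.SplittingField,
    R = (P.map (algebraMap K P.SplittingField)).roots.toFinset := ⟨_, rfl⟩
  have hPm0 : P.map (algebraMap K P.SplittingField) ≠ 0 :=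
    (Polynomial.map_ne_zero_iff (algebraMap K P.SplittingField).injective).mpr hP0
  have hmm : ∀ i, ((F i).map (algebraMap (𝓞 K) K)).map (algebraMap K P.SplittingField) =
      (F i).map (algebraMap (𝓞 K) P.SplittingField) := by
    intro i
    rw [Polynomial.map_map]
    rfl
  have hdvd : ∀ i, (F i).map (algebraMap (𝓞 K) P.SplittingField) ∣
      P.map (algebraMap K P.SplittingField) := by
    intro i
    rw [← hmm i]
    apply Polynomial.map_dvd
    rw [hP]
    exact Finset.dvd_prod_of_mem _ (Finset.mem_univ i)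
  have hPmap : P.map (algebraMap K P.SplittingField) =
      ∏ i, (F i).map (algebraMap (𝓞 K) P.SplittingField) := by
    have h1 := congrArg (Polynomial.map (algebraMap K P.SplittingField)) hP
    rw [h1, Polynomial.map_prod]
    exact Finset.prod_congr rfl fun i _ => hmm i
  have hroots : ∀ ρ : R, ∃ i, ((F i).map (algebraMap (𝓞 K) P.SplittingField)).IsRoot ρ := by
    rintro ⟨ρ, hρ⟩
    rw [hR, Multiset.mem_toFinset, mem_roots hPm0, IsRoot.def, hPmap,
      eval_prod, Finset.prod_eq_zero_iff] at hρ
    obtain ⟨i, _, hi⟩ := hρ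
    exact ⟨i, hi⟩
  have hex : ∀ ρ : R, (ρ : P.SplittingField) ≠ 0 ∧ ∃ a : 𝓞 P.SplittingField,
      (a : P.SplittingField) = -(ρ : P.SplittingField)⁻¹ ∧ a ≠ 0 ∧ hs a ≤ H + 1 := by
    intro ρ
    obtain ⟨i, hi⟩ := hroots ρ
    exact inv_root (F i) (hroot i) (hFH i) hi
  choose hρ0 a ha1 ha2 ha3 using hex
  refine ⟨R, inferInstance, a, fun i ρ => Multiset.count (ρ : P.SplittingField)
    ((F i).map (algebraMap (𝓞 K) P.SplittingField)).roots, ?_, ?_, ha2, ha3, ?_, ?_⟩
  · rw [Fintype.card_coe, hR]
    refine (Multiset.toFinset_card_le _).trans ((card_roots' _).trans ?_)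
    exact natDegree_map_le.trans hPdeg
  · intro ρ ρ' h
    have h1 := ha1 ρ
    rw [h, ha1 ρ', neg_inj, inv_inj] at h1
    exact Subtype.ext h1.symm
  · intro i
    rw [Finset.sum_coe_sort R (fun ρ => Multiset.count ρ
      ((F i).map (algebraMap (𝓞 K) P.SplittingField)).roots), Multiset.sum_count_eq_card]
    · refine (card_roots' _).trans (natDegree_map_le.trans ?_)
      exact (Finset.single_le_sum (f := fun i => (F i).natDegree) (fun _ _ => Nat.zero_le _)
        (Finset.mem_univ i)).trans hD
    · intro ρ hρ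
      rw [hR, Multiset.mem_toFinset]
      exact Multiset.mem_of_le (Polynomial.roots.le_of_dvd hPm0 (hdvd i)) hρ
  · intro i
    have hinj : Function.Injective (algebraMap (𝓞 P.SplittingField) P.SplittingField) :=
      FaithfulSMul.algebraMap_injective _ _
    apply Polynomial.map_injective _ hinj
    obtain ⟨p, hp⟩ : ∃ p, p = (F i).map (algebraMap (𝓞 K) P.SplittingField) := ⟨_, rfl⟩
    have hl : ((F i).map (algebraMap (𝓞 K) (𝓞 P.SplittingField))).map
        (algebraMap (𝓞 P.SplittingField) P.SplittingField) = p := by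
      rw [Polynomial.map_map, hp]
      rfl
    rw [hl, Polynomial.map_mul, map_C, Polynomial.map_prod]
    have hsp : p.Splits := by
      rw [hp]
      exact (SplittingField.splits P).of_dvd hPm0 (hdvd i)
    have hprod := hsp.eq_prod_roots
    rw [Finset.prod_multiset_map_count] at hprod
    have hsub : p.roots.toFinset ⊆ R := by
      intro ρ hρ
      rw [Multiset.mem_toFinset] at hρ
      rw [hR, Multiset.mem_toFinset]
      rw [hp] at hρ
      exact Multiset.mem_of_le (Polynomial.roots.le_of_dvd hPm0 (hdvd i)) hρ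
    rw [Finset.prod_subset hsub (fun ρ _ hρ => by
      rw [Multiset.mem_toFinset] at hρ
      rw [Multiset.count_eq_zero_of_notMem hρ, pow_zero]), ← Finset.prod_coe_sort] at hprod
    have hlf : ∀ ρ : R, (X - C (ρ : P.SplittingField)) =
        C (-(ρ : P.SplittingField)) * (lf a ρ).map
          (algebraMap (𝓞 P.SplittingField) P.SplittingField) := by
      intro ρ
      unfold lf
      have h1 : algebraMap (𝓞 P.SplittingField) P.SplittingField (a ρ) =
          -(ρ : P.SplittingField)⁻¹ := ha1 ρ
      rw [Polynomial.map_add, Polynomial.map_one, Polynomial.map_mul, map_X, map_C, h1, mul_add,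
        mul_one, ← mul_assoc, ← C_mul, neg_mul_neg, mul_inv_cancel₀ (hρ0 ρ), C_1, C_neg]
      ring
    simp only [hlf, mul_pow, Finset.prod_mul_distrib, ← C_pow] at hprod
    rw [← map_prod, ← mul_assoc, ← C_mul] at hprod
    obtain ⟨c, hc⟩ : ∃ c, c = p.leadingCoeff * ∏ ρ : R, (-(ρ : P.SplittingField)) ^
      Multiset.count (ρ : P.SplittingField) p.roots := ⟨_, rfl⟩
    rw [← hc] at hprod
    have hcoeff : c = algebraMap (𝓞 P.SplittingField) P.SplittingField
        (algebraMap (𝓞 K) (𝓞 P.SplittingField) ((F i).coeff 0)) := by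
      have h1 := congrArg (fun Q => Polynomial.coeff Q 0) hprod
      simp only [coeff_zero_eq_eval_zero, eval_mul, eval_C, eval_prod, Polynomial.eval_pow] at h1
      have h2 : ∀ ρ : R, eval 0 ((lf a ρ).map
          (algebraMap (𝓞 P.SplittingField) P.SplittingField)) = 1 := by
        intro ρ
        rw [← coeff_zero_eq_eval_zero, coeff_map, lf_coeff_zero, map_one]
      simp only [h2, one_pow, Finset.prod_const_one, mul_one] at h1
      rw [← h1, hp, ← coeff_zero_eq_eval_zero, coeff_map]
      rfl
    rw [hprod, hcoeff]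
    congr 1
    refine Finset.prod_congr rfl fun ρ _ => ?_
    rw [Polynomial.map_pow, hp]

end Pool.Agent.Q29.SE
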