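import Mathlib
import Pool.Agent.Q29.SE.SplitF
import Pool.Agent.Q29.SE.Dich
import Pool.Agent.H533R3.SL.Unif

/-!
# One exceptional set for all number fields
-/

set_option autoImplicit false
set_option linter.unusedSectionVars false

namespace Pool.Agent.Q29.SE

open Polynomial Finset Pool.Agent.Q103.SD Pool.Agent.H533R3.SL NumberField Pool.Agent.H458.Sp

variable {n : ℕ}

/-- the value of a form over `k` at an integral vector over `K` does not vanish -/
def Off {k : Type} [Field k] (G : MvPolynomial (Fin (n + 1)) k) {K : Type} [Field K]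
    [Algebra k K] (x : Fin (n + 1) → 𝓞 K) : Prop :=
  MvPolynomial.aeval (fun i => algebraMap (𝓞 K) K (x i)) G ≠ 0

theorem off_prp {k : Type} [Field k] (G : MvPolynomial (Fin (n + 1)) k)
    (hG : ∃ e, G.IsHomogeneous e) {K : Type} [Field K] [Algebra k K]
    (x y : Fin (n + 1) → 𝓞 K) (hy : y ≠ 0) (hxy : Prp x y) (h : Off G x) : Off G y := by
  intro h0
  apply h
  refine Prp.zero (x := fun i => algebraMap (𝓞 K) K (y i)) ?_ ?_ G hG h0
  · intro h1
    apply hy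
    funext i
    exact FaithfulSMul.algebraMap_injective (𝓞 K) K (by
      rw [Pi.zero_apply, map_zero]
      exact congrFun h1 i)
  · intro i j
    rw [← map_mul, ← map_mul, hxy.symm i j]

theorem curvesIn_hyper {k : Type} [Field k] [NumberField k]
    (FF : Finset (MvPolynomial (Fin (n + 1)) (𝓞 k))) (R : ℕ) (G : MvPolynomial (Fin (n + 1)) k)
    (hG : ∀ (L : Type) [Field L] [Algebra k L] (c : Fin R → Fin (n + 1) → L) (l : Fin R → ℕ),
      (∀ F ∈ (MvPolynomial.map (algebraMap (𝓞 k) k)) ''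
        (FF : Set (MvPolynomial (Fin (n + 1)) (𝓞 k))), MvPolynomial.aeval (cur c l) F = 0) →
      (∃ i i', cur c l i * C (∑ j, c j i') ≠ cur c l i' * C (∑ j, c j i)) →
      MvPolynomial.aeval (fun i => ∑ j, c j i) G = 0)
    (K : Type) [Field K] [NumberField K] [Algebra k K] :
    CurvesIn ((MvPolynomial.map (algebraMap (𝓞 k) (𝓞 K))) ''
      (FF : Set (MvPolynomial (Fin (n + 1)) (𝓞 k)))) (fun x => Off G x) R := by
  intro c l hc hoff
  by_contra hcon
  push Not at hcon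
  obtain ⟨i, i', hne⟩ := hcon
  apply hoff
  obtain ⟨c', hc'⟩ : ∃ c' : Fin R → Fin (n + 1) → K, c' = fun j i => algebraMap (𝓞 K) K (c j i) :=
    ⟨_, rfl⟩
  have hinj : Function.Injective (algebraMap (𝓞 K) K) := FaithfulSMul.algebraMap_injective _ _
  obtain ⟨ψ, hψ⟩ : ∃ ψ : (𝓞 K)[X] →+* K[X], ψ = Polynomial.mapRingHom (algebraMap (𝓞 K) K) :=
    ⟨_, rfl⟩
  have hψi : Function.Injective ψ := by
    rw [hψ]
    exact Polynomial.map_injective _ hinj
  have hψC : ∀ a : 𝓞 K, ψ (C a) = C (algebraMap (𝓞 K) K a) := by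
    intro a
    rw [hψ]
    simp
  have hψcur : ∀ i, ψ (cur c l i) = cur c' l i := by
    intro i
    unfold cur
    rw [map_sum]
    refine Finset.sum_congr rfl fun j _ => ?_
    rw [map_mul, hψC, map_pow, hψ, hc']
    simp
  have hsum : ∀ i, algebraMap (𝓞 K) K (∑ j, c j i) = ∑ j, c' j i := by
    intro i
    rw [map_sum, hc']
  have h1 := hG K c' l (by
    rintro _ ⟨F, hF, rfl⟩
    have h1 := congrArg ψ (hc _ ⟨F, hF, rfl⟩)
    rw [map_zero, MvPolynomial.aeval_map_algebraMap, MvPolynomial.aeval_def,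
      MvPolynomial.hom_eval₂] at h1
    rw [MvPolynomial.aeval_def, MvPolynomial.eval₂_map, ← h1]
    have h2 : ψ ∘ cur c l = cur c' l := funext hψcur
    have h3 : (algebraMap k (Polynomial K)).comp (algebraMap (𝓞 k) k) =
        ψ.comp (algebraMap (𝓞 k) (Polynomial (𝓞 K))) := by
      refine RingHom.ext fun a => ?_
      show algebraMap k (Polynomial K) (algebraMap (𝓞 k) k a) =
        ψ (algebraMap (𝓞 k) (Polynomial (𝓞 K)) a)
      rw [Polynomial.algebraMap_apply, Polynomial.algebraMap_apply, hψC]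
      rfl
    rw [h3]
    congr 1
    exact h2.symm) ⟨i, i', by
    intro h
    apply hne
    apply hψi
    rw [map_mul, map_mul, hψcur, hψcur, hψC, hψC, hsum, hsum]
    exact h⟩
  rw [← h1]
  congr 2
  funext i
  exact hsum i

theorem CurvesIn.mono {A : Type} [CommRing A] {FF : Set (MvPolynomial (Fin (n + 1)) A)}
    {P P' : (Fin (n + 1) → A) → Prop} {R : ℕ} (h : CurvesIn FF P R) (hP : ∀ x, P' x → P x) :
    CurvesIn FF P' R :=
  fun c l hc hx => h c l hc (hP _ hx)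

/-- constants for the growth of powers -/
theorem pow_const {a x : ℝ} {e C : ℕ} (ha : 1 ≤ a) (hx : 1 ≤ x) (haC : a ≤ C) (heC : e ≤ C) :
    (a * x) ^ e ≤ ((C : ℝ) * x) ^ C := by
  have h1 : 1 ≤ a * x := one_le_mul_of_one_le_of_one_le ha hx
  have h2 : a * x ≤ C * x := mul_le_mul_of_nonneg_right haC (by linarith)
  exact (pow_le_pow_left₀ (by linarith) h2 e).trans (pow_le_pow_right₀ (h1.trans h2) heC)

/-- the integral vectors over `K` that are values at `t` of vectors of polynomials of the form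
`∑ v_l X^(m_l) ∏_i F_i^(e_il)`, see `PowerVec` -/
def PowerPoint {K : Type} [Field K] [NumberField K] (r D N : ℕ) (H : ℝ) (t : 𝓞 K)
    (x : Fin (n + 1) → 𝓞 K) : Prop :=
  ∃ p : Fin (n + 1) → (𝓞 K)[X], PowerVec r D N H p ∧ ∀ i, x i = (p i).eval t

/-- **One exceptional set for all number fields.** -/
theorem one_set (k : Type) [Field k] [NumberField k] (n : ℕ)
    (FF : Finset (MvPolynomial (Fin (n + 1)) (𝓞 k))) (hhom : ∀ F ∈ FF, ∃ e, F.IsHomogeneous e)
    (hprime : (idealK FF).IsPrime) (hnu : ¬ Uniruled (idealK FF)) (r D : ℕ) :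
    ∃ G : MvPolynomial (Fin (n + 1)) k, (∃ e, G.IsHomogeneous e) ∧ G ∉ idealK FF ∧ ∃ C : ℕ,
      ∀ (K : Type) [Field K] [NumberField K] [Algebra k K] (H : ℝ) (N : ℕ) (t : 𝓞 K),
        1 ≤ H → 1 ≤ N → ((C * (H * N)) ^ C) ^ Module.finrank ℚ K ≤
          |((Algebra.norm ℤ t : ℤ) : ℝ)| →
        ∀ x : Fin (n + 1) → 𝓞 K, x ≠ 0 → PowerPoint r D N H t x →
          (∀ F ∈ FF, MvPolynomial.aeval x F = 0) → Off G x →
          ∃ y : Fin (n + 1) → 𝓞 K, y ≠ 0 ∧ (∀ i j, x i * y j = x j * y i) ∧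
            ∀ i, hs (y i) ≤ (C * H) ^ C := by
  classical
  rcases Nat.eq_zero_or_pos r with hr0 | hr
  · -- no terms
    refine ⟨1, ⟨0, MvPolynomial.isHomogeneous_one _ _⟩, ?_, 0, ?_⟩
    · intro h
      exact hprime.ne_top ((Ideal.eq_top_iff_one _).mpr h)
    · rintro K _ _ _ H N t hH hN ht x hx0 ⟨p, ⟨q, F, m, e, v, -, -, -, -, -, hp⟩, hx⟩
      exfalso
      apply hx0
      funext i
      subst hr0
      rw [hx i, hp i, Finset.univ_eq_empty, Finset.sum_empty, eval_zero]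
      rfl
  -- the degree
  obtain ⟨d, hd1, hd⟩ : ∃ d, 1 ≤ d ∧ ∀ F ∈ FF, ∃ e, e ≤ d ∧ F.IsHomogeneous e := by
    choose! e he using hhom
    refine ⟨FF.sup e + 1, by omega, fun F hF => ⟨e F, ?_, he F hF⟩⟩
    have := Finset.le_sup (f := e) hF
    omega
  obtain ⟨W, hW1, hW⟩ : ∃ W : ℝ, 1 ≤ W ∧ ∀ F ∈ FF, Pool.Agent.H458.Sp.nrm F ≤ W := by
    refine ⟨1 + ∑ F ∈ FF, Pool.Agent.H458.Sp.nrm F, ?_, fun F hF => ?_⟩
    · have : 0 ≤ ∑ F ∈ FF, Pool.Agent.H458.Sp.nrm F :=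
        Finset.sum_nonneg fun F _ => Pool.Agent.H458.Sp.nrm_nonneg F
      linarith
    · have := Finset.single_le_sum (f := fun F => Pool.Agent.H458.Sp.nrm F)
        (fun F _ => Pool.Agent.H458.Sp.nrm_nonneg F) hF
      linarith
  have hFFk : ∀ F ∈ (MvPolynomial.map (algebraMap (𝓞 k) k)) ''
      (FF : Set (MvPolynomial (Fin (n + 1)) (𝓞 k))), ∃ e, e ≤ d ∧ F.IsHomogeneous e := by
    rintro _ ⟨F, hF, rfl⟩
    obtain ⟨e, he, hFe⟩ := hd F hF
    exact ⟨e, he, hFe.map _⟩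
  obtain ⟨G1, ⟨e1, hG1⟩, hG1I, hG1c⟩ := exists_hyper _ hprime hnu d hd1 hFFk r
  obtain ⟨G2, ⟨e2, hG2⟩, hG2I, hG2c⟩ := exists_hyper _ hprime hnu d hd1 hFFk (EE r d D + 1)
  obtain ⟨c1, hc1⟩ : ∃ c1 : ℝ, c1 = 2 * (((r : ℝ) + 1) * (d + 1) * W) * ((D + 1) * NN r d D) :=
    ⟨_, rfl⟩
  obtain ⟨c2, hc2⟩ : ∃ c2 : ℝ, c2 = 2 * r * NN r d D := ⟨_, rfl⟩
  have hr1 : (1 : ℝ) ≤ r := by exact_mod_cast hr
  have hNN1 : (1 : ℝ) ≤ NN r d D := by
    have : 1 ≤ NN r d D := by unfold NN; omega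
    exact_mod_cast this
  have hD0 : (0 : ℝ) ≤ D := Nat.cast_nonneg D
  have hd0 : (0 : ℝ) ≤ d := Nat.cast_nonneg d
  have hc1' : 1 ≤ c1 := by
    rw [hc1]
    have a1 : 1 ≤ ((r : ℝ) + 1) := by linarith
    have a2 : 1 ≤ ((d : ℝ) + 1) := by linarith
    have a3 : 1 ≤ ((D : ℝ) + 1) := by linarith
    have b1 := one_le_mul_of_one_le_of_one_le (one_le_mul_of_one_le_of_one_le a1 a2) hW1
    have b2 := one_le_mul_of_one_le_of_one_le a3 hNN1
    have b3 : 1 ≤ 2 * (((r : ℝ) + 1) * (d + 1) * W) := by linarith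
    exact one_le_mul_of_one_le_of_one_le b3 b2
  have hc2' : 1 ≤ c2 := by
    rw [hc2]
    have b3 : 1 ≤ 2 * (r : ℝ) := by linarith
    exact one_le_mul_of_one_le_of_one_le b3 hNN1
  obtain ⟨Cn, hCn⟩ : ∃ Cn : ℕ, Cn = max (max ⌈c1⌉₊ (expo r d D))
    (max ⌈c2⌉₊ ((EE r d D + 2) * D.factorial)) := ⟨_, rfl⟩
  have hC1 : c1 ≤ Cn := by
    refine (Nat.le_ceil c1).trans ?_
    have : ⌈c1⌉₊ ≤ Cn := by rw [hCn]; omega
    exact_mod_cast this
  have hC2 : expo r d D ≤ Cn := by rw [hCn]; omega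
  have hC3 : c2 ≤ Cn := by
    refine (Nat.le_ceil c2).trans ?_
    have : ⌈c2⌉₊ ≤ Cn := by rw [hCn]; omega
    exact_mod_cast this
  have hC4 : (EE r d D + 2) * D.factorial ≤ Cn := by rw [hCn]; omega
  refine ⟨G1 * G2, ⟨e1 + e2, hG1.mul hG2⟩, ?_, Cn, ?_⟩
  · intro h
    rcases hprime.mem_or_mem h with h | h
    · exact hG1I h
    · exact hG2I h
  rintro K _ _ _ H N t hH hN ht x hx0 ⟨p, ⟨q, F, m, e, v, hFD, hroot, hFH, heN, hvH, hp⟩, hx⟩
    hzero hoff
  obtain ⟨K', _, _, _, _, hdeg, κ, _, a, M, hκ, ha, ha0, haH, hMD, hFac⟩ :=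
    splitting F hFD hroot hFH
  let _ : Algebra k K' := ((algebraMap K K').comp (algebraMap k K)).toAlgebra
  have hN1 : (1 : ℝ) ≤ N := by exact_mod_cast hN
  have hHN : 1 ≤ H * N := one_le_mul_of_one_le_of_one_le hH hN1
  have hinj : Function.Injective (algebraMap (𝓞 K) (𝓞 K')) :=
    FaithfulSMul.algebraMap_injective _ _
  have hcomp : ∀ b : 𝓞 k, algebraMap (𝓞 k) (𝓞 K') b =
      algebraMap (𝓞 K) (𝓞 K') (algebraMap (𝓞 k) (𝓞 K) b) := fun b => rfl
  -- the large number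
  obtain ⟨T, hT⟩ : ∃ T : ℝ, T = (((r : ℝ) + 1) * (d + 1) * W * (H + 1) *
    ((N * (D + 1) * NN r d D : ℕ) : ℝ)) ^ expo r d D := ⟨_, rfl⟩
  have hTle : T ≤ ((Cn : ℝ) * (H * N)) ^ Cn := by
    refine le_trans ?_ (pow_const hc1' hHN hC1 hC2)
    rw [hT, hc1]
    push_cast
    apply pow_le_pow_left₀ (by positivity)
    have h1 : (H + 1) ≤ 2 * H := by linarith
    calc ((r : ℝ) + 1) * (d + 1) * W * (H + 1) * (N * (D + 1) * NN r d D) ≤
          ((r : ℝ) + 1) * (d + 1) * W * (2 * H) * (N * (D + 1) * NN r d D) := by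
          apply mul_le_mul_of_nonneg_right _ (by positivity)
          apply mul_le_mul_of_nonneg_left h1 (by positivity)
      _ = _ := by ring
  have hT0 : 0 ≤ T := by
    rw [hT]
    positivity
  have ht' := norm_ext (K' := K') t (by positivity) ht
  have hTt : ∀ z, algebraMap (𝓞 K) (𝓞 K') t ∣ z → hs z < T → z = 0 := by
    intro z hz1 hz2
    refine eq_zero_of_dvd ?_ hz1 hz2
    exact (pow_le_pow_left₀ hT0 hTle _).trans ht'
  have ht0 : algebraMap (𝓞 K) (𝓞 K') t ≠ 0 := by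
    intro h
    rw [h] at ht'
    have h2 : |((Algebra.norm ℤ (0 : 𝓞 K') : ℤ) : ℝ)| = 0 := by
      rw [Algebra.norm_zero]
      simp
    rw [h2] at ht'
    have h3 : 1 ≤ ((Cn : ℝ) * (H * N)) ^ Cn :=
      le_trans (one_le_pow₀ (one_le_mul_of_one_le_of_one_le hc1' hHN))
        (pow_const (e := Cn) hc1' hHN hC1 le_rfl)
    have h4 : 1 ≤ (((Cn : ℝ) * (H * N)) ^ Cn) ^ Module.finrank ℚ K' := one_le_pow₀ h3
    linarith
  -- the vectors
  obtain ⟨v', hv'⟩ : ∃ v' : Fin r → Fin (n + 1) → 𝓞 K', v' = fun l i =>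
    algebraMap (𝓞 K) (𝓞 K') (v l i * ∏ j, (F j).coeff 0 ^ e l j) := ⟨_, rfl⟩
  obtain ⟨e', he'⟩ : ∃ e' : Fin r → κ → ℕ, e' = fun l j => ∑ i, e l i * M i j := ⟨_, rfl⟩
  have hζ : ∀ j, hs ((F j).coeff 0) ≤ 1 := fun j => by
    obtain ⟨j', hj', h⟩ := hroot j
    exact hs_root hj' h
  have hprodζ : ∀ l, hs (∏ j, (F j).coeff 0 ^ e l j) ≤ 1 := by
    intro l
    obtain ⟨s, hs'⟩ : ∃ s : Finset (Fin q), s = Finset.univ := ⟨_, rfl⟩
    rw [← hs']
    clear hs'
    induction s using Finset.induction_on with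
    | empty =>
      rw [Finset.prod_empty]
      exact sizeHs.one
    | insert j s hj ih =>
      rw [Finset.prod_insert hj]
      refine (hs_mul _ _).trans ?_
      refine mul_le_one₀ ?_ (hs_nonneg _) ih
      induction e l j with
      | zero =>
        rw [pow_zero]
        exact sizeHs.one
      | succ w ihw =>
        rw [pow_succ]
        refine (hs_mul _ _).trans ?_
        exact mul_le_one₀ ihw (hs_nonneg _) (hζ j)
  have hv'H : ∀ l i, hs (v' l i) ≤ H + 1 := by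
    intro l i
    rw [hv']
    refine (hs_map_le _).trans ((hs_mul _ _).trans ?_)
    calc hs (v l i) * hs (∏ j, (F j).coeff 0 ^ e l j) ≤ H * 1 :=
          mul_le_mul (hvH l i) (hprodζ l) (hs_nonneg _) (by linarith)
      _ ≤ H + 1 := by linarith
  have he'N : ∀ l, ∑ j, e' l j ≤ N * (D + 1) := by
    intro l
    rw [he']
    simp only
    rw [Finset.sum_comm]
    simp only [← Finset.mul_sum]
    calc ∑ i, e l i * ∑ j, M i j ≤ ∑ i, e l i * (D + 1) :=
          Finset.sum_le_sum fun i _ => Nat.mul_le_mul_left _ ((hMD i).trans (by omega))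
      _ = (∑ i, e l i) * (D + 1) := by rw [Finset.sum_mul]
      _ ≤ N * (D + 1) := Nat.mul_le_mul_right _ (heN l)
  have hpm : ∀ i, (p i).map (algebraMap (𝓞 K) (𝓞 K')) = pt (lf a) m e' v' i := by
    intro i
    rw [hp i]
    unfold pt
    rw [Polynomial.map_sum]
    refine Finset.sum_congr rfl fun l _ => ?_
    rw [MP_one, Polynomial.map_mul, Polynomial.map_mul, Polynomial.map_pow, map_X, map_C,
      Polynomial.map_prod, hv', he']
    simp only [Polynomial.map_pow, hFac, mul_pow, Finset.prod_mul_distrib]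
    have h1 : ∏ j, (∏ j', lf a j' ^ M j j') ^ e l j =
        ∏ j', lf a j' ^ (∑ j, e l j * M j j') := by
      simp only [← Finset.prod_pow, ← pow_mul, ← Finset.prod_pow_eq_pow_sum]
      rw [Finset.prod_comm]
      refine Finset.prod_congr rfl fun j' _ => Finset.prod_congr rfl fun j _ => ?_
      rw [mul_comm]
    rw [h1]
    have h2 : (C (algebraMap (𝓞 K) (𝓞 K') (v l i * ∏ j, (F j).coeff 0 ^ e l j)) : (𝓞 K')[X]) =
        C (algebraMap (𝓞 K) (𝓞 K') (v l i)) *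
          ∏ j, C (algebraMap (𝓞 K) (𝓞 K') ((F j).coeff 0)) ^ e l j := by
      rw [map_mul, C_mul, map_prod, map_prod]
      simp only [map_pow]
    rw [h2]
    ring
  obtain ⟨x', hx'⟩ : ∃ x' : Fin (n + 1) → 𝓞 K', x' = fun i => algebraMap (𝓞 K) (𝓞 K') (x i) :=
    ⟨_, rfl⟩
  have hx'e : ∀ i, x' i = (pt (lf a) m e' v' i).eval (algebraMap (𝓞 K) (𝓞 K') t) := by
    intro i
    rw [hx', ← hpm i, eval_map, eval₂_at_apply, ← hx i]
  have hx'0 : x' ≠ 0 := by
    intro h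
    apply hx0
    funext i
    apply hinj
    rw [Pi.zero_apply, map_zero]
    have := congrFun h i
    rw [hx'] at this
    exact this
  have hzero' : ∀ G ∈ (MvPolynomial.map (algebraMap (𝓞 k) (𝓞 K'))) ''
      (FF : Set (MvPolynomial (Fin (n + 1)) (𝓞 k))), MvPolynomial.aeval x' G = 0 := by
    rintro _ ⟨F, hF, rfl⟩
    rw [MvPolynomial.aeval_map_algebraMap, hx', MvPolynomial.aeval_def]
    have h1 := congrArg (algebraMap (𝓞 K) (𝓞 K')) (hzero F hF)
    rw [MvPolynomial.aeval_def, MvPolynomial.hom_eval₂, map_zero] at h1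
    exact h1
  have hoff' : Off (G1 * G2) x' := by
    intro h
    apply hoff
    have h1 : MvPolynomial.aeval (fun i => algebraMap (𝓞 K') K' (x' i)) (G1 * G2) =
        algebraMap K K' (MvPolynomial.aeval (fun i => algebraMap (𝓞 K) K (x i)) (G1 * G2)) := by
      rw [MvPolynomial.aeval_def, MvPolynomial.aeval_def, MvPolynomial.hom_eval₂, hx']
      rfl
    rw [h1] at h
    exact (map_eq_zero _).mp h
  obtain ⟨y, hy0, hxy, hyB⟩ := core_small sizeHs ha ha0 (H := H + 1) (by linarith) haH hκ m e'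
    (N := N * (D + 1)) (Nat.mul_pos hN (by omega)) he'N hr v' hv'H hd1 hW1
    ((MvPolynomial.map (algebraMap (𝓞 k) (𝓞 K'))) ''
      (FF : Set (MvPolynomial (Fin (n + 1)) (𝓞 k)))) (by
      rintro _ ⟨F, hF, rfl⟩
      obtain ⟨e, he, hFe⟩ := hd F hF
      exact ⟨⟨e, he, hFe.map _⟩, (nrm_map_le F).trans (hW F hF)⟩) ht0 (by
      rw [← hT]
      exact hTt) (fun x => Off (G1 * G2) x)
    (fun x y _ hy hxy h => off_prp _ ⟨e1 + e2, hG1.mul hG2⟩ x y hy hxy h)
    ((curvesIn_hyper FF r G1 hG1c K').mono fun x h h1 => h (by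
      rw [map_mul, h1, zero_mul]))
    ((curvesIn_hyper FF (EE r d D + 1) G2 hG2c K').mono fun x h h1 => h (by
      rw [map_mul, h1, mul_zero])) x' hx'e hx'0 hzero' hoff'
  obtain ⟨B, hB⟩ : ∃ B : ℝ, B = r * ((H + 1) * (NN r d D * (H + 1)) ^ EE r d D) := ⟨_, rfl⟩
  rw [← hB] at hyB
  have hBle : B ≤ (c2 * H) ^ (EE r d D + 2) := by
    have h1 : (r : ℝ) ≤ c2 * H := by
      rw [hc2]
      have := one_le_mul_of_one_le_of_one_le hNN1 hH
      nlinarith
    have h2 : H + 1 ≤ c2 * H := by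
      rw [hc2]
      have := one_le_mul_of_one_le_of_one_le hr1 hNN1
      nlinarith
    have h3 : NN r d D * (H + 1) ≤ c2 * H := by
      rw [hc2]
      have h4 : NN r d D * (H + 1) ≤ NN r d D * (2 * H) :=
        mul_le_mul_of_nonneg_left (by linarith) (by linarith)
      have h5 : (NN r d D : ℝ) * (2 * H) ≤ r * (NN r d D * (2 * H)) :=
        le_mul_of_one_le_left (by positivity) hr1
      linarith
    rw [hB]
    calc (r : ℝ) * ((H + 1) * (NN r d D * (H + 1)) ^ EE r d D) ≤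
          (c2 * H) * ((c2 * H) * (c2 * H) ^ EE r d D) := by gcongr
      _ = _ := by ring
  have hB1 : 1 ≤ B := by
    rw [hB]
    have h1 : 1 ≤ NN r d D * (H + 1) := one_le_mul_of_one_le_of_one_le hNN1 (by linarith)
    have h2 := one_le_pow₀ (n := EE r d D) h1
    exact one_le_mul_of_one_le_of_one_le hr1
      (one_le_mul_of_one_le_of_one_le (by linarith) h2)
  obtain ⟨z, hz0, hxz, hzB⟩ := descent x hx0 y hy0 (by rw [← hx']; exact hxy) hB1 hyB
  refine ⟨z, hz0, hxz, fun i => (hzB i).trans ?_⟩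
  calc B ^ Module.finrank K K' ≤ B ^ D.factorial := pow_le_pow_right₀ hB1 hdeg
    _ ≤ ((c2 * H) ^ (EE r d D + 2)) ^ D.factorial := pow_le_pow_left₀ (by linarith) hBle _
    _ = (c2 * H) ^ ((EE r d D + 2) * D.factorial) := by rw [pow_mul]
    _ ≤ (Cn * H) ^ Cn := pow_const hc2' hH hC3 hC4

end Pool.Agent.Q29.SE
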