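import Mathlib
import Pool.Agent.Q29.SE.OneNF
import Pool.Agent.TH409.SH.Conv

/-!
# The converse: uniruled varieties
-/

set_option autoImplicit false
set_option linter.unusedSectionVars false

namespace Pool.Agent.Q29.SE

open Polynomial Finset Pool.Agent.Q103.SD Pool.Agent.H533R3.SL NumberField Pool.Agent.H458.Sp

theorem exists_nat_ne {K : Type} [Field K] [CharZero K] {P : K[X]} (hP : P ≠ 0) (L : ℝ) :
    ∃ t : ℕ, L ≤ t ∧ P.eval (t : K) ≠ 0 := by
  by_contra hcon
  push Not at hcon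
  apply hP
  apply Polynomial.eq_zero_of_infinite_isRoot
  have h1 : (Set.range fun j : ℕ => ((⌈L⌉₊ + j : ℕ) : K)).Infinite := by
    apply Set.infinite_range_of_injective
    intro a b h
    have h2 : ⌈L⌉₊ + a = ⌈L⌉₊ + b := Nat.cast_injective (R := K) h
    omega
  refine h1.mono ?_
  rintro _ ⟨j, rfl⟩
  refine hcon _ ?_
  have := Nat.le_ceil L
  push_cast
  linarith [Nat.cast_nonneg (α := ℝ) j]

theorem finite_hs {K : Type} [Field K] [NumberField K] (n : ℕ) (B : ℝ) :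
    {y : Fin (n + 1) → 𝓞 K | ∀ i, hs (y i) ≤ B}.Finite := by
  have h1 : {a : K | IsIntegral ℤ a ∧ ∀ φ : K →+* ℂ, ‖φ a‖ ≤ B}.Finite :=
    Embeddings.finite_of_norm_le K ℂ B
  have h2 : {a : 𝓞 K | hs a ≤ B}.Finite := by
    refine Set.Finite.of_finite_image (f := algebraMap (𝓞 K) K) (h1.subset ?_)
      ((FaithfulSMul.algebraMap_injective (𝓞 K) K).injOn)
    rintro _ ⟨a, ha, rfl⟩
    exact ⟨a.2, fun φ => (norm_embedding_le_house _ φ).trans ha⟩
  have h3 := Set.Finite.pi (fun _ : Fin (n + 1) => h2)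
  refine h3.subset ?_
  intro y hy i _
  exact hy i

/-- **The converse.** -/
theorem conv (k : Type) [Field k] [NumberField k] (n : ℕ)
    (FF : Finset (MvPolynomial (Fin (n + 1)) (𝓞 k))) (hhom : ∀ F ∈ FF, ∃ e, F.IsHomogeneous e)
    (hu : Uniruled (idealK FF)) :
    ∃ r : ℕ, ∀ G : MvPolynomial (Fin (n + 1)) k, (∃ e, G.IsHomogeneous e) → G ∉ idealK FF →
      ∃ (K : Type) (_ : Field K) (_ : NumberField K) (_ : Algebra k K) (H : ℝ), 1 ≤ H ∧
        ∀ L B : ℝ, ∃ t : ℕ, L ≤ t ∧ ∃ p : Fin (n + 1) → (𝓞 K)[X], PowerVec r 0 1 H p ∧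
          (fun i => (p i).eval (t : 𝓞 K)) ≠ 0 ∧
          (∀ F ∈ FF, MvPolynomial.aeval (fun i => (p i).eval (t : 𝓞 K)) F = 0) ∧
          Off G (fun i => (p i).eval (t : 𝓞 K)) ∧
          ∀ y : Fin (n + 1) → 𝓞 K, y ≠ 0 → Prp (fun i => (p i).eval (t : 𝓞 K)) y →
            ∃ i, B < hs (y i) := by
  classical
  obtain ⟨L, iL, iA, p, hp1, hp2, hp3⟩ := hu
  obtain ⟨r, hr⟩ : ∃ r, r = Finset.univ.sup (fun i => (p i).natDegree) + 1 := ⟨_, rfl⟩
  have hNc : ∀ i m, r ≤ m → (p i).coeff m = 0 := by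
    intro i m hm
    apply Polynomial.coeff_eq_zero_of_natDegree_lt
    have := Finset.le_sup (f := fun i => (p i).natDegree) (Finset.mem_univ i)
    omega
  refine ⟨r, ?_⟩
  intro G hG1 hG2
  obtain ⟨K, iK, iN, iAK, w, h1, h2, h3⟩ := Pool.Agent.TH409.SH.specialise k L p
    ((MvPolynomial.map (algebraMap (𝓞 k) k)) '' (FF : Set (MvPolynomial (Fin (n + 1)) (𝓞 k))))
    (fun F hF => hp1 F (Ideal.subset_span hF)) r hNc hp3 G (hp2 G hG1 hG2)
  have hinj : Function.Injective (algebraMap (𝓞 K) K) := FaithfulSMul.algebraMap_injective _ _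
  have hmapinj : Function.Injective (Polynomial.map (algebraMap (𝓞 K) K)) :=
    Polynomial.map_injective _ hinj
  -- denominators
  obtain ⟨b, hb⟩ := IsLocalization.exist_integer_multiples (nonZeroDivisors (𝓞 K))
    (Finset.univ : Finset (Fin r × Fin (n + 1))) (fun q => w q.1 q.2)
  choose v hv using fun (j : Fin r) (i : Fin (n + 1)) => hb (j, i) (Finset.mem_univ _)
  have hb0 : (b : 𝓞 K) ≠ 0 := nonZeroDivisors.ne_zero b.2
  have hbK : algebraMap (𝓞 K) K (b : 𝓞 K) ≠ 0 := (map_ne_zero_iff _ hinj).mpr hb0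
  have hv' : ∀ j i, algebraMap (𝓞 K) K (v j i) = algebraMap (𝓞 K) K b * w j i := by
    intro j i
    rw [hv j i]
    show (b : 𝓞 K) • w j i = _
    rw [Algebra.smul_def]
  obtain ⟨q, hq⟩ : ∃ q : Fin (n + 1) → (𝓞 K)[X], q = cur v (fun j => (j : ℕ)) := ⟨_, rfl⟩
  obtain ⟨W, hW⟩ : ∃ W : Fin (n + 1) → K[X], W = cur w (fun j => (j : ℕ)) := ⟨_, rfl⟩
  rw [← hW] at h1 h2 h3
  have hqW : ∀ i, (q i).map (algebraMap (𝓞 K) K) = C (algebraMap (𝓞 K) K b) * W i := by
    intro i
    rw [hq, hW]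
    unfold cur
    rw [Polynomial.map_sum, Finset.mul_sum]
    refine Finset.sum_congr rfl fun j _ => ?_
    rw [Polynomial.map_mul, map_C, Polynomial.map_pow, map_X, hv', C_mul, mul_assoc]
  have hqWt : ∀ i (t : 𝓞 K), algebraMap (𝓞 K) K ((q i).eval t) =
      algebraMap (𝓞 K) K b * (W i).eval (algebraMap (𝓞 K) K t) := by
    intro i t
    have h4 := congrArg (Polynomial.eval (algebraMap (𝓞 K) K t)) (hqW i)
    rw [eval_mul, eval_C, eval_map, eval₂_at_apply] at h4
    exact h4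
  -- the size of the coefficients
  obtain ⟨H, hH⟩ : ∃ H : ℝ, H = 1 + ∑ x : Fin r × Fin (n + 1), hs (v x.1 x.2) := ⟨_, rfl⟩
  have hH1 : 1 ≤ H := by
    rw [hH]
    have : 0 ≤ ∑ x : Fin r × Fin (n + 1), hs (v x.1 x.2) :=
      Finset.sum_nonneg fun x _ => hs_nonneg _
    linarith
  have hvH : ∀ j i, hs (v j i) ≤ H := by
    intro j i
    rw [hH]
    have := Finset.single_le_sum (f := fun x : Fin r × Fin (n + 1) => hs (v x.1 x.2))
      (fun x _ => hs_nonneg _) (Finset.mem_univ (j, i))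
    simp only at this
    linarith
  have hpv : PowerVec r 0 1 H q := by
    refine ⟨0, fun i => i.elim0, fun j => (j : ℕ), fun _ i => i.elim0, v, by simp,
      fun i => i.elim0, fun i => i.elim0, by simp, hvH, fun i => ?_⟩
    rw [hq]
    unfold cur
    refine Finset.sum_congr rfl fun j _ => ?_
    simp
  refine ⟨K, iK, iN, iAK, H, hH1, ?_⟩
  intro L0 B
  -- the curve lies on the variety
  have hW0 : W ≠ 0 := by
    intro h
    obtain ⟨i, j, hij⟩ := h2
    apply hij
    rw [h]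
    simp
  obtain ⟨i0, hi0⟩ : ∃ i, W i ≠ 0 := by
    by_contra h
    push Not at h
    exact hW0 (funext h)
  have hCb : (C (algebraMap (𝓞 K) K b) : K[X]) ≠ 0 := C_ne_zero.mpr hbK
  have hzero : ∀ F ∈ FF, MvPolynomial.aeval q F = 0 := by
    intro F hF
    obtain ⟨e, he⟩ := hhom F hF
    have h4 := h1 _ ⟨F, hF, rfl⟩
    have h5 : MvPolynomial.aeval (fun i => (q i).map (algebraMap (𝓞 K) K))
        (MvPolynomial.map (algebraMap (𝓞 k) k) F) = 0 := by
      refine Prp.zero hW0 ?_ _ ⟨e, he.map _⟩ h4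
      intro i j
      show W i * (q j).map (algebraMap (𝓞 K) K) = W j * (q i).map (algebraMap (𝓞 K) K)
      rw [hqW, hqW]
      ring
    apply hmapinj
    rw [Polynomial.map_zero, ← h5]
    have h6 := MvPolynomial.hom_eval₂ F (algebraMap (𝓞 k) (𝓞 K)[X])
      (Polynomial.mapRingHom (algebraMap (𝓞 K) K)) q
    rw [MvPolynomial.aeval_def, MvPolynomial.aeval_def, MvPolynomial.eval₂_map]
    refine Eq.trans h6 ?_
    congr 1
    ext a
    simp only [RingHom.comp_apply, Polynomial.algebraMap_apply, Polynomial.coe_mapRingHom,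
      Polynomial.map_C]
    rfl
  obtain ⟨g, hg⟩ : ∃ g : K[X], g = MvPolynomial.aeval W G := ⟨_, rfl⟩
  have hgt : ∀ a : K, g.eval a = MvPolynomial.aeval (fun i => (W i).eval a) G := by
    intro a
    rw [hg, MvPolynomial.aeval_def, MvPolynomial.aeval_def]
    have h6 := MvPolynomial.hom_eval₂ G (algebraMap k K[X]) (Polynomial.evalRingHom a) W
    refine Eq.trans h6 ?_
    congr 1
    ext c
    simp only [RingHom.comp_apply, Polynomial.algebraMap_apply, Polynomial.coe_evalRingHom,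
      Polynomial.eval_C]
  have hg0 : g ≠ 0 := by
    intro h
    apply h3
    rw [← hgt, h, eval_zero]
  obtain ⟨i1, i2, a1, a2, hab⟩ := Pool.Agent.TH409.SH.nonconst_of W h2
  -- the differences
  have hdiff : ∀ y : Fin (n + 1) → 𝓞 K, y ≠ 0 → ∃ i j,
      W i * C (algebraMap (𝓞 K) K (y j)) - W j * C (algebraMap (𝓞 K) K (y i)) ≠ 0 := by
    intro y hy
    by_contra hcon
    push Not at hcon
    have hyK : (fun i => algebraMap (𝓞 K) K (y i)) ≠ 0 := by
      intro h
      apply hy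
      funext i
      apply hinj
      rw [Pi.zero_apply, map_zero]
      exact congrFun h i
    have h4 : ∀ a : K, Prp (fun i => (W i).eval a) (fun i => algebraMap (𝓞 K) K (y i)) := by
      intro a i j
      have h5 := congrArg (Polynomial.eval a) (hcon i j)
      rw [eval_sub, eval_mul, eval_mul, eval_C, eval_C, eval_zero] at h5
      linear_combination h5
    exact hab (Prp.trans hyK (h4 a1) (h4 a2).symm i1 i2)
  choose! I J hIJ using hdiff
  obtain ⟨Y, hY⟩ : ∃ Y : Finset (Fin (n + 1) → 𝓞 K),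
    Y = (finite_hs (K := K) n B).toFinset.filter (fun y => y ≠ 0) := ⟨_, rfl⟩
  obtain ⟨Φ, hΦ⟩ : ∃ Φ : K[X], Φ = g * W i0 * ∏ y ∈ Y,
    (W (I y) * C (algebraMap (𝓞 K) K (y (J y))) - W (J y) * C (algebraMap (𝓞 K) K (y (I y)))) :=
    ⟨_, rfl⟩
  have hΦ0 : Φ ≠ 0 := by
    rw [hΦ]
    refine mul_ne_zero (mul_ne_zero hg0 hi0) (Finset.prod_ne_zero_iff.mpr fun y hy => ?_)
    rw [hY, Finset.mem_filter] at hy
    exact hIJ y hy.2
  obtain ⟨t, htL, ht⟩ := exists_nat_ne hΦ0 L0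
  rw [hΦ, eval_mul, eval_mul, eval_prod] at ht
  have ht1 : g.eval (t : K) ≠ 0 := fun h => ht (by rw [h, zero_mul, zero_mul])
  have ht2 : (W i0).eval (t : K) ≠ 0 := fun h => ht (by rw [h, mul_zero, zero_mul])
  have ht3 := Finset.prod_ne_zero_iff.mp (right_ne_zero_of_mul ht)
  have htK : algebraMap (𝓞 K) K (t : 𝓞 K) = (t : K) := map_natCast _ t
  have hqt0 : (fun i => (q i).eval (t : 𝓞 K)) ≠ 0 := by
    intro h
    have h4 := hqWt i0 (t : 𝓞 K)
    have h5 : (q i0).eval (t : 𝓞 K) = 0 := congrFun h i0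
    rw [h5, map_zero, htK] at h4
    exact mul_ne_zero hbK ht2 h4.symm
  refine ⟨t, htL, q, hpv, hqt0, ?_, ?_, ?_⟩
  · intro F hF
    have h4 := congrArg (Polynomial.eval (t : 𝓞 K)) (hzero F hF)
    rw [eval_zero] at h4
    rw [← h4, MvPolynomial.aeval_def, MvPolynomial.aeval_def]
    have h6 := MvPolynomial.hom_eval₂ F (algebraMap (𝓞 k) (𝓞 K)[X])
      (Polynomial.evalRingHom (t : 𝓞 K)) q
    refine Eq.trans ?_ h6.symm
    congr 1
    ext c
    simp only [RingHom.comp_apply, Polynomial.algebraMap_apply, Polynomial.coe_evalRingHom,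
      Polynomial.eval_C]
  · intro h
    apply ht1
    rw [hgt]
    refine Prp.zero (x := fun i => algebraMap (𝓞 K) K ((q i).eval (t : 𝓞 K))) ?_ ?_ G hG1 h
    · intro h4
      apply hqt0
      funext i
      apply hinj
      rw [Pi.zero_apply, map_zero]
      exact congrFun h4 i
    · intro i j
      show algebraMap (𝓞 K) K ((q i).eval (t : 𝓞 K)) * (W j).eval (t : K) =
        algebraMap (𝓞 K) K ((q j).eval (t : 𝓞 K)) * (W i).eval (t : K)
      rw [hqWt, hqWt, htK]
      ring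
  · intro y hy hprp
    by_contra hcon
    push Not at hcon
    have hyY : y ∈ Y := by
      rw [hY, Finset.mem_filter, Set.Finite.mem_toFinset]
      exact ⟨hcon, hy⟩
    apply ht3 y hyY
    have h4 := congrArg (algebraMap (𝓞 K) K) (hprp (I y) (J y))
    rw [map_mul, map_mul, hqWt, hqWt, htK] at h4
    rw [eval_sub, eval_mul, eval_mul, eval_C, eval_C]
    apply mul_left_cancel₀ hbK
    linear_combination h4

end Pool.Agent.Q29.SE
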