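import Mathlib
import Pool.Agent.Q29.SE.OneNF
import Pool.Agent.Q29.SE.Conv

/-!
# Varieties without rational curves: uniform bounds for all points
-/

set_option autoImplicit false
set_option linter.unusedSectionVars false

namespace Pool.Agent.Q29.SE

open Polynomial Finset Pool.Agent.Q103.SD Pool.Agent.H533R3.SL NumberField Pool.Agent.H458.Sp

variable {n : ℕ}

/-- over no number field is there a nonconstant rational curve in the zero set of the forms -/
def NoCurves {k : Type} [Field k] (FF : Set (MvPolynomial (Fin (n + 1)) (𝓞 k))) : Prop :=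
  ∀ (L : Type) [Field L] [NumberField L] [Algebra k L] (p : Fin (n + 1) → L[X]),
    (∀ F ∈ FF, MvPolynomial.aeval p (MvPolynomial.map (algebraMap (𝓞 k) k) F) = 0) →
    ∀ (i j : Fin (n + 1)) (a b : L), (p i).eval a * (p j).eval b = (p j).eval a * (p i).eval b

theorem map_aeval_eq {k L : Type} [Field k] [NumberField k] [Field L] [NumberField L] [Algebra k L]
    (q : Fin (n + 1) → (𝓞 L)[X]) (F : MvPolynomial (Fin (n + 1)) (𝓞 k)) :
    (MvPolynomial.aeval q F).map (algebraMap (𝓞 L) L) =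
      MvPolynomial.aeval (fun i => (q i).map (algebraMap (𝓞 L) L))
        (MvPolynomial.map (algebraMap (𝓞 k) k) F) := by
  have h6 := MvPolynomial.hom_eval₂ F (algebraMap (𝓞 k) (𝓞 L)[X])
    (Polynomial.mapRingHom (algebraMap (𝓞 L) L)) q
  rw [MvPolynomial.aeval_def, MvPolynomial.aeval_def, MvPolynomial.eval₂_map]
  refine Eq.trans h6 ?_
  congr 1
  ext a
  simp only [RingHom.comp_apply, Polynomial.algebraMap_apply, Polynomial.coe_mapRingHom,
    Polynomial.map_C]
  rfl

theorem aeval_eval_eq {k L : Type} [CommRing k] [CommRing L] [Algebra k L]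
    (q : Fin (n + 1) → L[X]) (F : MvPolynomial (Fin (n + 1)) k) (t : L) :
    (MvPolynomial.aeval q F).eval t = MvPolynomial.aeval (fun i => (q i).eval t) F := by
  have h6 := MvPolynomial.hom_eval₂ F (algebraMap k L[X]) (Polynomial.evalRingHom t) q
  rw [MvPolynomial.aeval_def, MvPolynomial.aeval_def]
  refine Eq.trans h6 ?_
  congr 1
  ext c
  simp only [RingHom.comp_apply, Polynomial.algebraMap_apply, Polynomial.coe_evalRingHom,
    Polynomial.eval_C]

theorem curvesIn_noCurves {k : Type} [Field k] [NumberField k]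
    (FF : Set (MvPolynomial (Fin (n + 1)) (𝓞 k))) (h : NoCurves FF)
    (K : Type) [Field K] [NumberField K] [Algebra k K] (R : ℕ) :
    CurvesIn ((MvPolynomial.map (algebraMap (𝓞 k) (𝓞 K))) '' FF) (fun _ => True) R := by
  intro c l hc _ i i'
  have hinj : Function.Injective (algebraMap (𝓞 K) K) := FaithfulSMul.algebraMap_injective _ _
  have hmapinj : Function.Injective (Polynomial.map (algebraMap (𝓞 K) K)) :=
    Polynomial.map_injective _ hinj
  have h1 := h K (fun i => (cur c l i).map (algebraMap (𝓞 K) K)) (by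
    intro F hF
    have h2 := hc _ ⟨F, hF, rfl⟩
    rw [MvPolynomial.aeval_map_algebraMap] at h2
    rw [← map_aeval_eq, h2, Polynomial.map_zero])
  apply hmapinj
  apply Polynomial.funext
  intro a
  have h3 := h1 i i' a 1
  have h4 : ∀ i, eval (1 : K) ((cur c l i).map (algebraMap (𝓞 K) K)) =
      algebraMap (𝓞 K) K (∑ j, c j i) := by
    intro i
    have h5 := cur_eval_one c l i
    have h6 := eval₂_at_apply (algebraMap (𝓞 K) K) (p := cur c l i) 1
    rw [map_one] at h6
    rw [eval_map, h6, h5]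
  rw [h4, h4] at h3
  rw [Polynomial.map_mul, Polynomial.map_mul, map_C, map_C, eval_mul, eval_mul, eval_C, eval_C]
  exact h3

/-- the constant -/
noncomputable def Cst (r d D : ℕ) : ℕ :=
  2 * (r + 1) * (d + 1) * (D + 1) * NN r d D + expo r d D +
    (EE r d D + 2) * D.factorial

theorem noRat_small {k : Type} [Field k] [NumberField k] {d : ℕ} {W : ℝ} (hW1 : 1 ≤ W)
    (FF : Set (MvPolynomial (Fin (n + 1)) (𝓞 k)))
    (hFF : ∀ F ∈ FF, (∃ e, e ≤ d ∧ F.IsHomogeneous e) ∧ Pool.Agent.H458.Sp.nrm F ≤ W)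
    (hno : NoCurves FF) (r D : ℕ)
    (K : Type) [Field K] [NumberField K] [Algebra k K] (H : ℝ) (N : ℕ) (t : 𝓞 K)
    (hH : 1 ≤ H) (hN : 1 ≤ N) (ht : ((Cst r d D * (W * H * N)) ^ Cst r d D) ^ Module.finrank ℚ K ≤
          |((Algebra.norm ℤ t : ℤ) : ℝ)|)
    (x : Fin (n + 1) → 𝓞 K) (hx0 : x ≠ 0) (hpp : PowerPoint r D N H t x)
    (hzero : ∀ F ∈ FF, MvPolynomial.aeval x F = 0) :
    ∃ y : Fin (n + 1) → 𝓞 K, y ≠ 0 ∧ (∀ i j, x i * y j = x j * y i) ∧
      ∀ i, hs (y i) ≤ (Cst r d D * H) ^ Cst r d D := by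
  classical
  obtain ⟨p, ⟨q, F, m, e, v, hFD, hroot, hFH, heN, hvH, hp⟩, hx⟩ := hpp
  rcases Nat.eq_zero_or_pos r with hr0 | hr
  · exfalso
    apply hx0
    funext i
    subst hr0
    rw [hx i, hp i, Finset.univ_eq_empty, Finset.sum_empty, eval_zero]
    rfl
  -- degree zero: then there are no conditions, or no points
  rcases Nat.eq_zero_or_pos d with hd0 | hd1
  · -- all forms are constants
    have hall : ∀ F ∈ FF, F = 0 := by
      intro F hF
      obtain ⟨⟨e, he, hom⟩, _⟩ := hFF F hF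
      have he0 : e = 0 := by omega
      subst he0
      have h1 : F = MvPolynomial.C (MvPolynomial.coeff 0 F) :=
        (MvPolynomial.totalDegree_eq_zero_iff_eq_C).mp (by
          have := hom.totalDegree_le
          omega)
      have h2 := hzero F hF
      rw [h1, MvPolynomial.aeval_C] at h2
      have h3 : Function.Injective (algebraMap (𝓞 k) (𝓞 K)) :=
        FaithfulSMul.algebraMap_injective _ _
      have h4 : MvPolynomial.coeff 0 F = 0 := h3 (by rw [h2, map_zero])
      rw [h1, h4, map_zero]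
    -- all polynomial vectors satisfy the equations, so there is only one coordinate
    have hn : ∀ i j : Fin (n + 1), i = j := by
      intro i j
      by_contra hij
      have h1 := hno K (fun l => if l = i then X else 1) (by
        intro F hF
        rw [hall F hF, map_zero, map_zero]) i j 0 1
      simp only [if_true, if_neg (Ne.symm hij), eval_X, eval_one] at h1
      norm_num at h1
    refine ⟨fun _ => 1, fun h => one_ne_zero (congrFun h 0), fun i j => by rw [hn i j], ?_⟩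
    intro i
    rw [hs_one]
    have h1 : (1 : ℝ) ≤ (Cst r d D : ℝ) * H := by
      have h2 : 1 ≤ Cst r d D := by
        unfold Cst
        have := Nat.factorial_pos D
        have h3 : 0 < (EE r d D + 2) * D.factorial := Nat.mul_pos (by omega) this
        omega
      have h3 : (1 : ℝ) ≤ Cst r d D := by exact_mod_cast h2
      exact one_le_mul_of_one_le_of_one_le h3 hH
    exact one_le_pow₀ h1
  obtain ⟨c1, hc1⟩ : ∃ c1 : ℝ, c1 = 2 * (((r : ℝ) + 1) * (d + 1)) * ((D + 1) * NN r d D) :=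
    ⟨_, rfl⟩
  obtain ⟨c2, hc2⟩ : ∃ c2 : ℝ, c2 = 2 * r * NN r d D := ⟨_, rfl⟩
  have hr1 : (1 : ℝ) ≤ r := by exact_mod_cast hr
  have hNN : 1 ≤ NN r d D := by unfold NN; omega
  have hNN1 : (1 : ℝ) ≤ NN r d D := by exact_mod_cast hNN
  have hD0 : (0 : ℝ) ≤ D := Nat.cast_nonneg D
  have hd0 : (0 : ℝ) ≤ d := Nat.cast_nonneg d
  have hc1' : 1 ≤ c1 := by
    rw [hc1]
    have a1 : 1 ≤ ((r : ℝ) + 1) := by linarith
    have a2 : 1 ≤ ((d : ℝ) + 1) := by linarith
    have a3 : 1 ≤ ((D : ℝ) + 1) := by linarith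
    have b1 := one_le_mul_of_one_le_of_one_le a1 a2
    have b2 := one_le_mul_of_one_le_of_one_le a3 hNN1
    have b3 : 1 ≤ 2 * (((r : ℝ) + 1) * (d + 1)) := by linarith
    exact one_le_mul_of_one_le_of_one_le b3 b2
  have hc2' : 1 ≤ c2 := by
    rw [hc2]
    have b3 : 1 ≤ 2 * (r : ℝ) := by linarith
    exact one_le_mul_of_one_le_of_one_le b3 hNN1
  obtain ⟨Cn, hCn⟩ : ∃ Cn : ℕ, Cn = Cst r d D := ⟨_, rfl⟩
  rw [← hCn] at ht ⊢
  have hC1n : 2 * (r + 1) * (d + 1) * (D + 1) * NN r d D ≤ Cn := by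
    rw [hCn]; unfold Cst; omega
  have hC1 : c1 ≤ Cn := by
    have h1 : ((2 * (r + 1) * (d + 1) * (D + 1) * NN r d D : ℕ) : ℝ) ≤ Cn := by
      exact_mod_cast hC1n
    refine le_trans (le_of_eq ?_) h1
    rw [hc1]
    push_cast
    ring
  have hC2 : expo r d D ≤ Cn := by rw [hCn]; unfold Cst; omega
  have hC3 : c2 ≤ Cn := by
    refine le_trans ?_ hC1
    rw [hc1, hc2]
    have h1 : (r : ℝ) ≤ (r + 1) * (d + 1) := by nlinarith
    have h2 : (NN r d D : ℝ) ≤ (D + 1) * NN r d D := by nlinarith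
    calc 2 * (r : ℝ) * NN r d D = 2 * (r * NN r d D) := by ring
      _ ≤ 2 * (((r : ℝ) + 1) * (d + 1) * ((D + 1) * NN r d D)) := by
          apply mul_le_mul_of_nonneg_left _ (by norm_num)
          exact mul_le_mul h1 h2 (by linarith) (by positivity)
      _ = _ := by ring
  have hC4 : (EE r d D + 2) * D.factorial ≤ Cn := by rw [hCn]; unfold Cst; omega
  obtain ⟨K', _, _, _, _, hdeg, κ, _, a, M, hκ, ha, ha0, haH, hMD, hFac⟩ :=
    splitting F hFD hroot hFH
  let _ : Algebra k K' := ((algebraMap K K').comp (algebraMap k K)).toAlgebra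
  have hN1 : (1 : ℝ) ≤ N := by exact_mod_cast hN
  have hHN : 1 ≤ W * H * N :=
    one_le_mul_of_one_le_of_one_le (one_le_mul_of_one_le_of_one_le hW1 hH) hN1
  have hinj : Function.Injective (algebraMap (𝓞 K) (𝓞 K')) :=
    FaithfulSMul.algebraMap_injective _ _
  -- the large number
  obtain ⟨T, hT⟩ : ∃ T : ℝ, T = (((r : ℝ) + 1) * (d + 1) * W * (H + 1) *
    ((N * (D + 1) * NN r d D : ℕ) : ℝ)) ^ expo r d D := ⟨_, rfl⟩
  have hTle : T ≤ ((Cn : ℝ) * (W * H * N)) ^ Cn := by
    refine le_trans ?_ (pow_const hc1' hHN hC1 hC2)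
    rw [hT, hc1]
    push_cast
    apply pow_le_pow_left₀ (by positivity)
    have h1 : (H + 1) ≤ 2 * H := by linarith
    calc ((r : ℝ) + 1) * (d + 1) * W * (H + 1) * (N * (D + 1) * NN r d D) ≤
          ((r : ℝ) + 1) * (d + 1) * W * (2 * H) * (N * (D + 1) * NN r d D) := by
          apply mul_le_mul_of_nonneg_right _ (by positivity)
          apply mul_le_mul_of_nonneg_left h1 (by positivity)
      _ = _ := by ring
  have hT0 : 0 ≤ T := by
    rw [hT]
    positivity
  have ht' := norm_ext (K' := K') t (by positivity) ht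
  have hTt : ∀ z, algebraMap (𝓞 K) (𝓞 K') t ∣ z → hs z < T → z = 0 := by
    intro z hz1 hz2
    refine eq_zero_of_dvd ?_ hz1 hz2
    exact (pow_le_pow_left₀ hT0 hTle _).trans ht'
  have ht0 : algebraMap (𝓞 K) (𝓞 K') t ≠ 0 := by
    intro h
    rw [h] at ht'
    have h2 : |((Algebra.norm ℤ (0 : 𝓞 K') : ℤ) : ℝ)| = 0 := by
      rw [Algebra.norm_zero]
      simp
    rw [h2] at ht'
    have h3 : 1 ≤ ((Cn : ℝ) * (W * H * N)) ^ Cn :=
      le_trans (one_le_pow₀ (one_le_mul_of_one_le_of_one_le hc1' hHN))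
        (pow_const (e := Cn) hc1' hHN hC1 le_rfl)
    have h4 : 1 ≤ (((Cn : ℝ) * (W * H * N)) ^ Cn) ^ Module.finrank ℚ K' := one_le_pow₀ h3
    linarith
  -- the vectors
  obtain ⟨v', hv'⟩ : ∃ v' : Fin r → Fin (n + 1) → 𝓞 K', v' = fun l i =>
    algebraMap (𝓞 K) (𝓞 K') (v l i * ∏ j, (F j).coeff 0 ^ e l j) := ⟨_, rfl⟩
  obtain ⟨e', he'⟩ : ∃ e' : Fin r → κ → ℕ, e' = fun l j => ∑ i, e l i * M i j := ⟨_, rfl⟩
  have hζ : ∀ j, hs ((F j).coeff 0) ≤ 1 := fun j => by
    obtain ⟨j', hj', h⟩ := hroot j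
    exact hs_root hj' h
  have hprodζ : ∀ l, hs (∏ j, (F j).coeff 0 ^ e l j) ≤ 1 := by
    intro l
    obtain ⟨s, hs'⟩ : ∃ s : Finset (Fin q), s = Finset.univ := ⟨_, rfl⟩
    rw [← hs']
    clear hs'
    induction s using Finset.induction_on with
    | empty =>
      rw [Finset.prod_empty]
      exact sizeHs.one
    | insert j s hj ih =>
      rw [Finset.prod_insert hj]
      refine (hs_mul _ _).trans ?_
      refine mul_le_one₀ ?_ (hs_nonneg _) ih
      induction e l j with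
      | zero =>
        rw [pow_zero]
        exact sizeHs.one
      | succ w ihw =>
        rw [pow_succ]
        refine (hs_mul _ _).trans ?_
        exact mul_le_one₀ ihw (hs_nonneg _) (hζ j)
  have hv'H : ∀ l i, hs (v' l i) ≤ H + 1 := by
    intro l i
    rw [hv']
    refine (hs_map_le _).trans ((hs_mul _ _).trans ?_)
    calc hs (v l i) * hs (∏ j, (F j).coeff 0 ^ e l j) ≤ H * 1 :=
          mul_le_mul (hvH l i) (hprodζ l) (hs_nonneg _) (by linarith)
      _ ≤ H + 1 := by linarith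
  have he'N : ∀ l, ∑ j, e' l j ≤ N * (D + 1) := by
    intro l
    rw [he']
    simp only
    rw [Finset.sum_comm]
    simp only [← Finset.mul_sum]
    calc ∑ i, e l i * ∑ j, M i j ≤ ∑ i, e l i * (D + 1) :=
          Finset.sum_le_sum fun i _ => Nat.mul_le_mul_left _ ((hMD i).trans (by omega))
      _ = (∑ i, e l i) * (D + 1) := by rw [Finset.sum_mul]
      _ ≤ N * (D + 1) := Nat.mul_le_mul_right _ (heN l)
  have hpm : ∀ i, (p i).map (algebraMap (𝓞 K) (𝓞 K')) = pt (lf a) m e' v' i := by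
    intro i
    rw [hp i]
    unfold pt
    rw [Polynomial.map_sum]
    refine Finset.sum_congr rfl fun l _ => ?_
    rw [MP_one, Polynomial.map_mul, Polynomial.map_mul, Polynomial.map_pow, map_X, map_C,
      Polynomial.map_prod, hv', he']
    simp only [Polynomial.map_pow, hFac, mul_pow, Finset.prod_mul_distrib]
    have h1 : ∏ j, (∏ j', lf a j' ^ M j j') ^ e l j =
        ∏ j', lf a j' ^ (∑ j, e l j * M j j') := by
      simp only [← Finset.prod_pow, ← pow_mul, ← Finset.prod_pow_eq_pow_sum]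
      rw [Finset.prod_comm]
      refine Finset.prod_congr rfl fun j' _ => Finset.prod_congr rfl fun j _ => ?_
      rw [mul_comm]
    rw [h1]
    have h2 : (C (algebraMap (𝓞 K) (𝓞 K') (v l i * ∏ j, (F j).coeff 0 ^ e l j)) : (𝓞 K')[X]) =
        C (algebraMap (𝓞 K) (𝓞 K') (v l i)) *
          ∏ j, C (algebraMap (𝓞 K) (𝓞 K') ((F j).coeff 0)) ^ e l j := by
      rw [map_mul, C_mul, map_prod, map_prod]
      simp only [map_pow]
    rw [h2]
    ring
  obtain ⟨x', hx'⟩ : ∃ x' : Fin (n + 1) → 𝓞 K', x' = fun i => algebraMap (𝓞 K) (𝓞 K') (x i) :=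
    ⟨_, rfl⟩
  have hx'e : ∀ i, x' i = (pt (lf a) m e' v' i).eval (algebraMap (𝓞 K) (𝓞 K') t) := by
    intro i
    rw [hx', ← hpm i, eval_map, eval₂_at_apply, ← hx i]
  have hx'0 : x' ≠ 0 := by
    intro h
    apply hx0
    funext i
    apply hinj
    rw [Pi.zero_apply, map_zero]
    have := congrFun h i
    rw [hx'] at this
    exact this
  have hzero' : ∀ G ∈ (MvPolynomial.map (algebraMap (𝓞 k) (𝓞 K'))) '' FF,
      MvPolynomial.aeval x' G = 0 := by
    rintro _ ⟨F, hF, rfl⟩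
    rw [MvPolynomial.aeval_map_algebraMap, hx', MvPolynomial.aeval_def]
    have h1 := congrArg (algebraMap (𝓞 K) (𝓞 K')) (hzero F hF)
    rw [MvPolynomial.aeval_def, MvPolynomial.hom_eval₂, map_zero] at h1
    exact h1
  obtain ⟨y, hy0, hxy, hyB⟩ := core_small sizeHs ha ha0 (H := H + 1) (by linarith) haH hκ m e'
    (N := N * (D + 1)) (Nat.mul_pos hN (by omega)) he'N hr v' hv'H hd1 hW1
    ((MvPolynomial.map (algebraMap (𝓞 k) (𝓞 K'))) '' FF) (by
      rintro _ ⟨F, hF, rfl⟩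
      obtain ⟨⟨e, he, hFe⟩, hn⟩ := hFF F hF
      exact ⟨⟨e, he, hFe.map _⟩, (nrm_map_le F).trans hn⟩) ht0 (by
      rw [← hT]
      exact hTt) (fun _ => True) (fun _ _ _ _ _ _ => trivial)
    (curvesIn_noCurves FF hno K' r) (curvesIn_noCurves FF hno K' (EE r d D + 1))
    x' hx'e hx'0 hzero' trivial
  obtain ⟨B, hB⟩ : ∃ B : ℝ, B = r * ((H + 1) * (NN r d D * (H + 1)) ^ EE r d D) := ⟨_, rfl⟩
  rw [← hB] at hyB
  have hBle : B ≤ (c2 * H) ^ (EE r d D + 2) := by
    have h1 : (r : ℝ) ≤ c2 * H := by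
      rw [hc2]
      have := one_le_mul_of_one_le_of_one_le hNN1 hH
      nlinarith
    have h2 : H + 1 ≤ c2 * H := by
      rw [hc2]
      have := one_le_mul_of_one_le_of_one_le hr1 hNN1
      nlinarith
    have h3 : NN r d D * (H + 1) ≤ c2 * H := by
      rw [hc2]
      have h4 : NN r d D * (H + 1) ≤ NN r d D * (2 * H) :=
        mul_le_mul_of_nonneg_left (by linarith) (by linarith)
      have h5 : (NN r d D : ℝ) * (2 * H) ≤ r * (NN r d D * (2 * H)) :=
        le_mul_of_one_le_left (by positivity) hr1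
      linarith
    rw [hB]
    calc (r : ℝ) * ((H + 1) * (NN r d D * (H + 1)) ^ EE r d D) ≤
          (c2 * H) * ((c2 * H) * (c2 * H) ^ EE r d D) := by gcongr
      _ = _ := by ring
  have hB1 : 1 ≤ B := by
    rw [hB]
    have h1 : 1 ≤ NN r d D * (H + 1) := one_le_mul_of_one_le_of_one_le hNN1 (by linarith)
    have h2 := one_le_pow₀ (n := EE r d D) h1
    exact one_le_mul_of_one_le_of_one_le hr1
      (one_le_mul_of_one_le_of_one_le (by linarith) h2)
  obtain ⟨z, hz0, hxz, hzB⟩ := descent x hx0 y hy0 (by rw [← hx']; exact hxy) hB1 hyB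
  refine ⟨z, hz0, hxz, fun i => (hzB i).trans ?_⟩
  calc B ^ Module.finrank K K' ≤ B ^ D.factorial := pow_le_pow_right₀ hB1 hdeg
    _ ≤ ((c2 * H) ^ (EE r d D + 2)) ^ D.factorial := pow_le_pow_left₀ (by linarith) hBle _
    _ = (c2 * H) ^ ((EE r d D + 2) * D.factorial) := by rw [pow_mul]
    _ ≤ (Cn * H) ^ Cn := pow_const hc2' hH hC3 hC4

/-- **The converse.** -/
theorem conv_curve (k : Type) [Field k] [NumberField k]
    (FF : Set (MvPolynomial (Fin (n + 1)) (𝓞 k))) (hhom : ∀ F ∈ FF, ∃ e, F.IsHomogeneous e)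
    (hu : ¬ NoCurves FF) :
    ∃ (r : ℕ) (K : Type) (_ : Field K) (_ : NumberField K) (_ : Algebra k K) (H : ℝ), 1 ≤ H ∧
        ∀ L B : ℝ, ∃ t : ℕ, L ≤ t ∧ ∃ p : Fin (n + 1) → (𝓞 K)[X], PowerVec r 0 1 H p ∧
          (fun i => (p i).eval (t : 𝓞 K)) ≠ 0 ∧
          (∀ F ∈ FF, MvPolynomial.aeval (fun i => (p i).eval (t : 𝓞 K)) F = 0) ∧
          ∀ y : Fin (n + 1) → 𝓞 K, y ≠ 0 → Prp (fun i => (p i).eval (t : 𝓞 K)) y →
            ∃ i, B < hs (y i) := by
  classical
  unfold NoCurves at hu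
  push Not at hu
  obtain ⟨K, iK, iN, iAK, W, h1, i1, i2, a1, a2, hab⟩ := hu
  obtain ⟨r, hr⟩ : ∃ r, r = Finset.univ.sup (fun i => (W i).natDegree) + 1 := ⟨_, rfl⟩
  have hWdeg : ∀ i, (W i).natDegree < r := by
    intro i
    have := Finset.le_sup (f := fun i => (W i).natDegree) (Finset.mem_univ i)
    omega
  have hinj : Function.Injective (algebraMap (𝓞 K) K) := FaithfulSMul.algebraMap_injective _ _
  have hmapinj : Function.Injective (Polynomial.map (algebraMap (𝓞 K) K)) :=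
    Polynomial.map_injective _ hinj
  -- denominators
  obtain ⟨b, hb⟩ := IsLocalization.exist_integer_multiples (nonZeroDivisors (𝓞 K))
    (Finset.univ : Finset (Fin r × Fin (n + 1))) (fun q => (W q.2).coeff q.1)
  choose v hv using fun (j : Fin r) (i : Fin (n + 1)) => hb (j, i) (Finset.mem_univ _)
  have hb0 : (b : 𝓞 K) ≠ 0 := nonZeroDivisors.ne_zero b.2
  have hbK : algebraMap (𝓞 K) K (b : 𝓞 K) ≠ 0 := (map_ne_zero_iff _ hinj).mpr hb0
  have hv' : ∀ (j : Fin r) i, algebraMap (𝓞 K) K (v j i) =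
      algebraMap (𝓞 K) K b * (W i).coeff j := by
    intro j i
    rw [hv j i]
    show (b : 𝓞 K) • (W i).coeff j = _
    rw [Algebra.smul_def]
  obtain ⟨q, hq⟩ : ∃ q : Fin (n + 1) → (𝓞 K)[X], q = cur v (fun j => (j : ℕ)) := ⟨_, rfl⟩
  have hqW : ∀ i, (q i).map (algebraMap (𝓞 K) K) = C (algebraMap (𝓞 K) K b) * W i := by
    intro i
    rw [hq]
    unfold cur
    rw [Polynomial.map_sum]
    conv_rhs => rw [as_sum_range_C_mul_X_pow' (W i) (hWdeg i)]
    rw [Finset.mul_sum]
    refine Eq.trans ?_ (Fin.sum_univ_eq_sum_range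
      (fun j : ℕ => C (algebraMap (𝓞 K) K b) * (C ((W i).coeff j) * X ^ j)) r)
    refine Finset.sum_congr rfl fun j _ => ?_
    rw [Polynomial.map_mul, map_C, Polynomial.map_pow, map_X, hv', C_mul, mul_assoc]
  have hqWt : ∀ i (t : 𝓞 K), algebraMap (𝓞 K) K ((q i).eval t) =
      algebraMap (𝓞 K) K b * (W i).eval (algebraMap (𝓞 K) K t) := by
    intro i t
    have h4 := congrArg (Polynomial.eval (algebraMap (𝓞 K) K t)) (hqW i)
    rw [eval_mul, eval_C, eval_map, eval₂_at_apply] at h4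
    exact h4
  -- the size of the coefficients
  obtain ⟨H, hH⟩ : ∃ H : ℝ, H = 1 + ∑ x : Fin r × Fin (n + 1), hs (v x.1 x.2) := ⟨_, rfl⟩
  have hH1 : 1 ≤ H := by
    rw [hH]
    have : 0 ≤ ∑ x : Fin r × Fin (n + 1), hs (v x.1 x.2) :=
      Finset.sum_nonneg fun x _ => hs_nonneg _
    linarith
  have hvH : ∀ j i, hs (v j i) ≤ H := by
    intro j i
    rw [hH]
    have := Finset.single_le_sum (f := fun x : Fin r × Fin (n + 1) => hs (v x.1 x.2))
      (fun x _ => hs_nonneg _) (Finset.mem_univ (j, i))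
    simp only at this
    linarith
  have hpv : PowerVec r 0 1 H q := by
    refine ⟨0, fun i => i.elim0, fun j => (j : ℕ), fun _ i => i.elim0, v, by simp,
      fun i => i.elim0, fun i => i.elim0, by simp, hvH, fun i => ?_⟩
    rw [hq]
    unfold cur
    refine Finset.sum_congr rfl fun j _ => ?_
    simp
  refine ⟨r, K, iK, iN, iAK, H, hH1, ?_⟩
  intro L0 B
  have hW0 : W ≠ 0 := by
    intro h
    apply hab
    rw [h]
    simp
  obtain ⟨i0, hi0⟩ : ∃ i, W i ≠ 0 := by
    by_contra h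
    push Not at h
    exact hW0 (funext h)
  have hCb : (C (algebraMap (𝓞 K) K b) : K[X]) ≠ 0 := C_ne_zero.mpr hbK
  have hzero : ∀ F ∈ FF, MvPolynomial.aeval q F = 0 := by
    intro F hF
    obtain ⟨e, he⟩ := hhom F hF
    have h4 := h1 F hF
    have h5 : MvPolynomial.aeval (fun i => (q i).map (algebraMap (𝓞 K) K))
        (MvPolynomial.map (algebraMap (𝓞 k) k) F) = 0 := by
      refine Prp.zero hW0 ?_ _ ⟨e, he.map _⟩ h4
      intro i j
      show W i * (q j).map (algebraMap (𝓞 K) K) = W j * (q i).map (algebraMap (𝓞 K) K)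
      rw [hqW, hqW]
      ring
    apply hmapinj
    rw [Polynomial.map_zero, map_aeval_eq, h5]
  -- the differences
  have hdiff : ∀ y : Fin (n + 1) → 𝓞 K, y ≠ 0 → ∃ i j,
      W i * C (algebraMap (𝓞 K) K (y j)) - W j * C (algebraMap (𝓞 K) K (y i)) ≠ 0 := by
    intro y hy
    by_contra hcon
    push Not at hcon
    have hyK : (fun i => algebraMap (𝓞 K) K (y i)) ≠ 0 := by
      intro h
      apply hy
      funext i
      apply hinj
      rw [Pi.zero_apply, map_zero]
      exact congrFun h i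
    have h4 : ∀ a : K, Prp (fun i => (W i).eval a) (fun i => algebraMap (𝓞 K) K (y i)) := by
      intro a i j
      have h5 := congrArg (Polynomial.eval a) (hcon i j)
      rw [eval_sub, eval_mul, eval_mul, eval_C, eval_C, eval_zero] at h5
      linear_combination h5
    exact hab (Prp.trans hyK (h4 a1) (h4 a2).symm i1 i2)
  choose! I J hIJ using hdiff
  obtain ⟨Y, hY⟩ : ∃ Y : Finset (Fin (n + 1) → 𝓞 K),
    Y = (finite_hs (K := K) n B).toFinset.filter (fun y => y ≠ 0) := ⟨_, rfl⟩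
  obtain ⟨Φ, hΦ⟩ : ∃ Φ : K[X], Φ = W i0 * ∏ y ∈ Y,
    (W (I y) * C (algebraMap (𝓞 K) K (y (J y))) - W (J y) * C (algebraMap (𝓞 K) K (y (I y)))) :=
    ⟨_, rfl⟩
  have hΦ0 : Φ ≠ 0 := by
    rw [hΦ]
    refine mul_ne_zero hi0 (Finset.prod_ne_zero_iff.mpr fun y hy => ?_)
    rw [hY, Finset.mem_filter] at hy
    exact hIJ y hy.2
  obtain ⟨t, htL, ht⟩ := exists_nat_ne hΦ0 L0
  rw [hΦ, eval_mul, eval_prod] at ht
  have ht2 : (W i0).eval (t : K) ≠ 0 := fun h => ht (by rw [h, zero_mul])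
  have ht3 := Finset.prod_ne_zero_iff.mp (right_ne_zero_of_mul ht)
  have htK : algebraMap (𝓞 K) K (t : 𝓞 K) = (t : K) := map_natCast _ t
  have hqt0 : (fun i => (q i).eval (t : 𝓞 K)) ≠ 0 := by
    intro h
    have h4 := hqWt i0 (t : 𝓞 K)
    have h5 : (q i0).eval (t : 𝓞 K) = 0 := congrFun h i0
    rw [h5, map_zero, htK] at h4
    exact mul_ne_zero hbK ht2 h4.symm
  refine ⟨t, htL, q, hpv, hqt0, ?_, ?_⟩
  · intro F hF
    rw [← aeval_eval_eq, hzero F hF, eval_zero]
  · intro y hy hprp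
    by_contra hcon
    push Not at hcon
    have hyY : y ∈ Y := by
      rw [hY, Finset.mem_filter, Set.Finite.mem_toFinset]
      exact ⟨hcon, hy⟩
    apply ht3 y hyY
    have h4 := congrArg (algebraMap (𝓞 K) K) (hprp (I y) (J y))
    rw [map_mul, map_mul, hqWt, hqWt, htK] at h4
    rw [eval_sub, eval_mul, eval_mul, eval_C, eval_C]
    apply mul_left_cancel₀ hbK
    linear_combination h4

end Pool.Agent.Q29.SE
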