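import Mathlib
import Pool.Agent.Q29.SE.AffCore
import Pool.Agent.Q29.SE.OneNF
import Pool.Agent.Q29.SE.NoRat

/-!
# Affine varieties over number fields: one exceptional set
-/

set_option autoImplicit false
set_option linter.unusedSectionVars false

namespace Pool.Agent.Q29.SE

open Polynomial Finset Pool.Agent.Q103.SD Pool.Agent.H533R3.SL NumberField Pool.Agent.H458.Sp

variable {n : ℕ}

section scl

variable {A : Type} [CommRing A] {s : A → ℝ} {τ : Type}

/-- `b ^ d * F (y / b)` as a polynomial in `y` -/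
noncomputable def scl (b : A) (d : ℕ) (F : MvPolynomial τ A) : MvPolynomial τ A :=
  ∑ α ∈ F.support, MvPolynomial.monomial α (MvPolynomial.coeff α F * b ^ (d - α.sum fun _ k => k))

theorem scl_deg (b : A) {d : ℕ} (F : MvPolynomial τ A) (hF : F.totalDegree ≤ d) :
    (scl b d F).totalDegree ≤ d := by
  unfold scl
  refine MvPolynomial.totalDegree_finsetSum_le fun α hα => ?_
  refine (MvPolynomial.totalDegree_monomial_le _ _).trans ?_
  exact sum_le_deg hF hα

theorem scl_nrm (hs : SizeFn s) {b : A} {B : ℝ} (hB : 1 ≤ B) (hb : s b ≤ B) (d : ℕ)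
    (F : MvPolynomial τ A) : nrm s (scl b d F) ≤ nrm s F * B ^ d := by
  unfold scl
  refine (nrm_sum hs _ _).trans ?_
  conv_rhs => unfold nrm
  rw [Finset.sum_mul]
  refine Finset.sum_le_sum fun α _ => (nrm_monomial hs _ _).trans ((hs.mul _ _).trans ?_)
  apply mul_le_mul_of_nonneg_left _ (hs.nonneg _)
  have h1 : ∀ k : ℕ, s (b ^ k) ≤ B ^ k := by
    intro k
    induction k with
    | zero => simpa using hs.one
    | succ k ih =>
      rw [pow_succ, pow_succ]
      exact (hs.mul _ _).trans (mul_le_mul ih hb (hs.nonneg _) (by positivity))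
  exact (h1 _).trans (pow_le_pow_right₀ hB (Nat.sub_le _ _))

theorem scl_aeval {R : Type} [CommRing R] [Algebra A R] (b : A) {d : ℕ} (F : MvPolynomial τ A)
    (hF : F.totalDegree ≤ d) (y z : τ → R) (h : ∀ i, y i = algebraMap A R b * z i) :
    MvPolynomial.aeval y (scl b d F) = algebraMap A R b ^ d * MvPolynomial.aeval z F := by
  unfold scl
  rw [map_sum, MvPolynomial.aeval_def z F, MvPolynomial.eval₂_eq, Finset.mul_sum]
  refine Finset.sum_congr rfl fun α hα => ?_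
  rw [MvPolynomial.aeval_monomial, map_mul, map_pow]
  have h1 : (α.prod fun i k => y i ^ k) =
      algebraMap A R b ^ (α.sum fun _ k => k) * ∏ i ∈ α.support, z i ^ α i := by
    unfold Finsupp.prod Finsupp.sum
    simp only [h, mul_pow, Finset.prod_mul_distrib]
    rw [Finset.prod_pow_eq_pow_sum]
  rw [h1]
  have h2 := sum_le_deg hF hα
  have h3 : algebraMap A R b ^ d = algebraMap A R b ^ (d - α.sum fun _ k => k) *
      algebraMap A R b ^ (α.sum fun _ k => k) := by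
    rw [← pow_add]
    congr 1
    omega
  rw [h3]
  ring

end scl

/-- the property of the points of `b U` -/
def OffB {k : Type} [Field k] (G : MvPolynomial (Fin (n + 1)) k) {K : Type} [Field K]
    [Algebra k K] (b : 𝓞 K) (y : Fin (n + 1) → 𝓞 K) : Prop :=
  MvPolynomial.aeval (fun i => algebraMap (𝓞 K) K (y i) / algebraMap (𝓞 K) K b) G ≠ 0

theorem linesIn_hyper {k : Type} [Field k] [NumberField k]
    (FF : Finset (MvPolynomial (Fin (n + 1)) (𝓞 k))) {d : ℕ} (hd : ∀ F ∈ FF, F.totalDegree ≤ d)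
    (R : ℕ) (G : MvPolynomial (Fin (n + 1)) k)
    (hG : ∀ (L : Type) [Field L] [Algebra k L] (c : Fin R → Fin (n + 1) → L) (l : Fin R → ℕ),
      (∀ F ∈ (MvPolynomial.map (algebraMap (𝓞 k) k)) ''
        (FF : Set (MvPolynomial (Fin (n + 1)) (𝓞 k))), MvPolynomial.aeval (cur c l) F = 0) →
      (∃ i, cur c l i ≠ C (∑ j, c j i)) → MvPolynomial.aeval (fun i => ∑ j, c j i) G = 0)
    (K : Type) [Field K] [NumberField K] [Algebra k K] (b : 𝓞 K) (hb : b ≠ 0) :
    LinesIn ((fun F => scl b d (MvPolynomial.map (algebraMap (𝓞 k) (𝓞 K)) F)) ''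
      (FF : Set (MvPolynomial (Fin (n + 1)) (𝓞 k)))) (fun y => OffB G b y) R := by
  intro c l hc hoff
  by_contra hcon
  push Not at hcon
  obtain ⟨i, hne⟩ := hcon
  apply hoff
  have hinj : Function.Injective (algebraMap (𝓞 K) K) := FaithfulSMul.algebraMap_injective _ _
  have hbK : algebraMap (𝓞 K) K b ≠ 0 := (map_ne_zero_iff _ hinj).mpr hb
  obtain ⟨c', hc'⟩ : ∃ c' : Fin R → Fin (n + 1) → K,
    c' = fun j i => algebraMap (𝓞 K) K (c j i) / algebraMap (𝓞 K) K b := ⟨_, rfl⟩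
  have hmapinj : Function.Injective (Polynomial.map (algebraMap (𝓞 K) K)) :=
    Polynomial.map_injective _ hinj
  have hcur : ∀ i, (cur c l i).map (algebraMap (𝓞 K) K) =
      C (algebraMap (𝓞 K) K b) * cur c' l i := by
    intro i
    unfold cur
    rw [Polynomial.map_sum, Finset.mul_sum]
    refine Finset.sum_congr rfl fun j _ => ?_
    rw [Polynomial.map_mul, map_C, Polynomial.map_pow, map_X, ← mul_assoc, ← C_mul, hc',
      mul_div_cancel₀ _ hbK]
  have hsum : ∀ i, algebraMap (𝓞 K) K (∑ j, c j i) / algebraMap (𝓞 K) K b = ∑ j, c' j i := by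
    intro i
    rw [map_sum, hc', Finset.sum_div]
  have h1 := hG K c' l (by
    rintro _ ⟨F, hF, rfl⟩
    have h1 := hc _ ⟨F, hF, rfl⟩
    have h2 := congrArg (Polynomial.map (algebraMap (𝓞 K) K)) h1
    have h4 : ∀ Q : MvPolynomial (Fin (n + 1)) (𝓞 K),
        (MvPolynomial.aeval (cur c l) Q).map (algebraMap (𝓞 K) K) =
        MvPolynomial.aeval (fun i => (cur c l i).map (algebraMap (𝓞 K) K)) Q := by
      intro Q
      have h6 := MvPolynomial.hom_eval₂ Q (algebraMap (𝓞 K) (𝓞 K)[X])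
        (Polynomial.mapRingHom (algebraMap (𝓞 K) K)) (cur c l)
      rw [MvPolynomial.aeval_def, MvPolynomial.aeval_def]
      refine Eq.trans h6 ?_
      congr 1
      ext a
      simp only [RingHom.comp_apply, Polynomial.algebraMap_apply, Polynomial.coe_mapRingHom,
        Polynomial.map_C]
      rfl
    rw [Polynomial.map_zero, h4, scl_aeval (R := K[X]) b _
      ((map_totalDegree_le _ F).trans (hd F hF)) _ (cur c' l) (fun i => hcur i)] at h2
    have h5 : (algebraMap (𝓞 K) K[X] b) ^ d ≠ 0 := by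
      apply pow_ne_zero
      show C (algebraMap (𝓞 K) K b) ≠ 0
      exact C_ne_zero.mpr hbK
    have h3 := (mul_eq_zero.mp h2).resolve_left h5
    rw [MvPolynomial.aeval_def, MvPolynomial.eval₂_map] at h3
    rw [MvPolynomial.aeval_def, MvPolynomial.eval₂_map, ← h3]
    congr 1) ⟨i, by
    intro h
    apply hne
    apply hmapinj
    rw [hcur, h, ← hsum, map_C, ← C_mul, mul_div_cancel₀ _ hbK]⟩
  rw [← h1]
  congr 2
  funext i
  exact hsum i

theorem hs_le_ext {K K' : Type} [Field K] [NumberField K] [Field K'] [NumberField K']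
    [Algebra K K'] (x : 𝓞 K) : hs x ≤ hs (algebraMap (𝓞 K) (𝓞 K') x) := by
  refine hs_le_of_embeddings (hs_nonneg _) fun φ => ?_
  have h1 := le_hs (algebraMap (𝓞 K) (𝓞 K') x) (ComplexEmbedding.lift K' φ)
  have h2 : ComplexEmbedding.lift K' φ (algebraMap (𝓞 K') K' (algebraMap (𝓞 K) (𝓞 K') x)) =
      φ (algebraMap (𝓞 K) K x) :=
    ComplexEmbedding.lift_algebraMap_apply K' φ (algebraMap (𝓞 K) K x)
  rwa [h2] at h1

/-- **Affine varieties: one exceptional set for all number fields.** -/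
theorem one_aff (k : Type) [Field k] [NumberField k] (n : ℕ)
    (FF : Finset (MvPolynomial (Fin (n + 1)) (𝓞 k)))
    (hprime : (idealK FF).IsPrime) (hnu : ¬ AUniruled (idealK FF)) (r D : ℕ) :
    ∃ G : MvPolynomial (Fin (n + 1)) k, G ∉ idealK FF ∧ ∃ C : ℕ,
      ∀ (K : Type) [Field K] [NumberField K] [Algebra k K] (H : ℝ) (N : ℕ) (t : 𝓞 K),
        1 ≤ H → 1 ≤ N → ((C * (H * N)) ^ C) ^ Module.finrank ℚ K ≤
          |((Algebra.norm ℤ t : ℤ) : ℝ)| →
        ∀ b : 𝓞 K, b ≠ 0 → hs b ≤ H → ∀ y : Fin (n + 1) → 𝓞 K, PowerPoint r D N H t y →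
          (∀ F ∈ FF, MvPolynomial.aeval (fun i => algebraMap (𝓞 K) K (y i) /
            algebraMap (𝓞 K) K b) (MvPolynomial.map (algebraMap (𝓞 k) k) F) = 0) → OffB G b y →
          ∀ i, hs (y i) ≤ r * H := by
  classical
  rcases Nat.eq_zero_or_pos r with hr0 | hr
  · -- no terms
    refine ⟨1, ?_, 0, ?_⟩
    · intro h
      exact hprime.ne_top ((Ideal.eq_top_iff_one _).mpr h)
    · rintro K _ _ _ H N t hH hN ht b hb hbH y ⟨p, ⟨q, F, m, e, v, -, -, -, -, -, hp⟩, hx⟩ _ _ i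
      subst hr0
      rw [hx i, hp i, Finset.univ_eq_empty, Finset.sum_empty, eval_zero, hs_zero]
      simp
  -- the degree
  obtain ⟨d, hd1, hd⟩ : ∃ d, 1 ≤ d ∧ ∀ F ∈ FF, F.totalDegree ≤ d := by
    refine ⟨FF.sup (fun F => F.totalDegree) + 1, by omega, fun F hF => ?_⟩
    have := Finset.le_sup (f := fun F : MvPolynomial (Fin (n + 1)) (𝓞 k) => F.totalDegree) hF
    omega
  obtain ⟨W, hW1, hW⟩ : ∃ W : ℝ, 1 ≤ W ∧ ∀ F ∈ FF, Pool.Agent.H458.Sp.nrm F ≤ W := by
    refine ⟨1 + ∑ F ∈ FF, Pool.Agent.H458.Sp.nrm F, ?_, fun F hF => ?_⟩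
    · have : 0 ≤ ∑ F ∈ FF, Pool.Agent.H458.Sp.nrm F :=
        Finset.sum_nonneg fun F _ => Pool.Agent.H458.Sp.nrm_nonneg F
      linarith
    · have := Finset.single_le_sum (f := fun F => Pool.Agent.H458.Sp.nrm F)
        (fun F _ => Pool.Agent.H458.Sp.nrm_nonneg F) hF
      linarith
  have hFFk : ∀ F ∈ (MvPolynomial.map (algebraMap (𝓞 k) k)) ''
      (FF : Set (MvPolynomial (Fin (n + 1)) (𝓞 k))), F.totalDegree ≤ d := by
    rintro _ ⟨F, hF, rfl⟩
    exact (map_totalDegree_le _ F).trans (hd F hF)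
  obtain ⟨G1, hG1I, hG1c⟩ := exists_hyperAff _ hprime hnu d hd1 hFFk r
  obtain ⟨G2, hG2I, hG2c⟩ := exists_hyperAff _ hprime hnu d hd1 hFFk (EE r d D + 1)
  obtain ⟨c1, hc1⟩ : ∃ c1 : ℝ, c1 = 2 * (((r : ℝ) + 1) * (d + 1) * W) * ((D + 1) * NN r d D) :=
    ⟨_, rfl⟩
  have hr1 : (1 : ℝ) ≤ r := by exact_mod_cast hr
  have hNN1 : (1 : ℝ) ≤ NN r d D := by
    have : 1 ≤ NN r d D := by unfold NN; omega
    exact_mod_cast this
  have hD0 : (0 : ℝ) ≤ D := Nat.cast_nonneg D
  have hd0 : (0 : ℝ) ≤ d := Nat.cast_nonneg d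
  have hc1' : 1 ≤ c1 := by
    rw [hc1]
    have a1 : 1 ≤ ((r : ℝ) + 1) := by linarith
    have a2 : 1 ≤ ((d : ℝ) + 1) := by linarith
    have a3 : 1 ≤ ((D : ℝ) + 1) := by linarith
    have b1 := one_le_mul_of_one_le_of_one_le (one_le_mul_of_one_le_of_one_le a1 a2) hW1
    have b2 := one_le_mul_of_one_le_of_one_le a3 hNN1
    have b3 : 1 ≤ 2 * (((r : ℝ) + 1) * (d + 1) * W) := by linarith
    exact one_le_mul_of_one_le_of_one_le b3 b2
  obtain ⟨Cn, hCn⟩ : ∃ Cn : ℕ, Cn = max ⌈c1⌉₊ ((d + 1) * expo r d D) := ⟨_, rfl⟩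
  have hC1 : c1 ≤ Cn := by
    refine (Nat.le_ceil c1).trans ?_
    have : ⌈c1⌉₊ ≤ Cn := by rw [hCn]; omega
    exact_mod_cast this
  have hC2 : (d + 1) * expo r d D ≤ Cn := by rw [hCn]; omega
  refine ⟨G1 * G2, ?_, Cn, ?_⟩
  · intro h
    rcases hprime.mem_or_mem h with h | h
    · exact hG1I h
    · exact hG2I h
  rintro K _ _ _ H N t hH hN ht b hb hbH y ⟨p, ⟨q, F, m, e, v, hFD, hroot, hFH, heN, hvH, hp⟩, hx⟩
    hzero hoff
  obtain ⟨K', _, _, _, _, hdeg, κ, _, a, M, hκ, ha, ha0, haH, hMD, hFac⟩ :=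
    splitting F hFD hroot hFH
  let _ : Algebra k K' := ((algebraMap K K').comp (algebraMap k K)).toAlgebra
  have hN1 : (1 : ℝ) ≤ N := by exact_mod_cast hN
  have hHN : 1 ≤ H * N := one_le_mul_of_one_le_of_one_le hH hN1
  have hinj : Function.Injective (algebraMap (𝓞 K) (𝓞 K')) :=
    FaithfulSMul.algebraMap_injective _ _
  -- the large number
  obtain ⟨W', hW'⟩ : ∃ W' : ℝ, W' = W * H ^ d := ⟨_, rfl⟩
  have hW'1 : 1 ≤ W' := by
    rw [hW']
    exact one_le_mul_of_one_le_of_one_le hW1 (one_le_pow₀ hH)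
  obtain ⟨T, hT⟩ : ∃ T : ℝ, T = (((r : ℝ) + 1) * (d + 1) * W' * (H + 1) *
    ((N * (D + 1) * NN r d D : ℕ) : ℝ)) ^ expo r d D := ⟨_, rfl⟩
  have hTle : T ≤ ((Cn : ℝ) * (H * N)) ^ Cn := by
    refine le_trans ?_ (pow_const hc1' hHN hC1 hC2)
    rw [hT, pow_mul]
    apply pow_le_pow_left₀ (by positivity)
    have h1 : (H + 1) ≤ 2 * H := by linarith
    calc ((r : ℝ) + 1) * (d + 1) * W' * (H + 1) * ((N * (D + 1) * NN r d D : ℕ) : ℝ) ≤
          ((r : ℝ) + 1) * (d + 1) * W' * (2 * H) * ((N * (D + 1) * NN r d D : ℕ) : ℝ) := by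
          apply mul_le_mul_of_nonneg_right _ (by positivity)
          apply mul_le_mul_of_nonneg_left h1 (by positivity)
      _ = (c1 * (H * N)) * H ^ d := by
          rw [hc1, hW']
          push_cast
          ring
      _ ≤ (c1 * (H * N)) * (c1 * (H * N)) ^ d := by
          apply mul_le_mul_of_nonneg_left _ (by positivity)
          apply pow_le_pow_left₀ (by linarith)
          have h2 : H ≤ H * N := le_mul_of_one_le_right (by linarith) hN1
          have h3 : H * N ≤ c1 * (H * N) := le_mul_of_one_le_left (by linarith) hc1'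
          linarith
      _ = _ := by rw [pow_succ]; ring
  have hT0 : 0 ≤ T := by
    rw [hT]
    positivity
  have ht' := norm_ext (K' := K') t (by positivity) ht
  have hTt : ∀ z, algebraMap (𝓞 K) (𝓞 K') t ∣ z → hs z < T → z = 0 := by
    intro z hz1 hz2
    refine eq_zero_of_dvd ?_ hz1 hz2
    exact (pow_le_pow_left₀ hT0 hTle _).trans ht'
  have ht0 : algebraMap (𝓞 K) (𝓞 K') t ≠ 0 := by
    intro h
    rw [h] at ht'
    have h2 : |((Algebra.norm ℤ (0 : 𝓞 K') : ℤ) : ℝ)| = 0 := by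
      rw [Algebra.norm_zero]
      simp
    rw [h2] at ht'
    have h3 : 1 ≤ ((Cn : ℝ) * (H * N)) ^ Cn :=
      le_trans (one_le_pow₀ (one_le_mul_of_one_le_of_one_le hc1' hHN))
        (pow_const (e := Cn) hc1' hHN hC1 le_rfl)
    have h4 : 1 ≤ (((Cn : ℝ) * (H * N)) ^ Cn) ^ Module.finrank ℚ K' := one_le_pow₀ h3
    linarith
  -- the vectors
  obtain ⟨v', hv'⟩ : ∃ v' : Fin r → Fin (n + 1) → 𝓞 K', v' = fun l i =>
    algebraMap (𝓞 K) (𝓞 K') (v l i * ∏ j, (F j).coeff 0 ^ e l j) := ⟨_, rfl⟩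
  obtain ⟨e', he'⟩ : ∃ e' : Fin r → κ → ℕ, e' = fun l j => ∑ i, e l i * M i j := ⟨_, rfl⟩
  have hζ : ∀ j, hs ((F j).coeff 0) ≤ 1 := fun j => by
    obtain ⟨j', hj', h⟩ := hroot j
    exact hs_root hj' h
  have hprodζ : ∀ l, hs (∏ j, (F j).coeff 0 ^ e l j) ≤ 1 := by
    intro l
    obtain ⟨s, hs'⟩ : ∃ s : Finset (Fin q), s = Finset.univ := ⟨_, rfl⟩
    rw [← hs']
    clear hs'
    induction s using Finset.induction_on with
    | empty =>
      rw [Finset.prod_empty]
      exact sizeHs.one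
    | insert j s hj ih =>
      rw [Finset.prod_insert hj]
      refine (hs_mul _ _).trans ?_
      refine mul_le_one₀ ?_ (hs_nonneg _) ih
      induction e l j with
      | zero =>
        rw [pow_zero]
        exact sizeHs.one
      | succ w ihw =>
        rw [pow_succ]
        refine (hs_mul _ _).trans ?_
        exact mul_le_one₀ ihw (hs_nonneg _) (hζ j)
  have hv'H : ∀ l i, hs (v' l i) ≤ H := by
    intro l i
    rw [hv']
    refine (hs_map_le _).trans ((hs_mul _ _).trans ?_)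
    calc hs (v l i) * hs (∏ j, (F j).coeff 0 ^ e l j) ≤ H * 1 :=
          mul_le_mul (hvH l i) (hprodζ l) (hs_nonneg _) (by linarith)
      _ = H := mul_one H
  have he'N : ∀ l, ∑ j, e' l j ≤ N * (D + 1) := by
    intro l
    rw [he']
    simp only
    rw [Finset.sum_comm]
    simp only [← Finset.mul_sum]
    calc ∑ i, e l i * ∑ j, M i j ≤ ∑ i, e l i * (D + 1) :=
          Finset.sum_le_sum fun i _ => Nat.mul_le_mul_left _ ((hMD i).trans (by omega))
      _ = (∑ i, e l i) * (D + 1) := by rw [Finset.sum_mul]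
      _ ≤ N * (D + 1) := Nat.mul_le_mul_right _ (heN l)
  have hpm : ∀ i, (p i).map (algebraMap (𝓞 K) (𝓞 K')) = pt (lf a) m e' v' i := by
    intro i
    rw [hp i]
    unfold pt
    rw [Polynomial.map_sum]
    refine Finset.sum_congr rfl fun l _ => ?_
    rw [MP_one, Polynomial.map_mul, Polynomial.map_mul, Polynomial.map_pow, map_X, map_C,
      Polynomial.map_prod, hv', he']
    simp only [Polynomial.map_pow, hFac, mul_pow, Finset.prod_mul_distrib]
    have h1 : ∏ j, (∏ j', lf a j' ^ M j j') ^ e l j =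
        ∏ j', lf a j' ^ (∑ j, e l j * M j j') := by
      simp only [← Finset.prod_pow, ← pow_mul, ← Finset.prod_pow_eq_pow_sum]
      rw [Finset.prod_comm]
      refine Finset.prod_congr rfl fun j' _ => Finset.prod_congr rfl fun j _ => ?_
      rw [mul_comm]
    rw [h1]
    have h2 : (C (algebraMap (𝓞 K) (𝓞 K') (v l i * ∏ j, (F j).coeff 0 ^ e l j)) : (𝓞 K')[X]) =
        C (algebraMap (𝓞 K) (𝓞 K') (v l i)) *
          ∏ j, C (algebraMap (𝓞 K) (𝓞 K') ((F j).coeff 0)) ^ e l j := by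
      rw [map_mul, C_mul, map_prod, map_prod]
      simp only [map_pow]
    rw [h2]
    ring
  obtain ⟨b', hb'⟩ : ∃ b' : 𝓞 K', b' = algebraMap (𝓞 K) (𝓞 K') b := ⟨_, rfl⟩
  have hb'0 : b' ≠ 0 := by
    rw [hb']
    exact (map_ne_zero_iff _ hinj).mpr hb
  have hb'H : hs b' ≤ H := by
    rw [hb']
    exact (hs_map_le b).trans hbH
  obtain ⟨x', hx'⟩ : ∃ x' : Fin (n + 1) → 𝓞 K', x' = fun i => algebraMap (𝓞 K) (𝓞 K') (y i) :=
    ⟨_, rfl⟩
  have hx'e : ∀ i, x' i = (pt (lf a) m e' v' i).eval (algebraMap (𝓞 K) (𝓞 K') t) := by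
    intro i
    rw [hx', ← hpm i, eval_map, eval₂_at_apply, ← hx i]
  have hb'K : algebraMap (𝓞 K') K' b' ≠ 0 :=
    (map_ne_zero_iff _ (FaithfulSMul.algebraMap_injective (𝓞 K') K')).mpr hb'0
  have hzz : (fun i => algebraMap (𝓞 K') K' (x' i) / algebraMap (𝓞 K') K' b') =
      fun i => algebraMap K K' (algebraMap (𝓞 K) K (y i) / algebraMap (𝓞 K) K b) := by
    funext i
    rw [hx', hb', map_div₀]
    rfl
  have hzero' : ∀ Q ∈ ((fun F => scl b' d (MvPolynomial.map (algebraMap (𝓞 k) (𝓞 K')) F)) ''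
      (FF : Set (MvPolynomial (Fin (n + 1)) (𝓞 k)))), MvPolynomial.aeval x' Q = 0 := by
    rintro _ ⟨F, hF, rfl⟩
    apply FaithfulSMul.algebraMap_injective (𝓞 K') K'
    have h1 : algebraMap (𝓞 K') K' (MvPolynomial.aeval x'
        (scl b' d (MvPolynomial.map (algebraMap (𝓞 k) (𝓞 K')) F))) =
        MvPolynomial.aeval (fun i => algebraMap (𝓞 K') K' (x' i))
          (scl b' d (MvPolynomial.map (algebraMap (𝓞 k) (𝓞 K')) F)) :=
      (MvPolynomial.aeval_algebraMap_apply K' x' _).symm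
    rw [h1, map_zero, scl_aeval (R := K') b' _ ((map_totalDegree_le _ F).trans (hd F hF)) _
      (fun i => algebraMap (𝓞 K') K' (x' i) / algebraMap (𝓞 K') K' b')
      (fun i => (mul_div_cancel₀ _ hb'K).symm), hzz, MvPolynomial.aeval_map_algebraMap]
    have h2 := congrArg (algebraMap K K') (hzero F hF)
    rw [MvPolynomial.aeval_map_algebraMap, map_zero, MvPolynomial.aeval_def,
      MvPolynomial.hom_eval₂] at h2
    rw [MvPolynomial.aeval_def]
    have h3 : MvPolynomial.eval₂ (algebraMap (𝓞 k) K')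
        (fun i => algebraMap K K' (algebraMap (𝓞 K) K (y i) / algebraMap (𝓞 K) K b)) F = 0 := h2
    rw [h3, mul_zero]
  have hoff' : OffB (G1 * G2) b' x' := by
    intro h
    apply hoff
    rw [hzz] at h
    have h1 : MvPolynomial.aeval (fun i => algebraMap K K' (algebraMap (𝓞 K) K (y i) /
        algebraMap (𝓞 K) K b)) (G1 * G2) =
        algebraMap K K' (MvPolynomial.aeval (fun i => algebraMap (𝓞 K) K (y i) /
        algebraMap (𝓞 K) K b) (G1 * G2)) := by
      rw [MvPolynomial.aeval_def, MvPolynomial.aeval_def, MvPolynomial.hom_eval₂]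
      rfl
    rw [h1] at h
    exact (map_eq_zero _).mp h
  obtain ⟨S, hS0, hSx⟩ := core_aff sizeHs ha ha0 (H := H + 1) (by linarith) haH hκ m e'
    (N := N * (D + 1)) (Nat.mul_pos hN (by omega)) he'N hr v'
    (fun l i => (hv'H l i).trans (by linarith)) hd1 hW'1
    ((fun F => scl b' d (MvPolynomial.map (algebraMap (𝓞 k) (𝓞 K')) F)) ''
      (FF : Set (MvPolynomial (Fin (n + 1)) (𝓞 k)))) (by
      rintro _ ⟨F, hF, rfl⟩
      refine ⟨scl_deg b' _ ((map_totalDegree_le _ F).trans (hd F hF)), ?_⟩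
      refine (scl_nrm sizeHs hH hb'H d _).trans ?_
      rw [hW']
      apply mul_le_mul_of_nonneg_right _ (by positivity)
      exact (nrm_map_le F).trans (hW F hF)) ht0 (by
      rw [← hT]
      exact hTt) (fun x => OffB (G1 * G2) b' x)
    ((linesIn_hyper FF hd r G1 hG1c K' b' hb'0).mono fun x h h1 => h (by
      rw [map_mul, h1, zero_mul]))
    ((linesIn_hyper FF hd (EE r d D + 1) G2 hG2c K' b' hb'0).mono fun x h h1 => h (by
      rw [map_mul, h1, mul_zero])) x' hx'e hzero' hoff'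
  intro i
  refine (hs_le_ext (K' := K') (y i)).trans ?_
  have h1 : algebraMap (𝓞 K) (𝓞 K') (y i) = ∑ l ∈ S, v' l i := by
    rw [← hSx i, hx']
  rw [h1]
  refine (hs_sum _ _).trans ?_
  refine (Finset.sum_le_card_nsmul _ _ H fun l _ => hv'H l i).trans ?_
  rw [nsmul_eq_mul]
  apply mul_le_mul_of_nonneg_right _ (by linarith)
  have := Finset.card_le_univ S
  rw [Fintype.card_fin] at this
  exact_mod_cast this

/-- **The converse.** -/
theorem conv_aff (k : Type) [Field k] [NumberField k] (n : ℕ)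
    (FF : Finset (MvPolynomial (Fin (n + 1)) (𝓞 k))) (hu : AUniruled (idealK FF)) :
    ∃ r : ℕ, ∀ G : MvPolynomial (Fin (n + 1)) k, G ∉ idealK FF →
      ∃ (K : Type) (_ : Field K) (_ : NumberField K) (_ : Algebra k K) (H : ℝ) (b : 𝓞 K),
        1 ≤ H ∧ b ≠ 0 ∧ hs b ≤ H ∧
        ∀ L B : ℝ, ∃ t : ℕ, L ≤ t ∧ ∃ p : Fin (n + 1) → (𝓞 K)[X], PowerVec r 0 1 H p ∧
          (∀ F ∈ FF, MvPolynomial.aeval (fun i => algebraMap (𝓞 K) K ((p i).eval (t : 𝓞 K)) /
            algebraMap (𝓞 K) K b) (MvPolynomial.map (algebraMap (𝓞 k) k) F) = 0) ∧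
          OffB G b (fun i => (p i).eval (t : 𝓞 K)) ∧ ∃ i, B < hs ((p i).eval (t : 𝓞 K)) := by
  classical
  obtain ⟨L, iL, iA, p, hp1, hp2, i0, hi0⟩ := hu
  obtain ⟨r, hr⟩ : ∃ r, r = Finset.univ.sup (fun i => (p i).natDegree) + 1 := ⟨_, rfl⟩
  have hNc : ∀ i m, r ≤ m → (p i).coeff m = 0 := by
    intro i m hm
    apply Polynomial.coeff_eq_zero_of_natDegree_lt
    have := Finset.le_sup (f := fun i => (p i).natDegree) (Finset.mem_univ i)
    omega
  refine ⟨r, ?_⟩
  intro G hG2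
  obtain ⟨P, hP⟩ : ∃ P : Fin (n + 1 + 1) → L[X], P = Fin.cons 1 p := ⟨_, rfl⟩
  have hP0 : P 0 = 1 := by rw [hP]; rfl
  have hPs : ∀ i : Fin (n + 1), P i.succ = p i := fun i => by rw [hP]; rfl
  obtain ⟨K, iK, iN, iAK, w, h1, h2, h3⟩ := Pool.Agent.TH409.SH.specialise k L P
    ({MvPolynomial.X 0 - 1} ∪ (MvPolynomial.rename Fin.succ) ''
      ((MvPolynomial.map (algebraMap (𝓞 k) k)) '' (FF : Set (MvPolynomial (Fin (n + 1)) (𝓞 k)))))
    (by
      rintro Q (rfl | ⟨F, hF, rfl⟩)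
      · rw [map_sub, MvPolynomial.aeval_X, map_one, hP0, sub_self]
      · rw [MvPolynomial.aeval_rename]
        have : P ∘ Fin.succ = p := funext hPs
        rw [this]
        exact hp1 F (Ideal.subset_span hF)) r (by
      intro i m hm
      refine Fin.cases ?_ (fun i => ?_) i
      · rw [hP0, coeff_one, if_neg (by omega)]
      · rw [hPs]
        exact hNc i m hm) ⟨i0.succ, 0, by
      rw [hP0, hPs, eval_one, C_1, mul_one, one_mul]
      exact hi0⟩ (MvPolynomial.rename Fin.succ G) (by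
      rw [MvPolynomial.aeval_rename]
      have : (fun i => (P i).eval 1) ∘ Fin.succ = fun i => (p i).eval 1 := by
        funext i
        show (P i.succ).eval 1 = _
        rw [hPs]
      rw [this]
      exact hp2 G hG2)
  have hinj : Function.Injective (algebraMap (𝓞 K) K) := FaithfulSMul.algebraMap_injective _ _
  have hmapinj : Function.Injective (Polynomial.map (algebraMap (𝓞 K) K)) :=
    Polynomial.map_injective _ hinj
  obtain ⟨V, hV⟩ : ∃ V : Fin (n + 1 + 1) → K[X], V = cur w (fun j => (j : ℕ)) := ⟨_, rfl⟩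
  rw [← hV] at h1 h2 h3
  have hV0 : V 0 = 1 := by
    have h4 := h1 _ (Or.inl rfl)
    rw [map_sub, MvPolynomial.aeval_X, map_one, sub_eq_zero] at h4
    exact h4
  obtain ⟨W, hW⟩ : ∃ W : Fin (n + 1) → K[X], W = fun i => V i.succ := ⟨_, rfl⟩
  have hWF : ∀ F ∈ FF, MvPolynomial.aeval W (MvPolynomial.map (algebraMap (𝓞 k) k) F) = 0 := by
    intro F hF
    have h4 := h1 _ (Or.inr ⟨_, ⟨F, hF, rfl⟩, rfl⟩)
    rw [MvPolynomial.aeval_rename] at h4
    have : V ∘ Fin.succ = W := by rw [hW]; rfl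
    rwa [this] at h4
  obtain ⟨i1, hi1⟩ : ∃ i, W i ≠ C ((W i).eval 1) := by
    by_contra hcon
    push Not at hcon
    obtain ⟨i, j, hij⟩ := h2
    apply hij
    have h4 : ∀ i, V i = C ((V i).eval 1) := by
      intro i
      refine Fin.cases ?_ (fun i => ?_) i
      · rw [hV0, eval_one, C_1]
      · have := hcon i
        rw [hW] at this
        exact this
    rw [h4 i, h4 j]
    simp only [eval_C]
    rw [← C_mul, ← C_mul, mul_comm]
  have hW1 : MvPolynomial.aeval (fun i => (W i).eval 1) G ≠ 0 := by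
    rw [MvPolynomial.aeval_rename] at h3
    have : (fun i => (V i).eval 1) ∘ Fin.succ = fun i => (W i).eval 1 := by rw [hW]; rfl
    rwa [this] at h3
  -- denominators
  obtain ⟨b, hb⟩ := IsLocalization.exist_integer_multiples (nonZeroDivisors (𝓞 K))
    (Finset.univ : Finset (Fin r × Fin (n + 1))) (fun q => w q.1 q.2.succ)
  choose v hv using fun (j : Fin r) (i : Fin (n + 1)) => hb (j, i) (Finset.mem_univ _)
  have hb0 : (b : 𝓞 K) ≠ 0 := nonZeroDivisors.ne_zero b.2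
  have hbK : algebraMap (𝓞 K) K (b : 𝓞 K) ≠ 0 := (map_ne_zero_iff _ hinj).mpr hb0
  have hv' : ∀ (j : Fin r) i, algebraMap (𝓞 K) K (v j i) =
      algebraMap (𝓞 K) K b * w j i.succ := by
    intro j i
    rw [hv j i]
    show (b : 𝓞 K) • w j i.succ = _
    rw [Algebra.smul_def]
  obtain ⟨q, hq⟩ : ∃ q : Fin (n + 1) → (𝓞 K)[X], q = cur v (fun j => (j : ℕ)) := ⟨_, rfl⟩
  have hqW : ∀ i, (q i).map (algebraMap (𝓞 K) K) = C (algebraMap (𝓞 K) K b) * W i := by
    intro i
    rw [hq, hW, hV]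
    unfold cur
    simp only
    rw [Polynomial.map_sum, Finset.mul_sum]
    refine Finset.sum_congr rfl fun j _ => ?_
    rw [Polynomial.map_mul, map_C, Polynomial.map_pow, map_X, hv', C_mul, mul_assoc]
  have hqWt : ∀ i (t : 𝓞 K), algebraMap (𝓞 K) K ((q i).eval t) =
      algebraMap (𝓞 K) K b * (W i).eval (algebraMap (𝓞 K) K t) := by
    intro i t
    have h4 := congrArg (Polynomial.eval (algebraMap (𝓞 K) K t)) (hqW i)
    rw [eval_mul, eval_C, eval_map, eval₂_at_apply] at h4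
    exact h4
  -- the size of the coefficients
  obtain ⟨H, hH⟩ : ∃ H : ℝ, H = 1 + hs (b : 𝓞 K) + ∑ x : Fin r × Fin (n + 1), hs (v x.1 x.2) :=
    ⟨_, rfl⟩
  have hsum0 : 0 ≤ ∑ x : Fin r × Fin (n + 1), hs (v x.1 x.2) :=
    Finset.sum_nonneg fun x _ => hs_nonneg _
  have hH1 : 1 ≤ H := by
    rw [hH]
    have := hs_nonneg (b : 𝓞 K)
    linarith
  have hvH : ∀ j i, hs (v j i) ≤ H := by
    intro j i
    rw [hH]
    have := Finset.single_le_sum (f := fun x : Fin r × Fin (n + 1) => hs (v x.1 x.2))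
      (fun x _ => hs_nonneg _) (Finset.mem_univ (j, i))
    simp only at this
    have := hs_nonneg (b : 𝓞 K)
    linarith
  have hpv : PowerVec r 0 1 H q := by
    refine ⟨0, fun i => i.elim0, fun j => (j : ℕ), fun _ i => i.elim0, v, by simp,
      fun i => i.elim0, fun i => i.elim0, by simp, hvH, fun i => ?_⟩
    rw [hq]
    unfold cur
    refine Finset.sum_congr rfl fun j _ => ?_
    simp
  refine ⟨K, iK, iN, iAK, H, b, hH1, hb0, by rw [hH]; linarith, ?_⟩
  intro L0 B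
  obtain ⟨g, hg⟩ : ∃ g : K[X], g = MvPolynomial.aeval W G := ⟨_, rfl⟩
  have hgt : ∀ a : K, g.eval a = MvPolynomial.aeval (fun i => (W i).eval a) G := by
    intro a
    rw [hg, aeval_eval_eq]
  have hg0 : g ≠ 0 := by
    intro h
    apply hW1
    rw [← hgt, h, eval_zero]
  obtain ⟨Y, hY⟩ : ∃ Y : Finset (Fin (0 + 1) → 𝓞 K), Y = (finite_hs (K := K) 0 B).toFinset :=
    ⟨_, rfl⟩
  obtain ⟨Φ, hΦ⟩ : ∃ Φ : K[X], Φ = g * ∏ y ∈ Y,
    (C (algebraMap (𝓞 K) K b) * W i1 - C (algebraMap (𝓞 K) K (y 0))) := ⟨_, rfl⟩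
  have hΦ0 : Φ ≠ 0 := by
    rw [hΦ]
    refine mul_ne_zero hg0 (Finset.prod_ne_zero_iff.mpr fun y _ h => ?_)
    apply hi1
    rw [sub_eq_zero] at h
    have h4 : W i1 = C (algebraMap (𝓞 K) K (y 0) / algebraMap (𝓞 K) K b) := by
      apply mul_left_cancel₀ (C_ne_zero.mpr hbK)
      rw [h, ← C_mul, mul_div_cancel₀ _ hbK]
    rw [h4, eval_C]
  obtain ⟨t, htL, ht⟩ := exists_nat_ne hΦ0 L0
  rw [hΦ, eval_mul, eval_prod] at ht
  have ht1 : g.eval (t : K) ≠ 0 := left_ne_zero_of_mul ht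
  have ht3 := Finset.prod_ne_zero_iff.mp (right_ne_zero_of_mul ht)
  have htK : algebraMap (𝓞 K) K (t : 𝓞 K) = (t : K) := map_natCast _ t
  have hqt : (fun i => algebraMap (𝓞 K) K ((q i).eval (t : 𝓞 K)) / algebraMap (𝓞 K) K b) =
      fun i => (W i).eval (t : K) := by
    funext i
    rw [hqWt, htK, mul_div_cancel_left₀ _ hbK]
  refine ⟨t, htL, q, hpv, ?_, ?_, i1, ?_⟩
  · intro F hF
    rw [hqt, ← aeval_eval_eq, hWF F hF, eval_zero]
  · show MvPolynomial.aeval (fun i => algebraMap (𝓞 K) K ((q i).eval (t : 𝓞 K)) /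
      algebraMap (𝓞 K) K b) G ≠ 0
    rw [hqt, ← hgt]
    exact ht1
  · by_contra hcon
    push Not at hcon
    have hyY : (fun _ => (q i1).eval (t : 𝓞 K)) ∈ Y := by
      rw [hY, Set.Finite.mem_toFinset]
      exact fun _ => hcon
    apply ht3 _ hyY
    rw [eval_sub, eval_mul, eval_C, eval_C, hqWt, htK, sub_self]

end Pool.Agent.Q29.SE
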