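import Mathlib
import Pool.Agent.Q29.SE.Proj
import Pool.Agent.Q103.SD.Top

/-!
# Values of sums of power products are as large as the degree says
-/

set_option autoImplicit false

namespace Pool.Agent.Q29.SE

open Finset Polynomial Pool.Agent.Q103.SD

section general

variable {A : Type*} [CommRing A] [IsDomain A] [CharZero A] {κ : Type*} [Fintype κ] {r : ℕ}
  {s : A → ℝ}

/-- the coefficients from the lowest one that does not vanish -/
theorem coeff_bound_add (hs : SizeFn s) {F : κ → A[X]} {D : ℕ}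
    (hD : ∑ i, (F i).natDegree ≤ D) {H : ℝ} (hH : 1 ≤ H) (hFu : ∀ i, IsUnit ((F i).coeff 0))
    (hF0 : ∀ i, s ((F i).coeff 0) ≤ 1) (hFH : ∀ i j, s ((F i).coeff j) ≤ H)
    (m : Fin r → ℕ) (e : Fin r → κ → ℕ) {N : ℕ} (hN : 1 ≤ N) (heN : ∀ l, ∑ i, e l i ≤ N)
    (v : Fin r → A) {B : ℝ} (hv : ∀ l, s (v l) ≤ B) (hB : 0 ≤ B) (ν : ℕ)
    (hν : X ^ ν ∣ ∑ l, C (v l) * MP F 1 (m l) (e l)) (j0 : ℕ) :
    s ((∑ l, C (v l) * MP F 1 (m l) (e l)).coeff (ν + j0)) ≤
      r * (B * (N * H) ^ (JJ (D + 1) r + j0)) := by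
  classical
  simp only [C_mul_MP] at hν ⊢
  have hN1 : (1 : ℝ) ≤ N := by exact_mod_cast hN
  have hNH : 1 ≤ (N : ℝ) * H := by nlinarith
  have hFu0 : ∀ i, (F i).coeff 0 ≠ 0 := fun i => (hFu i).ne_zero
  obtain ⟨G, hG⟩ : ∃ G, G = gg (D + 1) r 0 + 1 := ⟨_, rfl⟩
  have hG0 : 0 < G := by omega
  obtain ⟨S, hS⟩ : ∃ S : Finset (Fin r), S = Finset.univ.filter (fun l => v l ≠ 0 ∧ m l ≤ ν) :=
    ⟨_, rfl⟩
  have hSr : S.card ≤ r := by
    have := Finset.card_le_univ S
    rwa [Fintype.card_fin] at this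
  obtain ⟨q, hq, hgap⟩ := exists_gap (fun l : S => ν - m l) hG0
  rw [Fintype.card_coe] at hq
  obtain ⟨Lf, hLf⟩ : ∃ L : Finset (Fin r), L = S.filter (fun l => (q + 1) * G < ν - m l) :=
    ⟨_, rfl⟩
  have hLfS : Lf ⊆ S := by rw [hLf]; exact Finset.filter_subset _ _
  have hfar : ∑ l ∈ Lf, MP F (v l) (m l) (e l) = 0 := by
    rcases Lf.eq_empty_or_nonempty with h | h
    · rw [h, Finset.sum_empty]
    obtain ⟨l0, hl0⟩ := h
    have h0 : (q + 1) * G < ν := by
      rw [hLf, Finset.mem_filter] at hl0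
      omega
    have hqG : (q + 1) * G = q * G + G := by ring
    have hne : ∀ l ∈ Lf, v l ≠ 0 := by
      intro l hl
      have := hLfS hl
      rw [hS, Finset.mem_filter] at this
      exact this.2.1
    obtain ⟨v', hv'⟩ : ∃ v' : Fin r → A, v' = fun l => if v l = 0 then 1 else v l := ⟨_, rfl⟩
    have hv'0 : ∀ l, v' l ≠ 0 := by
      intro l
      rw [hv']
      simp only
      split_ifs with h
      · exact one_ne_zero
      · exact h
    have hv'e : ∀ l ∈ Lf, v' l = v l := by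
      intro l hl
      rw [hv']
      simp only
      rw [if_neg (hne l hl)]
    have hcong : ∑ l ∈ Lf, MP F (v' l) (m l) (e l) = ∑ l ∈ Lf, MP F (v l) (m l) (e l) :=
      Finset.sum_congr rfl fun l hl => by rw [hv'e l hl]
    rw [← hcong]
    refine exact_MP hFu0 hv'0 m e hD Lf (ν - q * G) ?_ ?_
    · intro l hl
      have h1 := gg_mono (D + 1) ((Finset.card_le_card hLfS).trans hSr) 0
      rw [hLf, Finset.mem_filter] at hl
      omega
    · rw [hcong]
      have h1 : ∑ l ∈ Lf, MP F (v l) (m l) (e l) = ∑ l, MP F (v l) (m l) (e l) -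
          ∑ l ∈ Finset.univ \ Lf, MP F (v l) (m l) (e l) := by
        rw [← Finset.sum_sdiff (Finset.subset_univ Lf)]
        ring
      rw [h1]
      refine dvd_sub ((pow_dvd_pow X (Nat.sub_le _ _)).trans hν) (Finset.dvd_sum fun l hl => ?_)
      rw [Finset.mem_sdiff] at hl
      by_cases hlS : l ∈ S
      · have h2 : ¬ (q + 1) * G < ν - m l := by
          intro h3
          apply hl.2
          rw [hLf, Finset.mem_filter]
          exact ⟨hlS, h3⟩
        rcases hgap ⟨l, hlS⟩ with h3 | h3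
        · unfold MP
          have h4 : ν - m l ≤ q * G := h3
          exact Dvd.dvd.mul_right (pow_dvd_pow X (by omega)) _
        · exact absurd h3 h2
      · rw [hS, Finset.mem_filter, not_and, not_and] at hlS
        by_cases hv0 : v l = 0
        · rw [hv0]
          unfold MP PP
          simp
        · have h3 := hlS (Finset.mem_univ _) hv0
          unfold MP
          exact Dvd.dvd.mul_right (pow_dvd_pow X (by omega)) _
  rw [← Finset.sum_sdiff (Finset.subset_univ Lf), hfar, add_zero, finsetSum_coeff]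
  refine (hs.sum _ _).trans ?_
  refine (Finset.sum_le_card_nsmul _ _ (B * (N * H) ^ (JJ (D + 1) r + j0)) fun l hl => ?_).trans ?_
  · rw [Finset.mem_sdiff] at hl
    have hqJ : q * G ≤ JJ (D + 1) r := by
      unfold JJ
      rw [← hG]
      exact Nat.mul_le_mul_right _ (by omega)
    by_cases hlS : l ∈ S
    · have h2 : ¬ (q + 1) * G < ν - m l := by
        intro h3
        apply hl.2
        rw [hLf, Finset.mem_filter]
        exact ⟨hlS, h3⟩
      rcases hgap ⟨l, hlS⟩ with h3 | h3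
      · have h4 : ν - m l ≤ q * G := h3
        exact coeff_MP hs hH hF0 hFH (hv l) (m l) (e l) hN (heN l) _ _ (by omega)
      · exact absurd h3 h2
    · rw [hS, Finset.mem_filter, not_and, not_and] at hlS
      by_cases hv0 : v l = 0
      · rw [hv0]
        unfold MP PP
        simp only [map_zero, zero_mul, mul_zero, coeff_zero, hs.zero]
        positivity
      · have h3 := hlS (Finset.mem_univ _) hv0
        exact coeff_MP hs hH hF0 hFH (hv l) (m l) (e l) hN (heN l) _ _ (by omega)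
  · rw [nsmul_eq_mul]
    apply mul_le_mul_of_nonneg_right _ (by positivity)
    have : (Finset.univ \ Lf).card ≤ r := by
      have := Finset.card_le_univ (Finset.univ \ Lf)
      rwa [Fintype.card_fin] at this
    exact_mod_cast this

end general

section reverse

variable {A : Type*} [CommRing A] [IsDomain A] {κ : Type*} [Fintype κ]

/-- the reversed polynomials -/
noncomputable def rv (F : κ → A[X]) (i : κ) : A[X] := (F i).reverse

theorem reflect_eq {f : A[X]} {E : ℕ} (h : f.natDegree ≤ E) :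
    f.reflect E = X ^ (E - f.natDegree) * f.reverse := by
  ext i
  rw [coeff_reflect, coeff_X_pow_mul']
  split_ifs with h1
  · rw [coeff_reverse]
    by_cases h2 : i ≤ E
    · rw [revAt_le h2, revAt_le (by omega)]
      congr 1
      omega
    · have e1 : revAt E i = i := by
        rw [← revAtFun_eq, revAtFun, if_neg h2]
      have e2 : revAt f.natDegree (i - (E - f.natDegree)) = i - (E - f.natDegree) := by
        rw [← revAtFun_eq, revAtFun, if_neg (by omega)]
      rw [e1, e2, coeff_eq_zero_of_natDegree_lt (by omega),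
        coeff_eq_zero_of_natDegree_lt (by omega)]
  · rw [revAt_le (by omega), coeff_eq_zero_of_natDegree_lt (by omega)]

/-- the degree of a term -/
noncomputable def dg (F : κ → A[X]) (m : ℕ) (e : κ → ℕ) : ℕ := m + ∑ i, e i * (F i).natDegree

theorem MP_one_ne {F : κ → A[X]} (hF : ∀ i, F i ≠ 0) (m : ℕ) (e : κ → ℕ) :
    MP F 1 m e ≠ 0 := by
  unfold MP PP
  rw [map_one, one_mul]
  exact mul_ne_zero (pow_ne_zero _ X_ne_zero) (Finset.prod_ne_zero_iff.mpr fun i _ =>
    pow_ne_zero _ (hF i))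

theorem natDegree_MP {F : κ → A[X]} (hF : ∀ i, F i ≠ 0) (m : ℕ) (e : κ → ℕ) :
    (MP F 1 m e).natDegree = dg F m e := by
  unfold MP PP dg
  rw [map_one, one_mul, natDegree_mul (pow_ne_zero _ X_ne_zero) (Finset.prod_ne_zero_iff.mpr
    fun i _ => pow_ne_zero _ (hF i)), natDegree_X_pow, natDegree_prod _ _ fun i _ =>
    pow_ne_zero _ (hF i)]
  congr 1
  exact Finset.sum_congr rfl fun i _ => natDegree_pow _ _

theorem reverse_MP (F : κ → A[X]) (m : ℕ) (e : κ → ℕ) :
    (MP F 1 m e).reverse = PP (rv F) 1 e := by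
  unfold MP
  rw [reverse_mul_of_domain, reverse_PP]
  have : (X ^ m : A[X]).reverse = 1 := by
    have h := reverse_mul_X_pow (1 : A[X]) m
    rw [one_mul] at h
    rw [h, ← C_1, reverse_C]
  rw [this, one_mul]
  rfl

theorem reflect_MP {F : κ → A[X]} (hF : ∀ i, F i ≠ 0) (m : ℕ) (e : κ → ℕ) {E : ℕ}
    (hE : dg F m e ≤ E) : (MP F 1 m e).reflect E = MP (rv F) 1 (E - dg F m e) e := by
  rw [reflect_eq (by rw [natDegree_MP hF]; exact hE), natDegree_MP hF, reverse_MP]
  rfl

end reverse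

section top

variable {κ : Type*} [Fintype κ] {r : ℕ}

/-- a sum of power products with integer coefficients -/
noncomputable def sm (F : κ → ℤ[X]) (m : Fin r → ℕ) (e : Fin r → κ → ℕ) (v : Fin r → ℤ) : ℤ[X] :=
  ∑ l, C (v l) * MP F 1 (m l) (e l)

theorem top_coeffs {F : κ → ℤ[X]} {D : ℕ} (hD : ∑ i, (F i).natDegree ≤ D) {H : ℝ} (hH : 1 ≤ H)
    (hlc : ∀ i, |(F i).leadingCoeff| = 1) (hFH : ∀ i j, |((F i).coeff j : ℝ)| ≤ H)
    (m : Fin r → ℕ) (e : Fin r → κ → ℕ) {N : ℕ} (hN : 1 ≤ N) (heN : ∀ l, ∑ i, e l i ≤ N)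
    (v : Fin r → ℤ) {B : ℝ} (hv : ∀ l, |(v l : ℝ)| ≤ B) (hB : 0 ≤ B) (i : ℕ)
    (hi : i ≤ (sm F m e v).natDegree) :
    |((sm F m e v).coeff i : ℝ)| ≤
      (r * B * (N * H) ^ JJ (D + 1) r) * (N * H) ^ ((sm F m e v).natDegree - i) := by
  have hF : ∀ i, F i ≠ 0 := by
    intro i h
    have := hlc i
    rw [h, leadingCoeff_zero] at this
    simp at this
  obtain ⟨E, hE⟩ : ∃ E, E = ∑ l, dg F (m l) (e l) := ⟨_, rfl⟩
  have hdE : ∀ l, dg F (m l) (e l) ≤ E := by
    intro l
    rw [hE]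
    exact Finset.single_le_sum (f := fun l => dg F (m l) (e l)) (fun _ _ => Nat.zero_le _)
      (Finset.mem_univ l)
  have hQ : (sm F m e v).reflect E = ∑ l, C (v l) * MP (rv F) 1 (E - dg F (m l) (e l)) (e l) := by
    unfold sm
    have h1 : ∀ S : Finset (Fin r), (∑ l ∈ S, C (v l) * MP F 1 (m l) (e l)).reflect E =
        ∑ l ∈ S, C (v l) * MP (rv F) 1 (E - dg F (m l) (e l)) (e l) := by
      intro S
      classical
      induction S using Finset.induction_on with
      | empty => simp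
      | insert l S hl ih =>
        rw [Finset.sum_insert hl, Finset.sum_insert hl, reflect_add, ih, reflect_C_mul,
          reflect_MP hF _ _ (hdE l)]
    exact h1 _
  have hdeg : (sm F m e v).natDegree ≤ E := by
    unfold sm
    refine natDegree_sum_le_of_forall_le _ _ fun l _ => ?_
    refine (natDegree_C_mul_le _ _).trans ?_
    rw [natDegree_MP hF]
    exact hdE l
  obtain ⟨P, hP⟩ : ∃ P, P = sm F m e v := ⟨_, rfl⟩
  rw [← hP] at hi hdeg hQ ⊢
  obtain ⟨ν, hν⟩ : ∃ ν, ν = E - P.natDegree := ⟨_, rfl⟩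
  have hdvd : X ^ ν ∣ P.reflect E := by
    rw [X_pow_dvd_iff]
    intro d hd
    rw [coeff_reflect, revAt_le (by omega)]
    exact coeff_eq_zero_of_natDegree_lt (by omega)
  have hrd : ∑ i, (rv F i).natDegree ≤ D :=
    (Finset.sum_le_sum fun i _ => reverse_natDegree_le (F i)).trans hD
  have h0 : ∀ i, (rv F i).coeff 0 = (F i).leadingCoeff := fun i => coeff_zero_reverse _
  have h2 := coeff_bound_add sizeZ hrd hH (F := rv F)
    (fun i => by rw [h0]; exact Int.isUnit_iff_abs_eq.mpr (hlc i))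
    (fun i => by
      rw [h0]
      have : |((F i).leadingCoeff : ℝ)| = 1 := by exact_mod_cast hlc i
      exact this.le)
    (fun i j => by
      unfold rv
      rw [coeff_reverse]
      exact hFH i _)
    (fun l => E - dg F (m l) (e l)) e hN heN v hv hB ν (by rw [← hQ]; exact hdvd)
    (P.natDegree - i)
  rw [← hQ, coeff_reflect, revAt_le (by omega)] at h2
  have h3 : E - (ν + (P.natDegree - i)) = i := by omega
  rw [h3] at h2
  refine h2.trans (le_of_eq ?_)
  rw [pow_add]
  ring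

/-- **the size of the value is given by the degree** -/
theorem top_size {F : κ → ℤ[X]} {D : ℕ} (hD : ∑ i, (F i).natDegree ≤ D) {H : ℝ} (hH : 1 ≤ H)
    (hlc : ∀ i, |(F i).leadingCoeff| = 1) (hFH : ∀ i j, |((F i).coeff j : ℝ)| ≤ H)
    (m : Fin r → ℕ) (e : Fin r → κ → ℕ) {N : ℕ} (hN : 1 ≤ N) (heN : ∀ l, ∑ i, e l i ≤ N)
    (v : Fin r → ℤ) {B : ℝ} (hv : ∀ l, |(v l : ℝ)| ≤ B) (hB : 0 ≤ B) (t : ℕ)
    (ht : 4 * ((r * B + 1) * (N * H) ^ JJ (D + 1) r) * (N * H) ≤ t) :
    |(((sm F m e v).eval (t : ℤ) : ℤ) : ℝ)| ≤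
      2 * ((r * B + 1) * (N * H) ^ JJ (D + 1) r) * (t : ℝ) ^ (sm F m e v).natDegree ∧
    (sm F m e v ≠ 0 → (t : ℝ) ^ (sm F m e v).natDegree ≤
      2 * |(((sm F m e v).eval (t : ℤ) : ℤ) : ℝ)|) := by
  have hN1 : (1 : ℝ) ≤ N := by exact_mod_cast hN
  have hNH : 1 ≤ (N : ℝ) * H := by nlinarith
  have hY0 : 1 ≤ (N * H) ^ JJ (D + 1) r := one_le_pow₀ hNH
  have hrB : 0 ≤ (r : ℝ) * B := by positivity
  obtain ⟨Y, hY⟩ : ∃ Y : ℝ, Y = (r * B + 1) * (N * H) ^ JJ (D + 1) r := ⟨_, rfl⟩
  have hY1 : 1 ≤ Y := by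
    rw [hY]
    nlinarith
  rw [← hY] at ht ⊢
  have hcoef : ∀ i, i ≤ (sm F m e v).natDegree → |((sm F m e v).coeff i : ℝ)| ≤
      Y * (N * H) ^ ((sm F m e v).natDegree - i) := by
    intro i hi
    refine (top_coeffs hD hH hlc hFH m e hN heN v hv hB i hi).trans ?_
    apply mul_le_mul_of_nonneg_right _ (by positivity)
    rw [hY]
    apply mul_le_mul_of_nonneg_right _ (by positivity)
    linarith
  have h2W : 2 * (N * H) ≤ (t : ℝ) := by
    refine le_trans ?_ ht
    nlinarith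
  have ht0 : 0 < t := by
    have : (0 : ℝ) < t := by linarith
    exact_mod_cast this
  refine ⟨top_upper (by linarith) (by linarith) h2W ht0 le_rfl hcoef, fun h0 => ?_⟩
  refine top_lower h0 (by linarith) (by linarith) h2W ht0 le_rfl hcoef ?_
  rw [Nat.sub_self, zero_add, pow_one]
  exact ht

end top

end Pool.Agent.Q29.SE
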