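import Mathlib
import Pool.Agent.Q29.SE.Top

/-!
# The degree of a difference of two products of powers
-/

set_option autoImplicit false

namespace Pool.Agent.Q29.SE

open Finset Polynomial Pool.Agent.Q103.SD

variable {A : Type*} [CommRing A] [IsDomain A] [CharZero A] {κ : Type*}

theorem cXdA (g : A[X]) (e : ℕ) : (X * derivative g).coeff e = e * g.coeff e := by
  cases e with
  | zero => simp
  | succ e =>
    rw [coeff_X_mul, coeff_derivative]
    push_cast
    ring

theorem dXdA (g : A[X]) : (X * derivative g).natDegree ≤ g.natDegree := by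
  rw [natDegree_le_iff_coeff_eq_zero]
  intro N hN
  rw [cXdA, coeff_eq_zero_of_natDegree_lt hN, mul_zero]

/-- the logarithmic derivative of a product of powers -/
theorem logder (F : κ → A[X]) (e : κ → ℕ) (U : Finset κ) :
    ∃ S : A[X], (X * derivative (∏ i ∈ U, F i ^ e i)) * ∏ i ∈ U, F i =
      (∏ i ∈ U, F i ^ e i) * (X * S) ∧ (X * S).natDegree ≤ ∑ i ∈ U, (F i).natDegree := by
  classical
  induction U using Finset.induction_on with
  | empty => exact ⟨0, by simp, by simp⟩
  | insert a U ha ih =>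
    obtain ⟨S, hS, hdS⟩ := ih
    refine ⟨(e a : A[X]) * derivative (F a) * (∏ i ∈ U, F i) + F a * S, ?_, ?_⟩
    · rw [Finset.prod_insert ha, Finset.prod_insert ha, derivative_mul, derivative_pow]
      rcases Nat.eq_zero_or_pos (e a) with h | h
      · rw [h]
        simp only [pow_zero, Nat.cast_zero, C_0, zero_mul, one_mul, zero_add]
        linear_combination (F a) * hS
      · obtain ⟨k, hk⟩ : ∃ k, e a = k + 1 := ⟨e a - 1, by omega⟩
        rw [hk]
        simp only [Nat.add_sub_cancel, pow_succ, map_natCast, Nat.cast_add, Nat.cast_one,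
          map_add, map_one]
        linear_combination (F a ^ k * F a * F a) * hS
    · rw [Finset.sum_insert ha]
      have hR : (∏ i ∈ U, F i).natDegree ≤ ∑ i ∈ U, (F i).natDegree := natDegree_prod_le _ _
      have e1 : X * ((e a : A[X]) * derivative (F a) * (∏ i ∈ U, F i) + F a * S) =
          (e a : A[X]) * (X * derivative (F a)) * (∏ i ∈ U, F i) + F a * (X * S) := by ring
      rw [e1]
      refine (natDegree_add_le _ _).trans (max_le ?_ ?_)
      · refine natDegree_mul_le.trans (Nat.add_le_add ?_ hR)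
        refine natDegree_mul_le.trans ?_
        have := dXdA (F a)
        simp only [natDegree_natCast]
        omega
      · exact natDegree_mul_le.trans (Nat.add_le_add_left hdS _)

theorem lc_logder {P R S : A[X]} (hP : P ≠ 0) {d : ℕ} (hd : R.natDegree = d)
    (h : (X * derivative P) * R = P * S) (hS : S.natDegree ≤ d) :
    S.coeff d = P.natDegree * R.coeff d := by
  have h1 : ((X * derivative P) * R).coeff (P.natDegree + d) = (P * S).coeff (P.natDegree + d) := by
    rw [h]
  rw [coeff_mul_add_eq_of_natDegree_le (dXdA P) hd.le, coeff_mul_add_eq_of_natDegree_le le_rfl hS,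
    cXdA] at h1
  have hlc : P.coeff P.natDegree ≠ 0 := by simpa using hP
  apply mul_left_cancel₀ hlc
  rw [← h1]
  ring

/-- **the degree drop** -/
theorem drop {F : κ → A[X]} (hF : ∀ i, F i ≠ 0) (U : Finset κ) (b c : κ → ℕ) {β γ : A}
    (hβ : β ≠ 0) (hU : 1 ≤ ∑ i ∈ U, (F i).natDegree)
    (hne : C γ * ∏ i ∈ U, F i ^ c i - C β * ∏ i ∈ U, F i ^ b i ≠ 0) :
    (∏ i ∈ U, F i ^ b i).natDegree + 1 ≤
      (C γ * ∏ i ∈ U, F i ^ c i - C β * ∏ i ∈ U, F i ^ b i).natDegree +
        ∑ i ∈ U, (F i).natDegree := by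
  classical
  obtain ⟨Pb, hPb⟩ : ∃ Pb, Pb = ∏ i ∈ U, F i ^ b i := ⟨_, rfl⟩
  obtain ⟨Pc, hPc⟩ : ∃ Pc, Pc = ∏ i ∈ U, F i ^ c i := ⟨_, rfl⟩
  obtain ⟨R, hR⟩ : ∃ R, R = ∏ i ∈ U, F i := ⟨_, rfl⟩
  obtain ⟨Sb, hSb, hdSb⟩ := logder F b U
  obtain ⟨Sc, hSc, hdSc⟩ := logder F c U
  rw [← hPb] at hne hSb ⊢
  rw [← hPc] at hne hSc ⊢
  rw [← hR] at hSb hSc
  have hPb0 : Pb ≠ 0 := by
    rw [hPb]
    exact Finset.prod_ne_zero_iff.mpr fun i _ => pow_ne_zero _ (hF i)
  have hR0 : R ≠ 0 := by
    rw [hR]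
    exact Finset.prod_ne_zero_iff.mpr fun i _ => hF i
  have hdR : R.natDegree = ∑ i ∈ U, (F i).natDegree := by
    rw [hR]
    exact natDegree_prod _ _ fun i _ => hF i
  obtain ⟨d, hd⟩ : ∃ d, d = ∑ i ∈ U, (F i).natDegree := ⟨_, rfl⟩
  rw [← hd] at hdSb hdSc hdR hU ⊢
  obtain ⟨g, hg⟩ : ∃ g, g = C γ * Pc - C β * Pb := ⟨_, rfl⟩
  rw [← hg] at hne ⊢
  have hgd : (X * derivative g) * R = C γ * Pc * (X * Sc) - C β * Pb * (X * Sb) := by
    rw [hg, derivative_sub, derivative_C_mul, derivative_C_mul]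
    linear_combination (C γ) * hSc - (C β) * hSb
  have key : C β * Pb * (X * (Sc - Sb)) = (X * derivative g) * R - g * (X * Sc) := by
    rw [hgd, hg]
    ring
  by_cases hS : Sc = Sb
  · -- equal logarithmic derivatives: all degrees agree
    have h1 : (X * derivative g) * R = g * (X * Sb) := by
      rw [hgd, hS, hg]
      ring
    have e1 := lc_logder hne hdR h1 hdSb
    have e2 := lc_logder hPb0 hdR hSb hdSb
    have hlcR : R.coeff d ≠ 0 := by
      rw [← hdR]
      simpa using hR0
    have e3 : (g.natDegree : A) = Pb.natDegree := by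
      apply mul_right_cancel₀ hlcR
      rw [← e1, ← e2]
    have e4 : g.natDegree = Pb.natDegree := by exact_mod_cast e3
    omega
  · have hSne : Sc - Sb ≠ 0 := sub_ne_zero.mpr hS
    have hL : (C β * Pb * (X * (Sc - Sb))).natDegree = Pb.natDegree + (1 + (Sc - Sb).natDegree) := by
      rw [natDegree_mul (mul_ne_zero (C_ne_zero.mpr hβ) hPb0) (mul_ne_zero X_ne_zero hSne),
        natDegree_C_mul hβ, natDegree_mul X_ne_zero hSne, natDegree_X]
    have hRdeg : ((X * derivative g) * R - g * (X * Sc)).natDegree ≤ g.natDegree + d := by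
      refine (natDegree_sub_le _ _).trans (max_le ?_ ?_)
      · refine natDegree_mul_le.trans ?_
        have := dXdA g
        omega
      · exact natDegree_mul_le.trans (Nat.add_le_add_left hdSc _)
    rw [← key, hL] at hRdeg
    omega

end Pool.Agent.Q29.SE
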