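import Mathlib
import Pool.Agent.Q29.SE.Top
import Pool.Agent.Q103.SD.NFSum

/-!
# Sizes of values of sums of power products at the places of a number field
-/

set_option autoImplicit false

namespace Pool.Agent.Q29.SE

open Finset Polynomial Pool.Agent.Q103.SD

section general

variable {A : Type*} [CommRing A] [IsDomain A] [CharZero A] {κ : Type*} [Fintype κ] {r : ℕ}
  {s : A → ℝ}

/-- a sum of power products -/
noncomputable def smA (F : κ → A[X]) (m : Fin r → ℕ) (e : Fin r → κ → ℕ) (v : Fin r → A) : A[X] :=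
  ∑ l, C (v l) * MP F 1 (m l) (e l)

theorem top_coeffs_gen (hs : SizeFn s) {F : κ → A[X]} {D : ℕ} (hD : ∑ i, (F i).natDegree ≤ D)
    {H : ℝ} (hH : 1 ≤ H) (hlcu : ∀ i, IsUnit (F i).leadingCoeff)
    (hlc1 : ∀ i, s (F i).leadingCoeff ≤ 1) (hFH : ∀ i j, s ((F i).coeff j) ≤ H)
    (m : Fin r → ℕ) (e : Fin r → κ → ℕ) {N : ℕ} (hN : 1 ≤ N) (heN : ∀ l, ∑ i, e l i ≤ N)
    (v : Fin r → A) {B : ℝ} (hv : ∀ l, s (v l) ≤ B) (hB : 0 ≤ B) (i : ℕ)
    (hi : i ≤ (smA F m e v).natDegree) :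
    s ((smA F m e v).coeff i) ≤
      (r * B * (N * H) ^ JJ (D + 1) r) * (N * H) ^ ((smA F m e v).natDegree - i) := by
  have hF : ∀ i, F i ≠ 0 := by
    intro i h
    have := hlcu i
    rw [h, leadingCoeff_zero] at this
    exact not_isUnit_zero this
  obtain ⟨E, hE⟩ : ∃ E, E = ∑ l, dg F (m l) (e l) := ⟨_, rfl⟩
  have hdE : ∀ l, dg F (m l) (e l) ≤ E := by
    intro l
    rw [hE]
    exact Finset.single_le_sum (f := fun l => dg F (m l) (e l)) (fun _ _ => Nat.zero_le _)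
      (Finset.mem_univ l)
  have hQ : (smA F m e v).reflect E =
      ∑ l, C (v l) * MP (rv F) 1 (E - dg F (m l) (e l)) (e l) := by
    unfold smA
    have h1 : ∀ S : Finset (Fin r), (∑ l ∈ S, C (v l) * MP F 1 (m l) (e l)).reflect E =
        ∑ l ∈ S, C (v l) * MP (rv F) 1 (E - dg F (m l) (e l)) (e l) := by
      intro S
      classical
      induction S using Finset.induction_on with
      | empty => simp
      | insert l S hl ih =>
        rw [Finset.sum_insert hl, Finset.sum_insert hl, reflect_add, ih, reflect_C_mul,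
          reflect_MP hF _ _ (hdE l)]
    exact h1 _
  have hdeg : (smA F m e v).natDegree ≤ E := by
    unfold smA
    refine natDegree_sum_le_of_forall_le _ _ fun l _ => ?_
    refine (natDegree_C_mul_le _ _).trans ?_
    rw [natDegree_MP hF]
    exact hdE l
  obtain ⟨P, hP⟩ : ∃ P, P = smA F m e v := ⟨_, rfl⟩
  rw [← hP] at hi hdeg hQ ⊢
  obtain ⟨ν, hν⟩ : ∃ ν, ν = E - P.natDegree := ⟨_, rfl⟩
  have hdvd : X ^ ν ∣ P.reflect E := by
    rw [X_pow_dvd_iff]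
    intro d hd
    rw [coeff_reflect, revAt_le (by omega)]
    exact coeff_eq_zero_of_natDegree_lt (by omega)
  have hrd : ∑ i, (rv F i).natDegree ≤ D :=
    (Finset.sum_le_sum fun i _ => reverse_natDegree_le (F i)).trans hD
  have h0 : ∀ i, (rv F i).coeff 0 = (F i).leadingCoeff := fun i => coeff_zero_reverse _
  have h2 := coeff_bound_add hs hrd hH (F := rv F)
    (fun i => by rw [h0]; exact hlcu i)
    (fun i => by rw [h0]; exact hlc1 i)
    (fun i j => by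
      unfold rv
      rw [coeff_reverse]
      exact hFH i _)
    (fun l => E - dg F (m l) (e l)) e hN heN v hv hB ν (by rw [← hQ]; exact hdvd)
    (P.natDegree - i)
  rw [← hQ, coeff_reflect, revAt_le (by omega)] at h2
  have h3 : E - (ν + (P.natDegree - i)) = i := by omega
  rw [h3] at h2
  refine h2.trans (le_of_eq ?_)
  rw [pow_add]
  ring

/-- the value at a large number -/
theorem eval_top {σ : A →+* ℂ} (hσ : ∀ x, ‖σ x‖ ≤ s x) {P : A[X]} {Y W : ℝ} (hY : 0 ≤ Y)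
    (hW : 0 ≤ W) (h : ∀ i, i ≤ P.natDegree → s (P.coeff i) ≤ Y * W ^ (P.natDegree - i)) {t : A}
    (hs0 : s 0 = 0) (ht0 : 0 < ‖σ t‖) (ht : 2 * W ≤ ‖σ t‖) :
    ‖σ (P.eval t) - σ P.leadingCoeff * σ t ^ P.natDegree‖ * ‖σ t‖ ≤
      2 * Y * W * ‖σ t‖ ^ P.natDegree := by
  have hz : σ t ≠ 0 := norm_pos_iff.mp ht0
  obtain ⟨u, hu⟩ : ∃ u, u = (σ t)⁻¹ := ⟨_, rfl⟩
  have hun : ‖u‖ = ‖σ t‖⁻¹ := by rw [hu, norm_inv]
  have hcoef : ∀ j, s (P.reverse.coeff j) ≤ Y * W ^ j := by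
    intro j
    rw [coeff_reverse]
    by_cases hj : j ≤ P.natDegree
    · rw [revAt_le hj]
      refine (h _ (by omega)).trans (le_of_eq ?_)
      congr 2
      omega
    · have e1 : revAt P.natDegree j = j := by
        rw [← revAtFun_eq, revAtFun, if_neg hj]
      rw [e1, coeff_eq_zero_of_natDegree_lt (by omega), hs0]
      positivity
  have h1 := eval_near hσ hY hW hcoef (u := u) (by
    rw [hun, ← div_eq_mul_inv, div_le_one ht0]
    exact ht)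
  rw [coeff_zero_reverse] at h1
  have : Invertible (σ t) := invertibleOfNonzero hz
  have h2 := eval₂_reverse_mul_pow σ (σ t) P
  have h3 : ⅟(σ t) = u := by rw [invOf_eq_inv, hu]
  rw [h3] at h2
  have h4 : P.eval₂ σ (σ t) = σ (P.eval t) := by
    rw [eval₂_at_apply]
  rw [h4] at h2
  have h5 : σ (P.eval t) - σ P.leadingCoeff * σ t ^ P.natDegree =
      (P.reverse.eval₂ σ u - σ P.leadingCoeff) * σ t ^ P.natDegree := by
    rw [← h2]
    ring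
  rw [h5, norm_mul, norm_pow]
  have h6 : ‖P.reverse.eval₂ σ u - σ P.leadingCoeff‖ * ‖σ t‖ ≤ 2 * Y * W := by
    calc ‖P.reverse.eval₂ σ u - σ P.leadingCoeff‖ * ‖σ t‖ ≤ 2 * Y * W * ‖u‖ * ‖σ t‖ :=
          mul_le_mul_of_nonneg_right h1 ht0.le
      _ = 2 * Y * W * (‖σ t‖⁻¹ * ‖σ t‖) := by rw [hun]; ring
      _ = 2 * Y * W := by rw [inv_mul_cancel₀ ht0.ne', mul_one]
  calc ‖P.reverse.eval₂ σ u - σ P.leadingCoeff‖ * ‖σ t‖ ^ P.natDegree * ‖σ t‖ =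
        ‖P.reverse.eval₂ σ u - σ P.leadingCoeff‖ * ‖σ t‖ * ‖σ t‖ ^ P.natDegree := by ring
    _ ≤ _ := mul_le_mul_of_nonneg_right h6 (by positivity)

/-- two-sided bounds -/
theorem size_top {σ : A →+* ℂ} (hσ : ∀ x, ‖σ x‖ ≤ s x) {P : A[X]} {Y W : ℝ} (hY : 1 ≤ Y)
    (hW : 1 ≤ W) (h : ∀ i, i ≤ P.natDegree → s (P.coeff i) ≤ Y * W ^ (P.natDegree - i)) {t : A}
    (hs0 : s 0 = 0) {L : ℝ} (hL : 1 ≤ L) (ht : 4 * Y * L * W ≤ ‖σ t‖) :
    ‖σ (P.eval t)‖ ≤ 2 * Y * ‖σ t‖ ^ P.natDegree ∧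
    (1 ≤ L * ‖σ P.leadingCoeff‖ → ‖σ t‖ ^ P.natDegree ≤ 2 * L * ‖σ (P.eval t)‖) := by
  have hYL : 1 ≤ Y * L := one_le_mul_of_one_le_of_one_le hY hL
  have hYLW : 1 ≤ Y * L * W := one_le_mul_of_one_le_of_one_le hYL hW
  have ht0 : 0 < ‖σ t‖ := by linarith
  have h2W : 2 * W ≤ ‖σ t‖ := by nlinarith
  have h1 := eval_top hσ (by linarith) (by linarith) h hs0 ht0 h2W
  obtain ⟨d, hd⟩ : ∃ d, d = P.natDegree := ⟨_, rfl⟩
  rw [← hd] at h1 ⊢
  obtain ⟨τ, hτ⟩ : ∃ τ, τ = ‖σ t‖ := ⟨_, rfl⟩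
  rw [← hτ] at h1 ht ht0 h2W ⊢
  have hτd : 0 < τ ^ d := pow_pos ht0 d
  -- the error is at most `τ ^ d / (2 L)`
  have herr : ‖σ (P.eval t) - σ P.leadingCoeff * σ t ^ d‖ * (2 * L) ≤ τ ^ d := by
    have h2 : ‖σ (P.eval t) - σ P.leadingCoeff * σ t ^ d‖ * τ * (2 * L) ≤
        2 * Y * W * τ ^ d * (2 * L) := mul_le_mul_of_nonneg_right h1 (by linarith)
    have h3 : 2 * Y * W * τ ^ d * (2 * L) ≤ τ ^ d * τ := by
      have : 2 * Y * W * τ ^ d * (2 * L) = τ ^ d * (4 * Y * L * W) := by ring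
      rw [this]
      exact mul_le_mul_of_nonneg_left ht hτd.le
    have h4 : (‖σ (P.eval t) - σ P.leadingCoeff * σ t ^ d‖ * (2 * L)) * τ ≤ τ ^ d * τ := by
      calc _ = ‖σ (P.eval t) - σ P.leadingCoeff * σ t ^ d‖ * τ * (2 * L) := by ring
        _ ≤ _ := h2.trans h3
    exact le_of_mul_le_mul_right h4 ht0
  have hn0 : 0 ≤ ‖σ (P.eval t) - σ P.leadingCoeff * σ t ^ d‖ := norm_nonneg _
  have hlcn : ‖σ P.leadingCoeff * σ t ^ d‖ = ‖σ P.leadingCoeff‖ * τ ^ d := by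
    rw [norm_mul, norm_pow, hτ]
  constructor
  · have h2 : ‖σ (P.eval t)‖ ≤ ‖σ (P.eval t) - σ P.leadingCoeff * σ t ^ d‖ +
        ‖σ P.leadingCoeff * σ t ^ d‖ := by
      have := norm_add_le (σ (P.eval t) - σ P.leadingCoeff * σ t ^ d)
        (σ P.leadingCoeff * σ t ^ d)
      rwa [sub_add_cancel] at this
    have h3 : ‖σ P.leadingCoeff‖ ≤ Y := by
      have := h P.natDegree le_rfl
      rw [Nat.sub_self, pow_zero, mul_one] at this
      exact (hσ _).trans this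
    rw [hlcn] at h2
    have h4 : ‖σ P.leadingCoeff‖ * τ ^ d ≤ Y * τ ^ d := mul_le_mul_of_nonneg_right h3 hτd.le
    have h5 : ‖σ (P.eval t) - σ P.leadingCoeff * σ t ^ d‖ ≤ τ ^ d := by nlinarith
    nlinarith
  · intro hlc
    have h2 : ‖σ P.leadingCoeff * σ t ^ d‖ ≤ ‖σ (P.eval t)‖ +
        ‖σ (P.eval t) - σ P.leadingCoeff * σ t ^ d‖ := by
      have := norm_sub_le (σ (P.eval t)) (σ (P.eval t) - σ P.leadingCoeff * σ t ^ d)
      rwa [sub_sub_cancel] at this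
    rw [hlcn] at h2
    have h3 : τ ^ d ≤ L * ‖σ P.leadingCoeff‖ * τ ^ d := le_mul_of_one_le_left hτd.le hlc
    have h4 : 2 * L * (‖σ P.leadingCoeff‖ * τ ^ d) ≤
        2 * L * (‖σ (P.eval t)‖ + ‖σ (P.eval t) - σ P.leadingCoeff * σ t ^ d‖) :=
      mul_le_mul_of_nonneg_left h2 (by linarith)
    nlinarith

/-- **Sizes of sums of power products** -/
theorem gen_top (hs : SizeFn s) {σ : A →+* ℂ} (hσ : ∀ x, ‖σ x‖ ≤ s x) {F : κ → A[X]} {D : ℕ}
    (hD : ∑ i, (F i).natDegree ≤ D)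
    {H : ℝ} (hH : 1 ≤ H) (hlcu : ∀ i, IsUnit (F i).leadingCoeff)
    (hlc1 : ∀ i : κ, s (F i).leadingCoeff ≤ 1) (hFH : ∀ (i : κ) (j : ℕ), s ((F i).coeff j) ≤ H)
    (m : Fin r → ℕ) (e : Fin r → κ → ℕ) {N : ℕ} (hN : 1 ≤ N) (heN : ∀ l, ∑ i, e l i ≤ N)
    (v : Fin r → A) {B : ℝ} (hv : ∀ l : Fin r, s (v l) ≤ B) (hB : 0 ≤ B) {Y : ℝ}
    (hY : (r * B + 1) * (N * H) ^ JJ (D + 1) r ≤ Y) {L : ℝ} (hL : 1 ≤ L)
    (hlow : ∀ x : A, x ≠ 0 → s x ≤ Y → 1 ≤ L * ‖σ x‖) {t : A}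
    (ht : 4 * Y * L * (N * H) ≤ ‖σ t‖) :
    ‖σ ((smA F m e v).eval t)‖ ≤ 2 * Y * ‖σ t‖ ^ (smA F m e v).natDegree ∧
    (smA F m e v ≠ 0 → ‖σ t‖ ^ (smA F m e v).natDegree ≤
      2 * L * ‖σ ((smA F m e v).eval t)‖) := by
  have hN1 : (1 : ℝ) ≤ N := by exact_mod_cast hN
  have hNH : 1 ≤ (N : ℝ) * H := one_le_mul_of_one_le_of_one_le hN1 hH
  have hJ1 : 1 ≤ ((N : ℝ) * H) ^ JJ (D + 1) r := one_le_pow₀ hNH
  have hrB : 0 ≤ (r : ℝ) * B := by positivity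
  have hY1 : 1 ≤ Y := by
    refine le_trans ?_ hY
    exact one_le_mul_of_one_le_of_one_le (by linarith) hJ1
  obtain ⟨P, hP⟩ : ∃ P, P = smA F m e v := ⟨_, rfl⟩
  have hco : ∀ i, i ≤ P.natDegree → s (P.coeff i) ≤ Y * (N * H) ^ (P.natDegree - i) := by
    intro i hi
    rw [hP] at hi ⊢
    have h1 := top_coeffs_gen hs hD hH hlcu hlc1 hFH m e hN heN v hv hB i hi
    refine h1.trans ?_
    apply mul_le_mul_of_nonneg_right _ (by positivity)
    refine le_trans ?_ hY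
    apply mul_le_mul_of_nonneg_right _ (by positivity)
    linarith
  have key := size_top hσ hY1 hNH hco hs.zero hL ht
  rw [← hP]
  refine ⟨key.1, fun hP0 => key.2 (hlow _ (leadingCoeff_ne_zero.mpr hP0) ?_)⟩
  have h2 := hco P.natDegree le_rfl
  rwa [Nat.sub_self, pow_zero, mul_one] at h2

end general

end Pool.Agent.Q29.SE
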