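import Mathlib
import Pool.Agent.Q29.SE.TopNF
import Pool.Agent.Q29.SE.Drop

/-!
# Differences of two products of powers
-/

set_option autoImplicit false

namespace Pool.Agent.Q29.SE

open Finset Polynomial Pool.Agent.Q103.SD

variable {κ : Type*} [Fintype κ] [DecidableEq κ]

/-- exponents cut off outside `U` -/
def cut (U : Finset κ) (e : κ → ℕ) (i : κ) : ℕ := if i ∈ U then e i else 0

omit [Fintype κ] in
theorem MP_cut [Fintype κ] {A : Type*} [CommRing A] (F : κ → A[X]) (U : Finset κ) (e : κ → ℕ) :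
    MP F 1 0 (cut U e) = ∏ i ∈ U, F i ^ e i := by
  unfold MP PP
  rw [map_one, one_mul, pow_zero, one_mul]
  have h1 : ∀ i, F i ^ cut U e i = if i ∈ U then F i ^ e i else 1 := by
    intro i
    unfold cut
    split_ifs <;> simp
  simp only [h1]
  rw [Finset.prod_ite_mem, Finset.univ_inter]

theorem sum_cut (U : Finset κ) (e : κ → ℕ) : ∑ i, cut U e i = ∑ i ∈ U, e i := by
  unfold cut
  rw [Finset.sum_ite_mem, Finset.univ_inter]

/-- **The drop inequality** -/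
theorem gen_drop {A : Type*} [CommRing A] [IsDomain A] [CharZero A] {s : A → ℝ} (hs : SizeFn s)
    (hs1 : s (-1) ≤ 1) {σ : A →+* ℂ} (hσ : ∀ x, ‖σ x‖ ≤ s x) {F : κ → A[X]} {D : ℕ}
    (hD : ∑ i, (F i).natDegree ≤ D)
    {H : ℝ} (hH : 1 ≤ H) (hlcu : ∀ i, IsUnit (F i).leadingCoeff)
    (hlc1 : ∀ i : κ, s (F i).leadingCoeff ≤ 1) (hFH : ∀ (i : κ) (j : ℕ), s ((F i).coeff j) ≤ H)
    (U : Finset κ) (hpos : ∀ i ∈ U, 1 ≤ (F i).natDegree) (hU : U.Nonempty)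
    (b c : κ → ℕ) {N : ℕ} (hN : 1 ≤ N) (hDN : D ≤ N) (hb : ∑ i ∈ U, b i ≤ N)
    (hc : ∑ i ∈ U, c i ≤ N) {β γ : A} (hβ0 : β ≠ 0) (hβ : s β ≤ H) (hγ : s γ ≤ H) {Y : ℝ}
    (hY : (2 * H + 1) * (N * H) ^ JJ (D + 1) 2 ≤ Y) {L : ℝ} (hL : 1 ≤ L)
    (hlow : ∀ x : A, x ≠ 0 → s x ≤ Y → 1 ≤ L * ‖σ x‖) {t : A}
    (ht : 4 * Y * L * (N * H) ≤ ‖σ t‖)
    (hne : γ * ∏ i ∈ U, (F i).eval t ^ c i ≠ β * ∏ i ∈ U, (F i).eval t ^ b i) :
    ‖σ (β * ∏ i ∈ U, (F i).eval t ^ b i)‖ * ‖σ t‖ ≤ 8 * Y * L ^ 2 *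
      ‖σ (γ * ∏ i ∈ U, (F i).eval t ^ c i - β * ∏ i ∈ U, (F i).eval t ^ b i)‖ *
        ∏ i ∈ U, ‖σ ((F i).eval t)‖ := by
  classical
  have hN1 : (1 : ℝ) ≤ N := by exact_mod_cast hN
  have hNH : 1 ≤ (N : ℝ) * H := one_le_mul_of_one_le_of_one_le hN1 hH
  have hJ2 : 1 ≤ ((N : ℝ) * H) ^ JJ (D + 1) 2 := one_le_pow₀ hNH
  have hY1 : 1 ≤ Y := by
    refine le_trans ?_ hY
    exact one_le_mul_of_one_le_of_one_le (by linarith) hJ2
  have hYr1 : ((1 : ℕ) * H + 1) * (N * H) ^ JJ (D + 1) 1 ≤ Y := by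
    refine le_trans ?_ hY
    have h1 : ((1 : ℕ) : ℝ) * H + 1 ≤ 2 * H + 1 := by
      push_cast
      linarith
    have h2 := pow_le_pow_right₀ hNH (JJ_mono (D := D + 1) (by norm_num : 1 ≤ 2))
    exact mul_le_mul h1 h2 (by positivity) (by linarith)
  have hYr2 : ((2 : ℕ) * H + 1) * (N * H) ^ JJ (D + 1) 2 ≤ Y := by
    push_cast
    exact hY
  have hF : ∀ i, F i ≠ 0 := by
    intro i h
    have := hlcu i
    rw [h, leadingCoeff_zero] at this
    exact not_isUnit_zero this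
  -- the polynomials
  obtain ⟨Pb, hPb⟩ : ∃ Pb, Pb = ∏ i ∈ U, F i ^ b i := ⟨_, rfl⟩
  obtain ⟨Pc, hPc⟩ : ∃ Pc, Pc = ∏ i ∈ U, F i ^ c i := ⟨_, rfl⟩
  obtain ⟨R, hR⟩ : ∃ R, R = ∏ i ∈ U, F i := ⟨_, rfl⟩
  have sB : smA F (fun _ : Fin 1 => 0) (fun _ => cut U b) (fun _ => β) = C β * Pb := by
    unfold smA
    rw [Fin.sum_univ_one, MP_cut, hPb]
  have sR : smA F (fun _ : Fin 1 => 0) (fun _ => cut U (fun _ => 1)) (fun _ => 1) = R := by
    unfold smA
    rw [Fin.sum_univ_one, MP_cut, hR]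
    simp
  have sG : smA F (fun _ : Fin 2 => 0) ![cut U c, cut U b] ![γ, -β] = C γ * Pc - C β * Pb := by
    unfold smA
    rw [Fin.sum_univ_two]
    simp only [Matrix.cons_val_zero, Matrix.cons_val_one]
    rw [MP_cut, MP_cut, hPb, hPc, map_neg]
    ring
  have hsneg : s (-β) ≤ s β := by
    have h1 := hs.mul (-1) β
    rw [neg_one_mul] at h1
    refine h1.trans ?_
    calc s (-1) * s β ≤ 1 * s β := mul_le_mul_of_nonneg_right hs1 (hs.nonneg _)
      _ = s β := one_mul _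
  have kB := gen_top hs hσ hD hH hlcu hlc1 hFH (fun _ : Fin 1 => 0) (fun _ => cut U b) hN
    (fun _ => by rw [sum_cut]; exact hb) (fun _ => β) (fun _ => hβ) (by linarith) hYr1 hL hlow ht
  have kR := gen_top hs hσ hD hH hlcu hlc1 hFH (fun _ : Fin 1 => 0) (fun _ => cut U (fun _ => 1))
    hN (fun _ => by
      rw [sum_cut]
      refine le_trans ?_ hDN
      refine le_trans (Finset.sum_le_sum fun i hi => hpos i hi) ?_
      refine le_trans ?_ hD
      exact Finset.sum_le_sum_of_subset (Finset.subset_univ U)) (fun _ => 1)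
    (B := H) (fun _ => hs.one.trans hH) (by linarith) hYr1 hL hlow ht
  have kG := gen_top hs hσ hD hH hlcu hlc1 hFH (fun _ : Fin 2 => 0) ![cut U c, cut U b] hN
    (fun l => by
      fin_cases l
      · exact (sum_cut U c).trans_le hc
      · exact (sum_cut U b).trans_le hb) ![γ, -β] (B := H)
    (fun l => by
      fin_cases l
      · exact hγ
      · exact hsneg.trans hβ) (by linarith) hYr2 hL hlow ht
  rw [sB] at kB
  rw [sR] at kR
  rw [sG] at kG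
  have evB : (C β * Pb).eval t = β * ∏ i ∈ U, (F i).eval t ^ b i := by
    rw [hPb, eval_mul, eval_C, eval_prod]
    simp only [eval_pow]
  have evC : (C γ * Pc).eval t = γ * ∏ i ∈ U, (F i).eval t ^ c i := by
    rw [hPc, eval_mul, eval_C, eval_prod]
    simp only [eval_pow]
  have evR : R.eval t = ∏ i ∈ U, (F i).eval t := by
    rw [hR, eval_prod]
  have evG : (C γ * Pc - C β * Pb).eval t = γ * ∏ i ∈ U, (F i).eval t ^ c i -
      β * ∏ i ∈ U, (F i).eval t ^ b i := by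
    rw [eval_sub, evB, evC]
  have hG0 : C γ * Pc - C β * Pb ≠ 0 := by
    intro h
    rw [h, eval_zero] at evG
    exact hne (sub_eq_zero.mp evG.symm)
  have hR0 : R ≠ 0 := by
    rw [hR]
    exact Finset.prod_ne_zero_iff.mpr fun i _ => hF i
  have hdR : R.natDegree = ∑ i ∈ U, (F i).natDegree := by
    rw [hR]
    exact natDegree_prod _ _ fun i _ => hF i
  have hU1 : 1 ≤ ∑ i ∈ U, (F i).natDegree := by
    obtain ⟨i0, hi0⟩ := hU
    exact (hpos i0 hi0).trans (Finset.single_le_sum (f := fun i => (F i).natDegree)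
      (fun _ _ => Nat.zero_le _) hi0)
  have hdeg : (C β * Pb).natDegree + 1 ≤ (C γ * Pc - C β * Pb).natDegree + R.natDegree := by
    rw [natDegree_C_mul hβ0, hdR, hPb, hPc]
    refine drop hF U b c hβ0 hU1 ?_
    rw [← hPb, ← hPc]
    exact hG0
  have k1 := kB.1
  have k2 := kG.2 hG0
  have k3 := kR.2 hR0
  rw [evB] at k1
  rw [evG] at k2
  rw [evR] at k3
  have hprod : ‖σ (∏ i ∈ U, (F i).eval t)‖ = ∏ i ∈ U, ‖σ ((F i).eval t)‖ := by
    rw [map_prod, norm_prod]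
  rw [hprod] at k3
  obtain ⟨τ, hτ⟩ : ∃ τ, τ = ‖σ t‖ := ⟨_, rfl⟩
  rw [← hτ] at ht k1 k2 k3 ⊢
  have hτ1 : 1 ≤ τ := by
    refine le_trans ?_ ht
    have h1 := one_le_mul_of_one_le_of_one_le (one_le_mul_of_one_le_of_one_le hY1 hL) hNH
    nlinarith
  obtain ⟨x, hx⟩ : ∃ x, x = ‖σ (γ * ∏ i ∈ U, (F i).eval t ^ c i -
    β * ∏ i ∈ U, (F i).eval t ^ b i)‖ := ⟨_, rfl⟩
  obtain ⟨z, hz⟩ : ∃ z, z = ∏ i ∈ U, ‖σ ((F i).eval t)‖ := ⟨_, rfl⟩
  rw [← hx] at k2 ⊢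
  rw [← hz] at k3 ⊢
  have hx0 : 0 ≤ x := by rw [hx]; exact norm_nonneg _
  have hz0 : 0 ≤ z := by
    rw [hz]
    exact Finset.prod_nonneg fun i _ => norm_nonneg _
  calc ‖σ (β * ∏ i ∈ U, (F i).eval t ^ b i)‖ * τ
      ≤ (2 * Y * τ ^ (C β * Pb).natDegree) * τ := mul_le_mul_of_nonneg_right k1 (by linarith)
    _ = 2 * Y * τ ^ ((C β * Pb).natDegree + 1) := by rw [pow_succ]; ring
    _ ≤ 2 * Y * τ ^ ((C γ * Pc - C β * Pb).natDegree + R.natDegree) := by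
        have := pow_le_pow_right₀ hτ1 hdeg
        exact mul_le_mul_of_nonneg_left this (by linarith)
    _ = 2 * Y * (τ ^ (C γ * Pc - C β * Pb).natDegree * τ ^ R.natDegree) := by rw [pow_add]
    _ ≤ 2 * Y * ((2 * L * x) * (2 * L * z)) := by
        have h0 : 0 ≤ τ ^ R.natDegree := by positivity
        have := mul_le_mul k2 k3 h0 (by positivity)
        exact mul_le_mul_of_nonneg_left this (by linarith)
    _ = _ := by ring

end Pool.Agent.Q29.SE
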