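import Mathlib
import Pool.Agent.Q29.SE.DropGen

/-!
# Choice of the parameters
-/

set_option autoImplicit false

namespace Pool.Agent.Q29.SE

open Finset Pool.Agent.Q103.SD

theorem choice (D n : ℕ) (ε : ℝ) (hε : 0 < ε) : ∃ δ : ℝ, 0 < δ ∧ δ ≤ 1 / 2 ∧ ∃ T₀ : ℝ, 1 ≤ T₀ ∧
    ∀ T : ℝ, T₀ ≤ T → ∀ H : ℝ, 1 ≤ H → H ≤ T ^ δ → ∀ N : ℕ, 1 ≤ N → (N : ℝ) ≤ (D + 2) * T ^ δ →
    4 * ((2 * H + 1) * (N * H) ^ JJ (D + 1) 2) * ((2 * H + 1) * (N * H) ^ JJ (D + 1) 2) ^ n *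
      (N * H) ≤ T ∧
    8 * ((2 * H + 1) * (N * H) ^ JJ (D + 1) 2) *
      (((2 * H + 1) * (N * H) ^ JJ (D + 1) 2) ^ n) ^ 2 ≤ T ^ ε := by
  obtain ⟨J, hJ⟩ : ∃ J, J = JJ (D + 1) 2 := ⟨_, rfl⟩
  obtain ⟨C₀, hC₀⟩ : ∃ C₀ : ℝ, C₀ = 3 * ((D : ℝ) + 2) ^ J := ⟨_, rfl⟩
  obtain ⟨C₁, hC₁⟩ : ∃ C₁ : ℝ, C₁ = 8 * C₀ ^ (2 * n + 1) * (D + 2) := ⟨_, rfl⟩
  obtain ⟨E, hE⟩ : ∃ E : ℕ, E = (2 * J + 1) * (2 * n + 1) + 2 := ⟨_, rfl⟩
  obtain ⟨η, hη⟩ : ∃ η : ℝ, η = min ε 1 := ⟨_, rfl⟩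
  have hη0 : 0 < η := by
    rw [hη]
    exact lt_min hε one_pos
  have hη1 : η ≤ 1 := by
    rw [hη]
    exact min_le_right _ _
  have hηε : η ≤ ε := by
    rw [hη]
    exact min_le_left _ _
  have hD2 : (1 : ℝ) ≤ (D : ℝ) + 2 := by
    have : (0 : ℝ) ≤ D := Nat.cast_nonneg _
    linarith
  have hC₀1 : 1 ≤ C₀ := by
    rw [hC₀]
    have := one_le_pow₀ hD2 (n := J)
    linarith
  have hC₁1 : 1 ≤ C₁ := by
    rw [hC₁]
    have h1 := one_le_pow₀ hC₀1 (n := 2 * n + 1)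
    have h2 := one_le_mul_of_one_le_of_one_le h1 hD2
    linarith
  have hE1 : (1 : ℝ) ≤ E := by
    have : 1 ≤ E := by omega
    exact_mod_cast this
  obtain ⟨δ, hδ⟩ : ∃ δ : ℝ, δ = η / (2 * E) := ⟨_, rfl⟩
  refine ⟨δ, by rw [hδ]; positivity, ?_, C₁ ^ (2 / η), Real.one_le_rpow hC₁1 (by positivity), ?_⟩
  · rw [hδ, div_le_div_iff₀ (by positivity) (by norm_num)]
    nlinarith
  intro T hT H hH1 hH N hN1 hN
  have hT1 : 1 ≤ T := (Real.one_le_rpow hC₁1 (by positivity)).trans hT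
  have hT0 : 0 < T := by linarith
  rw [← hJ]
  obtain ⟨P, hP⟩ : ∃ P : ℝ, P = T ^ δ := ⟨_, rfl⟩
  rw [← hP] at hH hN
  have hP1 : 1 ≤ P := by
    rw [hP]
    exact Real.one_le_rpow hT1 (by rw [hδ]; positivity)
  have hN1' : (1 : ℝ) ≤ N := by exact_mod_cast hN1
  have hNH : (N : ℝ) * H ≤ (D + 2) * P ^ 2 := by
    calc (N : ℝ) * H ≤ ((D + 2) * P) * P := mul_le_mul hN hH (by linarith) (by positivity)
      _ = _ := by ring
  have hNH0 : 0 ≤ (N : ℝ) * H := by positivity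
  obtain ⟨Y, hY⟩ : ∃ Y : ℝ, Y = (2 * H + 1) * (N * H) ^ J := ⟨_, rfl⟩
  rw [← hY]
  have hNH1 : 1 ≤ (N : ℝ) * H := one_le_mul_of_one_le_of_one_le hN1' hH1
  have hY1 : 1 ≤ Y := by
    rw [hY]
    exact one_le_mul_of_one_le_of_one_le (by linarith) (one_le_pow₀ hNH1)
  have hYle : Y ≤ C₀ * P ^ (2 * J + 1) := by
    rw [hY]
    calc (2 * H + 1) * (N * H) ^ J ≤ (3 * P) * ((D + 2) * P ^ 2) ^ J := by
          apply mul_le_mul (by linarith) (pow_le_pow_left₀ hNH0 hNH J) (by positivity)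
            (by positivity)
      _ = C₀ * P ^ (2 * J + 1) := by
          rw [hC₀, mul_pow, ← pow_mul, pow_succ]
          ring
  have hPE : P ^ E = T ^ (η / 2) := by
    rw [hP, ← Real.rpow_natCast, ← Real.rpow_mul hT0.le, hδ]
    congr 1
    field_simp
  have hC₁T : C₁ ≤ T ^ (η / 2) := by
    have h1 := Real.rpow_le_rpow (by positivity) hT (by positivity : 0 ≤ η / 2)
    rw [← Real.rpow_mul (by linarith)] at h1
    have h2 : 2 / η * (η / 2) = 1 := by field_simp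
    rwa [h2, Real.rpow_one] at h1
  have hfin : C₁ * P ^ E ≤ T ^ η := by
    rw [hPE]
    calc C₁ * T ^ (η / 2) ≤ T ^ (η / 2) * T ^ (η / 2) :=
          mul_le_mul_of_nonneg_right hC₁T (by positivity)
      _ = T ^ η := by
          rw [← Real.rpow_add hT0]
          congr 1
          ring
  have hTη : T ^ η ≤ T := by
    calc T ^ η ≤ T ^ (1 : ℝ) := Real.rpow_le_rpow_of_exponent_le hT1 hη1
      _ = T := Real.rpow_one T
  have hTε : T ^ η ≤ T ^ ε := Real.rpow_le_rpow_of_exponent_le hT1 hηε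
  have hCP : 1 ≤ C₀ * P ^ (2 * J + 1) := hY1.trans hYle
  constructor
  · refine le_trans ?_ (hfin.trans hTη)
    calc 4 * Y * Y ^ n * (N * H) = 4 * Y ^ (n + 1) * (N * H) := by rw [pow_succ]; ring
      _ ≤ 4 * (C₀ * P ^ (2 * J + 1)) ^ (n + 1) * ((D + 2) * P ^ 2) := by gcongr
      _ ≤ 4 * (C₀ * P ^ (2 * J + 1)) ^ (2 * n + 1) * ((D + 2) * P ^ 2) := by
          have := pow_le_pow_right₀ hCP (by omega : n + 1 ≤ 2 * n + 1)
          gcongr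
      _ ≤ 8 * (C₀ * P ^ (2 * J + 1)) ^ (2 * n + 1) * ((D + 2) * P ^ 2) := by
          gcongr
          norm_num
      _ = C₁ * P ^ E := by
          rw [hC₁, hE, mul_pow, ← pow_mul, pow_add P _ 2]
          ring
  · refine le_trans ?_ (hfin.trans hTε)
    calc 8 * Y * (Y ^ n) ^ 2 = 8 * Y ^ (2 * n + 1) := by rw [← pow_mul, pow_succ]; ring
      _ ≤ 8 * (C₀ * P ^ (2 * J + 1)) ^ (2 * n + 1) := by gcongr
      _ ≤ 8 * (C₀ * P ^ (2 * J + 1)) ^ (2 * n + 1) * ((D + 2) * P ^ 2) := by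
          have h1 : 1 ≤ P ^ 2 := one_le_pow₀ hP1
          have h2 := one_le_mul_of_one_le_of_one_le hD2 h1
          have h3 : 0 ≤ 8 * (C₀ * P ^ (2 * J + 1)) ^ (2 * n + 1) := by positivity
          exact le_mul_of_one_le_right h3 h2
      _ = C₁ * P ^ E := by
          rw [hC₁, hE, mul_pow, ← pow_mul, pow_add P _ 2]
          ring

end Pool.Agent.Q29.SE
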