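import Mathlib

/-!
# Davenport's inequality for the part prime to the variable
-/

set_option autoImplicit false

namespace Pool.Agent.Q29.SE

open Polynomial

theorem cXd (g : ℤ[X]) (e : ℕ) : (X * derivative g).coeff e = e * g.coeff e := by
  cases e with
  | zero => simp
  | succ e =>
    rw [coeff_X_mul, coeff_derivative]
    push_cast
    ring

theorem dXd (g : ℤ[X]) : (X * derivative g).natDegree ≤ g.natDegree := by
  rw [natDegree_le_iff_coeff_eq_zero]
  intro N hN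
  rw [cXd, coeff_eq_zero_of_natDegree_lt hN, mul_zero]

/-- if `x ^ n - y ^ m = T ^ μ Q` with `μ > 0` and `x`, `y`, `Q` do not vanish at `0` -/
theorem dav0_core {n m μ : ℕ} (hn : 1 ≤ n) (hμ : 1 ≤ μ) {x y Q : ℤ[X]}
    (hQ : x ^ n - y ^ m = X ^ μ * Q) (hx0 : x.coeff 0 ≠ 0) (hy0 : y.coeff 0 ≠ 0)
    (hQ0 : Q.coeff 0 ≠ 0) :
    (n - 1) * x.natDegree ≤ Q.natDegree + y.natDegree := by
  obtain ⟨R, hR⟩ : ∃ R : ℤ[X], R = ((μ : ℤ[X]) * Q + X * derivative Q) * y -
    (m : ℤ[X]) * Q * (X * derivative y) := ⟨_, rfl⟩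
  have key : x ^ (n - 1) * (X * ((n : ℤ[X]) * derivative x * y - (m : ℤ[X]) * x * derivative y)) =
      X ^ μ * R := by
    have h1 : x ^ (n - 1) * (X * ((n : ℤ[X]) * derivative x * y -
        (m : ℤ[X]) * x * derivative y)) =
        (X * derivative (x ^ n - y ^ m)) * y - (m : ℤ[X]) * (x ^ n - y ^ m) *
          (X * derivative y) := by
      rw [derivative_sub, derivative_pow, derivative_pow]
      obtain ⟨n', rfl⟩ : ∃ n', n = n' + 1 := ⟨n - 1, by omega⟩
      rcases m with _ | m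
      · simp only [Nat.add_sub_cancel, pow_succ, Nat.cast_zero, map_natCast, Nat.cast_add,
          Nat.cast_one, map_add, map_one, map_zero]
        ring
      · simp only [Nat.add_sub_cancel, pow_succ, map_natCast, Nat.cast_add,
          Nat.cast_one, map_add, map_one]
        ring
    rw [h1, hQ, hR, derivative_mul, derivative_X_pow]
    obtain ⟨μ', rfl⟩ : ∃ μ', μ = μ' + 1 := ⟨μ - 1, by omega⟩
    simp only [Nat.add_sub_cancel, pow_succ, map_natCast, Nat.cast_add, Nat.cast_one, map_add,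
      map_one]
    ring
  have hR0 : R.coeff 0 ≠ 0 := by
    have h1 : R.coeff 0 = μ * (Q.coeff 0 * y.coeff 0) := by
      rw [hR]
      simp only [coeff_sub, coeff_add, mul_coeff_zero, coeff_X_zero, zero_mul, mul_zero, sub_zero,
        add_zero]
      have h2 : (μ : ℤ[X]).coeff 0 = μ := by simp
      rw [h2]
      ring
    rw [h1]
    exact mul_ne_zero (by exact_mod_cast (by omega : μ ≠ 0)) (mul_ne_zero hQ0 hy0)
  have hRne : R ≠ 0 := by
    rintro rfl
    simp at hR0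
  have hdR : R.natDegree ≤ Q.natDegree + y.natDegree := by
    rw [hR]
    refine (natDegree_sub_le _ _).trans (max_le ?_ ?_)
    · refine natDegree_mul_le.trans (Nat.add_le_add_right ?_ _)
      refine (natDegree_add_le _ _).trans (max_le ?_ (dXd Q))
      refine natDegree_mul_le.trans ?_
      simp
    · refine natDegree_mul_le.trans ?_
      have h1 := dXd y
      have h2 : ((m : ℤ[X]) * Q).natDegree ≤ Q.natDegree := by
        refine natDegree_mul_le.trans ?_
        simp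
      omega
  -- `x ^ (n - 1)` divides `R`
  have hdvd : x ^ (n - 1) ∣ R := by
    have hprime : Prime (X : ℤ[X]) := prime_X
    have hnd : ¬ (X : ℤ[X]) ∣ x ^ (n - 1) := by
      intro h
      have h1 := hprime.dvd_of_dvd_pow h
      rw [X_dvd_iff] at h1
      exact hx0 h1
    have h1 : X ^ μ ∣ x ^ (n - 1) * (X * ((n : ℤ[X]) * derivative x * y -
        (m : ℤ[X]) * x * derivative y)) := ⟨R, key⟩
    have h2 := hprime.pow_dvd_of_dvd_mul_left μ hnd h1
    obtain ⟨S, hS⟩ := h2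
    rw [hS] at key
    refine ⟨S, ?_⟩
    have h3 : (X : ℤ[X]) ^ μ ≠ 0 := pow_ne_zero _ X_ne_zero
    apply mul_left_cancel₀ h3
    rw [← key]
    ring
  have h1 := natDegree_le_of_dvd hdvd hRne
  rw [natDegree_pow] at h1
  omega

/-- Davenport's inequality for the part of `x ^ n - y ^ m` prime to the variable -/
theorem dav0 {n m μ : ℕ} (hn2 : 2 ≤ n) (hm2 : 2 ≤ m) {x y Q : ℤ[X]}
    (hQ : x ^ n - y ^ m = X ^ μ * Q) (hxy0 : x.coeff 0 ≠ 0 ∨ y.coeff 0 ≠ 0)
    (hQ0 : Q.coeff 0 ≠ 0)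
    (hdav : μ = 0 → (m * n - m - n) * x.natDegree ≤ m * Q.natDegree ∧
      (m * n - m - n) * y.natDegree ≤ n * Q.natDegree) :
    (m * n - m - n) * x.natDegree ≤ m * Q.natDegree ∧
    (m * n - m - n) * y.natDegree ≤ n * Q.natDegree := by
  rcases Nat.eq_zero_or_pos μ with h | hμ
  · exact hdav h
  have h0 : x.coeff 0 ^ n = y.coeff 0 ^ m := by
    have h1 := congrArg (fun p : ℤ[X] => p.coeff 0) hQ
    simp only [coeff_sub, coeff_zero_eq_eval_zero, eval_pow, eval_mul, eval_X] at h1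
    rw [zero_pow (by omega), zero_mul] at h1
    simp only [coeff_zero_eq_eval_zero]
    have h2 : eval 0 (x ^ n - y ^ m) = eval 0 x ^ n - eval 0 y ^ m := by simp
    linarith [h1, h2]
  have hx0 : x.coeff 0 ≠ 0 := by
    intro h
    rw [h, zero_pow (by omega)] at h0
    rcases hxy0 with h1 | h1
    · exact h1 h
    · exact pow_ne_zero m h1 h0.symm
  have hy0 : y.coeff 0 ≠ 0 := by
    intro h
    rw [h, zero_pow (by omega)] at h0
    exact pow_ne_zero n hx0 h0
  have h1 := dav0_core (by omega) hμ hQ hx0 hy0 hQ0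
  have hQ' : y ^ m - x ^ n = X ^ μ * (-Q) := by
    rw [mul_neg, ← hQ]
    ring
  have h2 := dav0_core (by omega) hμ hQ' hy0 hx0 (by rw [coeff_neg]; exact neg_ne_zero.mpr hQ0)
  rw [natDegree_neg] at h2
  obtain ⟨a, ha⟩ : ∃ a, a = x.natDegree := ⟨_, rfl⟩
  obtain ⟨b, hb⟩ : ∃ b, b = y.natDegree := ⟨_, rfl⟩
  obtain ⟨δ, hδ⟩ : ∃ δ, δ = Q.natDegree := ⟨_, rfl⟩
  rw [← ha, ← hb, ← hδ] at h1 h2 ⊢
  obtain ⟨n', rfl⟩ : ∃ n', n = n' + 2 := ⟨n - 2, by omega⟩
  obtain ⟨m', rfl⟩ : ∃ m', m = m' + 2 := ⟨m - 2, by omega⟩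
  have e1 : n' + 2 - 1 = n' + 1 := by omega
  have e2 : m' + 2 - 1 = m' + 1 := by omega
  rw [e1] at h1
  rw [e2] at h2
  have hM : (m' + 2) * (n' + 2) - (m' + 2) - (n' + 2) = m' * n' + m' + n' := by
    have : (m' + 2) * (n' + 2) = m' * n' + m' + n' + (m' + 2) + (n' + 2) := by ring
    omega
  rw [hM]
  -- `(n'+1) a ≤ δ + b`, `(m'+1) b ≤ δ + a`
  constructor
  · -- (m'+1) * h1 + h2
    have h3 : (m' + 1) * ((n' + 1) * a) ≤ (m' + 1) * (δ + b) := Nat.mul_le_mul_left _ h1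
    nlinarith
  · have h3 : (n' + 1) * ((m' + 1) * b) ≤ (n' + 1) * (δ + a) := Nat.mul_le_mul_left _ h2
    nlinarith

end Pool.Agent.Q29.SE
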