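import Mathlib

/-!
# Davenport's inequality with the additive constant
-/

set_option autoImplicit false

namespace Pool.Agent.Q29.SE

open Polynomial

theorem dav_core {n m : ℕ} (hn : 1 ≤ n) {x y : ℤ[X]} (hh : x ^ n - y ^ m ≠ 0) (hy : y ≠ 0)
    (hne : (x ^ n - y ^ m).natDegree ≠ m * y.natDegree) :
    (n - 1) * x.natDegree + 1 ≤ (x ^ n - y ^ m).natDegree + y.natDegree := by
  obtain ⟨h, hdef⟩ : ∃ h, h = x ^ n - y ^ m := ⟨_, rfl⟩
  rw [← hdef] at hh hne ⊢
  have key : x ^ (n - 1) * (((n : ℤ[X]) * derivative x * y - (m : ℤ[X]) * x * derivative y)) =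
      (derivative h) * y - (m : ℤ[X]) * h * (derivative y) := by
    rw [hdef, derivative_sub, derivative_pow, derivative_pow]
    obtain ⟨n', rfl⟩ : ∃ n', n = n' + 1 := ⟨n - 1, by omega⟩
    rcases m with _ | m
    · simp only [Nat.add_sub_cancel, pow_succ, Nat.cast_zero, map_natCast, Nat.cast_add,
        Nat.cast_one, map_add, map_one, map_zero]
      ring
    · simp only [Nat.add_sub_cancel, pow_succ, map_natCast, Nat.cast_add,
        Nat.cast_one, map_add, map_one]
      ring
  -- multiply by X to read off the degree
  have keyX : x ^ (n - 1) * (X * ((n : ℤ[X]) * derivative x * y - (m : ℤ[X]) * x * derivative y)) =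
      (X * derivative h) * y - (m : ℤ[X]) * h * (X * derivative y) := by
    linear_combination X * key
  have cX : ∀ (g : ℤ[X]) (e : ℕ), (X * derivative g).coeff e = e * g.coeff e := by
    intro g e
    cases e with
    | zero => simp
    | succ e =>
      rw [coeff_X_mul, coeff_derivative]
      push_cast
      ring
  have dX : ∀ g : ℤ[X], (X * derivative g).natDegree ≤ g.natDegree := by
    intro g
    rw [natDegree_le_iff_coeff_eq_zero]
    intro N hN
    rw [cX, coeff_eq_zero_of_natDegree_lt hN, mul_zero]
  have hcoef : ((X * derivative h) * y - (m : ℤ[X]) * h * (X * derivative y)).coeff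
      (h.natDegree + y.natDegree) ≠ 0 := by
    rw [coeff_sub, coeff_mul_add_eq_of_natDegree_le (dX h) le_rfl, mul_assoc,
      coeff_natCast_mul, coeff_mul_add_eq_of_natDegree_le le_rfl (dX y), cX, cX]
    have h1 : h.coeff h.natDegree ≠ 0 := by simpa using hh
    have h2 : y.coeff y.natDegree ≠ 0 := by simpa using hy
    have h3 : ((h.natDegree : ℤ) - m * y.natDegree) ≠ 0 := by
      intro h4
      apply hne
      have : (h.natDegree : ℤ) = ((m * y.natDegree : ℕ) : ℤ) := by push_cast; linarith
      exact_mod_cast this
    intro h4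
    have h5 : ((h.natDegree : ℤ) - m * y.natDegree) * (h.coeff h.natDegree *
        y.coeff y.natDegree) = 0 := by linarith
    rcases mul_eq_zero.mp h5 with h6 | h6
    · exact h3 h6
    · exact mul_ne_zero h1 h2 h6
  obtain ⟨Q, hQ⟩ : ∃ Q : ℤ[X], Q = (n : ℤ[X]) * derivative x * y - (m : ℤ[X]) * x * derivative y :=
    ⟨_, rfl⟩
  rw [← hQ] at keyX
  have hne0 : x ^ (n - 1) * (X * Q) ≠ 0 := by
    intro h4
    rw [← keyX, h4] at hcoef
    simp at hcoef
  have hQ0 : Q ≠ 0 := by
    rintro rfl
    simp at hne0
  have hx0 : x ^ (n - 1) ≠ 0 := by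
    intro h4
    rw [h4] at hne0
    simp at hne0
  have hdegle : (x ^ (n - 1) * (X * Q)).natDegree ≤ h.natDegree + y.natDegree := by
    rw [keyX]
    refine (natDegree_sub_le _ _).trans (max_le ?_ ?_)
    · refine natDegree_mul_le.trans ?_
      have := dX h
      omega
    · refine natDegree_mul_le.trans ?_
      have h1 := dX y
      have h2 : ((m : ℤ[X]) * h).natDegree ≤ h.natDegree := by
        refine natDegree_mul_le.trans ?_
        simp
      omega
  rw [natDegree_mul hx0 (mul_ne_zero X_ne_zero hQ0), natDegree_mul X_ne_zero hQ0, natDegree_X,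
    natDegree_pow] at hdegle
  omega

/-- Davenport's inequality for `x ^ n - y ^ m`, with the additive constant, common factors
allowed. -/
theorem dav1 {n m : ℕ} (hn2 : 2 ≤ n) (hm2 : 2 ≤ m) {x y : ℤ[X]} (hh : x ^ n - y ^ m ≠ 0)
    (hnc : 1 ≤ x.natDegree ∨ 1 ≤ y.natDegree) :
    (m * n - m - n) * x.natDegree + m ≤ m * (x ^ n - y ^ m).natDegree ∧
    (m * n - m - n) * y.natDegree + n ≤ n * (x ^ n - y ^ m).natDegree := by
  have hn : 1 ≤ n := by omega
  have hm : 1 ≤ m := by omega
  obtain ⟨a, ha⟩ : ∃ a, a = x.natDegree := ⟨_, rfl⟩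
  obtain ⟨b, hb⟩ : ∃ b, b = y.natDegree := ⟨_, rfl⟩
  obtain ⟨δ, hδ⟩ : ∃ δ, δ = (x ^ n - y ^ m).natDegree := ⟨_, rfl⟩
  have hxn : (x ^ n).natDegree = n * a := by rw [natDegree_pow, ha]
  have hym : (y ^ m).natDegree = m * b := by rw [natDegree_pow, hb]
  have hM : m * n - m - n + (m + n) = m * n ∨ m * n - m - n = 0 := by omega
  obtain ⟨M, hMd⟩ : ∃ M, M = m * n - m - n := ⟨_, rfl⟩
  rw [← hMd] at hM
  rw [← ha, ← hb, ← hδ, ← hMd]
  rw [← ha, ← hb] at hnc
  -- if the degree is at least the degrees of both powers
  have big : n * a ≤ δ → m * b ≤ δ → 1 ≤ δ → M * a + m ≤ m * δ ∧ M * b + n ≤ n * δ := by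
    intro h1 h2 h3
    have e1 : M * a + m ≤ m * δ := by
      rcases hM with h4 | h4
      · rcases Nat.eq_zero_or_pos a with h5 | h5
        · rw [h5, mul_zero, zero_add]
          exact Nat.le_mul_of_pos_right _ h3
        · have h6 : m * (n * a) ≤ m * δ := Nat.mul_le_mul_left _ h1
          have h7 : M * a + (m + n) * a = m * (n * a) := by
            rw [← add_mul, h4]
            ring
          nlinarith
      · rw [h4, zero_mul, zero_add]
        exact Nat.le_mul_of_pos_right _ h3
    have e2 : M * b + n ≤ n * δ := by
      rcases hM with h4 | h4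
      · rcases Nat.eq_zero_or_pos b with h5 | h5
        · rw [h5, mul_zero, zero_add]
          exact Nat.le_mul_of_pos_right _ h3
        · have h6 : n * (m * b) ≤ n * δ := Nat.mul_le_mul_left _ h2
          have h7 : M * b + (m + n) * b = n * (m * b) := by
            rw [← add_mul, h4]
            ring
          nlinarith
      · rw [h4, zero_mul, zero_add]
        exact Nat.le_mul_of_pos_right _ h3
    exact ⟨e1, e2⟩
  rcases lt_trichotomy (n * a) (m * b) with hlt | heq | hgt
  · have h1 : δ = m * b := by
      rw [hδ, natDegree_sub_eq_right_of_natDegree_lt (by rw [hxn, hym]; exact hlt), hym]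
    exact big (by omega) (by omega) (by omega)
  · by_cases hδL : δ = m * b
    · refine big (by omega) (by omega) ?_
      rcases hnc with h | h
      · have : 1 ≤ n * a := Nat.mul_pos hn h
        omega
      · have : 1 ≤ m * b := Nat.mul_pos hm h
        omega
    · have ha1 : 1 ≤ a := by
        rcases hnc with h | h
        · exact h
        · have h2 : 1 ≤ m * b := Nat.mul_pos hm h
          by_contra h3
          have : a = 0 := by omega
          rw [this] at heq
          omega
      have hb1 : 1 ≤ b := by
        rcases hnc with h | h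
        · have h2 : 1 ≤ n * a := Nat.mul_pos hn h
          by_contra h3
          have : b = 0 := by omega
          rw [this] at heq
          omega
        · exact h
      have hy0 : y ≠ 0 := by
        rintro rfl
        rw [natDegree_zero] at hb
        omega
      have hx0 : x ≠ 0 := by
        rintro rfl
        rw [natDegree_zero] at ha
        omega
      have h1 := dav_core hn hh hy0 (by rw [← hδ, ← hb]; exact hδL)
      have hsw : y ^ m - x ^ n = -(x ^ n - y ^ m) := by ring
      have hδ' : (y ^ m - x ^ n).natDegree = δ := by rw [hsw, natDegree_neg, hδ]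
      have h2 := dav_core hm (x := y) (y := x) (m := n) (by rw [hsw]; exact neg_ne_zero.mpr hh) hx0
        (by rw [hδ', ← ha]; omega)
      rw [← ha, ← hb, ← hδ] at h1
      rw [hδ', ← ha, ← hb] at h2
      constructor
      · rcases hM with h4 | h4
        · -- m (n-1) a + m ≤ m δ + m b = m δ + n a
          have h5 : m * ((n - 1) * a + 1) ≤ m * (δ + b) := Nat.mul_le_mul_left _ h1
          have h6 : m * ((n - 1) * a + 1) + m * a = m * (n * a) + m := by
            obtain ⟨n', rfl⟩ : ∃ n', n = n' + 1 := ⟨n - 1, by omega⟩
            rw [Nat.add_sub_cancel]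
            ring
          have h7 : M * a + (m + n) * a = m * (n * a) := by
            rw [← add_mul, h4]
            ring
          nlinarith
        · rw [h4, zero_mul, zero_add]
          have : 1 ≤ δ := by
            by_contra h5
            have h6 : δ = 0 := by omega
            rw [h6] at h1 h2
            -- degrees: (n-1) a + 1 ≤ b, (m-1) b + 1 ≤ a
            have h7 : 1 * a ≤ (n - 1) * a := Nat.mul_le_mul_right _ (by omega)
            have h8 : 1 * b ≤ (m - 1) * b := Nat.mul_le_mul_right _ (by omega)
            omega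
          exact Nat.le_mul_of_pos_right _ this
      · rcases hM with h4 | h4
        · have h5 : n * ((m - 1) * b + 1) ≤ n * (δ + a) := Nat.mul_le_mul_left _ h2
          have h6 : n * ((m - 1) * b + 1) + n * b = n * (m * b) + n := by
            obtain ⟨m', rfl⟩ : ∃ m', m = m' + 1 := ⟨m - 1, by omega⟩
            rw [Nat.add_sub_cancel]
            ring
          have h7 : M * b + (m + n) * b = n * (m * b) := by
            rw [← add_mul, h4]
            ring
          nlinarith
        · rw [h4, zero_mul, zero_add]
          have : 1 ≤ δ := by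
            by_contra h5
            have h6 : δ = 0 := by omega
            rw [h6] at h1 h2
            have h7 : 1 * a ≤ (n - 1) * a := Nat.mul_le_mul_right _ (by omega)
            have h8 : 1 * b ≤ (m - 1) * b := Nat.mul_le_mul_right _ (by omega)
            omega
          exact Nat.le_mul_of_pos_right _ this
  · have h1 : δ = n * a := by
      rw [hδ, natDegree_sub_eq_left_of_natDegree_lt (by rw [hxn, hym]; exact hgt), hxn]
    exact big (by omega) (by omega) (by omega)

end Pool.Agent.Q29.SE
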