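import Mathlib
import Pool.Agent.Q29.SE.Top
import Pool.Agent.Q29.SE.NF

/-!
# Polynomials in sums of power products: the size of the value is given by the degree
-/

set_option autoImplicit false

namespace Pool.Agent.Q29.SE

open Finset Polynomial Pool.Agent.Q103.SD

/-- the constant in the comparison of the value with the power of `t` -/
noncomputable def YY (r d D N : ℕ) (W B H : ℝ) : ℝ :=
  ((((d + 1) ^ r : ℕ) : ℝ) * (W * (r * B) ^ d) + 1) *
    (((d * N : ℕ) : ℝ) * H) ^ JJ (D + 1) ((d + 1) ^ r)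

theorem one_le_YY {r d D N : ℕ} {W B H : ℝ} (hd : 1 ≤ d) (hN : 1 ≤ N) (hW : 0 ≤ W)
    (hB : 1 ≤ r * B) (hH : 1 ≤ H) : 1 ≤ YY r d D N W B H := by
  unfold YY
  have h1 : (1 : ℝ) ≤ ((d * N : ℕ) : ℝ) := by
    exact_mod_cast Nat.mul_pos hd hN
  have h2 : 1 ≤ ((d * N : ℕ) : ℝ) * H := one_le_mul_of_one_le_of_one_le h1 hH
  have h3 : 0 ≤ (((d + 1) ^ r : ℕ) : ℝ) * (W * (r * B) ^ d) := by positivity
  exact one_le_mul_of_one_le_of_one_le (by linarith) (one_le_pow₀ h2)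

theorem top_poly {κ : Type*} [Fintype κ] {σ : Type*} {r : ℕ} {F : κ → ℤ[X]} {D : ℕ}
    (hD : ∑ i, (F i).natDegree ≤ D) {H : ℝ} (hH : 1 ≤ H) (hlc : ∀ i, |(F i).leadingCoeff| = 1)
    (hFH : ∀ i j, |((F i).coeff j : ℝ)| ≤ H) (m : Fin r → ℕ) (e : Fin r → κ → ℕ) {N : ℕ}
    (hN : 1 ≤ N) (heN : ∀ l, ∑ i, e l i ≤ N) (v : Fin r → σ → ℤ) {B : ℝ} (hB : 1 ≤ r * B)
    (hv : ∀ l i, |(v l i : ℝ)| ≤ B) (G : MvPolynomial σ ℤ) {d : ℕ} (hd1 : 1 ≤ d)
    (hd : G.totalDegree ≤ d) {W : ℝ} (hW : 0 ≤ W) (hG : nrm (fun x : ℤ => |(x : ℝ)|) G ≤ W)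
    (t : ℕ) (ht : 4 * YY r d D N W B H * (((d * N : ℕ) : ℝ) * H) ≤ t) :
    |((MvPolynomial.aeval (fun i => (pt F m e v i).eval (t : ℤ)) G : ℤ) : ℝ)| ≤
      2 * YY r d D N W B H * (t : ℝ) ^ (MvPolynomial.aeval (pt F m e v) G).natDegree ∧
    (MvPolynomial.aeval (pt F m e v) G ≠ 0 →
      (t : ℝ) ^ (MvPolynomial.aeval (pt F m e v) G).natDegree ≤
      2 * |((MvPolynomial.aeval (fun i => (pt F m e v i).eval (t : ℤ)) G : ℤ) : ℝ)|) := by
  classical
  have hcard := support_card (GG v G) d (GG_deg v G d hd)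
  obtain ⟨c, hc⟩ : ∃ c, c = (GG v G).support.card := ⟨_, rfl⟩
  rw [← hc] at hcard
  obtain ⟨ε⟩ : Nonempty (Fin c ≃ (GG v G).support) := ⟨(hc ▸ (GG v G).support.equivFin).symm⟩
  obtain ⟨P, hP⟩ : ∃ P, P = MvPolynomial.aeval (pt F m e v) G := ⟨_, rfl⟩
  have hsm : P = sm F (fun l => wm m (ε l).1) (fun l => we e (ε l).1)
      (fun l => MvPolynomial.coeff (ε l).1 (GG v G)) := by
    rw [hP, aeval_pt]
    unfold sm
    simp only [C_mul_MP]
    rw [← Finset.sum_coe_sort (GG v G).support (fun β =>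
      MP F (MvPolynomial.coeff β (GG v G)) (wm m β) (we e β))]
    exact (Equiv.sum_comp ε (fun β => MP F (MvPolynomial.coeff β.1 (GG v G)) (wm m β.1)
      (we e β.1))).symm
  rw [aeval_eval_pt, ← hP]
  have hB' : ∀ l, |((MvPolynomial.coeff (ε l).1 (GG v G) : ℤ) : ℝ)| ≤ W * (r * B) ^ d := by
    intro l
    refine le_trans ?_ ((GG_nrm sizeZ v B hB hv G d hd).trans
      (mul_le_mul_of_nonneg_right hG (by positivity)))
    exact Finset.single_le_sum (f := fun β => |((MvPolynomial.coeff β (GG v G) : ℤ) : ℝ)|)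
      (fun _ _ => abs_nonneg _) (ε l).2
  have hN' : 1 ≤ d * N := Nat.mul_pos hd1 hN
  have he' : ∀ l, ∑ i, we e (ε l).1 i ≤ d * N := by
    intro l
    unfold we
    rw [Finset.sum_comm]
    have h1 : ∀ j, ∑ i, (ε l).1 j * e j i ≤ (ε l).1 j * N := fun j => by
      rw [← Finset.mul_sum]
      exact Nat.mul_le_mul_left _ (heN j)
    refine (Finset.sum_le_sum fun j _ => h1 j).trans ?_
    rw [← Finset.sum_mul]
    apply Nat.mul_le_mul_right
    have := sum_le_deg (GG_deg v G d hd) (ε l).2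
    rwa [Finsupp.sum_fintype _ _ (by simp)] at this
  have hN1 : (1 : ℝ) ≤ ((d * N : ℕ) : ℝ) := by exact_mod_cast hN'
  have hNH : 1 ≤ ((d * N : ℕ) : ℝ) * H := one_le_mul_of_one_le_of_one_le hN1 hH
  have hWB : 0 ≤ W * (r * B) ^ d := by positivity
  have hY : ((c : ℝ) * (W * (r * B) ^ d) + 1) * (((d * N : ℕ) : ℝ) * H) ^ JJ (D + 1) c ≤
      YY r d D N W B H := by
    unfold YY
    have h1 : (c : ℝ) ≤ (((d + 1) ^ r : ℕ) : ℝ) := by exact_mod_cast hcard
    have h2 := JJ_mono (D := D + 1) hcard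
    have h3 := mul_le_mul_of_nonneg_right h1 hWB
    have h4 := pow_le_pow_right₀ hNH h2
    exact mul_le_mul (by linarith) h4 (by positivity) (by positivity)
  have hY0 : 0 ≤ ((c : ℝ) * (W * (r * B) ^ d) + 1) *
      (((d * N : ℕ) : ℝ) * H) ^ JJ (D + 1) c := by positivity
  have key := top_size hD hH hlc hFH (fun l => wm m (ε l).1) (fun l => we e (ε l).1) hN' he'
    (fun l => MvPolynomial.coeff (ε l).1 (GG v G)) hB' hWB t (by
      refine le_trans ?_ ht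
      exact mul_le_mul_of_nonneg_right (by linarith) (by linarith))
  rw [← hsm] at key
  refine ⟨key.1.trans ?_, key.2⟩
  exact mul_le_mul_of_nonneg_right (by linarith) (by positivity)

end Pool.Agent.Q29.SE
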