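import Mathlib
import Pool.Agent.Q29.SE.TopG
import Pool.Agent.Q29.SE.Dav1

/-!
# Differences of powers of sums of power products
-/

set_option autoImplicit false

namespace Pool.Agent.Q29.SE

open Finset Polynomial Pool.Agent.Q103.SD

/-- the form `X ^ n - Y ^ m` -/
noncomputable def GD (n m : ℕ) : MvPolynomial (Fin 2) ℤ :=
  MvPolynomial.X 0 ^ n - MvPolynomial.X 1 ^ m

theorem GD_deg (n m : ℕ) : (GD n m).totalDegree ≤ max n m := by
  unfold GD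
  refine (MvPolynomial.totalDegree_sub _ _).trans ?_
  rw [MvPolynomial.totalDegree_X_pow, MvPolynomial.totalDegree_X_pow]

theorem GD_nrm (n m : ℕ) : nrm (fun x : ℤ => |(x : ℝ)|) (GD n m) ≤ 2 := by
  unfold GD
  rw [sub_eq_add_neg]
  refine (nrm_add sizeZ _ _).trans ?_
  have h1 := nrm_pow sizeZ (MvPolynomial.X (0 : Fin 2)) 1 (nrm_X sizeZ _) n
  have h2 := nrm_pow sizeZ (MvPolynomial.X (1 : Fin 2)) 1 (nrm_X sizeZ _) m
  have h3 : nrm (fun x : ℤ => |(x : ℝ)|) (-(MvPolynomial.X (1 : Fin 2)) ^ m) ≤ 1 := by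
    have h4 : (-(MvPolynomial.X (1 : Fin 2)) ^ m : MvPolynomial (Fin 2) ℤ) =
        MvPolynomial.C (-1) * MvPolynomial.X 1 ^ m := by
      rw [map_neg, map_one]
      ring
    rw [h4]
    refine (nrm_mul sizeZ _ _).trans ?_
    have h5 := nrm_C (τ := Fin 2) sizeZ (-1)
    have h6 : nrm (fun x : ℤ => |(x : ℝ)|) (MvPolynomial.C (-1) : MvPolynomial (Fin 2) ℤ) ≤ 1 := by
      refine h5.trans ?_
      simp
    calc _ ≤ 1 * 1 ^ m := mul_le_mul h6 h2 (nrm_nonneg sizeZ _) zero_le_one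
      _ = 1 := by simp
  rw [one_pow] at h1
  linarith

/-- **Hall's inequality for sums of power products** -/
theorem hall_ps {n m : ℕ} (hn : 2 ≤ n) (hm : 2 ≤ m) {κ : Type*} [Fintype κ] {r : ℕ} (hr : 1 ≤ r)
    {F : κ → ℤ[X]} {D : ℕ} (hD : ∑ i, (F i).natDegree ≤ D) {H : ℝ} (hH : 1 ≤ H)
    (hlc : ∀ i, |(F i).leadingCoeff| = 1) (hFH : ∀ i j, |((F i).coeff j : ℝ)| ≤ H)
    (mm : Fin r → ℕ) (e : Fin r → κ → ℕ) {N : ℕ} (hN : 1 ≤ N) (heN : ∀ l, ∑ i, e l i ≤ N)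
    (v : Fin r → Fin 2 → ℤ) (hv : ∀ l i, |(v l i : ℝ)| ≤ H) (t : ℕ) {Y : ℝ}
    (hY : YY r (max n m) D N 2 H H ≤ Y)
    (ht : 4 * Y * (((max n m * N : ℕ) : ℝ) * H) ≤ t) (x y : ℤ)
    (hx : x = (pt F mm e v 0).eval (t : ℤ)) (hy : y = (pt F mm e v 1).eval (t : ℤ))
    (hk : x ^ n ≠ y ^ m) :
    (|(x : ℝ)| ≤ 2 * Y ∧ |(y : ℝ)| ≤ 2 * Y) ∨
    (|(x : ℝ)| ^ (m * n - m - n) * (t : ℝ) ^ m ≤
        (2 * Y) ^ (m * n - m - n) * (2 * |((x ^ n - y ^ m : ℤ) : ℝ)|) ^ m ∧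
      |(y : ℝ)| ^ (m * n - m - n) * (t : ℝ) ^ n ≤
        (2 * Y) ^ (m * n - m - n) * (2 * |((x ^ n - y ^ m : ℤ) : ℝ)|) ^ n) := by
  classical
  have hr1 : (1 : ℝ) ≤ r := by exact_mod_cast hr
  have hB : 1 ≤ (r : ℝ) * H := one_le_mul_of_one_le_of_one_le hr1 hH
  obtain ⟨d, hd⟩ : ∃ d, d = max n m := ⟨_, rfl⟩
  have hd1 : 1 ≤ d := by
    rw [hd]
    exact le_trans (by omega) (le_max_left n m)
  rw [← hd] at ht hY
  have hYY := one_le_YY (D := D) hd1 hN (zero_le_two : (0 : ℝ) ≤ 2) hB hH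
  have hY1 : 1 ≤ Y := hYY.trans hY
  have hN1 : (1 : ℝ) ≤ ((d * N : ℕ) : ℝ) := by exact_mod_cast Nat.mul_pos hd1 hN
  have hNH : 1 ≤ ((d * N : ℕ) : ℝ) * H := one_le_mul_of_one_le_of_one_le hN1 hH
  have ht' : 4 * YY r d D N 2 H H * (((d * N : ℕ) : ℝ) * H) ≤ t := by
    refine le_trans ?_ ht
    exact mul_le_mul_of_nonneg_right (by linarith) (by linarith)
  have ht1 : (1 : ℝ) ≤ t := by
    refine le_trans ?_ ht
    exact one_le_mul_of_one_le_of_one_le (by linarith) hNH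
  have hpow : ∀ j : ℕ, 1 ≤ (t : ℝ) ^ j := fun j => one_le_pow₀ ht1
  -- the three polynomials
  have gen : ∀ G : MvPolynomial (Fin 2) ℤ, G.totalDegree ≤ d →
      nrm (fun x : ℤ => |(x : ℝ)|) G ≤ 2 →
      |((MvPolynomial.aeval (fun i => (pt F mm e v i).eval (t : ℤ)) G : ℤ) : ℝ)| ≤
        2 * Y * (t : ℝ) ^ (MvPolynomial.aeval (pt F mm e v) G).natDegree ∧
      (MvPolynomial.aeval (pt F mm e v) G ≠ 0 →
        (t : ℝ) ^ (MvPolynomial.aeval (pt F mm e v) G).natDegree ≤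
        2 * |((MvPolynomial.aeval (fun i => (pt F mm e v i).eval (t : ℤ)) G : ℤ) : ℝ)|) := by
    intro G hG1 hG2
    have := top_poly hD hH hlc hFH mm e hN heN v hB hv G hd1 hG1 zero_le_two hG2 t ht'
    refine ⟨this.1.trans ?_, this.2⟩
    exact mul_le_mul_of_nonneg_right (by linarith) (by positivity)
  obtain ⟨px, hpx⟩ : ∃ px, px = pt F mm e v 0 := ⟨_, rfl⟩
  obtain ⟨py, hpy⟩ : ∃ py, py = pt F mm e v 1 := ⟨_, rfl⟩
  have gx := (gen (MvPolynomial.X 0) (by rw [MvPolynomial.totalDegree_X]; exact hd1)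
    ((nrm_X sizeZ _).trans one_le_two)).1
  have gy := (gen (MvPolynomial.X 1) (by rw [MvPolynomial.totalDegree_X]; exact hd1)
    ((nrm_X sizeZ _).trans one_le_two)).1
  rw [MvPolynomial.aeval_X, MvPolynomial.aeval_X] at gx gy
  rw [← hx, ← hpx] at gx
  rw [← hy, ← hpy] at gy
  have gk := gen (GD n m) (by rw [hd]; exact GD_deg n m) (GD_nrm n m)
  have hGk : MvPolynomial.aeval (pt F mm e v) (GD n m) = px ^ n - py ^ m := by
    unfold GD
    rw [map_sub, map_pow, map_pow, MvPolynomial.aeval_X, MvPolynomial.aeval_X, hpx, hpy]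
  have hGt : MvPolynomial.aeval (fun i => (pt F mm e v i).eval (t : ℤ)) (GD n m) =
      x ^ n - y ^ m := by
    unfold GD
    rw [map_sub, map_pow, map_pow, MvPolynomial.aeval_X, MvPolynomial.aeval_X, hx, hy]
  rw [hGk, hGt] at gk
  have hne : px ^ n - py ^ m ≠ 0 := by
    intro h
    apply hk
    have h1 := congrArg (fun p => p.eval (t : ℤ)) h
    simp only [eval_sub, eval_pow, eval_zero] at h1
    rw [hpx, hpy, ← hx, ← hy] at h1
    linarith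
  have gk2 := gk.2 hne
  by_cases hnc : 1 ≤ px.natDegree ∨ 1 ≤ py.natDegree
  · right
    obtain ⟨h1, h2⟩ := dav1 hn hm hne hnc
    obtain ⟨M, hM⟩ : ∃ M, M = m * n - m - n := ⟨_, rfl⟩
    rw [← hM] at h1 h2 ⊢
    obtain ⟨k, hkd⟩ : ∃ k : ℝ, k = |((x ^ n - y ^ m : ℤ) : ℝ)| := ⟨_, rfl⟩
    rw [← hkd] at gk2 ⊢
    have h2Y : 0 ≤ 2 * Y := by linarith
    constructor
    · calc |(x : ℝ)| ^ M * (t : ℝ) ^ m ≤ (2 * Y * (t : ℝ) ^ px.natDegree) ^ M * (t : ℝ) ^ m := by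
            gcongr
        _ = (2 * Y) ^ M * (t : ℝ) ^ (M * px.natDegree + m) := by
            rw [mul_pow, ← pow_mul, mul_assoc, ← pow_add, mul_comm px.natDegree M]
        _ ≤ (2 * Y) ^ M * (t : ℝ) ^ (m * (px ^ n - py ^ m).natDegree) := by
            gcongr
        _ = (2 * Y) ^ M * ((t : ℝ) ^ (px ^ n - py ^ m).natDegree) ^ m := by
            rw [← pow_mul, mul_comm m]
        _ ≤ (2 * Y) ^ M * (2 * k) ^ m := by gcongr
    · calc |(y : ℝ)| ^ M * (t : ℝ) ^ n ≤ (2 * Y * (t : ℝ) ^ py.natDegree) ^ M * (t : ℝ) ^ n := by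
            gcongr
        _ = (2 * Y) ^ M * (t : ℝ) ^ (M * py.natDegree + n) := by
            rw [mul_pow, ← pow_mul, mul_assoc, ← pow_add, mul_comm py.natDegree M]
        _ ≤ (2 * Y) ^ M * (t : ℝ) ^ (n * (px ^ n - py ^ m).natDegree) := by
            gcongr
        _ = (2 * Y) ^ M * ((t : ℝ) ^ (px ^ n - py ^ m).natDegree) ^ n := by
            rw [← pow_mul, mul_comm n]
        _ ≤ (2 * Y) ^ M * (2 * k) ^ n := by gcongr
  · left
    push Not at hnc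
    have e1 : px.natDegree = 0 := by omega
    have e2 : py.natDegree = 0 := by omega
    rw [e1, pow_zero, mul_one] at gx
    rw [e2, pow_zero, mul_one] at gy
    exact ⟨gx, gy⟩

/-- the bound for the constant -/
theorem YY_le {r d D N : ℕ} (hr : 1 ≤ r) (hd : 2 ≤ d) (hN : 1 ≤ N) {H : ℝ} (hH : 1 ≤ H) :
    YY r d D N 2 H H ≤ (2 * ((r : ℝ) + 1) * (d + 1) * H * N) ^ (expo r d D + 1) ∧
    8 * (2 * ((r : ℝ) + 1) * (d + 1) * H * N) ^ (expo r d D + 1) * (((d * N : ℕ) : ℝ) * H) ≤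
      (2 * ((r : ℝ) + 1) * (d + 1) * H * N) ^ (expo r d D + 3) := by
  have h1 := size_ok (r := r) (d := d) (D := D) (N := N) hr (by omega) hN
    (one_le_two : (1 : ℝ) ≤ 2) hH
  obtain ⟨Z, hZ⟩ : ∃ Z : ℝ, Z = 2 * ((r : ℝ) + 1) * (d + 1) * H * N := ⟨_, rfl⟩
  have hZ' : ((r : ℝ) + 1) * (d + 1) * 2 * H * N = Z := by rw [hZ]; ring
  rw [hZ'] at h1
  rw [← hZ]
  have hr1 : (1 : ℝ) ≤ r := by exact_mod_cast hr
  have hd1 : (2 : ℝ) ≤ d := by exact_mod_cast hd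
  have hN1 : (1 : ℝ) ≤ N := by exact_mod_cast hN
  have hHN : 1 ≤ H * N := one_le_mul_of_one_le_of_one_le hH hN1
  have hZ8 : 8 ≤ Z := by
    have : (12 : ℝ) ≤ 2 * ((r : ℝ) + 1) * (d + 1) := by nlinarith
    have h3 : Z = 2 * ((r : ℝ) + 1) * (d + 1) * (H * N) := by rw [hZ]; ring
    rw [h3]
    nlinarith
  have hdN : ((d * N : ℕ) : ℝ) * H ≤ Z := by
    push_cast
    have h3 : Z = 2 * ((r : ℝ) + 1) * (d + 1) * (H * N) := by rw [hZ]; ring
    rw [h3]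
    have : (d : ℝ) ≤ 2 * ((r : ℝ) + 1) * (d + 1) := by nlinarith
    nlinarith
  constructor
  · unfold YY
    have h2 : (1 : ℝ) ≤ ((d + 1) ^ r : ℕ) * (2 * (r * H) ^ d) := by
      have a1 : (1 : ℝ) ≤ (((d + 1) ^ r : ℕ) : ℝ) := by exact_mod_cast Nat.one_le_pow _ _ (by omega)
      have a2 : (1 : ℝ) ≤ 2 * (r * H) ^ d := by
        have : 1 ≤ ((r : ℝ) * H) ^ d := one_le_pow₀ (one_le_mul_of_one_le_of_one_le hr1 hH)
        linarith
      exact one_le_mul_of_one_le_of_one_le a1 a2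
    have h3 : 0 ≤ (((d * N : ℕ) : ℝ) * H) ^ JJ (D + 1) ((d + 1) ^ r) := by positivity
    calc _ ≤ (2 * (((d + 1) ^ r : ℕ) * (2 * ((r : ℝ) * H) ^ d))) *
          (((d * N : ℕ) : ℝ) * H) ^ JJ (D + 1) ((d + 1) ^ r) :=
          mul_le_mul_of_nonneg_right (by linarith) h3
      _ = 2 * ((((d + 1) ^ r : ℕ) * (2 * ((r : ℝ) * H) ^ d)) *
          (((d * N : ℕ) : ℝ) * H) ^ JJ (D + 1) ((d + 1) ^ r)) := by ring
      _ ≤ Z * Z ^ expo r d D := mul_le_mul (by linarith) h1.le (by positivity) (by linarith)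
      _ = _ := by rw [pow_succ]; ring
  · have h3 : 0 ≤ Z ^ (expo r d D + 1) := by positivity
    have h4 : 0 ≤ ((d * N : ℕ) : ℝ) * H := by positivity
    calc 8 * Z ^ (expo r d D + 1) * (((d * N : ℕ) : ℝ) * H) ≤ Z * Z ^ (expo r d D + 1) * Z := by
          gcongr
      _ = _ := by ring

end Pool.Agent.Q29.SE
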