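import Mathlib
import Pool.Agent.Q29.SE.Subst

/-!
# All relations between power products are identities: abstract form

The divisibility hypothesis of `Exact` is replaced by the hypothesis that a polynomial with
geometrically bounded coefficients which is killed by a homomorphism `φ : A[X] → R` is divisible by
a large power of `X`.
-/

set_option autoImplicit false

namespace Pool.Agent.Q29.SE

open Polynomial Finset Pool.Agent.Q103.SD

section

variable {A : Type*} [CommRing A] [IsDomain A] [CharZero A] {κ ι : Type*} [Fintype κ]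
  {s : A → ℝ} {R : Type*} [CommRing R] [IsDomain R]

/-- sizes of the coefficients of a sum of power products -/
theorem coeff_sum_MP (hs : SizeFn s) {F : κ → A[X]} {H B : ℝ} (hH : 1 ≤ H)
    (hF0 : ∀ i, s ((F i).coeff 0) ≤ 1) (hFH : ∀ i j, s ((F i).coeff j) ≤ H) {α : ι → A}
    (hαB : ∀ k, s (α k) ≤ B) (m : ι → ℕ) (e : ι → κ → ℕ) {N : ℕ} (hN : 1 ≤ N)
    (heN : ∀ k, ∑ i, e k i ≤ N) (S : Finset ι) {c : ℕ} (hc : S.card ≤ c) (j : ℕ) (hB : 0 ≤ B) :
    s ((∑ k ∈ S, MP F (α k) (m k) (e k)).coeff j) ≤ (c : ℝ) * B * (N * H) ^ j := by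
  have hN1 : (1 : ℝ) ≤ N := by exact_mod_cast hN
  have hNH : 1 ≤ (N : ℝ) * H := by nlinarith
  rw [finset_sum_coeff]
  refine (hs.sum _ _).trans ?_
  refine (Finset.sum_le_sum fun k _ => coeff_MP hs hH hF0 hFH (hαB k) (m k) (e k) hN (heN k)
    j j (by omega)).trans ?_
  rw [Finset.sum_const, nsmul_eq_mul, mul_assoc]
  apply mul_le_mul_of_nonneg_right _ (by positivity)
  exact_mod_cast hc

/-- the core: no vanishing partial sum -/
theorem coreH (hs : SizeFn s) (φ : A[X] →+* R) {F : κ → A[X]} {D : ℕ}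
    (hD : ∑ i, (F i).natDegree ≤ D) {H : ℝ} (hH : 1 ≤ H) (hFu : ∀ i, IsUnit ((F i).coeff 0))
    (hF0 : ∀ i, s ((F i).coeff 0) ≤ 1) (hFH : ∀ i j, s ((F i).coeff j) ≤ H) {α : ι → A} {B : ℝ}
    (hα : ∀ k, α k ≠ 0) (hαB : ∀ k, s (α k) ≤ B) (m : ι → ℕ) (e : ι → κ → ℕ) {N : ℕ} (hN : 1 ≤ N)
    (heN : ∀ k, ∑ i, e k i ≤ N) (S : Finset ι) {c : ℕ} (hc : S.card ≤ c)
    (hZ : ∀ P : A[X], (∀ j, s (P.coeff j) ≤ (c : ℝ) * B * (N * H) ^ j) → φ P = 0 →
      X ^ (JJ (D + 1) c) ∣ P)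
    (hsum : ∑ k ∈ S, φ (MP F (α k) (m k) (e k)) = 0) (k0 : ι) (hk0 : k0 ∈ S)
    (hm0 : m k0 = 0)
    (hno : ∀ S' ⊆ S, S'.Nonempty → S' ≠ S → ∑ k ∈ S', φ (MP F (α k) (m k) (e k)) ≠ 0) :
    ∑ k ∈ S, MP F (α k) (m k) (e k) = 0 := by
  classical
  have hB : 0 ≤ B := (hs.nonneg _).trans (hαB k0)
  have hFu0 : ∀ i, (F i).coeff 0 ≠ 0 := fun i => (hFu i).ne_zero
  obtain ⟨P, hP⟩ : ∃ P, P = ∑ k ∈ S, MP F (α k) (m k) (e k) := ⟨_, rfl⟩
  have hdvd : X ^ (JJ (D + 1) c) ∣ P := by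
    refine hZ P (fun j => ?_) ?_
    · rw [hP]
      exact coeff_sum_MP hs hH hF0 hFH hαB m e hN heN S hc j hB
    · rw [hP, map_sum, hsum]
  obtain ⟨G, hG⟩ : ∃ G, G = gg (D + 1) c 0 + 1 := ⟨_, rfl⟩
  have hG0 : 0 < G := by omega
  obtain ⟨r, hr, hgap⟩ := exists_gap (fun k : S => m k) hG0
  rw [Fintype.card_coe] at hr
  obtain ⟨L, hL⟩ : ∃ L : Finset ι, L = S.filter (fun k => m k ≤ r * G) := ⟨_, rfl⟩
  have hLS : L ⊆ S := by rw [hL]; exact Finset.filter_subset _ _
  have hcardL : L.card ≤ c := (Finset.card_le_card hLS).trans hc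
  have hzero : ∑ k ∈ L, MP F (α k) (m k) (e k) = 0 := by
    refine exact_MP hFu0 hα m e hD L ((r + 1) * G) ?_ ?_
    · intro k hk
      rw [hL, Finset.mem_filter] at hk
      have h1 := gg_mono (D + 1) hcardL 0
      rw [add_mul, one_mul]
      omega
    · have h1 : ∑ k ∈ L, MP F (α k) (m k) (e k) = P - ∑ k ∈ S \ L, MP F (α k) (m k) (e k) := by
        rw [hP, ← Finset.sum_sdiff hLS]
        ring
      rw [h1]
      refine dvd_sub ((pow_dvd_pow X ?_).trans hdvd) (Finset.dvd_sum fun k hk => ?_)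
      · unfold JJ
        rw [← hG]
        exact Nat.mul_le_mul_right _ (by omega)
      · rw [Finset.mem_sdiff, hL, Finset.mem_filter, not_and] at hk
        have h2 := hk.2 hk.1
        rcases hgap ⟨k, hk.1⟩ with h3 | h3
        · exact absurd h3 h2
        · unfold MP
          exact Dvd.dvd.mul_right (pow_dvd_pow X h3.le) _
  have hk0L : k0 ∈ L := by
    rw [hL, Finset.mem_filter]
    exact ⟨hk0, by rw [hm0]; exact Nat.zero_le _⟩
  have hLu : L = S := by
    by_contra hne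
    apply hno L hLS ⟨k0, hk0L⟩ hne
    rw [← map_sum, hzero, map_zero]
  rw [hLu] at hzero
  exact hzero

/-- **All relations are identities.** -/
theorem allH (hs : SizeFn s) (φ : A[X] →+* R) (hφ : φ X ≠ 0) {F : κ → A[X]} {D : ℕ}
    (hD : ∑ i, (F i).natDegree ≤ D) {H : ℝ} (hH : 1 ≤ H) (hFu : ∀ i, IsUnit ((F i).coeff 0))
    (hF0 : ∀ i, s ((F i).coeff 0) ≤ 1) (hFH : ∀ i j, s ((F i).coeff j) ≤ H) {α : ι → A} {B : ℝ}
    (hα : ∀ k, α k ≠ 0) (hαB : ∀ k, s (α k) ≤ B) (m : ι → ℕ) (e : ι → κ → ℕ) {N : ℕ} (hN : 1 ≤ N)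
    (heN : ∀ k, ∑ i, e k i ≤ N) {c : ℕ}
    (hZ : ∀ P : A[X], (∀ j, s (P.coeff j) ≤ (c : ℝ) * B * (N * H) ^ j) → φ P = 0 →
      X ^ (JJ (D + 1) c) ∣ P) :
    ∀ (n : ℕ) (S : Finset ι), S.card ≤ n → S.card ≤ c →
      ∑ k ∈ S, φ (MP F (α k) (m k) (e k)) = 0 →
      ∑ k ∈ S, MP F (α k) (m k) (e k) = 0 := by
  classical
  intro n
  induction n with
  | zero =>
    intro S hS _ _
    rw [Nat.le_zero, Finset.card_eq_zero] at hS
    rw [hS, Finset.sum_empty]
  | succ n ih =>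
    intro S hS hc hsum
    rcases S.eq_empty_or_nonempty with rfl | hne
    · simp
    by_cases hno : ∀ S' ⊆ S, S'.Nonempty → S' ≠ S →
        ∑ k ∈ S', φ (MP F (α k) (m k) (e k)) ≠ 0
    · -- minimal relation
      obtain ⟨k0, hk0, hmin⟩ := Finset.exists_min_image S m hne
      have hsplit : ∀ k ∈ S, MP F (α k) (m k) (e k) =
          X ^ (m k0) * MP F (α k) (m k - m k0) (e k) := by
        intro k hk
        unfold MP
        rw [← mul_assoc, ← pow_add]
        congr 2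
        have := hmin k hk
        omega
      have hev : ∀ S' ⊆ S, ∑ k ∈ S', φ (MP F (α k) (m k) (e k)) =
          φ X ^ (m k0) * ∑ k ∈ S', φ (MP F (α k) (m k - m k0) (e k)) := by
        intro S' hS'
        rw [Finset.mul_sum]
        refine Finset.sum_congr rfl fun k hk => ?_
        rw [hsplit k (hS' hk), map_mul, map_pow]
      have h1 : ∑ k ∈ S, MP F (α k) (m k - m k0) (e k) = 0 := by
        refine coreH hs φ hD hH hFu hF0 hFH hα hαB (fun k => m k - m k0) e hN heN S hc hZ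
          ?_ k0 hk0 (Nat.sub_self _) ?_
        · have := hev S (Finset.Subset.refl _)
          rw [hsum] at this
          exact (mul_eq_zero.mp this.symm).resolve_left (pow_ne_zero _ hφ)
        · intro S' hS' hne' hne2 h0
          apply hno S' hS' hne' hne2
          rw [hev S' hS', h0, mul_zero]
      rw [Finset.sum_congr rfl hsplit, ← Finset.mul_sum, h1, mul_zero]
    · push Not at hno
      obtain ⟨S', hS', hne', hne2, h0⟩ := hno
      have hcard : S'.card < S.card := Finset.card_lt_card (Finset.ssubset_iff_subset_ne.mpr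
        ⟨hS', hne2⟩)
      have hcard2 : (S \ S').card < S.card := by
        rw [Finset.card_sdiff_of_subset hS']
        have := hne'.card_pos
        omega
      have h2 := ih S' (by omega) (by omega) h0
      have h3 := ih (S \ S') (by omega) (by omega) (by
        rw [← Finset.sum_sdiff hS', h0, add_zero] at hsum
        exact hsum)
      rw [← Finset.sum_sdiff hS', h2, h3, add_zero]

end

section main

variable {A : Type*} [CommRing A] {κ : Type*} [Fintype κ] {σ : Type*} {r : ℕ}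
  [IsDomain A] [CharZero A] {s : A → ℝ} {R : Type*} [CommRing R] [IsDomain R]

/-- **Zeros come from curves.** -/
theorem zero_ptH (hs : SizeFn s) (φ : A[X] →+* R) (hφ : φ X ≠ 0) {F : κ → A[X]} {D : ℕ}
    (hD : ∑ i, (F i).natDegree ≤ D) {H : ℝ} (hH : 1 ≤ H) (hFu : ∀ i, IsUnit ((F i).coeff 0))
    (hF0 : ∀ i, s ((F i).coeff 0) ≤ 1) (hFH : ∀ i j, s ((F i).coeff j) ≤ H)
    (m : Fin r → ℕ) (e : Fin r → κ → ℕ) {N : ℕ} (hN : 1 ≤ N) (heN : ∀ l, ∑ i, e l i ≤ N)
    (v : Fin r → σ → A) {B : ℝ} (hB : 1 ≤ r * B) (hv : ∀ l i, s (v l i) ≤ B)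
    (G : MvPolynomial σ A) {d : ℕ} (hd1 : 1 ≤ d) (hd : G.totalDegree ≤ d) {W : ℝ}
    (hG : nrm s G ≤ W)
    (hZ : ∀ P : A[X], (∀ j, s (P.coeff j) ≤ (((d + 1) ^ r : ℕ) : ℝ) * (W * (r * B) ^ d) *
      (((d * N : ℕ) : ℝ) * H) ^ j) → φ P = 0 → X ^ (JJ (D + 1) ((d + 1) ^ r)) ∣ P)
    (h0 : φ (MvPolynomial.aeval (pt F m e v) G) = 0) :
    MvPolynomial.aeval (pt F m e v) G = 0 := by
  classical
  have hcard := support_card (GG v G) d (GG_deg v G d hd)
  rw [aeval_pt, map_sum] at h0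
  rw [aeval_pt]
  -- index the relation by the support
  have key := allH hs φ hφ (ι := (GG v G).support) hD hH hFu hF0 hFH
    (α := fun β => MvPolynomial.coeff β.1 (GG v G)) (B := W * (r * B) ^ d)
    (fun β => MvPolynomial.mem_support_iff.mp β.2)
    (fun β => by
      refine le_trans ?_ ((GG_nrm hs v B hB hv G d hd).trans
        (mul_le_mul_of_nonneg_right hG (by positivity)))
      exact Finset.single_le_sum (f := fun β => s (MvPolynomial.coeff β (GG v G)))
        (fun _ _ => hs.nonneg _) β.2)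
    (fun β => wm m β.1) (fun β => we e β.1) (N := d * N) (Nat.mul_pos hd1 hN)
    (fun β => by
      unfold we
      rw [Finset.sum_comm]
      have h1 : ∀ j, ∑ i, β.1 j * e j i ≤ β.1 j * N := fun j => by
        rw [← Finset.mul_sum]
        exact Nat.mul_le_mul_left _ (heN j)
      refine (Finset.sum_le_sum fun j _ => h1 j).trans ?_
      rw [← Finset.sum_mul]
      apply Nat.mul_le_mul_right
      have := sum_le_deg (GG_deg v G d hd) β.2
      rwa [Finsupp.sum_fintype _ _ (by simp)] at this)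
    hZ _ Finset.univ le_rfl (by rw [Finset.card_univ, Fintype.card_coe]; exact hcard)
  have hc1 := Finset.sum_coe_sort (GG v G).support (fun β =>
    φ (MP F (MvPolynomial.coeff β (GG v G)) (wm m β) (we e β)))
  have hc2 := Finset.sum_coe_sort (GG v G).support (fun β =>
    MP F (MvPolynomial.coeff β (GG v G)) (wm m β) (we e β))
  rw [← hc2]
  apply key
  rw [hc1]
  exact h0

end main

end Pool.Agent.Q29.SE
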