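import Mathlib
import Pool.Agent.Q29.SE.Ht
import Pool.Agent.Q29.SE.NF

/-!
# Relations at algebraic numbers of large height

`t` is any nonzero element of a number field `K`, whose height is large.
-/

set_option autoImplicit false

namespace Pool.Agent.Q29.SE

open Polynomial Finset Pool.Agent.Q103.SD NumberField Pool.Agent.H458.Sp Height

section

variable {K : Type} [Field K] [NumberField K]

theorem inf_le_hs (v : InfinitePlace K) (x : 𝓞 K) : v (x : K) ≤ hs x := by
  obtain ⟨σ, hσ⟩ := v.2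
  have h1 : v (x : K) = ‖σ (x : K)‖ := by
    rw [← InfinitePlace.apply]
    congr 1
    exact Subtype.ext hσ.symm
  rw [h1]
  exact norm_embedding_le_house _ σ

theorem fin_le_one (v : FinitePlace K) (x : 𝓞 K) : v (x : K) ≤ 1 := by
  rw [← FinitePlace.norm_embedding_eq]
  exact FinitePlace.norm_le_one _ _ x

/-- values of integral polynomials at a finite place -/
theorem fin_aeval (v : FinitePlace K) {t : K} (ht : v t ≤ 1) (Q : (𝓞 K)[X]) :
    v (aeval t Q) ≤ 1 := by
  induction Q using Polynomial.induction_on' with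
  | add p q hp hq =>
    rw [map_add]
    refine (FinitePlace.add_le v _ _).trans (max_le hp hq)
  | monomial n a =>
    rw [aeval_monomial, map_mul, map_pow]
    exact mul_le_one₀ (fin_le_one v a) (pow_nonneg (apply_nonneg _ _) _)
      (pow_le_one₀ (apply_nonneg _ _) ht)

theorem inf_aeval (v : InfinitePlace K) {t : K} {M R : ℝ} (hM : 0 ≤ M) (hR : 1 ≤ R)
    (ht : v t ≤ 1 / (2 * R)) (Q : (𝓞 K)[X]) (hQ : ∀ j, hs (Q.coeff j) ≤ M * R ^ j) :
    v (aeval t Q) ≤ 2 * M := by
  rw [aeval_eq_sum_range]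
  refine (v.1.sum_le _ _).trans ?_
  have h1 : ∀ i ∈ range (Q.natDegree + 1), v.1 (Q.coeff i • t ^ i) ≤ M * (1 / 2) ^ i := by
    intro i _
    rw [Algebra.smul_def, map_mul, map_pow]
    have h2 : v.1 (algebraMap (𝓞 K) K (Q.coeff i)) ≤ M * R ^ i := (inf_le_hs v _).trans (hQ i)
    have h3 : v.1 t ^ i ≤ (1 / (2 * R)) ^ i := pow_le_pow_left₀ (apply_nonneg _ _) ht i
    calc v.1 (algebraMap (𝓞 K) K (Q.coeff i)) * v.1 t ^ i
        ≤ (M * R ^ i) * (1 / (2 * R)) ^ i :=
          mul_le_mul h2 h3 (pow_nonneg (apply_nonneg _ _) _) (by positivity)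
      _ = M * (1 / 2) ^ i := by
          rw [mul_assoc, ← mul_pow]
          congr 2
          field_simp
  refine (Finset.sum_le_sum h1).trans ?_
  rw [← Finset.mul_sum, mul_comm]
  exact mul_le_mul_of_nonneg_right (sum_geometric_two_le _) hM

theorem max_inv_inf (v : InfinitePlace K) {t : K} (ht : t ≠ 0) :
    (max (v t⁻¹) 1)⁻¹ = min (v t) 1 := by
  have h0 : 0 < v t := InfinitePlace.pos_iff.2 ht
  rw [map_inv₀]
  rcases le_total (v t) 1 with h | h
  · rw [max_eq_left ((one_le_inv₀ h0).2 h), min_eq_left h, inv_inv]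
  · rw [max_eq_right (inv_le_one_of_one_le₀ h), min_eq_right h, inv_one]

theorem max_inv_fin (v : FinitePlace K) {t : K} (ht : t ≠ 0) :
    (max (v t⁻¹) 1)⁻¹ = min (v t) 1 := by
  have h0 : 0 < v t := FinitePlace.pos_iff.2 ht
  rw [map_inv₀]
  rcases le_total (v t) 1 with h | h
  · rw [max_eq_left ((one_le_inv₀ h0).2 h), min_eq_left h, inv_inv]
  · rw [max_eq_right (inv_le_one_of_one_le₀ h), min_eq_right h, inv_one]

/-- **Numbers of large height**: an integral polynomial with geometrically bounded coefficients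
which vanishes at a number of large height is divisible by a large power of `X`. -/
theorem dvd_of_height {t : K} (ht0 : t ≠ 0) {M R : ℝ} (hM : 0 ≤ M) (hR : 1 ≤ R) (J : ℕ)
    (hH : (2 * M * R ^ J) ^ Module.finrank ℚ K < mulHeight₁ t) (P : (𝓞 K)[X])
    (hP : ∀ j, hs (P.coeff j) ≤ M * R ^ j) (h0 : aeval t P = 0) : X ^ J ∣ P := by
  classical
  rw [X_pow_dvd_iff]
  by_contra hne
  push Not at hne
  have hex : ∃ j, P.coeff j ≠ 0 := by
    obtain ⟨j, _, hj⟩ := hne
    exact ⟨j, hj⟩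
  obtain ⟨j0, hj0⟩ : ∃ j, j = Nat.find hex := ⟨_, rfl⟩
  have hc : P.coeff j0 ≠ 0 := by rw [hj0]; exact Nat.find_spec hex
  have hlt : ∀ i < j0, P.coeff i = 0 := by
    intro i hi
    rw [hj0] at hi
    exact not_not.1 (Nat.find_min hex hi)
  have hjJ : j0 < J := by
    obtain ⟨j, hj, hj'⟩ := hne
    by_contra hcon
    exact hj' (hlt j (by omega))
  obtain ⟨Q, hQ⟩ := X_pow_dvd_iff.2 hlt
  have hco : ∀ i, P.coeff (i + j0) = Q.coeff i := by
    intro i
    rw [hQ, coeff_X_pow_mul]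
  obtain ⟨c, hcd⟩ : ∃ c, c = Q.coeff 0 := ⟨_, rfl⟩
  have hc0 : c ≠ 0 := by
    rw [hcd, ← hco 0, zero_add]
    exact hc
  obtain ⟨Q1, hQ1⟩ : ∃ Q1, Q1 = Q.divX := ⟨_, rfl⟩
  have hQe : aeval t Q = 0 := by
    rw [hQ, map_mul, map_pow, aeval_X] at h0
    exact (mul_eq_zero.mp h0).resolve_left (pow_ne_zero _ ht0)
  have hcK : (c : K) = - (t * aeval t Q1) := by
    have h1 := divX_mul_X_add Q
    rw [← hQ1, ← hcd] at h1
    rw [← h1, map_add, map_mul, aeval_X, aeval_C] at hQe
    have : (algebraMap (𝓞 K) K) c = (c : K) := rfl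
    rw [this] at hQe
    linear_combination hQe
  have hcK0 : (c : K) ≠ 0 := RingOfIntegers.coe_ne_zero_iff.mpr hc0
  obtain ⟨M', hM'⟩ : ∃ M', M' = M * R ^ j0 := ⟨_, rfl⟩
  have hM'0 : 0 ≤ M' := by rw [hM']; positivity
  have hcs : hs c ≤ M' := by
    rw [hcd, ← hco 0, zero_add, hM']
    exact hP j0
  have hQ1s : ∀ j, hs (Q1.coeff j) ≤ (M' * R) * R ^ j := by
    intro j
    rw [hQ1, coeff_divX, ← hco]
    refine (hP _).trans (le_of_eq ?_)
    rw [hM']
    ring
  -- infinite places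
  have hI : ∀ v : InfinitePlace K, v (c : K) ≤ (2 * M' * R) * (max (v t⁻¹) 1)⁻¹ := by
    intro v
    rw [max_inv_inf v ht0]
    have hv0 : 0 ≤ v t := apply_nonneg _ _
    have hR0 : 0 < R := by linarith
    rcases le_or_gt (v t) (1 / (2 * R)) with h | h
    · have h2 := inf_aeval v (M := M' * R) (by positivity) hR h Q1 hQ1s
      have h3 : v t ≤ 1 := h.trans (by
        rw [div_le_one (by positivity)]
        linarith)
      have h4 : v (c : K) = v (t * aeval t Q1) := by
        rw [hcK]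
        exact v.1.map_neg _
      rw [min_eq_left h3, h4, map_mul, mul_comm]
      refine mul_le_mul_of_nonneg_right (h2.trans (le_of_eq (by ring))) hv0
    · have h2 : 1 / (2 * R) ≤ min (v t) 1 := by
        refine le_min h.le ?_
        rw [div_le_one (by positivity)]
        linarith
      calc v (c : K) ≤ M' := (inf_le_hs v c).trans hcs
        _ = (2 * M' * R) * (1 / (2 * R)) := by field_simp
        _ ≤ _ := mul_le_mul_of_nonneg_left h2 (by positivity)
  have hF : ∀ v : FinitePlace K, v (c : K) ≤ (max (v t⁻¹) 1)⁻¹ := by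
    intro v
    rw [max_inv_fin v ht0]
    rcases le_total (v t) 1 with h | h
    · have h4 : v (c : K) = v (t * aeval t Q1) := by
        rw [hcK]
        exact v.1.map_neg _
      rw [min_eq_left h, h4, map_mul]
      exact mul_le_of_le_one_right (apply_nonneg _ _) (fin_aeval v h Q1)
    · rw [min_eq_right h]
      exact fin_le_one v c
  -- the product formula
  have hpf := prod_abs_eq_one hcK0
  have hinv0 : t⁻¹ ≠ 0 := inv_ne_zero ht0
  have hmf : (fun v : FinitePlace K => max (v t⁻¹) 1).HasFiniteMulSupport := by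
    refine (FinitePlace.hasFiniteMulSupport hinv0).subset ?_
    intro v hv
    rw [Function.mem_mulSupport] at hv ⊢
    intro h
    apply hv
    rw [h, max_self]
  have hmf' : (fun v : FinitePlace K => (max (v t⁻¹) 1)⁻¹).HasFiniteMulSupport := by
    refine hmf.subset ?_
    intro v hv
    rw [Function.mem_mulSupport] at hv ⊢
    intro h
    apply hv
    rw [h, inv_one]
  have hfin : ∏ᶠ v : FinitePlace K, v (c : K) ≤ ∏ᶠ v : FinitePlace K, (max (v t⁻¹) 1)⁻¹ :=
    finprod_le_finprod (FinitePlace.hasFiniteMulSupport hcK0) (fun v => apply_nonneg _ _) hmf' hF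
  have hinf : ∏ v : InfinitePlace K, v (c : K) ^ v.mult ≤
      ∏ v : InfinitePlace K, ((2 * M' * R) * (max (v t⁻¹) 1)⁻¹) ^ v.mult :=
    Finset.prod_le_prod (fun v _ => pow_nonneg (apply_nonneg _ _) _)
      fun v _ => pow_le_pow_left₀ (apply_nonneg _ _) (hI v) _
  have hfin0 : 0 ≤ ∏ᶠ v : FinitePlace K, v (c : K) := finprod_nonneg fun v => apply_nonneg _ _
  have hprod : ∏ v : InfinitePlace K, ((2 * M' * R) * (max (v t⁻¹) 1)⁻¹) ^ v.mult =
      (2 * M' * R) ^ Module.finrank ℚ K * (∏ v : InfinitePlace K, (max (v t⁻¹) 1) ^ v.mult)⁻¹ := by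
    obtain ⟨Z, hZ⟩ : ∃ Z, Z = 2 * M' * R := ⟨_, rfl⟩
    rw [← hZ]
    simp only [mul_pow, inv_pow]
    rw [Finset.prod_mul_distrib, Finset.prod_pow_eq_pow_sum, InfinitePlace.sum_mult_eq,
      Finset.prod_inv_distrib]
  have hfi : ∏ᶠ v : FinitePlace K, (max (v t⁻¹) 1)⁻¹ =
      (∏ᶠ v : FinitePlace K, max (v t⁻¹) 1)⁻¹ := by
    rw [finprod_inv_distrib]
  have hht : mulHeight₁ t = (∏ v : InfinitePlace K, max (v t⁻¹) 1 ^ v.mult) *
      ∏ᶠ v : FinitePlace K, max (v t⁻¹) 1 := by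
    rw [← mulHeight₁_inv, NumberField.mulHeight₁_eq]
  have hkey : 1 ≤ (2 * M' * R) ^ Module.finrank ℚ K * (mulHeight₁ t)⁻¹ := by
    calc (1 : ℝ) = (∏ w : InfinitePlace K, w (c : K) ^ w.mult) *
          ∏ᶠ w : FinitePlace K, w (c : K) := hpf.symm
      _ ≤ ((2 * M' * R) ^ Module.finrank ℚ K *
          (∏ v : InfinitePlace K, (max (v t⁻¹) 1) ^ v.mult)⁻¹) *
          (∏ᶠ v : FinitePlace K, max (v t⁻¹) 1)⁻¹ := by
          rw [← hfi, ← hprod]
          exact mul_le_mul hinf hfin hfin0 (Finset.prod_nonneg fun v _ => by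
            have : 0 ≤ max (v t⁻¹) 1 := le_max_of_le_right zero_le_one
            positivity)
      _ = _ := by rw [hht, mul_inv, mul_assoc]
  have hpos : 0 < mulHeight₁ t := mulHeight₁_pos t
  have h5 : mulHeight₁ t ≤ (2 * M' * R) ^ Module.finrank ℚ K := by
    rw [← div_eq_mul_inv, one_le_div hpos] at hkey
    exact hkey
  have h6 : 2 * M' * R ≤ 2 * M * R ^ J := by
    rw [hM']
    have h7 : R ^ (j0 + 1) ≤ R ^ J := pow_le_pow_right₀ hR (by omega)
    calc 2 * (M * R ^ j0) * R = 2 * M * R ^ (j0 + 1) := by ring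
      _ ≤ _ := mul_le_mul_of_nonneg_left h7 (by positivity)
  have h8 : (2 * M' * R) ^ Module.finrank ℚ K ≤ (2 * M * R ^ J) ^ Module.finrank ℚ K :=
    pow_le_pow_left₀ (by positivity) h6 _
  linarith

end

end Pool.Agent.Q29.SE
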