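import Mathlib
import Pool.Agent.Q29.SE.Hall
import Pool.Agent.Q29.SE.Dav0

/-!
# The part prime to `p` of polynomials in sums of power products of powers of `p`
-/

set_option autoImplicit false

namespace Pool.Agent.Q29.SE

open Finset Polynomial Pool.Agent.Q103.SD

theorem as_sm {κ : Type*} [Fintype κ] {σ : Type*} {r : ℕ} (F : κ → ℤ[X])
    (m : Fin r → ℕ) (e : Fin r → κ → ℕ) {N : ℕ}
    (heN : ∀ l, ∑ i, e l i ≤ N) (v : Fin r → σ → ℤ) {B : ℝ} (hB : 1 ≤ r * B)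
    (hv : ∀ l i, |(v l i : ℝ)| ≤ B) (G : MvPolynomial σ ℤ) {d : ℕ}
    (hd : G.totalDegree ≤ d) {W : ℝ} (hG : nrm (fun x : ℤ => |(x : ℝ)|) G ≤ W) :
    ∃ (c : ℕ) (m' : Fin c → ℕ) (e' : Fin c → κ → ℕ) (v' : Fin c → ℤ), c ≤ (d + 1) ^ r ∧
      MvPolynomial.aeval (pt F m e v) G = sm F m' e' v' ∧
      (∀ l, |((v' l : ℤ) : ℝ)| ≤ W * (r * B) ^ d) ∧ ∀ l, ∑ i, e' l i ≤ d * N := by
  classical
  have hcard := support_card (GG v G) d (GG_deg v G d hd)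
  obtain ⟨c, hc⟩ : ∃ c, c = (GG v G).support.card := ⟨_, rfl⟩
  rw [← hc] at hcard
  obtain ⟨ε⟩ : Nonempty (Fin c ≃ (GG v G).support) := ⟨(hc ▸ (GG v G).support.equivFin).symm⟩
  refine ⟨c, fun l => wm m (ε l).1, fun l => we e (ε l).1,
    fun l => MvPolynomial.coeff (ε l).1 (GG v G), hcard, ?_, ?_, ?_⟩
  · rw [aeval_pt]
    unfold sm
    simp only [C_mul_MP]
    rw [← Finset.sum_coe_sort (GG v G).support (fun β =>
      MP F (MvPolynomial.coeff β (GG v G)) (wm m β) (we e β))]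
    exact (Equiv.sum_comp ε (fun β => MP F (MvPolynomial.coeff β.1 (GG v G)) (wm m β.1)
      (we e β.1))).symm
  · intro l
    refine le_trans ?_ ((GG_nrm sizeZ v B hB hv G d hd).trans
      (mul_le_mul_of_nonneg_right hG (by positivity)))
    exact Finset.single_le_sum (f := fun β => |((MvPolynomial.coeff β (GG v G) : ℤ) : ℝ)|)
      (fun _ _ => abs_nonneg _) (ε l).2
  · intro l
    unfold we
    rw [Finset.sum_comm]
    have h1 : ∀ j, ∑ i, (ε l).1 j * e j i ≤ (ε l).1 j * N := fun j => by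
      rw [← Finset.mul_sum]
      exact Nat.mul_le_mul_left _ (heN j)
    refine (Finset.sum_le_sum fun j _ => h1 j).trans ?_
    rw [← Finset.sum_mul]
    apply Nat.mul_le_mul_right
    have := sum_le_deg (GG_deg v G d hd) (ε l).2
    rwa [Finsupp.sum_fintype _ _ (by simp)] at this

/-- the lowest coefficient is small -/
theorem bottom_poly {κ : Type*} [Fintype κ] {σ : Type*} {r : ℕ} {F : κ → ℤ[X]} {D : ℕ}
    (hD : ∑ i, (F i).natDegree ≤ D) {H : ℝ} (hH : 1 ≤ H) (hF0 : ∀ i, |(F i).coeff 0| = 1)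
    (hFH : ∀ i j, |((F i).coeff j : ℝ)| ≤ H) (m : Fin r → ℕ) (e : Fin r → κ → ℕ) {N : ℕ}
    (hN : 1 ≤ N) (heN : ∀ l, ∑ i, e l i ≤ N) (v : Fin r → σ → ℤ) {B : ℝ} (hB : 1 ≤ r * B)
    (hv : ∀ l i, |(v l i : ℝ)| ≤ B) (G : MvPolynomial σ ℤ) {d : ℕ} (hd1 : 1 ≤ d)
    (hd : G.totalDegree ≤ d) {W : ℝ} (hW : 0 ≤ W) (hG : nrm (fun x : ℤ => |(x : ℝ)|) G ≤ W)
    (μ : ℕ) (hμ : X ^ μ ∣ MvPolynomial.aeval (pt F m e v) G) :
    |(((MvPolynomial.aeval (pt F m e v) G).coeff μ : ℤ) : ℝ)| ≤ YY r d D N W B H := by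
  obtain ⟨c, m', e', v', hc, hsm, hv', he'⟩ := as_sm F m e heN v hB hv G hd hG
  have hN' : 1 ≤ d * N := Nat.mul_pos hd1 hN
  have hN1 : (1 : ℝ) ≤ ((d * N : ℕ) : ℝ) := by exact_mod_cast hN'
  have hNH : 1 ≤ ((d * N : ℕ) : ℝ) * H := one_le_mul_of_one_le_of_one_le hN1 hH
  have hWB : 0 ≤ W * (r * B) ^ d := by positivity
  rw [hsm] at hμ ⊢
  have h1 := coeff_bound sizeZ hD hH (fun i => Int.isUnit_iff_abs_eq.mpr (hF0 i))
    (fun i => by
      have : |(((F i).coeff 0 : ℤ) : ℝ)| = 1 := by exact_mod_cast hF0 i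
      exact this.le) hFH m' e' hN' he' v' hv' hWB μ hμ
  refine h1.trans ?_
  have h2 : (c : ℝ) ≤ (((d + 1) ^ r : ℕ) : ℝ) := by exact_mod_cast hc
  have h3 := pow_le_pow_right₀ hNH (JJ_mono (D := D + 1) hc)
  unfold YY
  calc (c : ℝ) * (W * (r * B) ^ d * (((d * N : ℕ) : ℝ) * H) ^ JJ (D + 1) c) =
        ((c : ℝ) * (W * (r * B) ^ d)) * (((d * N : ℕ) : ℝ) * H) ^ JJ (D + 1) c := by ring
    _ ≤ _ := by
        have h4 := mul_le_mul_of_nonneg_right h2 hWB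
        exact mul_le_mul (by linarith) h3 (by positivity) (by positivity)

/-- the part prime to `p` of the value at a power of `p` -/
theorem pfree {p v : ℕ} (hp : p.Prime) {P : ℤ[X]} {Y : ℝ} (hY : 1 ≤ Y)
    (htY : Y < ((p ^ v : ℕ) : ℝ)) {μ : ℕ} {Q : ℤ[X]} (hQ : P = X ^ μ * Q) (hQ0 : Q.coeff 0 ≠ 0)
    (hQY : |((Q.coeff 0 : ℤ) : ℝ)| ≤ Y)
    (htop : ((p ^ v : ℕ) : ℝ) ^ P.natDegree ≤ 2 * |((P.eval ((p ^ v : ℕ) : ℤ) : ℤ) : ℝ)|)
    {j : ℕ} {w : ℤ} (hw : P.eval ((p ^ v : ℕ) : ℤ) = (p : ℤ) ^ j * w) (hpw : ¬ (p : ℤ) ∣ w) :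
    ((p ^ v : ℕ) : ℝ) ^ Q.natDegree ≤ 2 * Y * |(w : ℝ)| := by
  have hpZ : Prime (p : ℤ) := Nat.prime_iff_prime_int.mp hp
  have hp0 : (p : ℤ) ≠ 0 := hpZ.ne_zero
  obtain ⟨t, ht⟩ : ∃ t : ℤ, t = ((p ^ v : ℕ) : ℤ) := ⟨_, rfl⟩
  have htp : t = (p : ℤ) ^ v := by rw [ht]; push_cast; rfl
  have hPt : P.eval t = (p : ℤ) ^ (v * μ) * Q.eval t := by
    rw [hQ, eval_mul, eval_pow, eval_X]
    rw [pow_mul, ← htp]
  rw [← ht] at hw
  -- `v μ ≤ j`
  have h1 : (p : ℤ) ^ (v * μ) ∣ (p : ℤ) ^ j := by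
    have h2 : (p : ℤ) ^ (v * μ) ∣ w * (p : ℤ) ^ j := by
      rw [mul_comm w, ← hw, hPt]
      exact dvd_mul_right _ _
    exact hpZ.pow_dvd_of_dvd_mul_left _ hpw h2
  have h2 : v * μ ≤ j := by
    by_contra h3
    push Not at h3
    have h4 : (p : ℤ) ^ (j + 1) ∣ (p : ℤ) ^ j := (pow_dvd_pow _ h3).trans h1
    rw [pow_succ] at h4
    have h5 : (p : ℤ) ^ j * (p : ℤ) ∣ (p : ℤ) ^ j * 1 := by rwa [mul_one]
    have h6 := (mul_dvd_mul_iff_left (pow_ne_zero j hp0)).mp h5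
    exact hpZ.not_isUnit (isUnit_of_dvd_one h6)
  obtain ⟨i, rfl⟩ : ∃ i, j = v * μ + i := ⟨j - v * μ, by omega⟩
  have h3 : Q.eval t = (p : ℤ) ^ i * w := by
    rw [hPt, pow_add, mul_assoc] at hw
    exact mul_left_cancel₀ (pow_ne_zero _ hp0) hw
  -- `p ^ i` divides `Q(0)`
  have hcong : t ∣ Q.eval t - Q.coeff 0 := by
    rw [coeff_zero_eq_eval_zero]
    have := sub_dvd_eval_sub t 0 Q
    rwa [sub_zero] at this
  have habs : ∀ z : ℤ, z ∣ Q.coeff 0 → |(z : ℝ)| ≤ Y := by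
    intro z hz
    have h4 : |z| ≤ |Q.coeff 0| := Int.le_of_dvd (abs_pos.mpr hQ0) ((abs_dvd_abs _ _).mpr hz)
    have h5 : |(z : ℝ)| ≤ |((Q.coeff 0 : ℤ) : ℝ)| := by exact_mod_cast h4
    exact h5.trans hQY
  have htR : ((p ^ v : ℕ) : ℝ) = ((t : ℤ) : ℝ) := by rw [ht]; norm_cast
  have ht0 : (0 : ℝ) ≤ (t : ℝ) := by rw [← htR]; positivity
  have hiv : i < v := by
    by_contra h4
    push Not at h4
    have h5 : t ∣ Q.eval t := by
      rw [h3, htp]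
      exact (pow_dvd_pow _ h4).trans (dvd_mul_right _ _)
    have h6 : t ∣ Q.coeff 0 := by
      have := dvd_sub h5 hcong
      rwa [sub_sub_cancel] at this
    have h7 := habs t h6
    rw [htR] at htY
    rw [abs_of_nonneg ht0] at h7
    linarith
  have hpi : (p : ℤ) ^ i ∣ Q.coeff 0 := by
    have h5 : (p : ℤ) ^ i ∣ Q.eval t := by rw [h3]; exact dvd_mul_right _ _
    have h6 : (p : ℤ) ^ i ∣ Q.eval t - Q.coeff 0 := by
      refine dvd_trans ?_ hcong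
      rw [htp]
      exact pow_dvd_pow _ hiv.le
    have := dvd_sub h5 h6
    rwa [sub_sub_cancel] at this
  have h8 := habs _ hpi
  have hpi0 : (0 : ℝ) < (p : ℝ) ^ i := by
    have : 0 < p := hp.pos
    positivity
  rw [Int.cast_pow, Int.cast_natCast, abs_of_pos hpi0] at h8
  -- conclusion
  have hQne : Q ≠ 0 := by
    rintro rfl
    simp at hQ0
  have hdeg : P.natDegree = μ + Q.natDegree := by
    rw [hQ, natDegree_mul (pow_ne_zero _ X_ne_zero) hQne, natDegree_X_pow]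
  rw [← ht, htR, hdeg, hPt, h3, pow_add, pow_mul, ← htp] at htop
  rw [htR]
  have htpos : (0 : ℝ) < (t : ℝ) := by
    rw [← htR]
    linarith
  have e1 : 2 * |((t ^ μ * ((p : ℤ) ^ i * w) : ℤ) : ℝ)| =
      (t : ℝ) ^ μ * (2 * ((p : ℝ) ^ i * |(w : ℝ)|)) := by
    push_cast
    rw [abs_mul, abs_mul, abs_pow, abs_of_pos htpos, abs_of_pos hpi0]
    ring
  rw [e1] at htop
  have h9 := le_of_mul_le_mul_left htop (pow_pos htpos μ)
  have h10 : (p : ℝ) ^ i * |(w : ℝ)| ≤ Y * |(w : ℝ)| :=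
    mul_le_mul_of_nonneg_right h8 (abs_nonneg _)
  linarith

/-- **Hall's inequality for the part prime to `p`** of differences of powers of sums of power
products of `t = p ^ ν` -/
theorem hall_pfree {n m : ℕ} (hn : 2 ≤ n) (hm : 2 ≤ m) {κ : Type*} [Fintype κ] {r : ℕ}
    (hr : 1 ≤ r) {F : κ → ℤ[X]} {D : ℕ} (hD : ∑ i, (F i).natDegree ≤ D) {H : ℝ} (hH : 1 ≤ H)
    (hlc : ∀ i, |(F i).leadingCoeff| = 1) (hF0 : ∀ i, |(F i).coeff 0| = 1)
    (hFH : ∀ i j, |((F i).coeff j : ℝ)| ≤ H)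
    (mm : Fin r → ℕ) (e : Fin r → κ → ℕ) {N : ℕ} (hN : 1 ≤ N) (heN : ∀ l, ∑ i, e l i ≤ N)
    (v : Fin r → Fin 2 → ℤ) (hv : ∀ l i, |(v l i : ℝ)| ≤ H) {p ν : ℕ} (hp : p.Prime) {Y : ℝ}
    (hY : YY r (max n m) D N 2 H H ≤ Y)
    (ht : 4 * Y * (((max n m * N : ℕ) : ℝ) * H) ≤ ((p ^ ν : ℕ) : ℝ)) (x y : ℤ)
    (hx : x = (pt F mm e v 0).eval ((p ^ ν : ℕ) : ℤ))
    (hy : y = (pt F mm e v 1).eval ((p ^ ν : ℕ) : ℤ))
    (hk : x ^ n ≠ y ^ m) (hcop : ¬ ((p : ℤ) ∣ x ∧ (p : ℤ) ∣ y)) {j : ℕ} {w : ℤ}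
    (hw : x ^ n - y ^ m = (p : ℤ) ^ j * w) (hpw : ¬ (p : ℤ) ∣ w) :
    |(x : ℝ)| ^ (m * n - m - n) ≤ (2 * Y) ^ (m * n) * |(w : ℝ)| ^ m ∧
      |(y : ℝ)| ^ (m * n - m - n) ≤ (2 * Y) ^ (m * n) * |(w : ℝ)| ^ n := by
  classical
  have hr1 : (1 : ℝ) ≤ r := by exact_mod_cast hr
  have hB : 1 ≤ (r : ℝ) * H := one_le_mul_of_one_le_of_one_le hr1 hH
  obtain ⟨d, hd⟩ : ∃ d, d = max n m := ⟨_, rfl⟩
  have hd1 : 1 ≤ d := by
    rw [hd]
    exact le_trans (by omega) (le_max_left n m)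
  rw [← hd] at ht hY
  have hYY := one_le_YY (D := D) hd1 hN (zero_le_two : (0 : ℝ) ≤ 2) hB hH
  have hY1 : 1 ≤ Y := hYY.trans hY
  have hN1 : (1 : ℝ) ≤ ((d * N : ℕ) : ℝ) := by exact_mod_cast Nat.mul_pos hd1 hN
  have hNH : 1 ≤ ((d * N : ℕ) : ℝ) * H := one_le_mul_of_one_le_of_one_le hN1 hH
  obtain ⟨t, htd⟩ : ∃ t : ℕ, t = p ^ ν := ⟨_, rfl⟩
  rw [← htd] at ht hx hy
  have h4Y : 4 * Y ≤ (t : ℝ) := by
    refine le_trans ?_ ht
    exact le_mul_of_one_le_right (by linarith) hNH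
  have ht' : 4 * YY r d D N 2 H H * (((d * N : ℕ) : ℝ) * H) ≤ t := by
    refine le_trans ?_ ht
    exact mul_le_mul_of_nonneg_right (by linarith) (by linarith)
  have ht1 : (1 : ℝ) ≤ t := by linarith
  have gen : ∀ G : MvPolynomial (Fin 2) ℤ, G.totalDegree ≤ d →
      nrm (fun x : ℤ => |(x : ℝ)|) G ≤ 2 →
      |((MvPolynomial.aeval (fun i => (pt F mm e v i).eval (t : ℤ)) G : ℤ) : ℝ)| ≤
        2 * Y * (t : ℝ) ^ (MvPolynomial.aeval (pt F mm e v) G).natDegree ∧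
      (MvPolynomial.aeval (pt F mm e v) G ≠ 0 →
        (t : ℝ) ^ (MvPolynomial.aeval (pt F mm e v) G).natDegree ≤
        2 * |((MvPolynomial.aeval (fun i => (pt F mm e v i).eval (t : ℤ)) G : ℤ) : ℝ)|) := by
    intro G hG1 hG2
    have := top_poly hD hH hlc hFH mm e hN heN v hB hv G hd1 hG1 zero_le_two hG2 t ht'
    refine ⟨this.1.trans ?_, this.2⟩
    exact mul_le_mul_of_nonneg_right (by linarith) (by positivity)
  have bot : ∀ G : MvPolynomial (Fin 2) ℤ, G.totalDegree ≤ d →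
      nrm (fun x : ℤ => |(x : ℝ)|) G ≤ 2 → ∀ μ, X ^ μ ∣ MvPolynomial.aeval (pt F mm e v) G →
      |(((MvPolynomial.aeval (pt F mm e v) G).coeff μ : ℤ) : ℝ)| ≤ Y := by
    intro G hG1 hG2 μ hμ
    exact (bottom_poly hD hH hF0 hFH mm e hN heN v hB hv G hd1 hG1 zero_le_two hG2 μ hμ).trans hY
  obtain ⟨px, hpx⟩ : ∃ px, px = pt F mm e v 0 := ⟨_, rfl⟩
  obtain ⟨py, hpy⟩ : ∃ py, py = pt F mm e v 1 := ⟨_, rfl⟩
  have gx := (gen (MvPolynomial.X 0) (by rw [MvPolynomial.totalDegree_X]; exact hd1)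
    ((nrm_X sizeZ _).trans one_le_two)).1
  have gy := (gen (MvPolynomial.X 1) (by rw [MvPolynomial.totalDegree_X]; exact hd1)
    ((nrm_X sizeZ _).trans one_le_two)).1
  have bx := bot (MvPolynomial.X 0) (by rw [MvPolynomial.totalDegree_X]; exact hd1)
    ((nrm_X sizeZ _).trans one_le_two) 0 (by simp)
  have byy := bot (MvPolynomial.X 1) (by rw [MvPolynomial.totalDegree_X]; exact hd1)
    ((nrm_X sizeZ _).trans one_le_two) 0 (by simp)
  rw [MvPolynomial.aeval_X, MvPolynomial.aeval_X] at gx gy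
  rw [MvPolynomial.aeval_X] at bx byy
  rw [← hx, ← hpx] at gx
  rw [← hy, ← hpy] at gy
  rw [← hpx] at bx
  rw [← hpy] at byy
  have gk := gen (GD n m) (by rw [hd]; exact GD_deg n m) (GD_nrm n m)
  have bk := bot (GD n m) (by rw [hd]; exact GD_deg n m) (GD_nrm n m)
  have hGk : MvPolynomial.aeval (pt F mm e v) (GD n m) = px ^ n - py ^ m := by
    unfold GD
    rw [map_sub, map_pow, map_pow, MvPolynomial.aeval_X, MvPolynomial.aeval_X, hpx, hpy]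
  have hGt : MvPolynomial.aeval (fun i => (pt F mm e v i).eval (t : ℤ)) (GD n m) =
      x ^ n - y ^ m := by
    unfold GD
    rw [map_sub, map_pow, map_pow, MvPolynomial.aeval_X, MvPolynomial.aeval_X, hx, hy]
  rw [hGk, hGt] at gk
  rw [hGk] at bk
  have hevk : (px ^ n - py ^ m).eval (t : ℤ) = x ^ n - y ^ m := by
    rw [eval_sub, eval_pow, eval_pow, hpx, hpy, ← hx, ← hy]
  have hne : px ^ n - py ^ m ≠ 0 := by
    intro h
    apply hk
    rw [h, eval_zero] at hevk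
    linarith
  have gk2 := gk.2 hne
  -- factor out the power of the variable
  obtain ⟨μ, Q, hQ0, hQ⟩ : ∃ (μ : ℕ) (Q : ℤ[X]), Q.coeff 0 ≠ 0 ∧ px ^ n - py ^ m = X ^ μ * Q := by
    obtain ⟨Q, hQ, hQn⟩ := exists_eq_pow_rootMultiplicity_mul_and_not_dvd (px ^ n - py ^ m) hne 0
    rw [C_0, sub_zero] at hQ hQn
    refine ⟨_, Q, ?_, hQ⟩
    intro h
    exact hQn (X_dvd_iff.mpr h)
  have hQY : |((Q.coeff 0 : ℤ) : ℝ)| ≤ Y := by
    have h1 := bk μ ⟨Q, hQ⟩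
    have h2 : (px ^ n - py ^ m).coeff μ = Q.coeff 0 := by
      rw [hQ]
      have := coeff_X_pow_mul Q μ 0
      rwa [zero_add] at this
    rwa [h2] at h1
  -- one of `px`, `py` does not vanish at `0`
  have htdvd : ∀ P : ℤ[X], (t : ℤ) ∣ P.eval (t : ℤ) - P.coeff 0 := by
    intro P
    rw [coeff_zero_eq_eval_zero]
    have := sub_dvd_eval_sub (t : ℤ) 0 P
    rwa [sub_zero] at this
  have hν : 1 ≤ ν := by
    by_contra h
    have : ν = 0 := by omega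
    rw [this, pow_zero] at htd
    rw [htd, Nat.cast_one] at h4Y
    linarith
  have hpt : (p : ℤ) ∣ (t : ℤ) := by
    rw [htd]
    push_cast
    exact dvd_pow_self _ (by omega)
  have hxy0 : px.coeff 0 ≠ 0 ∨ py.coeff 0 ≠ 0 := by
    by_contra h
    push Not at h
    apply hcop
    constructor
    · have h1 := htdvd px
      rw [h.1, sub_zero, hpx, ← hx] at h1
      exact hpt.trans h1
    · have h1 := htdvd py
      rw [h.2, sub_zero, hpy, ← hy] at h1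
      exact hpt.trans h1
  have hdav : (m * n - m - n) * px.natDegree ≤ m * Q.natDegree ∧
      (m * n - m - n) * py.natDegree ≤ n * Q.natDegree := by
    refine dav0 hn hm hQ hxy0 hQ0 ?_
    intro hμ0
    rw [hμ0, pow_zero, one_mul] at hQ
    rw [← hQ]
    by_cases hnc : 1 ≤ px.natDegree ∨ 1 ≤ py.natDegree
    · have := dav1 hn hm hne hnc
      omega
    · push Not at hnc
      have e1 : px.natDegree = 0 := by omega
      have e2 : py.natDegree = 0 := by omega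
      rw [e1, e2, mul_zero]
      exact ⟨Nat.zero_le _, Nat.zero_le _⟩
  have hpf := pfree hp hY1 (v := ν) (P := px ^ n - py ^ m) (by rw [← htd]; linarith) hQ hQ0 hQY
    (by
      rw [← htd, hevk]
      exact gk2) (j := j) (w := w) (by rw [← htd, hevk]; exact hw) hpw
  rw [← htd] at hpf
  obtain ⟨M, hM⟩ : ∃ M, M = m * n - m - n := ⟨_, rfl⟩
  rw [← hM] at hdav ⊢
  have h2Y : 1 ≤ 2 * Y := by linarith
  have hMm : M + m ≤ m * n := by
    have : m ≤ m * n := Nat.le_mul_of_pos_right _ (by omega)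
    omega
  have hMn : M + n ≤ m * n := by
    have : n ≤ m * n := Nat.le_mul_of_pos_left _ (by omega)
    omega
  constructor
  · calc |(x : ℝ)| ^ M ≤ (2 * Y * (t : ℝ) ^ px.natDegree) ^ M := by gcongr
      _ = (2 * Y) ^ M * (t : ℝ) ^ (M * px.natDegree) := by
          rw [mul_pow, ← pow_mul, mul_comm px.natDegree M]
      _ ≤ (2 * Y) ^ M * (t : ℝ) ^ (m * Q.natDegree) := by
          have := pow_le_pow_right₀ ht1 hdav.1
          gcongr
      _ = (2 * Y) ^ M * ((t : ℝ) ^ Q.natDegree) ^ m := by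
          rw [← pow_mul, mul_comm m]
      _ ≤ (2 * Y) ^ M * (2 * Y * |(w : ℝ)|) ^ m := by gcongr
      _ = (2 * Y) ^ (M + m) * |(w : ℝ)| ^ m := by rw [mul_pow (2 * Y) |(w : ℝ)| m, pow_add]; ring
      _ ≤ (2 * Y) ^ (m * n) * |(w : ℝ)| ^ m := by
          have := pow_le_pow_right₀ h2Y hMm
          gcongr
  · calc |(y : ℝ)| ^ M ≤ (2 * Y * (t : ℝ) ^ py.natDegree) ^ M := by gcongr
      _ = (2 * Y) ^ M * (t : ℝ) ^ (M * py.natDegree) := by
          rw [mul_pow, ← pow_mul, mul_comm py.natDegree M]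
      _ ≤ (2 * Y) ^ M * (t : ℝ) ^ (n * Q.natDegree) := by
          have := pow_le_pow_right₀ ht1 hdav.2
          gcongr
      _ = (2 * Y) ^ M * ((t : ℝ) ^ Q.natDegree) ^ n := by
          rw [← pow_mul, mul_comm n]
      _ ≤ (2 * Y) ^ M * (2 * Y * |(w : ℝ)|) ^ n := by gcongr
      _ = (2 * Y) ^ (M + n) * |(w : ℝ)| ^ n := by rw [mul_pow (2 * Y) |(w : ℝ)| n, pow_add]; ring
      _ ≤ (2 * Y) ^ (m * n) * |(w : ℝ)| ^ n := by
          have := pow_le_pow_right₀ h2Y hMn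
          gcongr

end Pool.Agent.Q29.SE
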